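import Pool.Agent.Run7.h702.AT.I
import Pool.Agent.Run7.h702.AT.D

/-! Sets given by congruences on the dyadic scales: the hypothesis of the Borel-Cantelli lemma. -/

set_option autoImplicit false

namespace Run7.h702.BC

open Finset Filter
open Pool.Agent.H320R2.PD Pool.Agent.H499R2.ND
open Pool.Agent.H499R2.CO (Tz)
open Pool.Agent.R344.SP Pool.Agent.R344.TH
open Run7.h702.AT

/-- integers of `[a, b]` all congruent modulo `q` -/
theorem cong_card {a b : ℝ} (hab : a ≤ b) {q : ℤ} (hq : 0 < q) {s : Finset ℤ}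
    (hs : ∀ x ∈ s, a ≤ x ∧ (x : ℝ) ≤ b) (hc : ∀ x ∈ s, ∀ y ∈ s, q ∣ x - y) :
    (s.card : ℝ) ≤ (b - a) / q + 2 := by
  have hqR : (0 : ℝ) < q := by exact_mod_cast hq
  have hq1 : (1 : ℝ) ≤ q := by exact_mod_cast hq
  rcases s.eq_empty_or_nonempty with h | ⟨x₀, hx₀⟩
  · rw [h, card_empty, Nat.cast_zero]
    have : 0 ≤ (b - a) / q := div_nonneg (by linarith) hqR.le
    linarith
  · have h1 : s ⊆ ap a (b + 1) q x₀ := by
      intro x hx
      rw [mem_ap]
      exact ⟨⟨(hs x hx).1, by linarith [(hs x hx).2]⟩, hc x hx x₀ hx₀⟩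
    have h2 : (s.card : ℝ) ≤ ((ap a (b + 1) q x₀).card : ℝ) := by exact_mod_cast card_le_card h1
    refine h2.trans ((ap_card_le (by linarith) hq x₀).trans ?_)
    have h3 : (b + 1 - a) / (q : ℝ) = (b - a) / q + 1 / q := by ring
    have h4 : 1 / (q : ℝ) ≤ 1 := by rw [div_le_one hqR]; exact hq1
    rw [h3]
    linarith

open scoped Classical in
/-- the elements of a set of residue classes modulo `M` -/
theorem classes_card {M : ℕ} (hM : 0 < M) (hM3 : IsCoprime (M : ℤ) 3) {R : ℤ → Prop}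
    (hR : ∀ x m : ℤ, R (x + m * M) ↔ R x) {a b : ℝ} (hab : a ≤ b) {j : ℕ} {e : ℤ} {s : Finset ℤ}
    (hs : ∀ x ∈ s, a ≤ x ∧ (x : ℝ) ≤ b) (he : ∀ x ∈ s, (3 : ℤ) ^ j ∣ x - e) (hsR : ∀ x ∈ s, R x) :
    (s.card : ℝ) ≤ (((range M).filter (fun r : ℕ => R (r : ℤ))).card : ℝ) * ((b - a) / (M * 3 ^ j) + 2) := by
  have hMZ : (0 : ℤ) < M := by exact_mod_cast hM
  have hsub : s ⊆ ((range M).filter (fun r : ℕ => R (r : ℤ))).biUnion (fun r => s.filter (fun x => x % M = (r : ℤ))) := by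
    intro x hx
    rw [mem_biUnion]
    have h0 : 0 ≤ x % M := Int.emod_nonneg _ hMZ.ne'
    have h1 : x % M < M := Int.emod_lt_of_pos _ hMZ
    have h2 : (((x % M).toNat : ℕ) : ℤ) = x % M := Int.toNat_of_nonneg h0
    refine ⟨(x % M).toNat, ?_, ?_⟩
    · rw [mem_filter, mem_range]
      refine ⟨by omega, ?_⟩
      rw [h2]
      have h3 := hR (x % M) (x / M)
      have h4 : x % M + x / M * M = x := by
        rw [mul_comm]; exact Int.emod_add_mul_ediv x M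
      rw [h4] at h3
      exact h3.1 (hsR x hx)
    · rw [mem_filter]
      exact ⟨hx, h2.symm⟩
  have h1 : (s.card : ℝ) ≤ ∑ r ∈ (range M).filter (fun r : ℕ => R (r : ℤ)),
      ((s.filter (fun x => x % M = (r : ℤ))).card : ℝ) := by
    exact_mod_cast (card_le_card hsub).trans card_biUnion_le
  refine h1.trans ?_
  rw [← nsmul_eq_mul]
  apply sum_le_card_nsmul
  intro r _
  have hq : (0 : ℤ) < M * 3 ^ j := by positivity
  have h2 := cong_card hab hq (s := s.filter (fun x => x % M = (r : ℤ)))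
    (fun x hx => hs x (mem_filter.1 hx).1) (by
      intro x hx y hy
      rw [mem_filter] at hx hy
      apply (IsCoprime.pow_right hM3).mul_dvd
      · exact Int.ModEq.dvd ((hy.2.trans hx.2.symm : y % M = x % M))
      · have h3 := dvd_sub (he x hx.1) (he y hy.1)
        have h4 : x - e - (y - e) = x - y := by ring
        rwa [h4] at h3)
  push_cast at h2
  exact h2

theorem log_three_lt : Real.log 3 < 1.1 := by
  rw [Real.log_lt_iff_lt_exp (by norm_num)]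
  have h1 : Real.exp (1.1 : ℝ) = Real.exp 1 * Real.exp 0.1 := by
    rw [← Real.exp_add]; norm_num
  have h2 := Real.exp_one_gt_d9
  have h3 : (0.1 : ℝ) + 1 ≤ Real.exp 0.1 := Real.add_one_le_exp _
  have h4 : (0.1 : ℝ) + 1 + 0.1 ^ 2 / 2 ≤ Real.exp 0.1 := by
    have := Real.quadratic_le_exp_of_nonneg (x := (0.1 : ℝ)) (by norm_num)
    linarith
  rw [h1]
  nlinarith

/-- the inequalities for large `L` -/
theorem ev_small : ∀ᶠ L : ℝ in atTop, Real.exp (350 * L ^ (1 / 2 : ℝ)) ≤ Real.exp (L / 4) ∧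
    10 * L ^ 2 * Real.exp (L / 2) ≤ Real.exp L := by
  have h1 := ev_large (θ := 1 / 4) (by norm_num) 2
  have h2 : Tendsto (fun x : ℝ => Real.exp (1 / 2 * x) / x ^ 2) atTop atTop := by
    have h0 := tendsto_exp_mul_div_rpow_atTop ((2 : ℕ) : ℝ) (1 / 2) (by positivity)
    simp only [Real.rpow_natCast] at h0
    exact h0
  filter_upwards [h2.eventually_ge_atTop 10, eventually_ge_atTop ((1400 : ℝ) ^ 2)] with L h3 h4
  have hL0 : 0 < L := lt_of_lt_of_le (by norm_num) h4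
  constructor
  · apply Real.exp_le_exp.2
    have h5 : (1400 : ℝ) ≤ L ^ (1 / 2 : ℝ) := by
      have h6 : ((1400 : ℝ) ^ 2) ^ (1 / 2 : ℝ) ≤ L ^ (1 / 2 : ℝ) := Real.rpow_le_rpow (by norm_num) h4 (by norm_num)
      rw [← Real.rpow_natCast, ← Real.rpow_mul (by norm_num)] at h6
      norm_num at h6
      rwa [← show (1 : ℝ) / 2 = 1 / 2 from rfl] at h6
    have h7 : L ^ (1 / 2 : ℝ) * L ^ (1 / 2 : ℝ) = L := by
      rw [← Real.rpow_add hL0]; norm_num
    nlinarith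
  · rw [le_div_iff₀ (by positivity)] at h3
    have h5 : Real.exp L = Real.exp (1 / 2 * L) * Real.exp (L / 2) := by
      rw [← Real.exp_add]; congr 1; ring
    rw [h5]
    apply mul_le_mul_of_nonneg_right h3 (Real.exp_pos _).le

open scoped Classical in
/-- `A₀` lies, on the scale `X`, in at most `D M / (log X) ^ (1 + ε)` residue classes modulo some `M` prime to `3`,
`M ≤ √X` -/
def Sc (A₀ : Set ℤ) (D ε X : ℝ) : Prop := ∃ M : ℕ, 0 < M ∧ IsCoprime (M : ℤ) 3 ∧ (M : ℝ) ≤ Real.exp (Real.log X / 2) ∧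
  ∃ R : ℤ → Prop, (∀ x m : ℤ, R (x + m * M) ↔ R x) ∧
    (((range M).filter (fun r : ℕ => R (r : ℤ))).card : ℝ) ≤ D * M / (Real.log X) ^ (1 + ε) ∧
    ∀ x ∈ A₀, Real.exp (Real.log X / 2) ≤ x → (x : ℝ) ≤ X → R x

theorem RD_of_Sc {ε : ℝ} (hε0 : 0 < ε) (hε : ε ≤ 1) : ∃ l₀ : ℝ, 1 ≤ l₀ ∧ ∀ Y : ℝ, 0 < Y → l₀ ≤ Real.log Y →
    ∀ (A₀ : Set ℤ) (D : ℝ), 0 ≤ D → (∀ X : ℝ, Y ≤ X → Sc A₀ D ε X) →
    ∀ z : ℝ, Y ≤ z → RD A₀ z (ε / 2) ((3 * D + 1) / (Real.log z) ^ (1 + ε)) := by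
  obtain ⟨l₀, hl₀⟩ := eventually_atTop.1 ev_small
  refine ⟨max l₀ 1, le_max_right _ _, ?_⟩
  intro Y hY hl A₀ D hD hA z hz X hX j hj e he
  have hYX : Y ≤ X := hz.trans hX
  have hX0 : 0 < X := lt_of_lt_of_le hY hYX
  have hz0 : 0 < z := lt_of_lt_of_le hY hz
  obtain ⟨L, hL⟩ : ∃ L, L = Real.log X := ⟨_, rfl⟩
  have hlL : Real.log Y ≤ L := by rw [hL]; exact Real.log_le_log hY hYX
  have hL1 : 1 ≤ L := (le_max_right _ _).trans (hl.trans hlL)
  have hL0 : 0 < L := by linarith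
  obtain ⟨h1, h2⟩ := hl₀ L ((le_max_left _ _).trans (hl.trans hlL))
  have hXL : X = Real.exp L := by rw [hL, Real.exp_log hX0]
  have hlz : Real.log z ≤ L := by rw [hL]; exact Real.log_le_log hz0 hX
  have hlz0 : 0 < Real.log z := by
    have : Real.log Y ≤ Real.log z := Real.log_le_log hY hz
    have h3 : 1 ≤ Real.log Y := (le_max_right _ _).trans hl
    linarith
  rw [← hL] at hj
  -- `3 ^ j`
  have h3j : (3 : ℝ) ^ j ≤ Real.exp (L / 4) := by
    refine le_trans ?_ h1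
    rw [← Real.rpow_natCast, Real.rpow_def_of_pos (by norm_num)]
    apply Real.exp_le_exp.2
    have e1 : Real.log 3 < 1.1 := log_three_lt
    have e2 : L ^ (ε / 2) ≤ L ^ (1 / 2 : ℝ) := Real.rpow_le_rpow_of_exponent_le hL1 (by linarith)
    have e3 : 0 ≤ L ^ (1 / 2 : ℝ) := by positivity
    have e4 : 0 ≤ Real.log 3 := Real.log_nonneg (by norm_num)
    calc Real.log 3 * j ≤ 1.1 * (300 * L ^ (1 / 2 : ℝ)) := by
          apply mul_le_mul e1.le _ (Nat.cast_nonneg _) (by norm_num)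
          linarith
      _ ≤ 350 * L ^ (1 / 2 : ℝ) := by linarith
  obtain ⟨M, hM, hM3, hMX, R, hR, hRc, hAR⟩ := hA X hYX
  rw [← hL] at hMX hRc hAR
  have hMR : (0 : ℝ) < M := by exact_mod_cast hM
  obtain ⟨s, hs⟩ : ∃ s, s = fC A₀ z X j e := ⟨_, rfl⟩
  obtain ⟨w, hw⟩ : ∃ w, w = Real.exp (L / 2) := ⟨_, rfl⟩
  rw [← hw] at hMX hAR h2
  have hw0 : 0 < w := by rw [hw]; positivity
  have hww : w * w = X := by rw [hw, hXL, ← Real.exp_add]; congr 1; ring
  have hw4 : Real.exp (L / 4) * Real.exp (L / 4) = w := by rw [hw, ← Real.exp_add]; congr 1; ring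
  have hw1 : 1 ≤ w := by rw [hw]; exact Real.one_le_exp (by positivity)
  have hwX : w ≤ X := by nlinarith
  have h3j0 : (0 : ℝ) < 3 ^ j := by positivity
  have h3j1 : (1 : ℝ) ≤ 3 ^ j := one_le_pow₀ (by norm_num)
  have hq1 : 1 ≤ Real.exp (L / 4) := Real.one_le_exp (by positivity)
  have h3w : (3 : ℝ) ^ j ≤ w := by nlinarith
  rw [← hs]
  have hcard : s.card = (s.filter (fun x : ℤ => (x : ℝ) < w)).card + (s.filter (fun x : ℤ => ¬ (x : ℝ) < w)).card :=
    (card_filter_add_card_filter_not _).symm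
  have hmem : ∀ x ∈ s, (z ≤ x ∧ (x : ℝ) ≤ X) ∧ x ∈ A₀ ∧ (3 : ℤ) ^ j ∣ x - e := by
    intro x hx
    rw [hs, mem_fC] at hx
    exact ⟨hx.1.1, hx.1.2, hx.2⟩
  -- small elements
  have hs1 : ((s.filter (fun x : ℤ => (x : ℝ) < w)).card : ℝ) ≤ w / 3 ^ j + 2 := by
    have h4 := cong_card (a := 0) (b := w) hw0.le (q := 3 ^ j) (by positivity)
      (s := s.filter (fun x : ℤ => (x : ℝ) < w)) (by
        intro x hx
        rw [mem_filter] at hx
        exact ⟨hz0.le.trans (hmem x hx.1).1.1, hx.2.le⟩) (by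
        intro x hx y hy
        rw [mem_filter] at hx hy
        have h3 := dvd_sub (hmem x hx.1).2.2 (hmem y hy.1).2.2
        have h4 : x - e - (y - e) = x - y := by ring
        rwa [h4] at h3)
    push_cast at h4
    rwa [sub_zero] at h4
  have hs2 : ((s.filter (fun x : ℤ => ¬ (x : ℝ) < w)).card : ℝ) ≤
      D * M / L ^ (1 + ε) * ((X - w) / (M * 3 ^ j) + 2) := by
    have h4 := classes_card hM hM3 hR (a := w) (b := X) hwX (j := j) (e := e)
      (s := s.filter (fun x : ℤ => ¬ (x : ℝ) < w)) (by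
        intro x hx
        rw [mem_filter] at hx
        exact ⟨not_lt.1 hx.2, (hmem x hx.1).1.2⟩) (by
        intro x hx
        rw [mem_filter] at hx
        exact (hmem x hx.1).2.2) (by
        intro x hx
        rw [mem_filter] at hx
        exact hAR x (hmem x hx.1).2.1 (not_lt.1 hx.2) (hmem x hx.1).1.2)
    refine h4.trans (mul_le_mul_of_nonneg_right hRc ?_)
    have : 0 ≤ (X - w) / (M * 3 ^ j) := div_nonneg (by linarith) (by positivity)
    linarith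
  -- the sum
  have hLε : 0 < L ^ (1 + ε) := by positivity
  have hLε2 : L ^ (1 + ε) ≤ L ^ 2 := by
    rw [← Real.rpow_natCast]
    exact Real.rpow_le_rpow_of_exponent_le hL1 (by push_cast; linarith)
  have a1 : w / 3 ^ j + 2 ≤ 1 / L ^ (1 + ε) * (X / 3 ^ j) := by
    have e1 : w / 3 ^ j + 2 = (w + 2 * 3 ^ j) / 3 ^ j := by field_simp
    have e2 : 1 / L ^ (1 + ε) * (X / 3 ^ j) = (X / L ^ (1 + ε)) / 3 ^ j := by field_simp
    rw [e1, e2]
    apply div_le_div_of_nonneg_right _ h3j0.le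
    rw [le_div_iff₀ hLε]
    calc (w + 2 * 3 ^ j) * L ^ (1 + ε) ≤ (3 * w) * L ^ 2 := by
          apply mul_le_mul _ hLε2 hLε.le (by positivity)
          linarith
      _ ≤ 10 * L ^ 2 * w := by nlinarith [mul_pos (pow_pos hL0 2) hw0]
      _ ≤ Real.exp L := h2
      _ = X := hXL.symm
  have a2 : D * M / L ^ (1 + ε) * ((X - w) / (M * 3 ^ j) + 2) ≤ 3 * D / L ^ (1 + ε) * (X / 3 ^ j) := by
    have e1 : (M : ℝ) * ((X - w) / (M * 3 ^ j) + 2) ≤ 3 * (X / 3 ^ j) := by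
      have e2 : (M : ℝ) * ((X - w) / (M * 3 ^ j) + 2) = (X - w) / 3 ^ j + 2 * M := by field_simp
      have e3 : (M : ℝ) ≤ X / 3 ^ j := by
        rw [le_div_iff₀ h3j0]
        calc (M : ℝ) * 3 ^ j ≤ w * w := mul_le_mul hMX h3w (by positivity) hw0.le
          _ = X := hww
      have e4 : (X - w) / 3 ^ j ≤ X / 3 ^ j := div_le_div_of_nonneg_right (by linarith) h3j0.le
      rw [e2]
      linarith
    calc D * M / L ^ (1 + ε) * ((X - w) / (M * 3 ^ j) + 2)
        = D / L ^ (1 + ε) * (M * ((X - w) / (M * 3 ^ j) + 2)) := by ring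
      _ ≤ D / L ^ (1 + ε) * (3 * (X / 3 ^ j)) := mul_le_mul_of_nonneg_left e1 (by positivity)
      _ = _ := by ring
  have hfin : (s.card : ℝ) ≤ (3 * D + 1) / L ^ (1 + ε) * (X / 3 ^ j) := by
    have e1 : (s.card : ℝ) = ((s.filter (fun x : ℤ => (x : ℝ) < w)).card : ℝ) +
      ((s.filter (fun x : ℤ => ¬ (x : ℝ) < w)).card : ℝ) := by exact_mod_cast hcard
    have e2 : (3 * D + 1) / L ^ (1 + ε) * (X / 3 ^ j) =
        1 / L ^ (1 + ε) * (X / 3 ^ j) + 3 * D / L ^ (1 + ε) * (X / 3 ^ j) := by ring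
    rw [e1, e2]
    linarith
  refine hfin.trans (mul_le_mul_of_nonneg_right ?_ (by positivity))
  apply div_le_div_of_nonneg_left (by linarith) (by positivity)
  exact Real.rpow_le_rpow hlz0.le hlz (by linarith)

open scoped Classical in
/-- **The Borel-Cantelli lemma for sets given by congruences.** -/
theorem borel_cantelli {d : ℤ} (hd : Odd d) (hd3 : IsCoprime d 3) {ε : ℝ} (hε0 : 0 < ε) (hε : ε ≤ 1) :
    ∃ l₀ K : ℝ, 1 ≤ l₀ ∧ 0 < K ∧ ∀ Y : ℝ, 0 < Y → l₀ ≤ Real.log Y → ∀ (A₀ : Set ℤ) (D : ℝ), 0 ≤ D →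
      (∀ X : ℝ, Y ≤ X → Sc A₀ D ε X) →
      ∀ N : ℕ, (((Icc (1 : ℤ) N).filter (fun n => n ∈ HY d A₀ Y)).card : ℝ)
        ≤ K * (1 + D) * N / (Real.log Y) ^ (ε / 2) := by
  obtain ⟨l₁, h1, hRD⟩ := RD_of_Sc hε0 hε
  obtain ⟨l₂, K, hl₂, hK, hH⟩ := HY_countD hd hd3 hε0 hε
  refine ⟨max l₁ l₂, 3 * K, h1.trans (le_max_left _ _), by positivity, ?_⟩
  intro Y hY hl A₀ D hD hA N
  have hlog : 0 < Real.log Y := by
    have := (le_max_left l₁ l₂).trans hl
    linarith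
  have h2 := hH Y hY ((le_max_right _ _).trans hl) A₀ (3 * D + 1) (by linarith)
    (hRD Y hY ((le_max_left _ _).trans hl) A₀ D hD hA) N
  refine h2.trans ?_
  apply div_le_div_of_nonneg_right _ (by positivity)
  apply mul_le_mul_of_nonneg_right _ (Nat.cast_nonneg N)
  nlinarith

end Run7.h702.BC
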