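import Pool.Agent.Run7.h702.BC.A

/-! The statistics of the parities of a trajectory: tails, products, lower bounds. -/

set_option autoImplicit false

namespace Run7.h702.BC

open Finset Filter
open Pool.Agent.H499R2.CO (Tz)
open Pool.Agent.R344.SP Pool.Agent.R344.TH
open Run7.h702.AT

/-- the rate: `log 2` minus the entropy of `c` -/
noncomputable def rate (c : ℝ) : ℝ := Real.log 2 - Real.binEntropy c

theorem rate_pos {c : ℝ} (hc : 1 / 2 < c) : 0 < rate c := by
  unfold rate
  have h : c ≠ 2⁻¹ := by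
    intro h
    rw [h] at hc
    norm_num at hc
  have := Real.binEntropy_lt_log_two.2 h
  linarith

theorem rate_exp {c : ℝ} (hc0 : 0 < c) (hc1 : c < 1) (t : ℝ) :
    Real.exp (-(rate c * t)) * (c / (1 - c)) ^ (c * t) = ((1 + c / (1 - c)) / 2) ^ t := by
  have h1 : 0 < 1 - c := by linarith
  have h2 : 1 + c / (1 - c) = (1 - c)⁻¹ := by field_simp; ring
  rw [h2, Real.rpow_def_of_pos (by positivity), Real.rpow_def_of_pos (by positivity), ← Real.exp_add]
  congr 1
  unfold rate
  rw [Real.binEntropy, Real.log_div hc0.ne' h1.ne', Real.log_div (by positivity) (by norm_num), Real.log_inv,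
    Real.log_inv]
  ring

open scoped Classical in
theorem od_upper {d : ℤ} (hd : d % 2 = 1) {c : ℝ} (hc : 1 / 2 < c) (hc1 : c < 1) (t : ℕ) :
    (((range (2 ^ t)).filter (fun r : ℕ => c * t ≤ od d t (r : ℤ))).card : ℝ) ≤ 2 ^ t * Real.exp (-(rate c * t)) := by
  have hc0 : 0 < c := by linarith
  have h1c : 0 < 1 - c := by linarith
  obtain ⟨y, hy⟩ : ∃ y, y = c / (1 - c) := ⟨_, rfl⟩
  have hy1 : 1 ≤ y := by rw [hy, le_div_iff₀ h1c]; linarith
  have hy0 : 0 < y := by linarith
  have h1 := od_gen hd y t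
  have h2 : (((range (2 ^ t)).filter (fun r : ℕ => c * t ≤ od d t (r : ℤ))).card : ℝ) * y ^ (c * t) ≤
      ∑ r ∈ range (2 ^ t), y ^ od d t (r : ℤ) := by
    rw [← nsmul_eq_mul]
    refine le_trans (card_nsmul_le_sum _ (fun r : ℕ => y ^ od d t (r : ℤ)) _ ?_)
      (sum_le_sum_of_subset_of_nonneg (filter_subset _ _) (fun r _ _ => by positivity))
    intro r hr
    rw [mem_filter] at hr
    rw [← Real.rpow_natCast]
    exact Real.rpow_le_rpow_of_exponent_le hy1 hr.2
  rw [h1] at h2
  have h3 := rate_exp hc0 hc1 t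
  rw [← hy, Real.rpow_natCast, div_pow] at h3
  have h4 : (0 : ℝ) < y ^ (c * t) := by positivity
  have h5 : (1 + y) ^ t = 2 ^ t * (Real.exp (-(rate c * t)) * y ^ (c * t)) := by
    rw [h3]; field_simp
  rw [h5, ← mul_assoc] at h2
  exact le_of_mul_le_mul_right h2 h4

open scoped Classical in
theorem od_lower {d : ℤ} (hd : d % 2 = 1) {c : ℝ} (hc : 1 / 2 < c) (hc1 : c < 1) (t : ℕ) :
    (((range (2 ^ t)).filter (fun r : ℕ => (od d t (r : ℤ) : ℝ) ≤ (1 - c) * t)).card : ℝ) ≤
      2 ^ t * Real.exp (-(rate c * t)) := by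
  have hc0 : 0 < c := by linarith
  have h1c : 0 < 1 - c := by linarith
  obtain ⟨y, hy⟩ : ∃ y, y = c / (1 - c) := ⟨_, rfl⟩
  have hy1 : 1 ≤ y := by rw [hy, le_div_iff₀ h1c]; linarith
  have hy0 : 0 < y := by linarith
  have h1 := od_gen hd y⁻¹ t
  have h2 : (((range (2 ^ t)).filter (fun r : ℕ => (od d t (r : ℤ) : ℝ) ≤ (1 - c) * t)).card : ℝ) *
      y⁻¹ ^ ((1 - c) * t) ≤ ∑ r ∈ range (2 ^ t), y⁻¹ ^ od d t (r : ℤ) := by
    rw [← nsmul_eq_mul]
    refine le_trans (card_nsmul_le_sum _ (fun r : ℕ => y⁻¹ ^ od d t (r : ℤ)) _ ?_)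
      (sum_le_sum_of_subset_of_nonneg (filter_subset _ _) (fun r _ _ => by positivity))
    intro r hr
    rw [mem_filter] at hr
    rw [← Real.rpow_natCast]
    exact Real.rpow_le_rpow_of_exponent_ge (by positivity) (inv_le_one_of_one_le₀ hy1) hr.2
  rw [h1] at h2
  have h3 := rate_exp hc0 hc1 t
  rw [← hy, Real.rpow_natCast, div_pow] at h3
  have h4 : (0 : ℝ) < y⁻¹ ^ ((1 - c) * t) := by positivity
  have h5 : (1 + y⁻¹) ^ t = 2 ^ t * (Real.exp (-(rate c * t)) * y⁻¹ ^ ((1 - c) * t)) := by
    have e1 : y⁻¹ ^ ((1 - c) * t) = y ^ (c * t) / y ^ t := by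
      rw [Real.inv_rpow hy0.le, ← Real.rpow_neg hy0.le, ← Real.rpow_natCast y t, ← Real.rpow_sub hy0]
      congr 1; ring
    have e2 : (1 + y⁻¹) ^ t = (1 + y) ^ t / y ^ t := by
      rw [← div_pow]; congr 1; field_simp; ring
    rw [e1, e2, ← mul_div_assoc, h3]
    field_simp
  rw [h5, ← mul_assoc] at h2
  exact le_of_mul_le_mul_right h2 h4

/-- the sum of a product: two successive segments of the trajectory are independent -/
theorem sum_prod {d : ℤ} (hd : d % 2 = 1) (m t : ℕ) (F G : ℤ → ℝ) (hF : ∀ x y : ℤ, F (x + y * 2 ^ m) = F x)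
    (hG : ∀ x y : ℤ, G (x + y * 2 ^ t) = G x) :
    ∑ r ∈ range (2 ^ (m + t)), F r * G ((Tz d)^[m] (r : ℤ)) =
      (∑ r ∈ range (2 ^ m), F r) * ∑ r ∈ range (2 ^ t), G r := by
  have h0 : ∀ (a b : ℕ) (f : ℕ → ℝ), ∑ r ∈ range (a * b), f r = ∑ r ∈ range a, ∑ s ∈ range b, f (r + s * a) := by
    intro a b f
    induction b with
    | zero => simp
    | succ b ih =>
      rw [mul_add, mul_one, sum_range_add, ih, ← sum_add_distrib]
      apply sum_congr rfl
      intro r _
      rw [sum_range_succ]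
      congr 2
      ring
  rw [pow_add, h0, sum_mul]
  apply sum_congr rfl
  intro r _
  have h1 := Pool.Agent.H499R2.CO.sum_affine t G hG (a := 3 ^ od d m (r : ℤ))
    (by
      have : Odd ((3 : ℤ) ^ od d m (r : ℤ)) := Odd.pow (by decide)
      exact Int.odd_iff.1 this) ((Tz d)^[m] (r : ℤ))
  rw [← h1, mul_sum]
  apply sum_congr rfl
  intro s _
  have e1 : (((r + s * 2 ^ m : ℕ)) : ℤ) = (r : ℤ) + (s : ℤ) * 2 ^ m := by push_cast; ring
  rw [e1, hF, Tz_iter hd]
  congr 2
  ring

/-- all the first `B` blocks of length `m` satisfy `S` -/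
def AllBl (d : ℤ) (m : ℕ) (S : ℤ → Prop) (B : ℕ) (x : ℤ) : Prop := ∀ b < B, S ((Tz d)^[m * b] x)

open scoped Classical in
/-- `B` successive blocks of length `m` are independent. -/
theorem blocks {d : ℤ} (hd : d % 2 = 1) {m : ℕ} {S : ℤ → Prop} (hS : ∀ x y : ℤ, S (x + y * 2 ^ m) ↔ S x) :
    ∀ B : ℕ, (((range (2 ^ (m * B))).filter (fun r : ℕ => AllBl d m S B (r : ℤ))).card : ℝ) =
      (((range (2 ^ m)).filter (fun r : ℕ => S (r : ℤ))).card : ℝ) ^ B := by
  have hper : ∀ (B : ℕ) (x y : ℤ), AllBl d m S B (x + y * 2 ^ (m * B)) ↔ AllBl d m S B x := by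
    intro B x y
    unfold AllBl
    have key : ∀ b < B, (S ((Tz d)^[m * b] (x + y * 2 ^ (m * B))) ↔ S ((Tz d)^[m * b] x)) := by
      intro b hb
      obtain ⟨c, rfl⟩ : ∃ c, B = b + 1 + c := ⟨B - (b + 1), by omega⟩
      have e1 : x + y * 2 ^ (m * (b + 1 + c)) = x + (y * 2 ^ (m + m * c)) * 2 ^ (m * b) := by
        rw [show m * (b + 1 + c) = (m + m * c) + m * b by ring, pow_add]; ring
      rw [e1, Tz_iter hd]
      have e2 : (Tz d)^[m * b] x + y * 2 ^ (m + m * c) * 3 ^ od d (m * b) x =
          (Tz d)^[m * b] x + (y * 2 ^ (m * c) * 3 ^ od d (m * b) x) * 2 ^ m := by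
        rw [pow_add]; ring
      rw [e2, hS]
    constructor
    · intro h b hb
      rw [← key b hb]; exact h b hb
    · intro h b hb
      rw [key b hb]; exact h b hb
  intro B
  induction B with
  | zero => simp [AllBl]
  | succ B ih =>
    have h1 := sum_prod hd m (m * B) (fun x => if S x then (1 : ℝ) else 0)
      (fun x => if AllBl d m S B x then (1 : ℝ) else 0)
      (fun x y => by simp only [hS]) (fun x y => by simp only [hper])
    rw [pow_succ, ← ih]
    have e1 : ∀ (k : ℕ) (P : ℤ → Prop), (((range (2 ^ k)).filter (fun r : ℕ => P (r : ℤ))).card : ℝ) =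
        ∑ r ∈ range (2 ^ k), (if P (r : ℤ) then (1 : ℝ) else 0) := by
      intro k P
      rw [← sum_filter, sum_const, nsmul_eq_mul, mul_one]
    have a4 : m * (B + 1) = m + m * B := by ring
    rw [e1 _ (AllBl d m S (B + 1)), e1 _ (AllBl d m S B), e1 _ S, a4,
      mul_comm (∑ r ∈ range (2 ^ (m * B)), (if AllBl d m S B (r : ℤ) then (1 : ℝ) else 0))]
    refine Eq.trans ?_ h1
    apply sum_congr rfl
    intro r _
    have e2 : AllBl d m S (B + 1) (r : ℤ) ↔ (S (r : ℤ) ∧ AllBl d m S B ((Tz d)^[m] (r : ℤ))) := by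
      unfold AllBl
      constructor
      · intro h
        refine ⟨?_, ?_⟩
        · have := h 0 (by omega)
          simpa using this
        · intro b hb
          have := h (b + 1) (by omega)
          rw [← Function.iterate_add_apply, show m * b + m = m * (b + 1) by ring]
          exact this
      · rintro ⟨h1, h2⟩ b hb
        rcases Nat.eq_zero_or_pos b with h0 | h0
        · subst h0; simpa using h1
        · obtain ⟨b', rfl⟩ : ∃ b', b = b' + 1 := ⟨b - 1, by omega⟩
          have := h2 b' (by omega)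
          rwa [← Function.iterate_add_apply, show m * b' + m = m * (b' + 1) by ring] at this
    by_cases h3 : S (r : ℤ)
    · by_cases h4 : AllBl d m S B ((Tz d)^[m] (r : ℤ))
      · rw [if_pos (e2.2 ⟨h3, h4⟩), if_pos h3, if_pos h4, one_mul]
      · rw [if_neg (by rw [e2]; tauto), if_neg h4, mul_zero]
    · rw [if_neg (by rw [e2]; tauto), if_neg h3, zero_mul]

open scoped Classical in
/-- The number of residues with `a` odd terms. -/
theorem od_choose {d : ℤ} (hd : d % 2 = 1) : ∀ (t a : ℕ),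
    (((range (2 ^ t)).filter (fun r : ℕ => od d t (r : ℤ) = a)).card : ℝ) = (t.choose a : ℝ)
  | 0, a => by
    rcases Nat.eq_zero_or_pos a with h | h
    · subst h; simp [od]
    · rw [Nat.choose_eq_zero_of_lt h]
      have : (range (2 ^ 0)).filter (fun r : ℕ => od d 0 (r : ℤ) = a) = ∅ := by
        rw [filter_eq_empty_iff]
        intro r _ h1
        simp [od] at h1
        omega
      rw [this]; simp
  | t + 1, a => by
    have e1 : ∀ (k b : ℕ), (((range (2 ^ k)).filter (fun r : ℕ => od d k (r : ℤ) = b)).card : ℝ) =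
        ∑ r ∈ range (2 ^ k), (if od d k (r : ℤ) = b then (1 : ℝ) else 0) := by
      intro k b
      rw [← sum_filter, sum_const, nsmul_eq_mul, mul_one]
    have ih := od_choose hd t
    rw [e1, pow_succ 2 t, mul_comm (2 ^ t) 2, Pool.Agent.H499R2.CO.sum_two]
    have h1 : ∑ u ∈ range (2 ^ t), (if od d (t + 1) ((2 * u : ℕ) : ℤ) = a then (1 : ℝ) else 0) = (t.choose a : ℝ) := by
      rw [← ih a, e1]
      apply sum_congr rfl
      intro u _
      rw [od_succ']
      have e1 : Tz d ((2 * u : ℕ) : ℤ) = u := by unfold Tz; rw [if_pos (by push_cast; omega)]; push_cast; omega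
      have e2 : (((2 * u : ℕ) : ℤ) % 2).toNat = 0 := by
        have : ((2 * u : ℕ) : ℤ) % 2 = 0 := by push_cast; omega
        rw [this]; rfl
      rw [e1, e2, add_zero]
    have h2 : ∑ u ∈ range (2 ^ t), (if od d (t + 1) ((2 * u + 1 : ℕ) : ℤ) = a then (1 : ℝ) else 0) =
        ∑ u ∈ range (2 ^ t), (if od d t (u : ℤ) + 1 = a then (1 : ℝ) else 0) := by
      have hP : ∀ y m : ℤ, (fun y : ℤ => if od d t y + 1 = a then (1 : ℝ) else 0) (y + m * 2 ^ t) =
          (fun y : ℤ => if od d t y + 1 = a then (1 : ℝ) else 0) y := by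
        intro y m
        simp only [od_periodic hd]
      have h3 := Pool.Agent.H499R2.CO.sum_affine t (fun y : ℤ => if od d t y + 1 = a then (1 : ℝ) else 0)
        hP (a := 3) (by norm_num) ((3 + d) / 2)
      rw [← h3]
      apply sum_congr rfl
      intro u _
      rw [od_succ']
      have e1 : Tz d ((2 * u + 1 : ℕ) : ℤ) = 3 * (u : ℤ) + (3 + d) / 2 := by
        unfold Tz; rw [if_neg (by push_cast; omega)]; push_cast; omega
      have e2 : (((2 * u + 1 : ℕ) : ℤ) % 2).toNat = 1 := by
        have : ((2 * u + 1 : ℕ) : ℤ) % 2 = 1 := by push_cast; omega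
        rw [this]; rfl
      rw [e1, e2]
    rw [h1, h2]
    rcases Nat.eq_zero_or_pos a with h | h
    · subst h
      have : ∑ u ∈ range (2 ^ t), (if od d t (u : ℤ) + 1 = 0 then (1 : ℝ) else 0) = 0 := by
        apply sum_eq_zero
        intro u _
        rw [if_neg (by omega)]
      rw [this]; simp
    · obtain ⟨b, rfl⟩ : ∃ b, a = b + 1 := ⟨a - 1, by omega⟩
      have h3 : ∑ u ∈ range (2 ^ t), (if od d t (u : ℤ) + 1 = b + 1 then (1 : ℝ) else 0) = (t.choose b : ℝ) := by
        rw [← ih b, e1]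
        apply sum_congr rfl
        intro u _
        simp only [Nat.add_right_cancel_iff]
      rw [h3, Nat.choose_succ_succ]
      push_cast
      ring

/-- the ratio `M 3^(odd steps) / 2^(steps)` exceeds `lam` within `k` steps -/
def Exr (d : ℤ) (lam M : ℝ) (k : ℕ) (x : ℤ) : Prop := ∃ i ≤ k, lam < M * 3 ^ od d i x / 2 ^ i

open scoped Classical in
/-- The maximum of the ratio: `E (3/2)^(od)·(1/2)^… = 1`. -/
theorem exc_frac {d : ℤ} (hd : d % 2 = 1) {lam : ℝ} (hl : 0 < lam) : ∀ (k : ℕ) (M : ℝ), 0 < M →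
    (((range (2 ^ k)).filter (fun r : ℕ => Exr d lam M k (r : ℤ))).card : ℝ) ≤
      2 ^ k * (M / lam) := by
  have hper : ∀ (k : ℕ) (M : ℝ) (x m : ℤ), Exr d lam M k (x + m * 2 ^ k) ↔ Exr d lam M k x := by
    intro k M x m
    unfold Exr
    have key : ∀ i ≤ k, od d i (x + m * 2 ^ k) = od d i x := by
      intro i hi
      obtain ⟨c, rfl⟩ : ∃ c, k = c + i := ⟨k - i, by omega⟩
      rw [pow_add, ← mul_assoc, od_periodic hd]
    constructor
    · rintro ⟨i, hi, h⟩
      exact ⟨i, hi, by rwa [key i hi] at h⟩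
    · rintro ⟨i, hi, h⟩
      exact ⟨i, hi, by rwa [key i hi]⟩
  have e1 : ∀ (k : ℕ) (M : ℝ), (((range (2 ^ k)).filter (fun r : ℕ => Exr d lam M k (r : ℤ))).card : ℝ) =
      ∑ r ∈ range (2 ^ k), (if (Exr d lam M k (r : ℤ)) then (1 : ℝ) else 0) := by
    intro k M
    rw [← sum_filter, sum_const, nsmul_eq_mul, mul_one]
  intro k
  induction k with
  | zero =>
    intro M hM
    rw [pow_zero, pow_zero, one_mul]
    by_cases h : lam < M
    · have h1 : (((range 1).filter (fun r : ℕ => Exr d lam M 0 (r : ℤ))).card : ℝ) ≤ 1 := by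
        have := card_filter_le (range 1) (fun r : ℕ => Exr d lam M 0 (r : ℤ))
        rw [card_range] at this
        exact_mod_cast this
      refine h1.trans ?_
      rw [le_div_iff₀ hl]; linarith
    · have h1 : (range 1).filter (fun r : ℕ => Exr d lam M 0 (r : ℤ)) = ∅ := by
        rw [filter_eq_empty_iff]
        rintro r _ ⟨i, hi, h1⟩
        have : i = 0 := by omega
        subst this
        apply h
        simpa [od] using h1
      rw [h1, card_empty, Nat.cast_zero]
      positivity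
  | succ k ih =>
    intro M hM
    by_cases h : lam < M
    · have h1 : (((range (2 ^ (k + 1))).filter (fun r : ℕ => Exr d lam M (k + 1) (r : ℤ))).card : ℝ) ≤
          2 ^ (k + 1) := by
        have := card_filter_le (range (2 ^ (k + 1))) (fun r : ℕ => Exr d lam M (k + 1) (r : ℤ))
        rw [card_range] at this
        exact_mod_cast this
      refine h1.trans (le_mul_of_one_le_right (by positivity) ?_)
      rw [le_div_iff₀ hl]; linarith
    · have hstep : ∀ (x : ℤ), Exr d lam M (k + 1) x ↔ Exr d lam (M * 3 ^ (x % 2).toNat / 2) k (Tz d x) := by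
        intro x
        unfold Exr
        constructor
        · rintro ⟨i, hi, h1⟩
          rcases Nat.eq_zero_or_pos i with h0 | h0
          · subst h0
            exfalso
            apply h
            simpa [od] using h1
          · obtain ⟨i', rfl⟩ : ∃ i', i = i' + 1 := ⟨i - 1, by omega⟩
            refine ⟨i', by omega, ?_⟩
            rw [od_succ', pow_add] at h1
            calc lam < _ := h1
              _ = _ := by rw [pow_succ]; field_simp
        · rintro ⟨i, hi, h1⟩
          refine ⟨i + 1, by omega, ?_⟩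
          rw [od_succ', pow_add]
          calc lam < _ := h1
            _ = _ := by rw [pow_succ]; field_simp
      rw [e1, pow_succ 2 k, mul_comm (2 ^ k) 2, Pool.Agent.H499R2.CO.sum_two]
      have h1 : ∑ u ∈ range (2 ^ k), (if (Exr d lam M (k + 1) ((2 * u : ℕ) : ℤ)) then (1 : ℝ) else 0) ≤
          2 ^ k * (M / 2 / lam) := by
        refine le_trans (le_of_eq ?_) (ih (M / 2) (by positivity))
        rw [e1]
        apply sum_congr rfl
        intro u _
        have a1 : Tz d ((2 * u : ℕ) : ℤ) = u := by unfold Tz; rw [if_pos (by push_cast; omega)]; push_cast; omega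
        have a2 : (((2 * u : ℕ) : ℤ) % 2).toNat = 0 := by
          have : ((2 * u : ℕ) : ℤ) % 2 = 0 := by push_cast; omega
          rw [this]; rfl
        simp only [hstep, a1, a2, pow_zero, mul_one]
      have h2 : ∑ u ∈ range (2 ^ k), (if (Exr d lam M (k + 1) ((2 * u + 1 : ℕ) : ℤ)) then (1 : ℝ) else 0) ≤
          2 ^ k * (M * 3 / 2 / lam) := by
        refine le_trans (le_of_eq ?_) (ih (M * 3 / 2) (by positivity))
        rw [e1]
        have h3 := Pool.Agent.H499R2.CO.sum_affine k
          (fun y : ℤ => if Exr d lam (M * 3 / 2) k y then (1 : ℝ) else 0)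
          (fun x m => by simp only [hper]) (a := 3) (by norm_num) ((3 + d) / 2)
        rw [← h3]
        apply sum_congr rfl
        intro u _
        have a1 : Tz d ((2 * u + 1 : ℕ) : ℤ) = 3 * (u : ℤ) + (3 + d) / 2 := by
          unfold Tz; rw [if_neg (by push_cast; omega)]; push_cast; omega
        have a2 : (((2 * u + 1 : ℕ) : ℤ) % 2).toNat = 1 := by
          have : ((2 * u + 1 : ℕ) : ℤ) % 2 = 1 := by push_cast; omega
          rw [this]; rfl
        simp only [hstep, a1, a2, pow_one]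
      have h4 : (2 : ℝ) * 2 ^ k * (M / lam) = 2 ^ k * (M / 2 / lam) + 2 ^ k * (M * 3 / 2 / lam) := by
        field_simp; ring
      have h5 : (2 : ℝ) ^ (k + 1) = 2 * 2 ^ k := by rw [pow_succ]; ring
      rw [h5, h4]
      exact add_le_add h1 h2

end Run7.h702.BC
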