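import Pool.Agent.Run7.h702.BC.B

/-! The sets of the integers whose trajectory begins with an atypical window of length `κ log log x`. -/

set_option autoImplicit false

namespace Run7.h702.BC

open Finset Filter
open Pool.Agent.H499R2.CO (Tz)
open Pool.Agent.R344.SP Pool.Agent.R344.TH
open Run7.h702.AT

/-- `log log x` -/
noncomputable def LL (x : ℝ) : ℝ := Real.log (Real.log x)

/-- the length `⌈κ log log x⌉` -/
noncomputable def wl (κ : ℝ) (x : ℝ) : ℕ := ⌈κ * LL x⌉₊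

/-- the window of length `m` is atypical -/
def Wd (d : ℤ) (c : ℝ) (m : ℕ) (x : ℤ) : Prop := c * m ≤ od d m x ∨ (od d m x : ℝ) ≤ (1 - c) * m

/-- an atypical window of length between `⌈κ log log x⌉` and `2 ⌈κ log log x⌉ + 2` -/
def BW (d : ℤ) (c κ : ℝ) : Set ℤ := {x : ℤ | ∃ m : ℕ, wl κ x ≤ m ∧ m ≤ 2 * wl κ x + 2 ∧ Wd d c m x}

/-- a large excursion within `2 ⌈κ log log x⌉ + 2` steps -/
def BE (d : ℤ) (κ ε : ℝ) : Set ℤ := {x : ℤ | ∃ m : ℕ, m ≤ 2 * wl κ x + 2 ∧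
  x * Real.log x ^ (1 + ε) < (((Tz d)^[m] x : ℤ) : ℝ)}

theorem wl_mono {κ x y : ℝ} (hκ : 0 ≤ κ) (hx : 1 < x) (h : x ≤ y) : wl κ x ≤ wl κ y := by
  unfold wl LL
  apply Nat.ceil_mono
  apply mul_le_mul_of_nonneg_left _ hκ
  exact Real.log_le_log (Real.log_pos hx) (Real.log_le_log (by linarith) h)

theorem Wd_per {d : ℤ} (hd : d % 2 = 1) (c : ℝ) {m k : ℕ} (hm : m ≤ k) (x y : ℤ) :
    Wd d c m (x + y * 2 ^ k) ↔ Wd d c m x := by
  have : od d m (x + y * 2 ^ k) = od d m x := by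
    obtain ⟨e, rfl⟩ : ∃ e, k = e + m := ⟨k - m, by omega⟩
    rw [pow_add, ← mul_assoc, od_periodic hd]
  unfold Wd
  rw [this]

open scoped Classical in
theorem Wd_count {d : ℤ} (hd : d % 2 = 1) {c : ℝ} (hc : 1 / 2 < c) (hc1 : c < 1) {m k : ℕ} (hm : m ≤ k) :
    (((range (2 ^ k)).filter (fun r : ℕ => Wd d c m (r : ℤ))).card : ℝ) ≤
      2 ^ k * (2 * Real.exp (-(rate c * m))) := by
  obtain ⟨t, rfl⟩ : ∃ t, k = m + t := ⟨k - m, by omega⟩
  have h1 := sum_prod hd m t (fun x => if Wd d c m x then (1 : ℝ) else 0) (fun _ => 1)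
    (fun x y => by simp only [Wd_per hd c le_rfl]) (fun x y => rfl)
  have e1 : ∀ (k : ℕ) (P : ℤ → Prop), (((range (2 ^ k)).filter (fun r : ℕ => P (r : ℤ))).card : ℝ) =
      ∑ r ∈ range (2 ^ k), (if P (r : ℤ) then (1 : ℝ) else 0) := by
    intro k P
    rw [← sum_filter, sum_const, nsmul_eq_mul, mul_one]
  rw [sum_const, card_range, nsmul_eq_mul, mul_one] at h1
  simp only [mul_one] at h1
  rw [e1 (m + t) (Wd d c m), h1, ← e1 m (Wd d c m)]
  have h2 : (((range (2 ^ m)).filter (fun r : ℕ => Wd d c m (r : ℤ))).card : ℝ) ≤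
      2 ^ m * Real.exp (-(rate c * m)) + 2 ^ m * Real.exp (-(rate c * m)) := by
    refine le_trans ?_ (add_le_add (od_upper hd hc hc1 m) (od_lower hd hc hc1 m))
    have h3 : (range (2 ^ m)).filter (fun r : ℕ => Wd d c m (r : ℤ)) ⊆
        (range (2 ^ m)).filter (fun r : ℕ => c * m ≤ od d m (r : ℤ)) ∪
        (range (2 ^ m)).filter (fun r : ℕ => (od d m (r : ℤ) : ℝ) ≤ (1 - c) * m) := by
      intro r hr
      rw [mem_filter] at hr
      rw [mem_union, mem_filter, mem_filter]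
      rcases hr.2 with h | h
      · exact Or.inl ⟨hr.1, h⟩
      · exact Or.inr ⟨hr.1, h⟩
    exact_mod_cast (card_le_card h3).trans (card_union_le _ _)
  push_cast
  calc (((range (2 ^ m)).filter (fun r : ℕ => Wd d c m (r : ℤ))).card : ℝ) * 2 ^ t
      ≤ (2 ^ m * Real.exp (-(rate c * m)) + 2 ^ m * Real.exp (-(rate c * m))) * 2 ^ t :=
        mul_le_mul_of_nonneg_right h2 (by positivity)
    _ = _ := by rw [pow_add]; ring

/-- the inequality for the length of the windows -/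
theorem ev_len (κ : ℝ) : ∀ᶠ L : ℝ in atTop, (2 * (κ * Real.log L + 1) + 2) * Real.log 2 ≤ L / 2 := by
  have h1 : Tendsto (fun L : ℝ => Real.log L / L) atTop (nhds 0) := by
    have := Real.isLittleO_log_id_atTop.tendsto_div_nhds_zero
    simpa using this
  have h2 : Tendsto (fun L : ℝ => 2 * |κ| * (Real.log L / L) + 4 / L) atTop (nhds (2 * |κ| * 0 + 0)) :=
    (h1.const_mul _).add (tendsto_const_nhds.div_atTop tendsto_id)
  rw [mul_zero, add_zero] at h2
  filter_upwards [h2.eventually (gt_mem_nhds (by norm_num : (0 : ℝ) < 1 / 2)), eventually_ge_atTop (1 : ℝ)]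
    with L h3 h4
  have hL0 : 0 < L := by linarith
  have h5 : 0 ≤ Real.log L := Real.log_nonneg h4
  have h6 : 2 * |κ| * Real.log L + 4 < 1 / 2 * L := by
    have e1 : (2 * |κ| * (Real.log L / L) + 4 / L) * L = 2 * |κ| * Real.log L + 4 := by field_simp
    rw [← e1]
    exact mul_lt_mul_of_pos_right h3 hL0
  have h7 : κ * Real.log L ≤ |κ| * Real.log L := mul_le_mul_of_nonneg_right (le_abs_self κ) h5
  have h8 := Real.log_two_lt_d9
  have h9 := Real.log_two_gt_d9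
  nlinarith [mul_nonneg (abs_nonneg κ) h5]

theorem wl_bounds {κ : ℝ} (hκ : 0 < κ) {X x : ℝ} (hL : 4 ≤ Real.log X) (hx1 : Real.exp (Real.log X / 2) ≤ x)
    (hx2 : x ≤ X) : ⌈κ * Real.log (Real.log X / 2)⌉₊ ≤ wl κ x ∧ wl κ x ≤ ⌈κ * Real.log (Real.log X)⌉₊ := by
  have h0 : 0 < x := lt_of_lt_of_le (Real.exp_pos _) hx1
  have h1 : Real.log X / 2 ≤ Real.log x := (Real.le_log_iff_exp_le h0).2 hx1
  have h2 : Real.log x ≤ Real.log X := Real.log_le_log h0 hx2
  unfold wl LL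
  constructor
  · apply Nat.ceil_mono
    apply mul_le_mul_of_nonneg_left _ hκ.le
    exact Real.log_le_log (by linarith) h1
  · apply Nat.ceil_mono
    apply mul_le_mul_of_nonneg_left _ hκ.le
    exact Real.log_le_log (by linarith) h2

theorem two_pow_le {κ L : ℝ} (hκ : 0 < κ) (hL : 1 ≤ L) (h : (2 * (κ * Real.log L + 1) + 2) * Real.log 2 ≤ L / 2) :
    (((2 ^ (2 * ⌈κ * Real.log L⌉₊ + 2) : ℕ)) : ℝ) ≤ Real.exp (L / 2) := by
  push_cast
  rw [← Real.rpow_natCast, Real.rpow_def_of_pos (by norm_num)]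
  apply Real.exp_le_exp.2
  have h1 : (⌈κ * Real.log L⌉₊ : ℝ) < κ * Real.log L + 1 := by
    apply Nat.ceil_lt_add_one
    exact mul_nonneg hκ.le (Real.log_nonneg hL)
  have h2 : 0 < Real.log 2 := Real.log_pos (by norm_num)
  push_cast
  nlinarith

theorem pow_half {L s : ℝ} (hL : 0 < L) (hs : s ≤ 2) :
    1 / (L / 2) ^ s ≤ 4 / L ^ s := by
  rw [Real.div_rpow hL.le (by norm_num), one_div_div]
  apply div_le_div_of_nonneg_right _ (by positivity)
  calc (2 : ℝ) ^ s ≤ 2 ^ (2 : ℝ) := Real.rpow_le_rpow_of_exponent_le (by norm_num) hs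
    _ = 4 := by norm_num

/-- the atypical windows -/
theorem Sc_BW {d : ℤ} (hd : d % 2 = 1) {c : ℝ} (hc : 1 / 2 < c) (hc1 : c < 1) {ε : ℝ} (hε0 : 0 < ε) (hε : ε ≤ 1) :
    ∃ l₀ D : ℝ, 0 ≤ D ∧ ∀ X : ℝ, 0 < X → l₀ ≤ Real.log X → Sc (BW d c ((1 + ε) / rate c)) D ε X := by
  classical
  have hr := rate_pos hc
  obtain ⟨κ, hκ⟩ : ∃ κ, κ = (1 + ε) / rate c := ⟨_, rfl⟩
  have hκ0 : 0 < κ := by rw [hκ]; positivity
  have hκr : rate c * κ = 1 + ε := by rw [hκ]; field_simp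
  obtain ⟨l₁, hl₁⟩ := eventually_atTop.1 (ev_len κ)
  have hq1 : Real.exp (-rate c) < 1 := by rw [Real.exp_lt_one_iff]; linarith
  obtain ⟨q, hq⟩ : ∃ q, q = Real.exp (-rate c) := ⟨_, rfl⟩
  have hq0 : 0 < q := by rw [hq]; positivity
  rw [← hq] at hq1
  refine ⟨max l₁ 4, 8 / (1 - q), by apply div_nonneg <;> linarith, fun X hX0 hX => ?_⟩
  rw [← hκ]
  obtain ⟨L, hL⟩ : ∃ L, L = Real.log X := ⟨_, rfl⟩
  have hL4 : 4 ≤ L := by rw [hL]; exact (le_max_right _ _).trans hX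
  have hL0 : 0 < L := by linarith
  have h1 := hl₁ L (by rw [hL]; exact (le_max_left _ _).trans hX)
  obtain ⟨a, ha⟩ : ∃ a, a = ⌈κ * Real.log (L / 2)⌉₊ := ⟨_, rfl⟩
  obtain ⟨k, hk⟩ : ∃ k, k = 2 * ⌈κ * Real.log L⌉₊ + 2 := ⟨_, rfl⟩
  have hwl : ∀ x : ℤ, Real.exp (L / 2) ≤ x → (x : ℝ) ≤ X → a ≤ wl κ x ∧ 2 * wl κ x + 2 ≤ k := by
    intro x hx1 hx2
    have h2 := wl_bounds hκ0 (X := X) (x := x) (by rw [← hL]; exact hL4) (by rw [← hL]; exact hx1) hx2
    rw [← hL, ← ha] at h2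
    refine ⟨h2.1, ?_⟩
    rw [hk]
    have := h2.2
    omega
  have hM := two_pow_le hκ0 (by linarith) h1
  rw [← hk] at hM
  unfold Sc
  rw [← hL]
  refine ⟨2 ^ k, by positivity, ?_, hM, fun x => ∃ m : ℕ, a ≤ m ∧ m ≤ k ∧ Wd d c m x, ?_, ?_, ?_⟩
  · push_cast
    exact IsCoprime.pow_left (by norm_num)
  · intro x y
    push_cast
    constructor
    · rintro ⟨m, h2, h3, h4⟩
      exact ⟨m, h2, h3, (Wd_per hd c h3 x y).1 h4⟩
    · rintro ⟨m, h2, h3, h4⟩
      exact ⟨m, h2, h3, (Wd_per hd c h3 x y).2 h4⟩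
  · have h2 : (((range (2 ^ k)).filter (fun r : ℕ => ∃ m : ℕ, a ≤ m ∧ m ≤ k ∧ Wd d c m (r : ℤ))).card : ℝ) ≤
        ∑ m ∈ Ico a (k + 1), (((range (2 ^ k)).filter (fun r : ℕ => Wd d c m (r : ℤ))).card : ℝ) := by
      have h3 : (range (2 ^ k)).filter (fun r : ℕ => ∃ m : ℕ, a ≤ m ∧ m ≤ k ∧ Wd d c m (r : ℤ)) ⊆
          (Ico a (k + 1)).biUnion (fun m => (range (2 ^ k)).filter (fun r : ℕ => Wd d c m (r : ℤ))) := by
        intro r hr
        rw [mem_filter] at hr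
        obtain ⟨hr1, m, h2, h3, h4⟩ := hr
        rw [mem_biUnion]
        exact ⟨m, mem_Ico.2 ⟨h2, by omega⟩, mem_filter.2 ⟨hr1, h4⟩⟩
      exact_mod_cast (card_le_card h3).trans card_biUnion_le
    refine h2.trans ?_
    have h3 : ∑ m ∈ Ico a (k + 1), (((range (2 ^ k)).filter (fun r : ℕ => Wd d c m (r : ℤ))).card : ℝ) ≤
        ∑ m ∈ Ico a (k + 1), 2 ^ k * 2 * q ^ m := by
      apply sum_le_sum
      intro m hm
      rw [mem_Ico] at hm
      refine (Wd_count hd hc hc1 (by omega)).trans (le_of_eq ?_)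
      rw [hq, ← Real.exp_nat_mul]
      rw [show (m : ℝ) * -rate c = -(rate c * m) by ring]
      ring
    refine h3.trans ?_
    rw [← mul_sum]
    have h4 : ∑ m ∈ Ico a (k + 1), q ^ m ≤ q ^ a / (1 - q) := by
      rcases le_or_gt a (k + 1) with h | h
      · have e1 : ∑ m ∈ Ico a (k + 1), q ^ m = (q ^ a - q ^ (k + 1)) / (1 - q) := by
          rw [geom_sum_Ico' hq1.ne h]
        rw [e1]
        apply div_le_div_of_nonneg_right _ (by linarith)
        have : 0 < q ^ (k + 1) := by positivity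
        linarith
      · rw [Ico_eq_empty (by omega), sum_empty]
        apply div_nonneg (by positivity) (by linarith)
    have h5 : q ^ a ≤ 4 / L ^ (1 + ε) := by
      have e1 : q ^ a ≤ 1 / (L / 2) ^ (1 + ε) := by
        rw [hq, ← Real.exp_nat_mul, Real.rpow_def_of_pos (by linarith), one_div, ← Real.exp_neg]
        apply Real.exp_le_exp.2
        have e2 : κ * Real.log (L / 2) ≤ a := by rw [ha]; exact Nat.le_ceil _
        have e3 := mul_le_mul_of_nonneg_left e2 hr.le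
        rw [← mul_assoc, hκr] at e3
        linarith
      exact e1.trans (pow_half hL0 (by linarith))
    have h6 : 0 < 1 - q := by linarith
    calc (2 : ℝ) ^ k * 2 * ∑ m ∈ Ico a (k + 1), q ^ m ≤ 2 ^ k * 2 * (q ^ a / (1 - q)) :=
          mul_le_mul_of_nonneg_left h4 (by positivity)
      _ ≤ 2 ^ k * 2 * (4 / L ^ (1 + ε) / (1 - q)) := by
          apply mul_le_mul_of_nonneg_left _ (by positivity)
          exact div_le_div_of_nonneg_right h5 h6.le
      _ = _ := by push_cast; field_simp; ring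
  · rintro x ⟨m, h2, h3, h4⟩ hx1 hx2
    obtain ⟨h5, h6⟩ := hwl x hx1 hx2
    exact ⟨m, h5.trans h2, h3.trans h6, h4⟩

/-- the terms are at least `x / 2 ^ i` -/
theorem half_low {d : ℤ} (hd : d % 2 = 1) {x : ℤ} : ∀ i : ℕ, 2 ^ i * |(d : ℝ)| ≤ x →
    (x : ℝ) ≤ 2 ^ i * (((Tz d)^[i] x : ℤ) : ℝ)
  | 0, _ => by simp
  | i + 1, h => by
    have hd0 := abs_nonneg (d : ℝ)
    have h2i : (1 : ℝ) ≤ 2 ^ i := one_le_pow₀ (by norm_num)
    have h1 : 2 ^ i * |(d : ℝ)| ≤ x := by rw [pow_succ] at h; nlinarith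
    have ih := half_low hd i h1
    set y : ℤ := (Tz d)^[i] x with hy
    have h2 : |(d : ℝ)| ≤ y := by
      have : (2 : ℝ) ^ i * |(d : ℝ)| ≤ 2 ^ i * y := h1.trans ih
      exact le_of_mul_le_mul_left this (by positivity)
    have h3 : -|(d : ℝ)| ≤ d := neg_abs_le _
    rw [Function.iterate_succ_apply', ← hy]
    have h5 : (y : ℝ) ≤ 2 * ((Tz d y : ℤ) : ℝ) := by
      by_cases hpar : y % 2 = 0
      · have := Tz_even (d := d) hpar
        have h2 : 2 * ((Tz d y : ℤ) : ℝ) = y := by exact_mod_cast this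
        linarith
      · have := Tz_odd hd hpar
        have h2 : 2 * ((Tz d y : ℤ) : ℝ) = 3 * y + d := by exact_mod_cast this
        linarith
    calc (x : ℝ) ≤ 2 ^ i * y := ih
      _ ≤ 2 ^ i * (2 * ((Tz d y : ℤ) : ℝ)) := mul_le_mul_of_nonneg_left h5 (by positivity)
      _ = _ := by rw [pow_succ]; ring

theorem ev_len2 (κ : ℝ) (D : ℝ) : ∀ᶠ L : ℝ in atTop,
    (2 * (κ * Real.log L + 1) + 2) * Real.log 2 ≤ L / 4 ∧ D * (2 * (κ * Real.log L + 1) + 2) ≤ Real.exp (L / 4) := by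
  have h1 : Tendsto (fun L : ℝ => Real.log L / L) atTop (nhds 0) := by
    have := Real.isLittleO_log_id_atTop.tendsto_div_nhds_zero
    simpa using this
  have h2 : Tendsto (fun L : ℝ => 2 * |κ| * (Real.log L / L) + 4 / L) atTop (nhds (2 * |κ| * 0 + 0)) :=
    (h1.const_mul _).add (tendsto_const_nhds.div_atTop tendsto_id)
  rw [mul_zero, add_zero] at h2
  filter_upwards [h2.eventually (gt_mem_nhds (show (0 : ℝ) < min (1 / 4) (1 / (4 * (|D| + 1))) by positivity)),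
    eventually_ge_atTop (1 : ℝ)] with L h3 h4
  have hL0 : 0 < L := by linarith
  have h5 : 0 ≤ Real.log L := Real.log_nonneg h4
  have h7 : κ * Real.log L ≤ |κ| * Real.log L := mul_le_mul_of_nonneg_right (le_abs_self κ) h5
  have h8 := Real.log_two_lt_d9
  have h9 := Real.log_two_gt_d9
  have e1 : (2 * |κ| * (Real.log L / L) + 4 / L) * L = 2 * |κ| * Real.log L + 4 := by field_simp
  have h0 : 0 ≤ |κ| * Real.log L := mul_nonneg (abs_nonneg κ) h5
  constructor
  · have h6 : 2 * |κ| * Real.log L + 4 < 1 / 4 * L := by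
      rw [← e1]
      exact mul_lt_mul_of_pos_right (lt_of_lt_of_le h3 (min_le_left _ _)) hL0
    nlinarith
  · have h6 : 2 * |κ| * Real.log L + 4 < 1 / (4 * (|D| + 1)) * L := by
      rw [← e1]
      exact mul_lt_mul_of_pos_right (lt_of_lt_of_le h3 (min_le_right _ _)) hL0
    have hD : D ≤ |D| + 1 := by linarith [le_abs_self D]
    have hD0 : 0 < |D| + 1 := by positivity
    have h10 : (|D| + 1) * (2 * |κ| * Real.log L + 4) ≤ L / 4 := by
      have := mul_le_mul_of_nonneg_left h6.le hD0.le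
      have e2 : (|D| + 1) * (1 / (4 * (|D| + 1)) * L) = L / 4 := by field_simp
      rwa [e2] at this
    have h11 := Real.add_one_le_exp (L / 4)
    calc D * (2 * (κ * Real.log L + 1) + 2) ≤ |D| * |2 * (κ * Real.log L + 1) + 2| := by
          rw [← abs_mul]; exact le_abs_self _
      _ ≤ (|D| + 1) * (2 * |κ| * Real.log L + 4) := by
          apply mul_le_mul (by linarith) _ (abs_nonneg _) hD0.le
          rw [abs_le]
          constructor
          · have h12 : -(|κ| * Real.log L) ≤ κ * Real.log L := by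
              have := mul_le_mul_of_nonneg_right (neg_abs_le κ) h5
              linarith
            linarith
          · linarith
      _ ≤ Real.exp (L / 4) := by linarith

/-- the large excursions -/
theorem Sc_BE {d : ℤ} (hd : d % 2 = 1) {κ : ℝ} (hκ0 : 0 < κ) {ε : ℝ} (hε0 : 0 < ε) (hε : ε ≤ 1) :
    ∃ l₀ : ℝ, ∀ X : ℝ, 0 < X → l₀ ≤ Real.log X → Sc (BE d κ ε) 8 ε X := by
  classical
  obtain ⟨l₁, hl₁⟩ := eventually_atTop.1 (ev_len2 κ |(d : ℝ)|)
  refine ⟨max l₁ 4, fun X hX0 hX => ?_⟩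
  obtain ⟨L, hL⟩ : ∃ L, L = Real.log X := ⟨_, rfl⟩
  have hL4 : 4 ≤ L := by rw [hL]; exact (le_max_right _ _).trans hX
  have hL0 : 0 < L := by linarith
  obtain ⟨h1, h1'⟩ := hl₁ L (by rw [hL]; exact (le_max_left _ _).trans hX)
  obtain ⟨k, hk⟩ : ∃ k, k = 2 * ⌈κ * Real.log L⌉₊ + 2 := ⟨_, rfl⟩
  have hwl : ∀ x : ℤ, Real.exp (L / 2) ≤ x → (x : ℝ) ≤ X → 2 * wl κ x + 2 ≤ k := by
    intro x hx1 hx2
    have h2 := wl_bounds hκ0 (X := X) (x := x) (by rw [← hL]; exact hL4) (by rw [← hL]; exact hx1) hx2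
    rw [← hL] at h2
    rw [hk]
    have := h2.2
    omega
  have hM := two_pow_le hκ0 (by linarith) (by linarith : (2 * (κ * Real.log L + 1) + 2) * Real.log 2 ≤ L / 2)
  rw [← hk] at hM
  -- `2 ^ k ≤ exp (L / 4)`, `k |d| ≤ exp (L / 4)`
  have hkR : (k : ℝ) ≤ 2 * (κ * Real.log L + 1) + 2 := by
    have h2 : (⌈κ * Real.log L⌉₊ : ℝ) < κ * Real.log L + 1 := by
      apply Nat.ceil_lt_add_one
      exact mul_nonneg hκ0.le (Real.log_nonneg (by linarith))
    rw [hk]; push_cast; linarith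
  have h2k : (2 : ℝ) ^ k ≤ Real.exp (L / 4) := by
    rw [← Real.rpow_natCast, Real.rpow_def_of_pos (by norm_num)]
    apply Real.exp_le_exp.2
    have h2 : 0 < Real.log 2 := Real.log_pos (by norm_num)
    nlinarith
  have hkd : (k : ℝ) * |(d : ℝ)| ≤ Real.exp (L / 4) := by
    have := mul_le_mul_of_nonneg_right hkR (abs_nonneg (d : ℝ))
    linarith
  have hq : Real.exp (L / 4) * Real.exp (L / 4) = Real.exp (L / 2) := by rw [← Real.exp_add]; congr 1; ring
  unfold Sc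
  rw [← hL]
  refine ⟨2 ^ k, by positivity, ?_, hM, fun x => Exr d ((L / 2) ^ (1 + ε)) 2 k x, ?_, ?_, ?_⟩
  · push_cast
    exact IsCoprime.pow_left (by norm_num)
  · intro x y
    push_cast
    have key : ∀ i ≤ k, od d i (x + y * 2 ^ k) = od d i x := by
      intro i hi
      obtain ⟨c, rfl⟩ : ∃ c, k = c + i := ⟨k - i, by omega⟩
      rw [pow_add, ← mul_assoc, od_periodic hd]
    unfold Exr
    constructor
    · rintro ⟨i, hi, h⟩
      exact ⟨i, hi, by rwa [key i hi] at h⟩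
    · rintro ⟨i, hi, h⟩
      exact ⟨i, hi, by rwa [key i hi]⟩
  · have h2 := exc_frac hd (lam := (L / 2) ^ (1 + ε)) (by positivity) k 2 (by norm_num)
    refine h2.trans ?_
    have h3 := pow_half hL0 (s := 1 + ε) (by linarith)
    push_cast
    calc (2 : ℝ) ^ k * (2 / (L / 2) ^ (1 + ε)) = 2 ^ k * 2 * (1 / (L / 2) ^ (1 + ε)) := by ring
      _ ≤ 2 ^ k * 2 * (4 / L ^ (1 + ε)) := mul_le_mul_of_nonneg_left h3 (by positivity)
      _ = _ := by ring
  · rintro x ⟨m, h3, h4⟩ hx1 hx2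
    have h6 := hwl x hx1 hx2
    have hmk : m ≤ k := h3.trans h6
    refine ⟨m, hmk, ?_⟩
    have hx0R : (0 : ℝ) < x := lt_of_lt_of_le (Real.exp_pos _) hx1
    have hx0 : 0 < x := by exact_mod_cast hx0R
    have hlx : L / 2 ≤ Real.log x := (Real.le_log_iff_exp_le hx0R).2 hx1
    have hd0 := abs_nonneg (d : ℝ)
    have hz : ∀ i < m, Real.exp (L / 4) ≤ (((Tz d)^[i] x : ℤ) : ℝ) := by
      intro i hi
      have hik : (2 : ℝ) ^ i ≤ Real.exp (L / 4) := (pow_le_pow_right₀ (by norm_num) (by omega)).trans h2k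
      rcases Nat.eq_zero_or_pos k with hk0 | hk0
      · omega
      have hd1 : |(d : ℝ)| ≤ Real.exp (L / 4) := by
        refine le_trans ?_ hkd
        have : (1 : ℝ) ≤ k := by exact_mod_cast hk0
        nlinarith
      have h7 := half_low hd i (x := x) (by
        calc (2 : ℝ) ^ i * |(d : ℝ)| ≤ Real.exp (L / 4) * Real.exp (L / 4) :=
              mul_le_mul hik hd1 hd0 (Real.exp_pos _).le
          _ = Real.exp (L / 2) := hq
          _ ≤ x := hx1)
      have h8 : Real.exp (L / 4) * Real.exp (L / 4) ≤ Real.exp (L / 4) * (((Tz d)^[i] x : ℤ) : ℝ) := by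
        rw [hq]
        have h9 : 0 < (((Tz d)^[i] x : ℤ) : ℝ) := by
          by_contra hcon
          have : (2 : ℝ) ^ i * (((Tz d)^[i] x : ℤ) : ℝ) ≤ 0 := mul_nonpos_of_nonneg_of_nonpos (by positivity) (not_lt.1 hcon)
          linarith
        exact hx1.trans (h7.trans (mul_le_mul_of_nonneg_right hik h9.le))
      exact le_of_mul_le_mul_left h8 (Real.exp_pos _)
    have hmd : (m : ℝ) * |(d : ℝ)| ≤ Real.exp (L / 4) := by
      refine le_trans ?_ hkd
      apply mul_le_mul_of_nonneg_right _ hd0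
      exact_mod_cast hmk
    have h7 := growth_two hd (Real.exp_pos (L / 4)) hmd hx0 hz
    have h8 : (L / 2) ^ (1 + ε) ≤ Real.log x ^ (1 + ε) := Real.rpow_le_rpow (by linarith) hlx (by linarith)
    rw [lt_div_iff₀ (by positivity)]
    have h9 : x * ((L / 2) ^ (1 + ε) * 2 ^ m) < x * (2 * 3 ^ od d m x) := by
      calc (x : ℝ) * ((L / 2) ^ (1 + ε) * 2 ^ m) ≤ x * Real.log x ^ (1 + ε) * 2 ^ m := by
            rw [← mul_assoc]
            apply mul_le_mul_of_nonneg_right _ (by positivity)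
            exact mul_le_mul_of_nonneg_left h8 hx0R.le
        _ < (((Tz d)^[m] x : ℤ) : ℝ) * 2 ^ m := mul_lt_mul_of_pos_right h4 (by positivity)
        _ ≤ 2 * (3 ^ od d m x * x) := h7
        _ = _ := by ring
    exact lt_of_mul_lt_mul_left h9 hx0R.le

end Run7.h702.BC
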