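import Pool.Agent.Run7.h702.BC.C

/-! Consequences for the trajectories which avoid the atypical windows. -/

set_option autoImplicit false

namespace Run7.h702.BC

open Finset Filter
open Pool.Agent.H499R2.CO (Tz)
open Pool.Agent.R344.SP Pool.Agent.R344.TH
open Run7.h702.AT

theorem od_add (d : ℤ) (a b : ℕ) (x : ℤ) : od d (a + b) x = od d a x + od d b ((Tz d)^[a] x) := by
  unfold od
  rw [sum_range_add]
  congr 1
  apply sum_congr rfl
  intro k _
  rw [← Function.iterate_add_apply, Nat.add_comm k a]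

/-- `Y` is large with respect to `d` and `κ` -/
def Lrg (d : ℤ) (κ Y : ℝ) : Prop := 3 < Y ∧ |(d : ℝ)| ≤ Y ∧ ∀ x : ℝ, Y ≤ x → 0 < κ * LL x ∧
  κ * ((κ * LL x + 1) * Real.log 2) ≤ Real.log x

theorem Lrg_ev {d : ℤ} {κ : ℝ} (hκ : 0 < κ) : ∃ Y₀ : ℝ, ∀ Y : ℝ, Y₀ ≤ Y → Lrg d κ Y := by
  have h1 : Tendsto (fun L : ℝ => Real.log L / L) atTop (nhds 0) := by
    have := Real.isLittleO_log_id_atTop.tendsto_div_nhds_zero
    simpa using this
  have h2 : Tendsto (fun L : ℝ => κ * κ * (Real.log L / L) + κ / L) atTop (nhds (κ * κ * 0 + 0)) :=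
    (h1.const_mul _).add (tendsto_const_nhds.div_atTop tendsto_id)
  rw [mul_zero, add_zero] at h2
  obtain ⟨L₀, hL₀⟩ := eventually_atTop.1 (h2.eventually (gt_mem_nhds (by norm_num : (0 : ℝ) < 1)))
  refine ⟨max (max (Real.exp (max L₀ 2)) |(d : ℝ)|) 4, fun Y hY => ⟨?_, ?_, fun x hx => ?_⟩⟩
  · have := (le_max_right _ _).trans hY
    linarith
  · exact (le_max_right _ _).trans ((le_max_left _ _).trans hY)
  · have h3 : Real.exp (max L₀ 2) ≤ x := (le_max_left _ _).trans ((le_max_left _ _).trans (hY.trans hx))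
    have hx0 : 0 < x := lt_of_lt_of_le (Real.exp_pos _) h3
    have h4 : max L₀ 2 ≤ Real.log x := (Real.le_log_iff_exp_le hx0).2 h3
    have h5 := hL₀ _ ((le_max_left _ _).trans h4)
    have h6 : 2 ≤ Real.log x := (le_max_right _ _).trans h4
    have h7 : 0 < LL x := Real.log_pos (by linarith)
    refine ⟨by positivity, ?_⟩
    have hL0 : 0 < Real.log x := by linarith
    have e1 : (κ * κ * (Real.log (Real.log x) / Real.log x) + κ / Real.log x) * Real.log x =
        κ * κ * Real.log (Real.log x) + κ := by field_simp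
    have h8 : κ * κ * Real.log (Real.log x) + κ ≤ Real.log x := by
      rw [← e1]
      calc _ ≤ 1 * Real.log x := mul_le_mul_of_nonneg_right h5.le hL0.le
        _ = _ := one_mul _
    have h9 := Real.log_two_lt_d9
    have h10 : 0 < Real.log 2 := Real.log_pos (by norm_num)
    unfold LL at h7 ⊢
    calc κ * ((κ * Real.log (Real.log x) + 1) * Real.log 2) ≤ κ * ((κ * Real.log (Real.log x) + 1) * 1) := by
          apply mul_le_mul_of_nonneg_left _ hκ.le
          apply mul_le_mul_of_nonneg_left (by linarith) (by positivity)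
      _ ≤ _ := by linarith

theorem wl_pos {d : ℤ} {κ Y x : ℝ} (hY : Lrg d κ Y) (hx : Y ≤ x) : 0 < wl κ x := by
  unfold wl
  rw [Nat.ceil_pos]
  exact (hY.2.2 x hx).1

theorem wl_next {d : ℤ} {κ : ℝ} (hκ : 0 < κ) {Y x x' : ℝ} (hY : Lrg d κ Y) (hx : Y ≤ x) (hx' : Y ≤ x')
    (h : x' ≤ 2 ^ wl κ x * x) : wl κ x' ≤ wl κ x + 1 := by
  have hx3 : 3 < x := lt_of_lt_of_le hY.1 hx
  have hx3' : 3 < x' := lt_of_lt_of_le hY.1 hx'
  have hlx : 0 < Real.log x := Real.log_pos (by linarith)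
  have hlx' : 0 < Real.log x' := Real.log_pos (by linarith)
  obtain ⟨h1, h2⟩ := hY.2.2 x hx
  have h3 : (wl κ x : ℝ) ≤ κ * LL x + 1 := (Nat.ceil_lt_add_one h1.le).le
  have h4 : Real.log x' ≤ Real.log x + wl κ x * Real.log 2 := by
    have := Real.log_le_log (by linarith) h
    rw [Real.log_mul (by positivity) (by linarith), Real.log_pow] at this
    linarith
  have h10 : 0 < Real.log 2 := Real.log_pos (by norm_num)
  have h5 : LL x' ≤ LL x + wl κ x * Real.log 2 / Real.log x := by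
    unfold LL
    have h6 : Real.log x + wl κ x * Real.log 2 = Real.log x * (1 + wl κ x * Real.log 2 / Real.log x) := by
      field_simp
    have h7 : Real.log (Real.log x') ≤ Real.log (Real.log x + wl κ x * Real.log 2) := Real.log_le_log hlx' h4
    rw [h6, Real.log_mul hlx.ne' (by positivity)] at h7
    have h8 := Real.log_le_sub_one_of_pos (show 0 < 1 + wl κ x * Real.log 2 / Real.log x by positivity)
    linarith
  have h6 : κ * LL x' ≤ κ * LL x + 1 := by
    have h7 : κ * (wl κ x * Real.log 2 / Real.log x) ≤ 1 := by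
      rw [← mul_div_assoc, div_le_one hlx]
      refine le_trans ?_ h2
      apply mul_le_mul_of_nonneg_left _ hκ.le
      exact mul_le_mul_of_nonneg_right h3 h10.le
    have := mul_le_mul_of_nonneg_left h5 hκ.le
    linarith
  unfold wl
  calc ⌈κ * LL x'⌉₊ ≤ ⌈κ * LL x + 1⌉₊ := Nat.ceil_mono h6
    _ = ⌈κ * LL x⌉₊ + 1 := Nat.ceil_add_one h1.le

/-- **All the windows.** -/
theorem windows {d : ℤ} (hd : d % 2 = 1) {c κ : ℝ} (hκ : 0 < κ) {Y : ℝ} (hY : Lrg d κ Y) {n : ℤ}
    (hn : n ∉ HY d (BW d c κ) Y) : ∀ m i : ℕ, (∀ j ≤ i, Y ≤ (((Tz d)^[j] n : ℤ) : ℝ)) →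
      wl κ (((Tz d)^[i] n : ℤ) : ℝ) ≤ m → (∀ j < m, Y ≤ (((Tz d)^[i + j] n : ℤ) : ℝ)) →
      ¬ Wd d c m ((Tz d)^[i] n) := by
  have hbad : ∀ i : ℕ, (∀ j ≤ i, Y ≤ (((Tz d)^[j] n : ℤ) : ℝ)) → (Tz d)^[i] n ∉ BW d c κ :=
    fun i hi h => hn ⟨i, h, hi⟩
  intro m
  induction m using Nat.strong_induction_on with
  | _ m ih =>
    intro i hi hm hj
    obtain ⟨x, hx⟩ : ∃ x, x = (Tz d)^[i] n := ⟨_, rfl⟩
    rw [← hx] at hm ⊢
    have hxb := hbad i hi
    rw [← hx] at hxb
    have hxY : Y ≤ (x : ℝ) := by rw [hx]; exact hi i le_rfl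
    rcases le_or_gt m (2 * wl κ x + 2) with h | h
    · intro hW
      exact hxb ⟨m, hm, h, hW⟩
    · obtain ⟨a, ha⟩ : ∃ a, a = wl κ (x : ℝ) := ⟨_, rfl⟩
      rw [← ha] at h hm
      have ha0 : 0 < a := by rw [ha]; exact wl_pos hY hxY
      obtain ⟨b, rfl⟩ : ∃ b, m = a + b := ⟨m - a, by omega⟩
      have hx' : (Tz d)^[a] x = (Tz d)^[i + a] n := by
        rw [hx, ← Function.iterate_add_apply, Nat.add_comm]
      have hgo : ∀ j ≤ i + a, Y ≤ (((Tz d)^[j] n : ℤ) : ℝ) := by
        intro j hj'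
        rcases le_or_gt j i with h1 | h1
        · exact hi j h1
        · obtain ⟨e, rfl⟩ : ∃ e, j = i + e := ⟨j - i, by omega⟩
          exact hj e (by omega)
      have hcr : (((Tz d)^[a] x : ℤ) : ℝ) ≤ 2 ^ a * x := by
        apply crude hd hY.2.1 a
        intro e he
        have := hj e (by omega)
        rwa [Nat.add_comm, Function.iterate_add_apply, ← hx] at this
      have hw : wl κ (((Tz d)^[a] x : ℤ) : ℝ) ≤ a + 1 := by
        have h2 : Y ≤ (((Tz d)^[a] x : ℤ) : ℝ) := by rw [hx']; exact hgo _ le_rfl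
        have := wl_next hκ hY hxY h2 (by rw [← ha]; exact hcr)
        rwa [← ha] at this
      have h1 := ih b (by omega) (i + a) hgo (by rw [← hx']; omega) (by
        intro j hj'
        have := hj (a + j) (by omega)
        rwa [← Nat.add_assoc] at this)
      rw [← hx'] at h1
      have h2 : ¬ Wd d c a x := fun hW => hxb ⟨a, by rw [← ha], by rw [← ha]; omega, hW⟩
      unfold Wd at h1 h2 ⊢
      push Not at h1 h2 ⊢
      rw [od_add]
      push_cast
      constructor
      · nlinarith [h1.1, h2.1]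
      · nlinarith [h1.2, h2.2]

/-- growth above the level `z`, from below -/
theorem growth_low {d : ℤ} (hd : d % 2 = 1) {z : ℝ} (hz : 0 < z) (hdz : |(d : ℝ)| ≤ z) {x : ℤ} (hx : 0 < x) : ∀ j : ℕ,
    (∀ i < j, z ≤ (((Tz d)^[i] x : ℤ) : ℝ)) →
      3 ^ od d j x * x * (1 - |(d : ℝ)| / (3 * z)) ^ j ≤ (((Tz d)^[j] x : ℤ) : ℝ) * 2 ^ j
  | 0, _ => by simp [od]
  | j + 1, h => by
    have ih := growth_low hd hz hdz hx j (fun i hi => h i (by omega))
    have hy := h j (by omega)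
    set y : ℤ := (Tz d)^[j] x with hydef
    have hy0 : (0 : ℝ) < y := lt_of_lt_of_le hz hy
    have hE : (0 : ℝ) ≤ |(d : ℝ)| / (3 * z) := by positivity
    have hE1 : |(d : ℝ)| / (3 * z) ≤ 1 := by
      rw [div_le_one (by positivity)]; linarith
    have hE2 : 0 ≤ 1 - |(d : ℝ)| / (3 * z) := by linarith
    have hxR : (0 : ℝ) < x := by exact_mod_cast hx
    rw [Function.iterate_succ_apply', ← hydef, od_succ, ← hydef]
    by_cases hpar : y % 2 = 0
    · have e1 : (((Tz d y : ℤ)) : ℝ) * 2 = y := by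
        have := Tz_even (d := d) hpar
        have h2 : 2 * ((Tz d y : ℤ) : ℝ) = y := by exact_mod_cast this
        linarith
      have e2 : (y % 2).toNat = 0 := by rw [hpar]; rfl
      rw [e2, add_zero]
      calc 3 ^ od d j x * x * (1 - |(d : ℝ)| / (3 * z)) ^ (j + 1) ≤ 3 ^ od d j x * x * (1 - |(d : ℝ)| / (3 * z)) ^ j := by
            apply mul_le_mul_of_nonneg_left _ (by positivity)
            exact pow_le_pow_of_le_one hE2 (by linarith) (by omega)
        _ ≤ y * 2 ^ j := ih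
        _ = (((Tz d y : ℤ)) : ℝ) * 2 * 2 ^ j := by rw [e1]
        _ = _ := by rw [pow_succ]; ring
    · have e1 : 3 * y * (1 - |(d : ℝ)| / (3 * z)) ≤ (((Tz d y : ℤ)) : ℝ) * 2 := by
        have := Tz_odd hd hpar
        have h2 : 2 * ((Tz d y : ℤ) : ℝ) = 3 * y + d := by exact_mod_cast this
        have h3 : -|(d : ℝ)| ≤ (d : ℝ) := neg_abs_le _
        have h4 : |(d : ℝ)| ≤ 3 * y * (|(d : ℝ)| / (3 * z)) := by
          have : 3 * (y : ℝ) * (|(d : ℝ)| / (3 * z)) = |(d : ℝ)| * (y / z) := by field_simp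
          rw [this]
          have h5 : 1 ≤ (y : ℝ) / z := by rw [le_div_iff₀ hz]; linarith
          exact le_mul_of_one_le_right (abs_nonneg _) h5
        linarith
      have e2 : (y % 2).toNat = 1 := by
        have : y % 2 = 1 := by omega
        rw [this]; rfl
      rw [e2]
      calc 3 ^ (od d j x + 1) * x * (1 - |(d : ℝ)| / (3 * z)) ^ (j + 1)
          = 3 * (1 - |(d : ℝ)| / (3 * z)) * (3 ^ od d j x * x * (1 - |(d : ℝ)| / (3 * z)) ^ j) := by
            rw [pow_succ, pow_succ]; ring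
        _ ≤ 3 * (1 - |(d : ℝ)| / (3 * z)) * (y * 2 ^ j) := mul_le_mul_of_nonneg_left ih (by positivity)
        _ = 3 * y * (1 - |(d : ℝ)| / (3 * z)) * 2 ^ j := by ring
        _ ≤ (((Tz d y : ℤ)) : ℝ) * 2 * 2 ^ j := mul_le_mul_of_nonneg_right e1 (by positivity)
        _ = _ := by rw [pow_succ]; ring

/-- **The logarithmic size after `m` steps.** -/
theorem log_iter {d : ℤ} (hd : d % 2 = 1) {z : ℝ} (hz : 0 < z) (hdz : |(d : ℝ)| ≤ z) {x : ℤ} (hx : 0 < x) {m : ℕ}
    (h : ∀ i < m, z ≤ (((Tz d)^[i] x : ℤ) : ℝ)) : 0 < (((Tz d)^[m] x : ℤ) : ℝ) ∧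
    |Real.log (((Tz d)^[m] x : ℤ) : ℝ) - (Real.log x + od d m x * Real.log 3 - m * Real.log 2)| ≤
      m * (|(d : ℝ)| / z) := by
  have h1 := growth hd hz hx m h
  have h2 := growth_low hd hz hdz hx m h
  have hxR : (0 : ℝ) < x := by exact_mod_cast hx
  have hd0 := abs_nonneg (d : ℝ)
  obtain ⟨t, ht⟩ : ∃ t, t = |(d : ℝ)| / (3 * z) := ⟨_, rfl⟩
  rw [← ht] at h1 h2
  have ht0 : 0 ≤ t := by rw [ht]; positivity
  have ht1 : t ≤ 1 / 3 := by rw [ht, div_le_div_iff₀ (by positivity) (by norm_num)]; linarith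
  have h3t : 3 * t = |(d : ℝ)| / z := by rw [ht]; field_simp
  have hpos : 0 < (((Tz d)^[m] x : ℤ) : ℝ) := by
    have h3 : 0 < 3 ^ od d m x * (x : ℝ) * (1 - t) ^ m := by
      have : 0 < 1 - t := by linarith
      positivity
    have h4 := lt_of_lt_of_le h3 h2
    by_contra hcon
    have := mul_nonpos_of_nonpos_of_nonneg (not_lt.1 hcon) (show (0 : ℝ) ≤ 2 ^ m by positivity)
    linarith
  refine ⟨hpos, ?_⟩
  have h5 : Real.log ((((Tz d)^[m] x : ℤ) : ℝ) * 2 ^ m) = Real.log (((Tz d)^[m] x : ℤ) : ℝ) + m * Real.log 2 := by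
    rw [Real.log_mul hpos.ne' (by positivity), Real.log_pow]
  have h6 : ∀ s : ℝ, 0 < s → Real.log (3 ^ od d m x * (x : ℝ) * s ^ m) =
      od d m x * Real.log 3 + Real.log x + m * Real.log s := by
    intro s hs
    rw [Real.log_mul (by positivity) (by positivity), Real.log_mul (by positivity) hxR.ne', Real.log_pow, Real.log_pow]
  have h7 := Real.log_le_log (by positivity) h1
  have h8 := Real.log_le_log (by have : 0 < 1 - t := by linarith
                                 positivity) h2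
  rw [h5, h6 _ (by linarith)] at h7
  rw [h5, h6 _ (by linarith)] at h8
  have hm0 : (0 : ℝ) ≤ m := Nat.cast_nonneg m
  have h9 : Real.log (1 + t) ≤ 3 * t := by
    have := Real.log_le_sub_one_of_pos (show 0 < 1 + t by linarith)
    linarith
  have h10 : -(3 * t) ≤ Real.log (1 - t) := by
    have h11 := Real.one_sub_inv_le_log_of_pos (show 0 < 1 - t by linarith)
    have h12 : (1 - t)⁻¹ ≤ 1 + 3 * t := by
      rw [inv_le_comm₀ (by linarith) (by linarith), inv_eq_one_div, div_le_iff₀ (by linarith)]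
      nlinarith
    linarith
  rw [← h3t, abs_le]
  constructor
  · nlinarith
  · nlinarith

end Run7.h702.BC
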