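import Pool.Agent.Run7.h702.BC.D

/-! Counting the exceptional integers. -/

set_option autoImplicit false

namespace Run7.h702.BC

open Finset Filter
open Pool.Agent.H499R2.CO (Tz)
open Pool.Agent.R344.SP Pool.Agent.R344.TH
open Run7.h702.AT

open scoped Classical in
theorem count_of_Sc {d : ℤ} (hd : Odd d) (hd3 : IsCoprime d 3) {ε : ℝ} (hε0 : 0 < ε) (hε : ε ≤ 1) {A : Set ℤ}
    (hA : ∃ l₀ D : ℝ, 0 ≤ D ∧ ∀ X : ℝ, 0 < X → l₀ ≤ Real.log X → Sc A D ε X) :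
    ∃ Y₁ K : ℝ, 2 ≤ Y₁ ∧ 0 < K ∧ ∀ Y : ℝ, Y₁ ≤ Y → ∀ N : ℕ,
      (((Icc (1 : ℤ) N).filter (fun n => n ∈ HY d A Y)).card : ℝ) ≤ K * N / (Real.log Y) ^ (ε / 2) := by
  obtain ⟨l₁, D, hD, hSc⟩ := hA
  obtain ⟨l₂, K, hl₂, hK, h⟩ := borel_cantelli hd hd3 hε0 hε
  refine ⟨Real.exp (max (max l₁ l₂) 2), K * (1 + D), ?_, by positivity, ?_⟩
  · have h1 := Real.add_one_le_exp (max (max l₁ l₂) 2)
    have h2 := le_max_right (max l₁ l₂) 2
    linarith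
  · intro Y hY N
    have hY0 : 0 < Y := lt_of_lt_of_le (Real.exp_pos _) hY
    have h1 : max (max l₁ l₂) 2 ≤ Real.log Y := (Real.le_log_iff_exp_le hY0).2 hY
    have h2 : max l₁ l₂ ≤ Real.log Y := (le_max_left _ _).trans h1
    exact h Y hY0 ((le_max_right _ _).trans h2) A D hD (fun X hX => hSc X (lt_of_lt_of_le hY0 hX)
      (((le_max_left _ _).trans h2).trans (Real.log_le_log hY0 hX))) N

open scoped Classical in
/-- from large `Y` to all `Y ≥ 2` -/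
theorem count_all {η : ℝ} (hη : 0 < η) {P : ℝ → ℤ → Prop} {Y₁ K : ℝ} (hK : 0 < K)
    (h : ∀ Y : ℝ, Y₁ ≤ Y → ∀ N : ℕ, (((Icc (1 : ℤ) N).filter (fun n => ¬ P Y n)).card : ℝ) ≤ K * N / (Real.log Y) ^ η) :
    ∃ K : ℝ, 0 < K ∧ ∀ Y : ℝ, 2 ≤ Y → ∀ N : ℕ,
      (((Icc (1 : ℤ) N).filter (fun n => ¬ P Y n)).card : ℝ) ≤ K * N / (Real.log Y) ^ η := by
  refine ⟨max K ((Real.log Y₁) ^ η), by positivity, fun Y hY N => ?_⟩
  have hlog : 0 < Real.log Y := Real.log_pos (by linarith)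
  rcases le_or_gt Y₁ Y with h1 | h1
  · refine (h Y h1 N).trans ?_
    apply div_le_div_of_nonneg_right _ (by positivity)
    exact mul_le_mul_of_nonneg_right (le_max_left _ _) (Nat.cast_nonneg N)
  · have h2 : (((Icc (1 : ℤ) N).filter (fun n => ¬ P Y n)).card : ℝ) ≤ N := by
      have : ((Icc (1 : ℤ) N).filter (fun n => ¬ P Y n)).card ≤ N := by
        refine (card_filter_le _ _).trans ?_
        rw [Int.card_Icc]; omega
      exact_mod_cast this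
    refine h2.trans ?_
    rw [le_div_iff₀ (by positivity), mul_comm]
    apply mul_le_mul_of_nonneg_right _ (Nat.cast_nonneg N)
    refine le_trans ?_ (le_max_right _ _)
    exact Real.rpow_le_rpow hlog.le (Real.log_le_log (by linarith) h1.le) hη.le

/-- The window `T^i n, …, T^(i+m-1) n`, of length at least `κ log log T^i n`, has between `(1-c) m` and `c m` odd
terms, if it lies before the first value smaller than `Y`. -/
def PW (d : ℤ) (c κ : ℝ) (Y : ℝ) (n : ℤ) : Prop :=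
  ∀ i m : ℕ, (∀ j ≤ i, Y ≤ (((Tz d)^[j] n : ℤ) : ℝ)) → (∀ j < m, Y ≤ (((Tz d)^[i + j] n : ℤ) : ℝ)) →
    κ * LL (((Tz d)^[i] n : ℤ) : ℝ) ≤ m →
    (1 - c) * m < od d m ((Tz d)^[i] n) ∧ (od d m ((Tz d)^[i] n) : ℝ) < c * m

theorem PW_of {d : ℤ} (hd : d % 2 = 1) {c κ : ℝ} (hκ : 0 < κ) {Y : ℝ} (hY : Lrg d κ Y) {n : ℤ}
    (hn : n ∉ HY d (BW d c κ) Y) : PW d c κ Y n := by
  intro i m hi hm hk
  have h1 := windows hd hκ hY hn m i hi (by unfold wl; exact Nat.ceil_le.2 hk) hm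
  unfold Wd at h1
  push Not at h1
  exact ⟨h1.2, h1.1⟩

open scoped Classical in
/-- **The law of the windows, upper half.** -/
theorem PW_count {d : ℤ} (hd : Odd d) (hd3 : IsCoprime d 3) {c : ℝ} (hc : 1 / 2 < c) (hc1 : c < 1) {ε : ℝ}
    (hε0 : 0 < ε) (hε : ε ≤ 1) : ∃ K : ℝ, 0 < K ∧ ∀ Y : ℝ, 2 ≤ Y → ∀ N : ℕ,
      (((Icc (1 : ℤ) N).filter (fun n => ¬ PW d c ((1 + ε) / rate c) Y n)).card : ℝ) ≤
        K * N / (Real.log Y) ^ (ε / 2) := by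
  have hr := rate_pos hc
  have hκ : 0 < (1 + ε) / rate c := by positivity
  obtain ⟨Y₁, K, _, hK, h⟩ := count_of_Sc hd hd3 hε0 hε (Sc_BW (Int.odd_iff.1 hd) hc hc1 hε0 hε)
  obtain ⟨Y₂, hY₂⟩ := Lrg_ev (d := d) hκ
  refine count_all (by positivity) (Y₁ := max Y₁ Y₂) hK ?_
  intro Y hY N
  refine le_trans ?_ (h Y ((le_max_left _ _).trans hY) N)
  have : (Icc (1 : ℤ) N).filter (fun n => ¬ PW d c ((1 + ε) / rate c) Y n) ⊆
      (Icc (1 : ℤ) N).filter (fun n => n ∈ HY d (BW d c ((1 + ε) / rate c)) Y) := by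
    intro n hn
    rw [mem_filter] at hn ⊢
    refine ⟨hn.1, ?_⟩
    by_contra hcon
    exact hn.2 (PW_of (Int.odd_iff.1 hd) hκ (hY₂ Y ((le_max_right _ _).trans hY)) hcon)
  exact_mod_cast card_le_card this

/-- `κ₀ = 1 / (log 2 - h (log 2 / log 3))` -/
noncomputable def κ₀ : ℝ := 1 / rate (Real.log 2 / Real.log 3)

theorem c0_gt : 1 / 2 < Real.log 2 / Real.log 3 := by
  have h3 : 0 < Real.log 3 := Real.log_pos (by norm_num)
  rw [lt_div_iff₀ h3]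
  have h1 : Real.log 3 < Real.log 4 := Real.log_lt_log (by norm_num) (by norm_num)
  have h2 : Real.log 4 = 2 * Real.log 2 := by
    rw [show (4 : ℝ) = 2 ^ 2 by norm_num, Real.log_pow]; norm_num
  linarith

theorem c0_lt : Real.log 2 / Real.log 3 < 1 := by
  have h3 : 0 < Real.log 3 := Real.log_pos (by norm_num)
  rw [div_lt_one h3]
  exact Real.log_lt_log (by norm_num) (by norm_num)

theorem κ₀_pos : 0 < κ₀ := by
  unfold κ₀
  have := rate_pos c0_gt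
  positivity

/-- a threshold below `log 2 / log 3` -/
theorem exists_c {ε : ℝ} (hε : 0 < ε) : ∃ c ε' : ℝ, 1 / 2 < c ∧ c < Real.log 2 / Real.log 3 ∧ 0 < ε' ∧ ε' ≤ 1 ∧
    (1 + ε') / rate c ≤ κ₀ + ε := by
  have h1 : Continuous rate := by
    unfold rate
    exact continuous_const.sub Real.binEntropy_continuous
  have hr := rate_pos c0_gt
  have h2 : ContinuousAt (fun c => 1 / rate c) (Real.log 2 / Real.log 3) :=
    continuousAt_const.div h1.continuousAt hr.ne'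
  have h3 := h2.eventually (gt_mem_nhds (show 1 / rate (Real.log 2 / Real.log 3) < κ₀ + ε / 2 by
    unfold κ₀; linarith))
  obtain ⟨δ, hδ, h4⟩ := Metric.eventually_nhds_iff.1 h3
  obtain ⟨c, hc1, hc2, hc3⟩ : ∃ c, 1 / 2 < c ∧ c < Real.log 2 / Real.log 3 ∧
      dist c (Real.log 2 / Real.log 3) < δ := by
    have h5 := c0_gt
    obtain ⟨c, h6, h7⟩ := exists_between (show max (1 / 2) (Real.log 2 / Real.log 3 - δ) < Real.log 2 / Real.log 3 by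
      rw [max_lt_iff]; constructor <;> linarith)
    rw [max_lt_iff] at h6
    refine ⟨c, h6.1, h7, ?_⟩
    rw [Real.dist_eq, abs_lt]
    constructor <;> linarith
  have h6 := h4 hc3
  have hκ := κ₀_pos
  refine ⟨c, min 1 (ε / (2 * (κ₀ + ε))), hc1, hc2, by positivity, min_le_left _ _, ?_⟩
  have h7 : min 1 (ε / (2 * (κ₀ + ε))) * (κ₀ + ε) ≤ ε / 2 := by
    calc min 1 (ε / (2 * (κ₀ + ε))) * (κ₀ + ε) ≤ ε / (2 * (κ₀ + ε)) * (κ₀ + ε) :=
          mul_le_mul_of_nonneg_right (min_le_right _ _) (by positivity)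
      _ = ε / 2 := by field_simp
  have h8 : (1 + min 1 (ε / (2 * (κ₀ + ε)))) / rate c = 1 / rate c + min 1 (ε / (2 * (κ₀ + ε))) * (1 / rate c) := by
    ring
  rw [h8]
  have h9 : min 1 (ε / (2 * (κ₀ + ε))) * (1 / rate c) ≤ min 1 (ε / (2 * (κ₀ + ε))) * (κ₀ + ε) := by
    apply mul_le_mul_of_nonneg_left _ (by positivity)
    linarith
  linarith

/-- After `κ log log T^i n` steps the trajectory is below `T^i n`. -/
def PS (d : ℤ) (κ : ℝ) (Y : ℝ) (n : ℤ) : Prop :=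
  ∀ i m : ℕ, (∀ j ≤ i, Y ≤ (((Tz d)^[j] n : ℤ) : ℝ)) → (∀ j < m, Y ≤ (((Tz d)^[i + j] n : ℤ) : ℝ)) →
    κ * LL (((Tz d)^[i] n : ℤ) : ℝ) ≤ m → (Tz d)^[i + m] n < (Tz d)^[i] n

theorem LL_pos_of_Lrg {d : ℤ} {κ : ℝ} (hκ : 0 < κ) {Y x : ℝ} (hY : Lrg d κ Y) (hx : Y ≤ x) : 0 < LL x := by
  by_contra hcon
  have := mul_nonpos_of_nonneg_of_nonpos hκ.le (not_lt.1 hcon)
  linarith [(hY.2.2 x hx).1]

theorem PS_of {d : ℤ} (hd : d % 2 = 1) {c κ κ' : ℝ} (hκ : 0 < κ) (hκκ : κ ≤ κ') {Y : ℝ} (hY : Lrg d κ Y)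
    (hc : c * Real.log 3 + |(d : ℝ)| / Y < Real.log 2) {n : ℤ} (hPW : PW d c κ Y n) : PS d κ' Y n := by
  intro i m hi hm hk
  have hY0 : 0 < Y := by linarith [hY.1]
  have hxY := hi i le_rfl
  obtain ⟨x, hx⟩ : ∃ x, x = (Tz d)^[i] n := ⟨_, rfl⟩
  rw [← hx] at hxY hk
  have hLL := LL_pos_of_Lrg hκ hY hxY
  have hk2 : κ * LL (x : ℝ) ≤ m := (mul_le_mul_of_nonneg_right hκκ hLL.le).trans hk
  have hm0 : (0 : ℝ) < m := lt_of_lt_of_le (by positivity) hk2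
  have h1 := (hPW i m hi hm (by rw [← hx]; exact hk2)).2
  rw [← hx] at h1
  have hx0R : (0 : ℝ) < x := by linarith
  have hx0 : 0 < x := by exact_mod_cast hx0R
  have h2 : ∀ j < m, Y ≤ (((Tz d)^[j] x : ℤ) : ℝ) := by
    intro j hj
    have := hm j hj
    rwa [Nat.add_comm, Function.iterate_add_apply, ← hx] at this
  obtain ⟨h3, h4⟩ := log_iter hd hY0 hY.2.1 hx0 h2
  have h5 := (abs_le.1 h4).2
  have hl3 : 0 < Real.log 3 := Real.log_pos (by norm_num)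
  have h6 : (od d m x : ℝ) * Real.log 3 < c * m * Real.log 3 := mul_lt_mul_of_pos_right h1 hl3
  have h7 : (m : ℝ) * (c * Real.log 3 + |(d : ℝ)| / Y) < m * Real.log 2 := mul_lt_mul_of_pos_left hc hm0
  have h8 : Real.log (((Tz d)^[m] x : ℤ) : ℝ) < Real.log x := by nlinarith
  have h9 : (((Tz d)^[m] x : ℤ) : ℝ) < x := (Real.log_lt_log_iff h3 hx0R).1 h8
  rw [Nat.add_comm, Function.iterate_add_apply, ← hx]
  exact_mod_cast h9

/-- the trajectory takes a value smaller than `Y` -/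
theorem PS_desc {d : ℤ} {κ Y : ℝ} (hY : Lrg d κ Y) {n : ℤ} (h : PS d κ Y n) :
    ∃ k : ℕ, (((Tz d)^[k] n : ℤ) : ℝ) < Y := by
  by_contra hcon
  push Not at hcon
  -- the smallest term
  have hY0 : 0 < Y := by linarith [hY.1]
  have hpos : ∀ k : ℕ, 0 < (Tz d)^[k] n := by
    intro k
    have : (0 : ℝ) < (((Tz d)^[k] n : ℤ) : ℝ) := lt_of_lt_of_le hY0 (hcon k)
    exact_mod_cast this
  obtain ⟨v, ⟨i, hi⟩, hmin⟩ := WellFounded.has_min (measure (fun v : ℤ => v.toNat)).wf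
    (Set.range fun k : ℕ => (Tz d)^[k] n) ⟨_, 0, rfl⟩
  have h1 := h i ⌈κ * LL (((Tz d)^[i] n : ℤ) : ℝ)⌉₊ (fun j _ => hcon j) (fun j _ => hcon _) (Nat.le_ceil _)
  have h2 := hmin _ ⟨i + ⌈κ * LL (((Tz d)^[i] n : ℤ) : ℝ)⌉₊, rfl⟩
  apply h2
  have h3 := hpos i
  have h4 := hpos (i + ⌈κ * LL (((Tz d)^[i] n : ℤ) : ℝ)⌉₊)
  simp only at hi
  change ((Tz d)^[i + ⌈κ * LL (((Tz d)^[i] n : ℤ) : ℝ)⌉₊] n).toNat < v.toNat
  rw [← hi]
  omega

/-- No later term exceeds `T^i n (log T^i n) ^ (1 + ε)`. -/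
def PE (d : ℤ) (ε : ℝ) (Y : ℝ) (n : ℤ) : Prop :=
  ∀ i m : ℕ, (∀ j ≤ i, Y ≤ (((Tz d)^[j] n : ℤ) : ℝ)) → (∀ j < m, Y ≤ (((Tz d)^[i + j] n : ℤ) : ℝ)) →
    (((Tz d)^[i + m] n : ℤ) : ℝ) ≤ (((Tz d)^[i] n : ℤ) : ℝ) * Real.log (((Tz d)^[i] n : ℤ) : ℝ) ^ (1 + ε)

theorem PE_of {d : ℤ} {κ ε : ℝ} (hε : 0 < ε) {Y : ℝ} (hY : Lrg d κ Y)
    {n : ℤ} (hn : n ∉ HY d (BE d κ ε) Y) (hPS : PS d κ Y n) : PE d ε Y n := by
  intro i m hi hm
  obtain ⟨x, hx⟩ : ∃ x, x = (Tz d)^[i] n := ⟨_, rfl⟩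
  have hxY := hi i le_rfl
  rw [← hx] at hxY ⊢
  have hx3 : 3 < (x : ℝ) := lt_of_lt_of_le hY.1 hxY
  have hxb : x ∉ BE d κ ε := by
    intro h
    exact hn ⟨i, by rwa [← hx], hi⟩
  have hlog : 1 ≤ Real.log (x : ℝ) := by
    rw [Real.le_log_iff_exp_le (by linarith)]
    have := Real.exp_one_lt_d9
    linarith
  rcases le_or_gt m (2 * wl κ x + 2) with h | h
  · by_contra hcon
    apply hxb
    refine ⟨m, h, ?_⟩
    rw [not_le] at hcon
    rwa [Nat.add_comm, Function.iterate_add_apply, ← hx] at hcon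
  · have h1 := hPS i m hi hm (by
      rw [← hx]
      have h2 : κ * LL (x : ℝ) ≤ wl κ x := Nat.le_ceil _
      have h3 : (wl κ (x : ℝ) : ℝ) ≤ m := by exact_mod_cast (by omega : wl κ (x : ℝ) ≤ m)
      linarith)
    rw [← hx] at h1
    have h2 : (((Tz d)^[i + m] n : ℤ) : ℝ) ≤ x := by exact_mod_cast h1.le
    refine h2.trans (le_mul_of_one_le_right (by linarith) ?_)
    exact Real.one_le_rpow hlog (by linarith)

/-- Typical at all scales: the trajectory takes a value smaller than `Y`, and for every term `x = T^i n` before the first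
such value and every `m ≥ 0` such that the first `m` terms from `x` on are at least `Y`: (W) if
`m ≥ (1 + ε) / rate c * log log x`, between `(1 - c) m` and `c m` of them are odd; (S) if `m ≥ (κ₀ + ε) log log x`, then
`T^m x < x`; (E) `T^m x ≤ x (log x) ^ (1 + ε)`. -/
def Typ (d : ℤ) (c ε Y : ℝ) (n : ℤ) : Prop :=
  ∃ τ : ℕ, (((Tz d)^[τ] n : ℤ) : ℝ) < Y ∧ (∀ j < τ, Y ≤ (((Tz d)^[j] n : ℤ) : ℝ)) ∧
    ∀ i < τ, ∀ m : ℕ, i + m ≤ τ →
      ((1 + ε) / rate c * LL (((Tz d)^[i] n : ℤ) : ℝ) ≤ m →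
        (1 - c) * m < od d m ((Tz d)^[i] n) ∧ (od d m ((Tz d)^[i] n) : ℝ) < c * m) ∧
      ((κ₀ + ε) * LL (((Tz d)^[i] n : ℤ) : ℝ) ≤ m → (Tz d)^[i + m] n < (Tz d)^[i] n) ∧
      (((Tz d)^[i + m] n : ℤ) : ℝ) ≤ (((Tz d)^[i] n : ℤ) : ℝ) * Real.log (((Tz d)^[i] n : ℤ) : ℝ) ^ (1 + ε)

theorem Typ_of {d : ℤ} {c ε κ : ℝ} {Y : ℝ} (hY : Lrg d κ Y) {n : ℤ}
    (h1 : PW d c ((1 + ε) / rate c) Y n) (h2 : PS d (κ₀ + ε) Y n) (h3 : PE d ε Y n) : Typ d c ε Y n := by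
  classical
  have h4 : ∃ k : ℕ, (((Tz d)^[k] n : ℤ) : ℝ) < Y := by
    by_contra hcon
    push Not at hcon
    have hY0 : 0 < Y := by linarith [hY.1]
    have hpos : ∀ k : ℕ, 0 < (Tz d)^[k] n := by
      intro k
      have : (0 : ℝ) < (((Tz d)^[k] n : ℤ) : ℝ) := lt_of_lt_of_le hY0 (hcon k)
      exact_mod_cast this
    obtain ⟨v, ⟨i, hi⟩, hmin⟩ := WellFounded.has_min (measure (fun v : ℤ => v.toNat)).wf
      (Set.range fun k : ℕ => (Tz d)^[k] n) ⟨_, 0, rfl⟩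
    have h1 := h2 i ⌈(κ₀ + ε) * LL (((Tz d)^[i] n : ℤ) : ℝ)⌉₊ (fun j _ => hcon j) (fun j _ => hcon _) (Nat.le_ceil _)
    apply hmin _ ⟨i + ⌈(κ₀ + ε) * LL (((Tz d)^[i] n : ℤ) : ℝ)⌉₊, rfl⟩
    have h3 := hpos i
    have h4 := hpos (i + ⌈(κ₀ + ε) * LL (((Tz d)^[i] n : ℤ) : ℝ)⌉₊)
    simp only at hi
    change ((Tz d)^[i + ⌈(κ₀ + ε) * LL (((Tz d)^[i] n : ℤ) : ℝ)⌉₊] n).toNat < v.toNat
    rw [← hi]
    omega
  have hmin : ∀ j < Nat.find h4, Y ≤ (((Tz d)^[j] n : ℤ) : ℝ) := fun j hj => not_lt.1 (Nat.find_min h4 hj)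
  refine ⟨Nat.find h4, Nat.find_spec h4, hmin, fun i hi m hm => ⟨fun hk => ?_, fun hk => ?_, ?_⟩⟩
  · exact h1 i m (fun j hj => hmin j (by omega)) (fun j hj => hmin _ (by omega)) hk
  · exact h2 i m (fun j hj => hmin j (by omega)) (fun j hj => hmin _ (by omega)) hk
  · exact h3 i m (fun j hj => hmin j (by omega)) (fun j hj => hmin _ (by omega))

open scoped Classical in
/-- **Almost every trajectory is typical at all scales.** -/
theorem Typ_count {d : ℤ} (hd : Odd d) (hd3 : IsCoprime d 3) {c : ℝ} (hc : 1 / 2 < c) (hc1 : c < 1) {ε : ℝ}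
    (hε0 : 0 < ε) (hε : ε ≤ 1) : ∃ η K : ℝ, 0 < η ∧ 0 < K ∧ ∀ Y : ℝ, 2 ≤ Y → ∀ N : ℕ,
      (((Icc (1 : ℤ) N).filter (fun n => ¬ Typ d c ε Y n)).card : ℝ) ≤ K * N / (Real.log Y) ^ η := by
  have hd2 := Int.odd_iff.1 hd
  obtain ⟨c', ε', hc', hc0', hε0', hε', hκ'⟩ := exists_c hε0
  have hr := rate_pos hc
  have hr' := rate_pos hc'
  have hκ₀ := κ₀_pos
  have hκ1 : 0 < (1 + ε) / rate c := by positivity
  have hκ2 : 0 < (1 + ε') / rate c' := by positivity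
  have hκ3 : 0 < κ₀ + ε := by linarith
  have hc1' : c' < 1 := hc0'.trans c0_lt
  obtain ⟨Y₁, K₁, hY₁, hK₁, h1⟩ := count_of_Sc hd hd3 hε0 hε (Sc_BW hd2 hc hc1 hε0 hε)
  obtain ⟨Y₂, K₂, _, hK₂, h2⟩ := count_of_Sc hd hd3 hε0' hε' (Sc_BW hd2 hc' hc1' hε0' hε')
  obtain ⟨l, hl⟩ := Sc_BE hd2 hκ3 hε0 hε
  obtain ⟨Y₃, K₃, _, hK₃, h3⟩ := count_of_Sc hd hd3 hε0 hε ⟨l, 8, by norm_num, hl⟩
  obtain ⟨Z₁, hZ₁⟩ := Lrg_ev (d := d) hκ1
  obtain ⟨Z₂, hZ₂⟩ := Lrg_ev (d := d) hκ2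
  obtain ⟨Z₃, hZ₃⟩ := Lrg_ev (d := d) hκ3
  -- `|d| / Y` is small
  have hgap : 0 < Real.log 2 - c' * Real.log 3 := by
    have h3 : 0 < Real.log 3 := Real.log_pos (by norm_num)
    rw [lt_div_iff₀ h3] at hc0'
    linarith
  obtain ⟨W, hW⟩ : ∃ W, W = |(d : ℝ)| / (Real.log 2 - c' * Real.log 3) + 1 := ⟨_, rfl⟩
  obtain ⟨η, hη⟩ : ∃ η, η = min (ε / 2) (ε' / 2) := ⟨_, rfl⟩
  have hη0 : 0 < η := by rw [hη]; positivity
  obtain ⟨V, hV⟩ : ∃ V : ℝ, V = max (max (max Y₁ Y₂) (max Y₃ Z₁)) (max (max Z₂ Z₃) (max W 3)) := ⟨_, rfl⟩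
  refine ⟨η, ?_⟩
  have hcount : ∃ K : ℝ, 0 < K ∧ ∀ Y : ℝ, 2 ≤ Y → ∀ N : ℕ,
      (((Icc (1 : ℤ) N).filter (fun n => ¬ Typ d c ε Y n)).card : ℝ) ≤ K * N / (Real.log Y) ^ η := by
    refine count_all hη0 (Y₁ := V) (K := K₁ + K₂ + K₃) (by positivity) ?_
    intro Y hY N
    have a1 : Y₁ ≤ Y := by rw [hV] at hY; exact le_trans (by simp) hY
    have a2 : Y₂ ≤ Y := by rw [hV] at hY; exact le_trans (by simp) hY
    have a3 : Y₃ ≤ Y := by rw [hV] at hY; exact le_trans (by simp) hY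
    have b1 : Z₁ ≤ Y := by rw [hV] at hY; exact le_trans (by simp) hY
    have b2 : Z₂ ≤ Y := by rw [hV] at hY; exact le_trans (by simp) hY
    have b3 : Z₃ ≤ Y := by rw [hV] at hY; exact le_trans (by simp) hY
    have b4 : W ≤ Y := by rw [hV] at hY; exact le_trans (by simp) hY
    have b5 : (3 : ℝ) ≤ Y := by rw [hV] at hY; exact le_trans (by simp) hY
    have hY0 : 0 < Y := by linarith
    have hlog1 : 1 ≤ Real.log Y := by
      rw [Real.le_log_iff_exp_le hY0]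
      have := Real.exp_one_lt_d9
      linarith
    have hsmall : c' * Real.log 3 + |(d : ℝ)| / Y < Real.log 2 := by
      have h4 : |(d : ℝ)| / (Real.log 2 - c' * Real.log 3) < Y := by rw [hW] at b4; linarith
      rw [div_lt_iff₀ hgap] at h4
      have h5 : |(d : ℝ)| / Y < Real.log 2 - c' * Real.log 3 := by
        rw [div_lt_iff₀ hY0]; linarith
      linarith
    have hsub : (Icc (1 : ℤ) N).filter (fun n => ¬ Typ d c ε Y n) ⊆
        (Icc (1 : ℤ) N).filter (fun n => n ∈ HY d (BW d c ((1 + ε) / rate c)) Y) ∪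
        ((Icc (1 : ℤ) N).filter (fun n => n ∈ HY d (BW d c' ((1 + ε') / rate c')) Y) ∪
        (Icc (1 : ℤ) N).filter (fun n => n ∈ HY d (BE d (κ₀ + ε) ε) Y)) := by
      intro n hn
      rw [mem_filter] at hn
      by_contra hcon
      rw [mem_union, mem_union, mem_filter, mem_filter, mem_filter] at hcon
      push Not at hcon
      obtain ⟨g1, g2, g3⟩ := hcon
      apply hn.2
      have p1 := PW_of hd2 hκ1 (hZ₁ Y b1) (g1 hn.1)
      have p2 := PW_of hd2 hκ2 (hZ₂ Y b2) (g2 hn.1)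
      have p3 := PS_of hd2 hκ2 hκ' (hZ₂ Y b2) hsmall p2
      exact Typ_of (hZ₃ Y b3) p1 p3 (PE_of hε0 (hZ₃ Y b3) (g3 hn.1) p3)
    have hcard : (((Icc (1 : ℤ) N).filter (fun n => ¬ Typ d c ε Y n)).card : ℝ) ≤
        (((Icc (1 : ℤ) N).filter (fun n => n ∈ HY d (BW d c ((1 + ε) / rate c)) Y)).card : ℝ) +
        ((((Icc (1 : ℤ) N).filter (fun n => n ∈ HY d (BW d c' ((1 + ε') / rate c')) Y)).card : ℝ) +
        (((Icc (1 : ℤ) N).filter (fun n => n ∈ HY d (BE d (κ₀ + ε) ε) Y)).card : ℝ)) := by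
      exact_mod_cast (card_le_card hsub).trans ((card_union_le _ _).trans
        (Nat.add_le_add_left (card_union_le _ _) _))
    have e1 : ∀ s : ℝ, η ≤ s → ∀ K : ℝ, 0 < K → K * N / (Real.log Y) ^ s ≤ K * N / (Real.log Y) ^ η := by
      intro s hs K hK
      apply div_le_div_of_nonneg_left (by positivity) (by positivity)
      exact Real.rpow_le_rpow_of_exponent_le hlog1 hs
    have f1 := (h1 Y a1 N).trans (e1 _ (by rw [hη]; exact min_le_left _ _) K₁ hK₁)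
    have f2 := (h2 Y a2 N).trans (e1 _ (by rw [hη]; exact min_le_right _ _) K₂ hK₂)
    have f3 := (h3 Y a3 N).trans (e1 _ (by rw [hη]; exact min_le_left _ _) K₃ hK₃)
    have f4 : (K₁ + K₂ + K₃) * N / (Real.log Y) ^ η =
        K₁ * N / (Real.log Y) ^ η + (K₂ * N / (Real.log Y) ^ η + K₃ * N / (Real.log Y) ^ η) := by ring
    rw [f4]
    linarith
  obtain ⟨K, hK, h⟩ := hcount
  exact ⟨K, hη0, hK, h⟩

end Run7.h702.BC
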