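import Pool.Agent.Run7.h702.BC.E

/-! Atypical windows exist: the laws are sharp. -/

set_option autoImplicit false

namespace Run7.h702.BC

open Finset Filter
open Pool.Agent.H499R2.CO (Tz)
open Pool.Agent.R344.SP Pool.Agent.R344.TH
open Run7.h702.AT

/-- Some window of length `m ≥ κ log log T^i n`, all of whose terms are at least `√n`, has the property `S m`. -/
def QS (d : ℤ) (κ : ℝ) (S : ℕ → ℤ → Prop) (n : ℤ) : Prop :=
  ∃ i m : ℕ, (2 : ℝ) ^ (i + m) ≤ n ∧ κ * LL (((Tz d)^[i] n : ℤ) : ℝ) ≤ m ∧ S m ((Tz d)^[i] n) ∧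
    ∀ j ≤ i + m, Real.sqrt n ≤ (((Tz d)^[j] n : ℤ) : ℝ)

theorem ev_sharp {ρ ε : ℝ} (hρ : 0 < ρ) (hε0 : 0 < ε) (hε : ε < 1) (D : ℝ) : ∀ᶠ l : ℝ in atTop,
    16 * ((1 - ε / 2) / ρ * Real.log l + 2) ≤ l ^ (ε / 16) ∧ Real.exp (2 * ρ) ≤ l ^ (ε / 16) ∧
    1 ≤ ε / 2 * Real.log l ∧ l ^ (ε / 8) ≤ l / 8 ∧ D ≤ Real.exp (l / 2) ∧ 16 ≤ l := by
  have hs : 0 < ε / 16 := by linarith
  have h1 : Tendsto (fun l : ℝ => Real.log l / l ^ (ε / 16)) atTop (nhds 0) :=
    (isLittleO_log_rpow_atTop hs).tendsto_div_nhds_zero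
  have h2 : Tendsto (fun l : ℝ => l ^ (ε / 16)) atTop atTop := tendsto_rpow_atTop hs
  have h3 : Tendsto (fun l : ℝ => 16 * ((1 - ε / 2) / ρ) * (Real.log l / l ^ (ε / 16)) + 32 / l ^ (ε / 16)) atTop
      (nhds (16 * ((1 - ε / 2) / ρ) * 0 + 0)) :=
    (h1.const_mul _).add (tendsto_const_nhds.div_atTop h2)
  rw [mul_zero, add_zero] at h3
  have h4 : Tendsto (fun l : ℝ => l ^ (1 - ε / 8)) atTop atTop := tendsto_rpow_atTop (by linarith)
  have h5 : Tendsto (fun l : ℝ => Real.exp (l / 2)) atTop atTop :=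
    Real.tendsto_exp_atTop.comp (tendsto_id.atTop_div_const (by norm_num))
  filter_upwards [h3.eventually (gt_mem_nhds (by norm_num : (0 : ℝ) < 1)), h2.eventually_ge_atTop (Real.exp (2 * ρ)),
    Real.tendsto_log_atTop.eventually_ge_atTop (2 / ε), h4.eventually_ge_atTop 8, h5.eventually_ge_atTop D,
    eventually_ge_atTop (16 : ℝ)] with l a1 a2 a3 a4 a5 a6
  have hl0 : 0 < l := by linarith
  have hls : 0 < l ^ (ε / 16) := by positivity
  refine ⟨?_, a2, ?_, ?_, a5, a6⟩
  · have e1 : (16 * ((1 - ε / 2) / ρ) * (Real.log l / l ^ (ε / 16)) + 32 / l ^ (ε / 16)) * l ^ (ε / 16) =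
        16 * ((1 - ε / 2) / ρ * Real.log l + 2) := by
      field_simp
      ring
    rw [← e1]
    calc _ ≤ 1 * l ^ (ε / 16) := mul_le_mul_of_nonneg_right a1.le hls.le
      _ = _ := one_mul _
  · rw [div_le_iff₀ hε0] at a3
    linarith
  · rw [le_div_iff₀ (by norm_num)]
    have e1 : l = l ^ (ε / 8) * l ^ (1 - ε / 8) := by
      rw [← Real.rpow_add hl0]; norm_num
    calc l ^ (ε / 8) * 8 ≤ l ^ (ε / 8) * l ^ (1 - ε / 8) := mul_le_mul_of_nonneg_left a4 (by positivity)
      _ = l := e1.symm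

open scoped Classical in
/-- no block has the property -/
theorem no_block_count {d : ℤ} (hd : d % 2 = 1) {m B N : ℕ} {S : ℤ → Prop}
    (hS : ∀ x y : ℤ, S (x + y * 2 ^ m) ↔ S x) (hN : 2 ^ (m * B) ≤ N) {p : ℝ}
    (hp : p * 2 ^ m ≤ (((range (2 ^ m)).filter (fun r : ℕ => S (r : ℤ))).card : ℝ)) :
    (((Icc (1 : ℤ) N).filter (fun n => ∀ b < B, ¬ S ((Tz d)^[m * b] n))).card : ℝ) ≤ 3 * N * Real.exp (-(B * p)) := by
  obtain ⟨S', hS'⟩ : ∃ S' : ℤ → Prop, S' = fun x => ¬ S x := ⟨_, rfl⟩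
  have hper : ∀ x y : ℤ, S' (x + y * 2 ^ m) ↔ S' x := by
    intro x y
    rw [hS']
    simp only [hS]
  have hA : ∀ x y : ℤ, AllBl d m S' B (x + y * ((2 ^ (m * B) : ℕ) : ℤ)) ↔ AllBl d m S' B x := by
    intro x y
    push_cast
    unfold AllBl
    have key : ∀ b < B, (S' ((Tz d)^[m * b] (x + y * 2 ^ (m * B))) ↔ S' ((Tz d)^[m * b] x)) := by
      intro b hb
      obtain ⟨c, rfl⟩ : ∃ c, B = b + 1 + c := ⟨B - (b + 1), by omega⟩
      have e1 : x + y * 2 ^ (m * (b + 1 + c)) = x + (y * 2 ^ (m + m * c)) * 2 ^ (m * b) := by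
        rw [show m * (b + 1 + c) = (m + m * c) + m * b by ring, pow_add]; ring
      rw [e1, Tz_iter hd]
      have e2 : (Tz d)^[m * b] x + y * 2 ^ (m + m * c) * 3 ^ od d (m * b) x =
          (Tz d)^[m * b] x + (y * 2 ^ (m * c) * 3 ^ od d (m * b) x) * 2 ^ m := by
        rw [pow_add]; ring
      rw [e2, hper]
    constructor
    · intro h b hb
      rw [← key b hb]; exact h b hb
    · intro h b hb
      rw [key b hb]; exact h b hb
  have h1 := classes_card (M := 2 ^ (m * B)) (by positivity) (by push_cast; exact IsCoprime.pow_left (by norm_num))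
    (R := AllBl d m S' B) hA (a := 1) (b := N) (by
      have : 1 ≤ N := le_trans (Nat.one_le_two_pow) hN
      exact_mod_cast this) (j := 0) (e := 0)
    (s := (Icc (1 : ℤ) N).filter (fun n => ∀ b < B, ¬ S ((Tz d)^[m * b] n))) (by
      intro x hx
      rw [mem_filter, Finset.mem_Icc] at hx
      exact ⟨by exact_mod_cast hx.1.1, by exact_mod_cast hx.1.2⟩) (by
      intro x _
      simp) (by
      intro x hx
      rw [mem_filter] at hx
      unfold AllBl
      rw [hS']
      exact hx.2)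
  rw [blocks hd hper B] at h1
  refine h1.trans ?_
  have h2 : (((range (2 ^ m)).filter (fun r : ℕ => S' (r : ℤ))).card : ℝ) ≤ 2 ^ m * (1 - p) := by
    have h3 := Finset.card_filter_add_card_filter_not (s := range (2 ^ m)) (fun r : ℕ => S (r : ℤ))
    rw [card_range] at h3
    have h4 : (((range (2 ^ m)).filter (fun r : ℕ => S (r : ℤ))).card : ℝ) +
        (((range (2 ^ m)).filter (fun r : ℕ => S' (r : ℤ))).card : ℝ) = 2 ^ m := by
      have e : (range (2 ^ m)).filter (fun r : ℕ => S' (r : ℤ)) = (range (2 ^ m)).filter (fun r : ℕ => ¬ S (r : ℤ)) :=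
        filter_congr (fun r _ => by rw [hS'])
      rw [e]
      exact_mod_cast h3
    linarith
  have h3 : (((range (2 ^ m)).filter (fun r : ℕ => S' (r : ℤ))).card : ℝ) ^ B ≤ 2 ^ (m * B) * Real.exp (-(B * p)) := by
    have h4 : (((range (2 ^ m)).filter (fun r : ℕ => S' (r : ℤ))).card : ℝ) ≤ 2 ^ m * Real.exp (-p) := by
      refine h2.trans (mul_le_mul_of_nonneg_left ?_ (by positivity))
      have := Real.add_one_le_exp (-p)
      linarith
    calc _ ≤ (2 ^ m * Real.exp (-p)) ^ B := pow_le_pow_left₀ (Nat.cast_nonneg _) h4 B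
      _ = _ := by
        rw [mul_pow, ← pow_mul, ← Real.exp_nat_mul]
        congr 2
        ring
  have hNR : (2 : ℝ) ^ (m * B) ≤ N := by exact_mod_cast hN
  have h20 : (0 : ℝ) < 2 ^ (m * B) := by positivity
  have h5 : ((N : ℝ) - 1) / (((2 ^ (m * B) : ℕ) : ℝ) * 3 ^ 0) + 2 ≤ 3 * N / 2 ^ (m * B) := by
    push_cast
    rw [pow_zero, mul_one]
    have e1 : (3 : ℝ) * N / 2 ^ (m * B) = N / 2 ^ (m * B) + 2 * (N / 2 ^ (m * B)) := by ring
    have e2 : (1 : ℝ) ≤ N / 2 ^ (m * B) := by rw [le_div_iff₀ h20]; linarith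
    have e3 : ((N : ℝ) - 1) / 2 ^ (m * B) ≤ N / 2 ^ (m * B) := div_le_div_of_nonneg_right (by linarith) h20.le
    rw [e1]
    linarith
  have h6 : 0 ≤ ((N : ℝ) - 1) / (((2 ^ (m * B) : ℕ) : ℝ) * 3 ^ 0) + 2 := by
    have h7 : (0 : ℝ) ≤ (N : ℝ) - 1 := by
      have : (1 : ℝ) ≤ 2 ^ (m * B) := one_le_pow₀ (by norm_num)
      linarith
    positivity
  calc _ ≤ 2 ^ (m * B) * Real.exp (-(B * p)) * (3 * N / 2 ^ (m * B)) :=
        mul_le_mul h3 h5 h6 (by positivity)
    _ = _ := by field_simp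

open scoped Classical in
/-- **The laws are sharp.** A property of the windows of length `m` which holds for a proportion
`exp (- ρ (1 + ε / 4) m)` of the residue classes modulo `2 ^ m` holds, for almost all `n`, for a window of length at
least `(1 - ε) / ρ * log log` of the beginning of the trajectory of `n`. -/
theorem sharp_gen {d : ℤ} (hd : d % 2 = 1) {ρ ε : ℝ} (hρ : 0 < ρ) (hε0 : 0 < ε) (hε : ε < 1) {S : ℕ → ℤ → Prop}
    (hS : ∀ (m : ℕ) (x y : ℤ), S m (x + y * 2 ^ m) ↔ S m x) {m₀ : ℕ}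
    (hcount : ∀ m : ℕ, m₀ ≤ m → Real.exp (-(ρ * (1 + ε / 4) * m)) * 2 ^ m ≤
      (((range (2 ^ m)).filter (fun r : ℕ => S m (r : ℤ))).card : ℝ)) :
    ∃ K : ℝ, 0 < K ∧ ∀ N : ℕ, 1 ≤ N →
      (((Icc (1 : ℤ) N).filter (fun n => ¬ QS d ((1 - ε) / ρ) S n)).card : ℝ) ≤
        K * N * Real.exp (-(Real.log N) ^ (ε / 8)) := by
  obtain ⟨κ, hκ⟩ : ∃ κ, κ = (1 - ε / 2) / ρ := ⟨_, rfl⟩
  have hκ0 : 0 < κ := by rw [hκ]; apply div_pos <;> linarith
  have hκρ : ρ * κ = 1 - ε / 2 := by rw [hκ]; field_simp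
  obtain ⟨l₀, hl₀⟩ := eventually_atTop.1 ((ev_sharp hρ hε0 hε |(d : ℝ)|).and
    (Real.tendsto_log_atTop.eventually_ge_atTop ((m₀ : ℝ) / κ)))
  obtain ⟨l₁, hl₁⟩ : ∃ l₁, l₁ = max l₀ 1 := ⟨_, rfl⟩
  refine ⟨max 4 (Real.exp (l₁ ^ (ε / 8))), by positivity, fun N hN => ?_⟩
  have hNR : (0 : ℝ) < N := by exact_mod_cast hN
  obtain ⟨l, hl⟩ : ∃ l, l = Real.log N := ⟨_, rfl⟩
  have hl0' : 0 ≤ l := by rw [hl]; exact Real.log_nonneg (by exact_mod_cast hN)
  rw [← hl]
  have htriv : (((Icc (1 : ℤ) N).filter (fun n => ¬ QS d ((1 - ε) / ρ) S n)).card : ℝ) ≤ N := by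
    have : ((Icc (1 : ℤ) N).filter (fun n => ¬ QS d ((1 - ε) / ρ) S n)).card ≤ N := by
      refine (card_filter_le _ _).trans ?_
      rw [Int.card_Icc]; omega
    exact_mod_cast this
  rcases le_or_gt l₁ l with hc | hc
  swap
  · refine htriv.trans ?_
    have h1 : l ^ (ε / 8) ≤ l₁ ^ (ε / 8) := Real.rpow_le_rpow hl0' hc.le (by linarith)
    have h2 : 1 ≤ Real.exp (l₁ ^ (ε / 8)) * Real.exp (-l ^ (ε / 8)) := by
      rw [← Real.exp_add]
      exact Real.one_le_exp (by linarith)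
    calc (N : ℝ) = N * 1 := (mul_one _).symm
      _ ≤ N * (Real.exp (l₁ ^ (ε / 8)) * Real.exp (-l ^ (ε / 8))) := mul_le_mul_of_nonneg_left h2 hNR.le
      _ = Real.exp (l₁ ^ (ε / 8)) * N * Real.exp (-l ^ (ε / 8)) := by ring
      _ ≤ _ := by
        apply mul_le_mul_of_nonneg_right _ (Real.exp_pos _).le
        exact mul_le_mul_of_nonneg_right (le_max_right _ _) hNR.le
  · have hl₀l : l₀ ≤ l := le_trans (by rw [hl₁]; exact le_max_left _ _) hc
    obtain ⟨⟨e1, e2, e3, e4, e5, e6⟩, e7⟩ := hl₀ l hl₀l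
    rw [← hκ] at e1
    have hl0 : 0 < l := by linarith
    have hlog0 : 0 < Real.log l := Real.log_pos (by linarith)
    have hNl : (N : ℝ) = Real.exp l := by rw [hl, Real.exp_log hNR]
    obtain ⟨m, hm⟩ : ∃ m : ℕ, m = ⌈κ * Real.log l⌉₊ := ⟨_, rfl⟩
    have hm1 : κ * Real.log l ≤ m := by rw [hm]; exact Nat.le_ceil _
    have hm2 : (m : ℝ) < κ * Real.log l + 1 := by rw [hm]; exact Nat.ceil_lt_add_one (by positivity)
    have hm0 : 0 < m := by
      have : (0 : ℝ) < m := lt_of_lt_of_le (by positivity) hm1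
      exact_mod_cast this
    have hmR : (0 : ℝ) < m := by exact_mod_cast hm0
    have hmm₀ : m₀ ≤ m := by
      have h1 : (m₀ : ℝ) ≤ κ * Real.log l := by
        rw [div_le_iff₀ hκ0] at e7; linarith
      exact_mod_cast h1.trans hm1
    obtain ⟨E, hE⟩ : ∃ E : ℕ, E = Nat.log 2 N / 4 := ⟨_, rfl⟩
    obtain ⟨B, hB⟩ : ∃ B : ℕ, B = E / m := ⟨_, rfl⟩
    have hmB : m * B ≤ E := by rw [hB]; exact Nat.mul_div_le _ _
    have h2E : (2 : ℝ) ^ (4 * E) ≤ N := by
      have h1 : 2 ^ Nat.log 2 N ≤ N := Nat.pow_log_le_self 2 (by omega)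
      have h2 : (2 : ℝ) ^ Nat.log 2 N ≤ N := by exact_mod_cast h1
      refine le_trans (pow_le_pow_right₀ (by norm_num) ?_) h2
      rw [hE]; omega
    have h2N : 2 ^ (m * B) ≤ N := by
      have h1 : (2 : ℝ) ^ (m * B) ≤ 2 ^ (4 * E) := pow_le_pow_right₀ (by norm_num) (by omega)
      exact_mod_cast h1.trans h2E
    obtain ⟨w, hw⟩ : ∃ w, w = Real.exp (l / 4) := ⟨_, rfl⟩
    have hw0 : 0 < w := by rw [hw]; positivity
    have hw4 : w ^ 4 = N := by
      rw [hw, hNl, ← Real.exp_nat_mul]; congr 1; push_cast; ring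
    have h2Ew : (2 : ℝ) ^ E ≤ w := by
      by_contra hcon
      push Not at hcon
      have h1 : w ^ 4 < ((2 : ℝ) ^ E) ^ 4 := pow_lt_pow_left₀ hcon hw0.le (by norm_num)
      rw [hw4, ← pow_mul, mul_comm E 4] at h1
      linarith
    -- the number of blocks
    have hEl : l / 4 - 1 ≤ E := by
      have h1 : N < 2 ^ (Nat.log 2 N + 1) := Nat.lt_pow_succ_log_self (by norm_num) N
      have h2 : (N : ℝ) < 2 ^ (Nat.log 2 N + 1) := by exact_mod_cast h1
      have h3 := Real.log_lt_log hNR h2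
      rw [Real.log_pow, ← hl] at h3
      have h4 := Real.log_two_lt_d9
      have h5 : Nat.log 2 N + 1 ≤ 4 * E + 4 := by rw [hE]; omega
      have h6 : ((Nat.log 2 N + 1 : ℕ) : ℝ) ≤ 4 * E + 4 := by exact_mod_cast h5
      have h7 : 0 ≤ ((Nat.log 2 N + 1 : ℕ) : ℝ) := Nat.cast_nonneg _
      have h8 : l < ((Nat.log 2 N + 1 : ℕ) : ℝ) := by
        have h9 : ((Nat.log 2 N + 1 : ℕ) : ℝ) * Real.log 2 ≤ ((Nat.log 2 N + 1 : ℕ) : ℝ) * 1 :=
          mul_le_mul_of_nonneg_left (by linarith) h7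
        linarith
      linarith
    have hls : 0 < l ^ (ε / 16) := by positivity
    have hBl : l / l ^ (ε / 16) ≤ B := by
      have h1 : E < m * B + m := by
        have := Nat.lt_div_mul_add (a := E) hm0
        rw [hB]
        rw [mul_comm]
        exact this
      have h2 : (E : ℝ) < m * (B + 1) := by
        have : (E : ℝ) < ((m * B + m : ℕ) : ℝ) := by exact_mod_cast h1
        push_cast at this
        linarith
      have h3 : 16 * (m : ℝ) ≤ l ^ (ε / 16) := by linarith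
      have h4 : l / 8 < m * (B + 1) := by linarith
      have h5 : l / 8 * 16 < l ^ (ε / 16) * (B + 1) := by
        have hB0 : (0 : ℝ) ≤ B + 1 := by positivity
        calc l / 8 * 16 < m * (B + 1) * 16 := by linarith
          _ = 16 * m * (B + 1) := by ring
          _ ≤ _ := mul_le_mul_of_nonneg_right h3 hB0
      have h6 : l ^ (ε / 16) ≤ l := by
        calc l ^ (ε / 16) ≤ l ^ (1 : ℝ) := Real.rpow_le_rpow_of_exponent_le (by linarith) (by linarith)
          _ = l := Real.rpow_one l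
      rw [div_le_iff₀ hls]
      nlinarith
    obtain ⟨p, hp⟩ : ∃ p, p = Real.exp (-(ρ * (1 + ε / 4) * m)) := ⟨_, rfl⟩
    have h1 := no_block_count hd (m := m) (B := B) (N := N) (S := S m) (hS m) h2N (p := p) (by
      rw [hp]; exact hcount m hmm₀)
    -- `B p ≥ l ^ (ε / 8)`
    have hBp : l ^ (ε / 8) ≤ B * p := by
      have h2 : l ^ (-(1 - ε / 4)) * Real.exp (-(2 * ρ)) ≤ p := by
        rw [hp, Real.rpow_def_of_pos hl0, ← Real.exp_add]
        apply Real.exp_le_exp.2
        have h3 : ρ * (1 + ε / 4) * m ≤ ρ * (1 + ε / 4) * (κ * Real.log l + 1) :=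
          mul_le_mul_of_nonneg_left hm2.le (by positivity)
        have h4 : ρ * (1 + ε / 4) * (κ * Real.log l + 1) =
            (1 + ε / 4) * (ρ * κ) * Real.log l + ρ * (1 + ε / 4) := by ring
        rw [h4, hκρ] at h3
        have h5 : (1 + ε / 4) * (1 - ε / 2) * Real.log l ≤ (1 - ε / 4) * Real.log l := by
          apply mul_le_mul_of_nonneg_right _ hlog0.le
          nlinarith
        have h6 : ρ * (1 + ε / 4) ≤ 2 * ρ := by nlinarith
        linarith
      have h3 : l ^ (ε / 8) ≤ l / l ^ (ε / 16) * (l ^ (-(1 - ε / 4)) * Real.exp (-(2 * ρ))) := by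
        have h4 : l / l ^ (ε / 16) * l ^ (-(1 - ε / 4)) = l ^ (ε / 8) * l ^ (ε / 16) := by
          have e8 : l / l ^ (ε / 16) = l ^ (1 - ε / 16) := by
            rw [Real.rpow_sub hl0, Real.rpow_one]
          rw [e8, ← Real.rpow_add hl0, ← Real.rpow_add hl0]
          congr 1; ring
        rw [← mul_assoc, h4, mul_assoc]
        have h5 : 1 ≤ l ^ (ε / 16) * Real.exp (-(2 * ρ)) := by
          rw [Real.exp_neg, ← div_eq_mul_inv, le_div_iff₀ (Real.exp_pos _), one_mul]
          exact e2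
        exact le_mul_of_one_le_right (by positivity) h5
      refine h3.trans ?_
      apply mul_le_mul hBl h2 (by positivity) (Nat.cast_nonneg _)
    have h2 : (((Icc (1 : ℤ) N).filter (fun n => ∀ b < B, ¬ S m ((Tz d)^[m * b] n))).card : ℝ) ≤
        3 * N * Real.exp (-l ^ (ε / 8)) := by
      refine h1.trans (mul_le_mul_of_nonneg_left ?_ (by positivity))
      exact Real.exp_le_exp.2 (by linarith)
    -- small integers
    have h3 : (((Icc (1 : ℤ) N).filter (fun n : ℤ => (n : ℝ) ≤ w ^ 3)).card : ℝ) ≤ N * Real.exp (-l ^ (ε / 8)) := by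
      have h4 : ((Icc (1 : ℤ) N).filter (fun n : ℤ => (n : ℝ) ≤ w ^ 3)).card ≤ ⌊w ^ 3⌋₊ := by
        have h5 : (Icc (1 : ℤ) N).filter (fun n : ℤ => (n : ℝ) ≤ w ^ 3) ⊆ Icc 1 (⌊w ^ 3⌋₊ : ℤ) := by
          intro n hn
          rw [mem_filter, Finset.mem_Icc] at hn
          rw [Finset.mem_Icc]
          refine ⟨hn.1.1, ?_⟩
          have h6 : (n.toNat : ℝ) ≤ w ^ 3 := by
            have : ((n.toNat : ℤ) : ℝ) = n := by
              rw [Int.toNat_of_nonneg (by omega)]
            have h7 : (n.toNat : ℝ) = n := by rw [← this]; push_cast; rfl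
            rw [h7]; exact hn.2
          have h7 := Nat.le_floor h6
          omega
        have h6 := card_le_card h5
        rw [Int.card_Icc] at h6
        omega
      have h5 : (((Icc (1 : ℤ) N).filter (fun n : ℤ => (n : ℝ) ≤ w ^ 3)).card : ℝ) ≤ w ^ 3 := by
        refine le_trans ?_ (Nat.floor_le (by positivity : 0 ≤ w ^ 3))
        exact_mod_cast h4
      refine h5.trans ?_
      have h6 : w * Real.exp (-l ^ (ε / 8)) ≥ 1 := by
        rw [hw, ← Real.exp_add]
        exact Real.one_le_exp (by linarith)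
      calc w ^ 3 = w ^ 3 * 1 := (mul_one _).symm
        _ ≤ w ^ 3 * (w * Real.exp (-l ^ (ε / 8))) := mul_le_mul_of_nonneg_left h6 (by positivity)
        _ = w ^ 4 * Real.exp (-l ^ (ε / 8)) := by ring
        _ = _ := by rw [hw4]
    -- the others
    have hsub : (Icc (1 : ℤ) N).filter (fun n => ¬ QS d ((1 - ε) / ρ) S n) ⊆
        (Icc (1 : ℤ) N).filter (fun n => ∀ b < B, ¬ S m ((Tz d)^[m * b] n)) ∪
        (Icc (1 : ℤ) N).filter (fun n : ℤ => (n : ℝ) ≤ w ^ 3) := by
      intro n hn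
      rw [mem_filter] at hn
      rw [mem_union, mem_filter, mem_filter]
      by_contra hcon
      push Not at hcon
      obtain ⟨g1, g2⟩ := hcon
      obtain ⟨b, hb, hSb⟩ := g1 hn.1
      have hnw := g2 hn.1
      apply hn.2
      rw [Finset.mem_Icc] at hn
      have hnN : (n : ℝ) ≤ N := by exact_mod_cast hn.1.2
      have hn0 : 0 < n := by omega
      have hnR : (0 : ℝ) < n := by exact_mod_cast hn0
      have hdw : |(d : ℝ)| ≤ w ^ 2 := by
        have : w ^ 2 = Real.exp (l / 2) := by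
          rw [hw, ← Real.exp_nat_mul]; congr 1; push_cast; ring
        rw [this]; exact e5
      have him : m * b + m ≤ E := by
        calc m * b + m = m * (b + 1) := by ring
          _ ≤ m * B := Nat.mul_le_mul_left _ (by omega)
          _ ≤ E := hmB
      have hlow : ∀ j ≤ E, (n : ℝ) ≤ 2 ^ j * (((Tz d)^[j] n : ℤ) : ℝ) := by
        intro j hj
        apply half_low hd j
        have h4 : (2 : ℝ) ^ j ≤ w := (pow_le_pow_right₀ (by norm_num) hj).trans h2Ew
        have h5 : (2 : ℝ) ^ j * |(d : ℝ)| ≤ w * w ^ 2 := mul_le_mul h4 hdw (abs_nonneg _) hw0.le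
        have h6 : w * w ^ 2 = w ^ 3 := by ring
        rw [h6] at h5
        exact h5.trans hnw.le
      have hlow2 : ∀ j ≤ E, w ^ 2 ≤ (((Tz d)^[j] n : ℤ) : ℝ) := by
        intro j hj
        have h4 : (2 : ℝ) ^ j ≤ w := (pow_le_pow_right₀ (by norm_num) hj).trans h2Ew
        have h5 := hlow j hj
        have h6 : 0 < (((Tz d)^[j] n : ℤ) : ℝ) := by
          by_contra hcon
          have := mul_nonpos_of_nonneg_of_nonpos (show (0 : ℝ) ≤ 2 ^ j by positivity) (not_lt.1 hcon)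
          linarith
        have h7 : w * w ^ 2 < w * (((Tz d)^[j] n : ℤ) : ℝ) := by
          calc w * w ^ 2 = w ^ 3 := by ring
            _ < (n : ℝ) := hnw
            _ ≤ 2 ^ j * (((Tz d)^[j] n : ℤ) : ℝ) := h5
            _ ≤ _ := mul_le_mul_of_nonneg_right h4 h6.le
        exact (lt_of_mul_lt_mul_left h7 hw0.le).le
      have hw1 : 1 ≤ w := by rw [hw]; exact Real.one_le_exp (by positivity)
      refine ⟨m * b, m, ?_, ?_, hSb, ?_⟩
      · have h4 : (2 : ℝ) ^ (m * b + m) ≤ w := (pow_le_pow_right₀ (by norm_num) him).trans h2Ew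
        have h5 : w ≤ w ^ 3 := by
          calc w = w ^ 1 := (pow_one w).symm
            _ ≤ w ^ 3 := pow_le_pow_right₀ hw1 (by norm_num)
        linarith
      · -- `log log`
        obtain ⟨x, hx⟩ : ∃ x, x = (((Tz d)^[m * b] n : ℤ) : ℝ) := ⟨_, rfl⟩
        have hx1 : w ^ 2 ≤ x := by rw [hx]; exact hlow2 _ (by omega)
        have hx0 : 0 < x := lt_of_lt_of_le (by positivity) hx1
        have hdz : |(d : ℝ)| ≤ w ^ 2 := hdw
        have hx2 : x ≤ 2 ^ (m * b) * n := by
          rw [hx]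
          exact crude hd hdz (m * b) (fun i hi => hlow2 i (by omega))
        have hx3 : x ≤ w ^ 5 := by
          have h4 : (2 : ℝ) ^ (m * b) ≤ w := (pow_le_pow_right₀ (by norm_num) (by omega)).trans h2Ew
          calc x ≤ 2 ^ (m * b) * n := hx2
            _ ≤ w * w ^ 4 := mul_le_mul h4 (by rw [hw4]; exact hnN) hnR.le hw0.le
            _ = w ^ 5 := by ring
        have hlw : Real.log w = l / 4 := by rw [hw, Real.log_exp]
        have h4 : Real.log x ≤ 5 / 4 * l := by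
          have := Real.log_le_log hx0 hx3
          rw [Real.log_pow, hlw] at this
          push_cast at this
          linarith
        have h5 : l / 2 ≤ Real.log x := by
          have := Real.log_le_log (by positivity) hx1
          rw [Real.log_pow, hlw] at this
          push_cast at this
          linarith
        have h6 : LL x ≤ 1 + Real.log l := by
          unfold LL
          have h7 := Real.log_le_log (by linarith : 0 < Real.log x) h4
          rw [Real.log_mul (by norm_num) hl0.ne'] at h7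
          have h8 := Real.log_le_sub_one_of_pos (show (0 : ℝ) < 5 / 4 by norm_num)
          linarith
        rw [← hx]
        refine le_trans ?_ hm1
        have h7 : 0 ≤ (1 - ε) / ρ := by apply div_nonneg <;> linarith
        calc (1 - ε) / ρ * LL x ≤ (1 - ε) / ρ * (1 + Real.log l) := mul_le_mul_of_nonneg_left h6 h7
          _ = ((1 - ε) * (1 + Real.log l)) / ρ := by ring
          _ ≤ ((1 - ε / 2) * Real.log l) / ρ := by
              apply div_le_div_of_nonneg_right _ hρ.le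
              nlinarith
          _ = κ * Real.log l := by rw [hκ]; ring
      · intro j hj
        refine le_trans ?_ (hlow2 j (by omega))
        rw [show w ^ 2 = Real.sqrt N by
          rw [← hw4, show w ^ 4 = (w ^ 2) ^ 2 by ring, Real.sqrt_sq (by positivity)]]
        exact Real.sqrt_le_sqrt hnN
    have h5 : (((Icc (1 : ℤ) N).filter (fun n => ¬ QS d ((1 - ε) / ρ) S n)).card : ℝ) ≤
        (((Icc (1 : ℤ) N).filter (fun n => ∀ b < B, ¬ S m ((Tz d)^[m * b] n))).card : ℝ) +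
        (((Icc (1 : ℤ) N).filter (fun n : ℤ => (n : ℝ) ≤ w ^ 3)).card : ℝ) := by
      exact_mod_cast (card_le_card hsub).trans (card_union_le _ _)
    have h6 : 4 * (N : ℝ) * Real.exp (-l ^ (ε / 8)) ≤
        max 4 (Real.exp (l₁ ^ (ε / 8))) * N * Real.exp (-l ^ (ε / 8)) := by
      apply mul_le_mul_of_nonneg_right _ (Real.exp_pos _).le
      exact mul_le_mul_of_nonneg_right (le_max_left _ _) hNR.le
    linarith

open scoped Classical in
/-- consequences which hold for all large integers -/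
theorem sharp_conseq {P Q : ℤ → Prop} {K δ : ℝ} (hδ0 : 0 < δ) (hδ : δ ≤ 1) {n₀ : ℕ}
    (hPQ : ∀ n : ℤ, (n₀ : ℤ) ≤ n → P n → Q n)
    (h : ∀ N : ℕ, 1 ≤ N → (((Icc (1 : ℤ) N).filter (fun n => ¬ P n)).card : ℝ) ≤
      K * N * Real.exp (-(Real.log N) ^ δ)) :
    ∀ N : ℕ, 1 ≤ N → (((Icc (1 : ℤ) N).filter (fun n => ¬ Q n)).card : ℝ) ≤
      (K + n₀ * Real.exp 1) * N * Real.exp (-(Real.log N) ^ δ) := by
  intro N hN
  have hNR : (1 : ℝ) ≤ N := by exact_mod_cast hN
  have hl0 : 0 ≤ Real.log N := Real.log_nonneg hNR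
  have h1 : 1 ≤ Real.exp 1 * (N * Real.exp (-(Real.log N) ^ δ)) := by
    have h2 : (N : ℝ) = Real.exp (Real.log N) := by rw [Real.exp_log (by linarith)]
    rw [h2, ← Real.exp_add, ← Real.exp_add, Real.log_exp]
    apply Real.one_le_exp
    rcases le_or_gt 1 (Real.log N) with hc | hc
    · have : Real.log N ^ δ ≤ Real.log N ^ (1 : ℝ) := Real.rpow_le_rpow_of_exponent_le hc hδ
      rw [Real.rpow_one] at this
      linarith
    · have : Real.log N ^ δ ≤ 1 := Real.rpow_le_one hl0 hc.le hδ0.le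
      linarith
  have h2 : (((Icc (1 : ℤ) N).filter (fun n => ¬ Q n)).card : ℝ) ≤
      (((Icc (1 : ℤ) N).filter (fun n => ¬ P n)).card : ℝ) + n₀ := by
    have h3 : (Icc (1 : ℤ) N).filter (fun n => ¬ Q n) ⊆
        (Icc (1 : ℤ) N).filter (fun n => ¬ P n) ∪ Icc (1 : ℤ) n₀ := by
      intro n hn
      rw [mem_filter] at hn
      rw [mem_union, mem_filter]
      by_cases hc : (n₀ : ℤ) ≤ n
      · exact Or.inl ⟨hn.1, fun hP => hn.2 (hPQ n hc hP)⟩
      · right
        rw [Finset.mem_Icc] at hn ⊢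
        omega
    have h4 := (card_le_card h3).trans (card_union_le _ _)
    rw [Int.card_Icc] at h4
    have h5 : ((n₀ : ℤ) + 1 - 1).toNat = n₀ := by omega
    rw [h5] at h4
    exact_mod_cast h4
  refine h2.trans ?_
  have h3 := h N hN
  have h4 : (n₀ : ℝ) ≤ n₀ * (Real.exp 1 * (N * Real.exp (-(Real.log N) ^ δ))) :=
    le_mul_of_one_le_right (Nat.cast_nonneg _) h1
  calc _ ≤ K * N * Real.exp (-(Real.log N) ^ δ) + n₀ * (Real.exp 1 * (N * Real.exp (-(Real.log N) ^ δ))) :=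
        add_le_add h3 h4
    _ = _ := by ring

end Run7.h702.BC
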