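import Pool.Agent.Run7.h702.BC.B

/-! Lower bounds for the number of the atypical windows. -/

set_option autoImplicit false

namespace Run7.h702.BC

open Finset Filter
open Pool.Agent.H499R2.CO (Tz)
open Pool.Agent.R344.SP Pool.Agent.R344.TH
open Run7.h702.AT

theorem log_fac_low : ∀ n : ℕ, (n : ℝ) * Real.log n - n ≤ Real.log (n.factorial : ℝ)
  | 0 => by simp
  | 1 => by simp
  | n + 2 => by
    have ih := log_fac_low (n + 1)
    rw [Nat.factorial_succ (n + 1)]
    push_cast at ih ⊢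
    have h1 : (0 : ℝ) < (n : ℝ) + 1 := by positivity
    have h2 : (0 : ℝ) < (n : ℝ) + 1 + 1 := by positivity
    have h3 : (0 : ℝ) < ((n + 1).factorial : ℝ) := by exact_mod_cast Nat.factorial_pos _
    rw [Real.log_mul h2.ne' h3.ne']
    have h4 : Real.log ((n : ℝ) + 1 + 1) - Real.log ((n : ℝ) + 1) ≤ 1 / ((n : ℝ) + 1) := by
      rw [← Real.log_div h2.ne' h1.ne']
      have h5 := Real.log_le_sub_one_of_pos (show 0 < ((n : ℝ) + 1 + 1) / ((n : ℝ) + 1) by positivity)
      have h6 : ((n : ℝ) + 1 + 1) / ((n : ℝ) + 1) - 1 = 1 / ((n : ℝ) + 1) := by field_simp; ring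
      linarith
    have h5 : ((n : ℝ) + 1) * (Real.log ((n : ℝ) + 1 + 1) - Real.log ((n : ℝ) + 1)) ≤ 1 := by
      calc _ ≤ ((n : ℝ) + 1) * (1 / ((n : ℝ) + 1)) := mul_le_mul_of_nonneg_left h4 h1.le
        _ = 1 := by field_simp
    have e : (n : ℝ) + 2 = (n : ℝ) + 1 + 1 := by ring
    rw [e]
    nlinarith

theorem log_fac_up : ∀ n : ℕ, 1 ≤ n → Real.log (n.factorial : ℝ) ≤ (n : ℝ) * Real.log n - n + Real.log n + 1
  | 0, h => by omega
  | 1, _ => by simp
  | n + 2, _ => by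
    have ih := log_fac_up (n + 1) (by omega)
    rw [Nat.factorial_succ (n + 1)]
    push_cast at ih ⊢
    have h1 : (0 : ℝ) < (n : ℝ) + 1 := by positivity
    have h2 : (0 : ℝ) < (n : ℝ) + 1 + 1 := by positivity
    have h3 : (0 : ℝ) < ((n + 1).factorial : ℝ) := by exact_mod_cast Nat.factorial_pos _
    rw [Real.log_mul h2.ne' h3.ne']
    have h4 : 1 / ((n : ℝ) + 1 + 1) ≤ Real.log ((n : ℝ) + 1 + 1) - Real.log ((n : ℝ) + 1) := by
      rw [← Real.log_div h2.ne' h1.ne']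
      have h5 := Real.one_sub_inv_le_log_of_pos (show 0 < ((n : ℝ) + 1 + 1) / ((n : ℝ) + 1) by positivity)
      have h6 : 1 - (((n : ℝ) + 1 + 1) / ((n : ℝ) + 1))⁻¹ = 1 / ((n : ℝ) + 1 + 1) := by field_simp; ring
      linarith
    have h5 : 1 ≤ ((n : ℝ) + 1 + 1) * (Real.log ((n : ℝ) + 1 + 1) - Real.log ((n : ℝ) + 1)) := by
      calc (1 : ℝ) = ((n : ℝ) + 1 + 1) * (1 / ((n : ℝ) + 1 + 1)) := by field_simp
        _ ≤ _ := mul_le_mul_of_nonneg_left h4 h2.le
    have e : (n : ℝ) + 2 = (n : ℝ) + 1 + 1 := by ring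
    rw [e]
    nlinarith

/-- a binomial coefficient and the entropy -/
theorem log_choose_low {m a : ℕ} (ha0 : 0 < a) (ham : a < m) :
    (m : ℝ) * Real.binEntropy ((a : ℝ) / m) - 2 * Real.log m - 2 ≤ Real.log (m.choose a : ℝ) := by
  have hmR : (0 : ℝ) < m := by exact_mod_cast (by omega : 0 < m)
  have haR : (0 : ℝ) < a := by exact_mod_cast ha0
  have hb : 0 < m - a := by omega
  have hbR : (0 : ℝ) < ((m - a : ℕ) : ℝ) := by exact_mod_cast hb
  have hbe : ((m - a : ℕ) : ℝ) = (m : ℝ) - a := by rw [Nat.cast_sub ham.le]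
  have h1 := log_fac_low m
  have h2 := log_fac_up a ha0
  have h3 := log_fac_up (m - a) hb
  have h4 : (m.choose a : ℝ) = (m.factorial : ℝ) / ((a.factorial : ℝ) * ((m - a).factorial : ℝ)) := by
    rw [Nat.choose_eq_factorial_div_factorial ham.le, Nat.cast_div (Nat.factorial_mul_factorial_dvd_factorial ham.le)
      (by have := Nat.factorial_pos a
          have := Nat.factorial_pos (m - a)
          positivity)]
    push_cast
    rfl
  have f1 : (0 : ℝ) < (m.factorial : ℝ) := by exact_mod_cast Nat.factorial_pos _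
  have f2 : (0 : ℝ) < (a.factorial : ℝ) := by exact_mod_cast Nat.factorial_pos _
  have f3 : (0 : ℝ) < ((m - a).factorial : ℝ) := by exact_mod_cast Nat.factorial_pos _
  rw [h4, Real.log_div f1.ne' (by positivity), Real.log_mul f2.ne' f3.ne']
  have h5 : (m : ℝ) * Real.binEntropy ((a : ℝ) / m) =
      m * Real.log m - a * Real.log a - ((m - a : ℕ) : ℝ) * Real.log ((m - a : ℕ) : ℝ) := by
    have e1 : 1 - (a : ℝ) / m = ((m - a : ℕ) : ℝ) / m := by rw [hbe]; field_simp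
    rw [Real.binEntropy, e1, Real.log_inv, Real.log_inv, Real.log_div haR.ne' hmR.ne',
      Real.log_div hbR.ne' hmR.ne']
    rw [hbe]
    field_simp
    ring
  rw [h5]
  have h6 : Real.log a ≤ Real.log m := Real.log_le_log haR (by exact_mod_cast ham.le)
  have h7 : Real.log ((m - a : ℕ) : ℝ) ≤ Real.log m := Real.log_le_log hbR (by rw [hbe]; linarith)
  have h8 : (a : ℝ) + ((m - a : ℕ) : ℝ) = m := by rw [hbe]; ring
  nlinarith

/-- the number of the words of length `m` with at least `c m` ones -/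
theorem choose_low {c : ℝ} (hc0 : 0 < c) (hc1 : c < 1) {δ : ℝ} (hδ : 0 < δ) : ∃ m₀ : ℕ, ∀ m : ℕ, m₀ ≤ m →
    ∃ a : ℕ, a ≤ m ∧ c * m ≤ a ∧ Real.exp ((Real.binEntropy c - δ) * m) ≤ (m.choose a : ℝ) := by
  have h1 := Real.binEntropy_continuous.continuousAt (x := c)
  have h2 := h1.eventually (lt_mem_nhds (show Real.binEntropy c - δ / 2 < Real.binEntropy c by linarith))
  obtain ⟨e, he, h3⟩ := Metric.eventually_nhds_iff.1 h2
  have h4 : Tendsto (fun m : ℕ => Real.log (m : ℝ) / m) atTop (nhds 0) :=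
    (Real.isLittleO_log_id_atTop.tendsto_div_nhds_zero.comp tendsto_natCast_atTop_atTop)
  have h5 : Tendsto (fun m : ℕ => 2 * (Real.log (m : ℝ) / m) + 2 / (m : ℝ)) atTop (nhds (2 * 0 + 0)) :=
    (h4.const_mul _).add (tendsto_const_nhds.div_atTop tendsto_natCast_atTop_atTop)
  rw [mul_zero, add_zero] at h5
  have h6 := (h5.eventually (gt_mem_nhds (show (0 : ℝ) < δ / 2 by linarith))).and
    ((tendsto_natCast_atTop_atTop (R := ℝ)).eventually_gt_atTop (1 / e + 1 / (1 - c) + 1))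
  obtain ⟨m₀, hm₀⟩ := eventually_atTop.1 h6
  refine ⟨m₀, fun m hm => ?_⟩
  obtain ⟨h7, h8⟩ := hm₀ m hm
  have h1c : 0 < 1 - c := by linarith
  have he0 : 0 < 1 / e := by positivity
  have hc0' : 0 < 1 / (1 - c) := by positivity
  have hmR : (0 : ℝ) < m := by linarith
  have hm1 : 1 < m * (1 - c) := by
    have : 1 / (1 - c) < m := by linarith
    rwa [div_lt_iff₀ h1c] at this
  have hme : 1 < m * e := by
    have : 1 / e < m := by linarith
    rwa [div_lt_iff₀ he] at this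
  obtain ⟨a, ha⟩ : ∃ a : ℕ, a = ⌈c * m⌉₊ := ⟨_, rfl⟩
  have ha1 : c * m ≤ a := by rw [ha]; exact Nat.le_ceil _
  have ha2 : (a : ℝ) < c * m + 1 := by rw [ha]; exact Nat.ceil_lt_add_one (by positivity)
  have ha0 : 0 < a := by
    have : (0 : ℝ) < a := lt_of_lt_of_le (by positivity) ha1
    exact_mod_cast this
  have ham : a < m := by
    have : (a : ℝ) < m := by nlinarith
    exact_mod_cast this
  refine ⟨a, ham.le, ha1, ?_⟩
  have h9 := log_choose_low ha0 ham
  have h10 : Real.binEntropy c - δ / 2 < Real.binEntropy ((a : ℝ) / m) := by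
    apply h3
    rw [Real.dist_eq, abs_lt]
    have e1 : (a : ℝ) / m - c = (a - c * m) / m := by field_simp
    rw [e1]
    constructor
    · have : 0 ≤ ((a : ℝ) - c * m) / m := div_nonneg (by linarith) hmR.le
      linarith
    · rw [div_lt_iff₀ hmR]; linarith
  have h11 : 2 * Real.log m + 2 ≤ δ / 2 * m := by
    have e1 : (2 * (Real.log (m : ℝ) / m) + 2 / (m : ℝ)) * m = 2 * Real.log m + 2 := by field_simp
    rw [← e1]
    exact mul_le_mul_of_nonneg_right h7.le hmR.le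
  have h12 : (0 : ℝ) < (m.choose a : ℝ) := by exact_mod_cast Nat.choose_pos ham.le
  rw [← Real.le_log_iff_exp_le h12]
  nlinarith

open scoped Classical in
/-- many words with at least `c m` ones -/
theorem Wup_low {d : ℤ} (hd : d % 2 = 1) {c : ℝ} (hc : 1 / 2 < c) (hc1 : c < 1) {δ : ℝ} (hδ : 0 < δ) :
    ∃ m₀ : ℕ, ∀ m : ℕ, m₀ ≤ m → Real.exp (-((rate c + δ) * m)) * 2 ^ m ≤
      (((range (2 ^ m)).filter (fun r : ℕ => c * m ≤ od d m (r : ℤ))).card : ℝ) := by
  obtain ⟨m₀, hm₀⟩ := choose_low (by linarith : 0 < c) hc1 hδ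
  refine ⟨m₀, fun m hm => ?_⟩
  obtain ⟨a, ha1, ha2, ha3⟩ := hm₀ m hm
  have h1 := od_choose hd m a
  have h2 : (((range (2 ^ m)).filter (fun r : ℕ => od d m (r : ℤ) = a)).card : ℝ) ≤
      (((range (2 ^ m)).filter (fun r : ℕ => c * m ≤ od d m (r : ℤ))).card : ℝ) := by
    have : (range (2 ^ m)).filter (fun r : ℕ => od d m (r : ℤ) = a) ⊆
        (range (2 ^ m)).filter (fun r : ℕ => c * m ≤ od d m (r : ℤ)) := by
      intro r hr
      rw [mem_filter] at hr ⊢
      exact ⟨hr.1, by rw [hr.2]; exact ha2⟩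
    exact_mod_cast card_le_card this
  rw [h1] at h2
  refine le_trans (le_of_eq ?_) (ha3.trans h2)
  rw [← Real.rpow_natCast (2 : ℝ) m, Real.rpow_def_of_pos (by norm_num), ← Real.exp_add]
  congr 1
  unfold rate
  ring

open scoped Classical in
/-- many words with at most `(1 - c) m` ones -/
theorem Wdown_low {d : ℤ} (hd : d % 2 = 1) {c : ℝ} (hc : 1 / 2 < c) (hc1 : c < 1) {δ : ℝ} (hδ : 0 < δ) :
    ∃ m₀ : ℕ, ∀ m : ℕ, m₀ ≤ m → Real.exp (-((rate c + δ) * m)) * 2 ^ m ≤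
      (((range (2 ^ m)).filter (fun r : ℕ => (od d m (r : ℤ) : ℝ) ≤ (1 - c) * m)).card : ℝ) := by
  obtain ⟨m₀, hm₀⟩ := choose_low (by linarith : 0 < c) hc1 hδ
  refine ⟨m₀, fun m hm => ?_⟩
  obtain ⟨a, ha1, ha2, ha3⟩ := hm₀ m hm
  have h1 := od_choose hd m (m - a)
  rw [Nat.choose_symm ha1] at h1
  have h2 : (((range (2 ^ m)).filter (fun r : ℕ => od d m (r : ℤ) = m - a)).card : ℝ) ≤
      (((range (2 ^ m)).filter (fun r : ℕ => (od d m (r : ℤ) : ℝ) ≤ (1 - c) * m)).card : ℝ) := by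
    have : (range (2 ^ m)).filter (fun r : ℕ => od d m (r : ℤ) = m - a) ⊆
        (range (2 ^ m)).filter (fun r : ℕ => (od d m (r : ℤ) : ℝ) ≤ (1 - c) * m) := by
      intro r hr
      rw [mem_filter] at hr ⊢
      refine ⟨hr.1, ?_⟩
      rw [hr.2, Nat.cast_sub ha1]
      linarith
    exact_mod_cast card_le_card this
  rw [h1] at h2
  refine le_trans (le_of_eq ?_) (ha3.trans h2)
  rw [← Real.rpow_natCast (2 : ℝ) m, Real.rpow_def_of_pos (by norm_num), ← Real.exp_add]
  congr 1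
  unfold rate
  ring

end Run7.h702.BC
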