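import Pool.Agent.Run7.h702.BC.F
import Pool.Agent.Run7.h702.BC.G

/-! The laws of the windows, of the stopping times and of the excursions are sharp. -/

set_option autoImplicit false

namespace Run7.h702.BC

open Finset Filter
open Pool.Agent.H499R2.CO (Tz)
open Pool.Agent.R344.SP Pool.Agent.R344.TH
open Run7.h702.AT

theorem od_per {d : ℤ} (hd : d % 2 = 1) {m k : ℕ} (hm : m ≤ k) (x y : ℤ) :
    od d m (x + y * 2 ^ k) = od d m x := by
  obtain ⟨e, rfl⟩ : ∃ e, k = e + m := ⟨k - m, by omega⟩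
  rw [pow_add, ← mul_assoc, od_periodic hd]

open scoped Classical in
/-- **Windows with many odd terms.** -/
theorem sharp_up {d : ℤ} (hd : d % 2 = 1) {c : ℝ} (hc : 1 / 2 < c) (hc1 : c < 1) {ε : ℝ} (hε0 : 0 < ε) (hε : ε < 1) :
    ∃ K : ℝ, 0 < K ∧ ∀ N : ℕ, 1 ≤ N →
      (((Icc (1 : ℤ) N).filter (fun n => ¬ QS d ((1 - ε) / rate c) (fun m x => c * m ≤ od d m x) n)).card : ℝ) ≤
        K * N * Real.exp (-(Real.log N) ^ (ε / 8)) := by
  have hr := rate_pos hc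
  obtain ⟨m₀, hm₀⟩ := Wup_low hd hc hc1 (show 0 < rate c * (ε / 4) by positivity)
  refine sharp_gen hd hr hε0 hε (S := fun m x => c * m ≤ od d m x) (fun m x y => ?_) (m₀ := m₀) (fun m hm => ?_)
  · simp only [od_per hd le_rfl]
  · refine le_trans (le_of_eq ?_) (hm₀ m hm)
    congr 3
    ring

open scoped Classical in
/-- **Windows with few odd terms.** -/
theorem sharp_down {d : ℤ} (hd : d % 2 = 1) {c : ℝ} (hc : 1 / 2 < c) (hc1 : c < 1) {ε : ℝ} (hε0 : 0 < ε) (hε : ε < 1) :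
    ∃ K : ℝ, 0 < K ∧ ∀ N : ℕ, 1 ≤ N →
      (((Icc (1 : ℤ) N).filter (fun n => ¬ QS d ((1 - ε) / rate c) (fun m x => (od d m x : ℝ) ≤ (1 - c) * m) n)).card : ℝ) ≤
        K * N * Real.exp (-(Real.log N) ^ (ε / 8)) := by
  have hr := rate_pos hc
  obtain ⟨m₀, hm₀⟩ := Wdown_low hd hc hc1 (show 0 < rate c * (ε / 4) by positivity)
  refine sharp_gen hd hr hε0 hε (S := fun m x => (od d m x : ℝ) ≤ (1 - c) * m) (fun m x y => ?_) (m₀ := m₀)
    (fun m hm => ?_)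
  · simp only [od_per hd le_rfl]
  · refine le_trans (le_of_eq ?_) (hm₀ m hm)
    congr 3
    ring

/-- `3 ^ (number of the odd steps) ≥ (9 / 8) 2 ^ j` for all `1 ≤ j ≤ m` -/
def SP (d : ℤ) (m : ℕ) (x : ℤ) : Prop := ∀ j : ℕ, 1 ≤ j → j ≤ m → 9 * 2 ^ j ≤ 8 * 3 ^ od d j x

theorem SP_per {d : ℤ} (hd : d % 2 = 1) {m k : ℕ} (hm : m ≤ k) (x y : ℤ) : SP d m (x + y * 2 ^ k) ↔ SP d m x := by
  unfold SP
  constructor
  · intro h j h1 h2
    have := h j h1 h2
    rwa [od_per hd (by omega)] at this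
  · intro h j h1 h2
    rw [od_per hd (by omega)]
    exact h j h1 h2

theorem od_full {d : ℤ} {s : ℕ} {x : ℤ} (h : od d s x = s) : ∀ j ≤ s, od d j x = j := by
  intro j hj
  obtain ⟨e, rfl⟩ : ∃ e, s = j + e := ⟨s - j, by omega⟩
  rw [od_add] at h
  have h1 := od_le d j x
  have h2 := od_le d e ((Tz d)^[j] x)
  omega

/-- a window of odd terms followed by good blocks -/
theorem SP_of {d : ℤ} {c : ℝ} (hc : Real.log 2 / Real.log 3 ≤ c) {b t : ℕ} (hb : 0 < b) {x : ℤ}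
    (h1 : od d (2 * b + 2) x = 2 * b + 2)
    (h2 : AllBl d b (fun y => c * b ≤ od d b y) t ((Tz d)^[2 * b + 2] x)) : SP d (2 * b + 2 + b * t) x := by
  intro j hj1 hj2
  have hl3 : 0 < Real.log 3 := Real.log_pos (by norm_num)
  rcases le_or_gt j (2 * b + 2) with h | h
  · rw [od_full h1 j h]
    obtain ⟨i, rfl⟩ : ∃ i, j = i + 1 := ⟨j - 1, by omega⟩
    have h3 : 2 ^ i ≤ 3 ^ i := Nat.pow_le_pow_left (by norm_num) i
    rw [pow_succ, pow_succ]
    omega
  · obtain ⟨u, hu⟩ : ∃ u, u = j - (2 * b + 2) := ⟨_, rfl⟩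
    have hju : j = 2 * b + 2 + u := by omega
    have hut : u ≤ b * t := by omega
    obtain ⟨q, hq⟩ : ∃ q, q = u / b := ⟨_, rfl⟩
    have hqt : q ≤ t := by
      rw [hq]
      exact Nat.div_le_of_le_mul hut
    have hqu : b * q ≤ u := by rw [hq]; exact Nat.mul_div_le u b
    have huq : u < b * q + b := by
      have := Nat.lt_div_mul_add (a := u) hb
      rw [hq, mul_comm]
      exact this
    -- the first `q` blocks
    have hblk : ∀ q' ≤ t, 2 ^ (b * q') ≤ 3 ^ od d (b * q') ((Tz d)^[2 * b + 2] x) := by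
      intro q'
      induction q' with
      | zero =>
        intro _
        rw [mul_zero, pow_zero]
        exact Nat.one_le_pow _ _ (by norm_num)
      | succ q' ih =>
        intro hq'
        have h3 := ih (by omega)
        have h4 := h2 q' (by omega)
        simp only at h4
        rw [show b * (q' + 1) = b * q' + b by ring, od_add, pow_add, pow_add]
        apply Nat.mul_le_mul h3
        have h5 : (2 : ℝ) ^ b ≤ 3 ^ od d b ((Tz d)^[b * q'] ((Tz d)^[2 * b + 2] x)) := by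
          rw [← Real.rpow_natCast, ← Real.rpow_natCast, Real.rpow_def_of_pos (by norm_num),
            Real.rpow_def_of_pos (by norm_num)]
          apply Real.exp_le_exp.2
          have h6 : Real.log 2 ≤ Real.log 3 * c := by
            rw [div_le_iff₀ hl3] at hc
            linarith
          have hb0 : (0 : ℝ) ≤ b := Nat.cast_nonneg b
          calc Real.log 2 * b ≤ Real.log 3 * c * b := mul_le_mul_of_nonneg_right h6 hb0
            _ = Real.log 3 * (c * b) := by ring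
            _ ≤ _ := mul_le_mul_of_nonneg_left h4 hl3.le
        exact_mod_cast h5
    have h3 := hblk q hqt
    have h4 : od d (2 * b + 2) x + od d (b * q) ((Tz d)^[2 * b + 2] x) ≤ od d j x := by
      obtain ⟨e, he⟩ : ∃ e, j = 2 * b + 2 + b * q + e := ⟨j - (2 * b + 2 + b * q), by omega⟩
      rw [he, od_add d (2 * b + 2 + b * q), od_add d (2 * b + 2)]
      omega
    rw [h1] at h4
    have h5 : 3 ^ (2 * b + 2) * 2 ^ (b * q) ≤ 3 ^ od d j x := by
      calc 3 ^ (2 * b + 2) * 2 ^ (b * q) ≤ 3 ^ (2 * b + 2) * 3 ^ od d (b * q) ((Tz d)^[2 * b + 2] x) :=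
            Nat.mul_le_mul_left _ h3
        _ = 3 ^ (2 * b + 2 + od d (b * q) ((Tz d)^[2 * b + 2] x)) := (pow_add _ _ _).symm
        _ ≤ _ := Nat.pow_le_pow_right (by norm_num) h4
    have h6 : 2 ^ j ≤ 2 ^ (2 * b + 2) * 2 ^ (b * q) * 2 ^ b := by
      rw [← pow_add, ← pow_add]
      exact Nat.pow_le_pow_right (by norm_num) (by omega)
    have h7 : 9 * (2 ^ (2 * b + 2) * 2 ^ b) ≤ 8 * 3 ^ (2 * b + 2) := by
      have e1 : 9 * (2 ^ (2 * b + 2) * 2 ^ b) = 36 * 8 ^ b := by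
        rw [pow_add, pow_mul, show (8 : ℕ) = 4 * 2 by norm_num, mul_pow]
        norm_num
        ring
      have e2 : 8 * 3 ^ (2 * b + 2) = 72 * 9 ^ b := by
        rw [pow_add, pow_mul]
        norm_num
        ring
      rw [e1, e2]
      have : 8 ^ b ≤ 9 ^ b := Nat.pow_le_pow_left (by norm_num) b
      omega
    calc 9 * 2 ^ j ≤ 9 * (2 ^ (2 * b + 2) * 2 ^ (b * q) * 2 ^ b) := Nat.mul_le_mul_left _ h6
      _ = 9 * (2 ^ (2 * b + 2) * 2 ^ b) * 2 ^ (b * q) := by ring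
      _ ≤ 8 * 3 ^ (2 * b + 2) * 2 ^ (b * q) := Nat.mul_le_mul_right _ h7
      _ = 8 * (3 ^ (2 * b + 2) * 2 ^ (b * q)) := by ring
      _ ≤ _ := Nat.mul_le_mul_left _ h5

open scoped Classical in
theorem card_eq_sum (k : ℕ) (P : ℤ → Prop) : (((range (2 ^ k)).filter (fun r : ℕ => P (r : ℤ))).card : ℝ) =
    ∑ r ∈ range (2 ^ k), (if P (r : ℤ) then (1 : ℝ) else 0) := by
  rw [← sum_filter, sum_const, nsmul_eq_mul, mul_one]

open scoped Classical in
/-- lifting from modulus `2 ^ m` to `2 ^ (m + t)` -/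
theorem card_lift {d : ℤ} (hd : d % 2 = 1) {P : ℤ → Prop} {m : ℕ} (hP : ∀ x y : ℤ, P (x + y * 2 ^ m) ↔ P x) (t : ℕ) :
    (((range (2 ^ (m + t))).filter (fun r : ℕ => P (r : ℤ))).card : ℝ) =
      (((range (2 ^ m)).filter (fun r : ℕ => P (r : ℤ))).card : ℝ) * 2 ^ t := by
  have h1 := sum_prod hd m t (fun x => if P x then (1 : ℝ) else 0) (fun _ => 1)
    (fun x y => by simp only [hP]) (fun x y => rfl)
  rw [sum_const, card_range, nsmul_eq_mul, mul_one] at h1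
  simp only [mul_one] at h1
  rw [card_eq_sum, card_eq_sum, h1]
  push_cast
  rfl

open scoped Classical in
/-- many windows which stay above their first term -/
theorem SP_low {d : ℤ} (hd : d % 2 = 1) {δ : ℝ} (hδ : 0 < δ) :
    ∃ m₀ : ℕ, ∀ m : ℕ, m₀ ≤ m → Real.exp (-((rate (Real.log 2 / Real.log 3) + δ) * m)) * 2 ^ m ≤
      (((range (2 ^ m)).filter (fun r : ℕ => SP d m (r : ℤ))).card : ℝ) := by
  obtain ⟨ρ, hρ⟩ : ∃ ρ, ρ = rate (Real.log 2 / Real.log 3) := ⟨_, rfl⟩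
  have hρ0 : 0 < ρ := by rw [hρ]; exact rate_pos c0_gt
  rw [← hρ]
  -- a threshold above `log 2 / log 3`
  obtain ⟨c, hc1, hc2, hc3⟩ : ∃ c, Real.log 2 / Real.log 3 < c ∧ c < 1 ∧ rate c < ρ + δ / 4 := by
    have h1 : Continuous rate := by
      unfold rate
      exact continuous_const.sub Real.binEntropy_continuous
    have h2 := h1.continuousAt (x := Real.log 2 / Real.log 3)
    have h3 := h2.eventually (gt_mem_nhds (show rate (Real.log 2 / Real.log 3) < ρ + δ / 4 by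
      rw [hρ]; linarith))
    obtain ⟨e, he, h4⟩ := Metric.eventually_nhds_iff.1 h3
    obtain ⟨c, h6, h7⟩ := exists_between (show Real.log 2 / Real.log 3 < min 1 (Real.log 2 / Real.log 3 + e) by
      rw [lt_min_iff]; exact ⟨c0_lt, by linarith⟩)
    rw [lt_min_iff] at h7
    refine ⟨c, h6, h7.1, h4 ?_⟩
    rw [Real.dist_eq, abs_lt]
    constructor <;> linarith
  have hc : 1 / 2 < c := c0_gt.trans hc1
  have hrc := rate_pos hc
  obtain ⟨b₀, hb₀⟩ := Wup_low hd hc hc2 (show 0 < δ / 4 by linarith)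
  obtain ⟨b, hb⟩ : ∃ b, b = max b₀ 1 := ⟨_, rfl⟩
  have hb1 : 1 ≤ b := by rw [hb]; exact le_max_right _ _
  have hg := hb₀ b (by rw [hb]; exact le_max_left _ _)
  obtain ⟨g, hgdef⟩ : ∃ g, g = (((range (2 ^ b)).filter (fun r : ℕ => c * b ≤ od d b (r : ℤ))).card : ℝ) := ⟨_, rfl⟩
  rw [← hgdef] at hg
  obtain ⟨C, hC⟩ : ∃ C : ℝ, C = (2 * b + 2) * Real.log 2 + (ρ + δ / 2) * b := ⟨_, rfl⟩
  obtain ⟨m₀, hm₀⟩ := exists_nat_ge (C / (δ / 2))
  refine ⟨max m₀ (2 * b + 2), fun m hm => ?_⟩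
  have hmm₀ : m₀ ≤ m := (le_max_left _ _).trans hm
  have hms : 2 * b + 2 ≤ m := (le_max_right _ _).trans hm
  -- the number of the blocks
  obtain ⟨t, ht⟩ : ∃ t, t = m / b + 1 := ⟨_, rfl⟩
  have hbt1 : m ≤ b * t := by
    have := Nat.lt_div_mul_add (a := m) hb1
    rw [ht]
    have e : b * (m / b + 1) = m / b * b + b := by ring
    omega
  have hbt2 : b * t ≤ m + b := by
    rw [ht]
    have := Nat.mul_div_le m b
    have e : b * (m / b + 1) = b * (m / b) + b := by ring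
    omega
  obtain ⟨M, hM⟩ : ∃ M, M = 2 * b + 2 + b * t := ⟨_, rfl⟩
  have h1 : g ^ t ≤ (((range (2 ^ M)).filter (fun r : ℕ => SP d M (r : ℤ))).card : ℝ) := by
    have hper : ∀ x y : ℤ, (c * b ≤ od d b (x + y * 2 ^ b)) ↔ (c * b ≤ od d b x) := by
      intro x y
      rw [od_per hd le_rfl]
    have hperA : ∀ x y : ℤ, AllBl d b (fun y => c * b ≤ od d b y) t (x + y * 2 ^ (b * t)) ↔
        AllBl d b (fun y => c * b ≤ od d b y) t x := by
      intro x y
      unfold AllBl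
      have key : ∀ i < t, (c * b ≤ od d b ((Tz d)^[b * i] (x + y * 2 ^ (b * t))) ↔
          c * b ≤ od d b ((Tz d)^[b * i] x)) := by
        intro i hi
        obtain ⟨e, he⟩ : ∃ e, t = i + 1 + e := ⟨t - (i + 1), by omega⟩
        have e1 : x + y * 2 ^ (b * t) = x + (y * 2 ^ (b + b * e)) * 2 ^ (b * i) := by
          rw [he, show b * (i + 1 + e) = (b + b * e) + b * i by ring, pow_add]; ring
        rw [e1, Tz_iter hd]
        have e2 : (Tz d)^[b * i] x + y * 2 ^ (b + b * e) * 3 ^ od d (b * i) x =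
            (Tz d)^[b * i] x + (y * 2 ^ (b * e) * 3 ^ od d (b * i) x) * 2 ^ b := by
          rw [pow_add]; ring
        rw [e2, hper]
      constructor
      · intro h i hi
        exact (key i hi).1 (h i hi)
      · intro h i hi
        exact (key i hi).2 (h i hi)
    have h2 := sum_prod hd (2 * b + 2) (b * t) (fun x => if od d (2 * b + 2) x = 2 * b + 2 then (1 : ℝ) else 0)
      (fun x => if AllBl d b (fun y => c * b ≤ od d b y) t x then (1 : ℝ) else 0)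
      (fun x y => by simp only [od_per hd le_rfl]) (fun x y => by simp only [hperA])
    have h3 := blocks hd (m := b) (S := fun y => c * b ≤ od d b y) hper t
    rw [card_eq_sum] at h3
    have h4 : ∑ r ∈ range (2 ^ (2 * b + 2)), (if od d (2 * b + 2) (r : ℤ) = 2 * b + 2 then (1 : ℝ) else 0) = 1 := by
      have h5 := od_choose hd (2 * b + 2) (2 * b + 2)
      rw [Nat.choose_self, Nat.cast_one] at h5
      refine Eq.trans ?_ h5
      rw [← sum_filter, sum_const, nsmul_eq_mul, mul_one]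
    rw [h3, h4, one_mul, ← hgdef] at h2
    rw [← h2, card_eq_sum, hM]
    apply sum_le_sum
    intro r _
    by_cases g1 : od d (2 * b + 2) (r : ℤ) = 2 * b + 2
    · by_cases g2 : AllBl d b (fun y => c * b ≤ od d b y) t ((Tz d)^[2 * b + 2] (r : ℤ))
      · rw [if_pos g1, if_pos g2, if_pos (SP_of hc1.le hb1 g1 g2), one_mul]
      · rw [if_neg g2, mul_zero]
        split_ifs <;> norm_num
    · rw [if_neg g1, zero_mul]
      split_ifs <;> norm_num
  obtain ⟨e, he⟩ : ∃ e, M = m + e := ⟨M - m, by omega⟩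
  have h2 : (((range (2 ^ M)).filter (fun r : ℕ => SP d M (r : ℤ))).card : ℝ) ≤
      (((range (2 ^ M)).filter (fun r : ℕ => SP d m (r : ℤ))).card : ℝ) := by
    have : (range (2 ^ M)).filter (fun r : ℕ => SP d M (r : ℤ)) ⊆ (range (2 ^ M)).filter (fun r : ℕ => SP d m (r : ℤ)) := by
      intro r hr
      rw [mem_filter] at hr ⊢
      exact ⟨hr.1, fun j hj1 hj2 => hr.2 j hj1 (by omega)⟩
    exact_mod_cast card_le_card this
  rw [he, card_lift hd (P := SP d m) (m := m) (fun x y => SP_per hd le_rfl x y) e, ← he] at h2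
  have h3 := h1.trans h2
  -- the sizes
  have hg0 : 0 < Real.exp (-((rate c + δ / 4) * b)) * 2 ^ b := by positivity
  have h4 : (Real.exp (-((rate c + δ / 4) * b)) * 2 ^ b) ^ t ≤ g ^ t := pow_le_pow_left₀ hg0.le hg t
  have h5 : (Real.exp (-((rate c + δ / 4) * b)) * 2 ^ b) ^ t =
      Real.exp (-((rate c + δ / 4) * (b * t))) * 2 ^ (b * t) := by
    rw [mul_pow, ← Real.exp_nat_mul, ← pow_mul]
    congr 2
    ring
  rw [h5] at h4
  have h6 := h4.trans h3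
  have h7 : (2 : ℝ) ^ (b * t) * 2 ^ (2 * b + 2) = 2 ^ m * 2 ^ e := by
    rw [← pow_add, ← pow_add, ← he, hM]
    congr 1
    ring
  have h8 : Real.exp (-((ρ + δ) * m)) * 2 ^ m * 2 ^ e ≤ Real.exp (-((rate c + δ / 4) * (b * t))) * 2 ^ (b * t) := by
    have h9 : Real.exp (-((ρ + δ) * m)) * 2 ^ (2 * b + 2) ≤ Real.exp (-((rate c + δ / 4) * (b * t))) := by
      rw [← Real.rpow_natCast (2 : ℝ) (2 * b + 2), Real.rpow_def_of_pos (by norm_num), ← Real.exp_add]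
      apply Real.exp_le_exp.2
      push_cast
      have hbt : ((b : ℝ) * t) ≤ m + b := by exact_mod_cast hbt2
      have h10 : (rate c + δ / 4) * (b * t) ≤ (ρ + δ / 2) * (m + b) := by
        apply mul_le_mul (by linarith) hbt (by positivity) (by positivity)
      have h11 : C ≤ δ / 2 * m := by
        rw [div_le_iff₀ (by linarith)] at hm₀
        have : (m₀ : ℝ) ≤ m := by exact_mod_cast hmm₀
        nlinarith
      rw [hC] at h11
      nlinarith
    calc Real.exp (-((ρ + δ) * m)) * 2 ^ m * 2 ^ e = Real.exp (-((ρ + δ) * m)) * (2 ^ m * 2 ^ e) := by ring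
      _ = Real.exp (-((ρ + δ) * m)) * 2 ^ (2 * b + 2) * 2 ^ (b * t) := by rw [← h7]; ring
      _ ≤ _ := mul_le_mul_of_nonneg_right h9 (by positivity)
  exact le_of_mul_le_mul_right (h8.trans h6) (by positivity)

open scoped Classical in
/-- **Windows which stay above their first term.** -/
theorem sharp_stop {d : ℤ} (hd : d % 2 = 1) {ε : ℝ} (hε0 : 0 < ε) (hε : ε < 1) :
    ∃ K : ℝ, 0 < K ∧ ∀ N : ℕ, 1 ≤ N →
      (((Icc (1 : ℤ) N).filter (fun n => ¬ QS d ((1 - ε) * κ₀) (fun m x => SP d m x) n)).card : ℝ) ≤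
        K * N * Real.exp (-(Real.log N) ^ (ε / 8)) := by
  have hr := rate_pos c0_gt
  obtain ⟨m₀, hm₀⟩ := SP_low hd (show 0 < rate (Real.log 2 / Real.log 3) * (ε / 4) by positivity)
  have h := sharp_gen hd hr hε0 hε (S := fun m x => SP d m x) (fun m x y => SP_per hd le_rfl x y) (m₀ := m₀) (fun m hm => ?_)
  · have e1 : (1 - ε) / rate (Real.log 2 / Real.log 3) = (1 - ε) * κ₀ := by unfold κ₀; ring
    rwa [e1] at h
  · refine le_trans (le_of_eq ?_) (hm₀ m hm)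
    congr 3
    ring

/-- the size of the terms of a window, from below -/
theorem window_low {d : ℤ} (hd : d % 2 = 1) : ∃ n₀ : ℕ, ∀ n : ℤ, (n₀ : ℤ) ≤ n → ∀ i m : ℕ, (2 : ℝ) ^ (i + m) ≤ n →
    (∀ j ≤ i + m, Real.sqrt n ≤ (((Tz d)^[j] n : ℤ) : ℝ)) → ∀ j ≤ m, 0 < (Tz d)^[i] n ∧
      17 / 18 * (3 ^ od d j ((Tz d)^[i] n) * (((Tz d)^[i] n : ℤ) : ℝ)) ≤ (((Tz d)^[i + j] n : ℤ) : ℝ) * 2 ^ j := by
  have h1 : Tendsto (fun x : ℝ => Real.log x / x ^ (1 / 2 : ℝ)) atTop (nhds 0) :=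
    (isLittleO_log_rpow_atTop (by norm_num)).tendsto_div_nhds_zero
  have h2 : ∀ᶠ x : ℝ in atTop, |(d : ℝ)| * Real.log x ≤ x ^ (1 / 2 : ℝ) / 18 ∧ |(d : ℝ)| ≤ x ^ (1 / 2 : ℝ) ∧ 1 ≤ x := by
    have h3 : (0 : ℝ) < 1 / (18 * (|(d : ℝ)| + 1)) := by positivity
    filter_upwards [h1.eventually (gt_mem_nhds h3),
      (tendsto_rpow_atTop (show (0 : ℝ) < 1 / 2 by norm_num)).eventually_ge_atTop |(d : ℝ)|,
      eventually_ge_atTop (1 : ℝ)] with x a1 a2 a3
    refine ⟨?_, a2, a3⟩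
    have hx0 : 0 < x ^ (1 / 2 : ℝ) := by positivity
    rw [div_lt_iff₀ hx0] at a1
    have hl : 0 ≤ Real.log x := Real.log_nonneg a3
    have hd0 := abs_nonneg (d : ℝ)
    have a4 : (|(d : ℝ)| + 1) * Real.log x ≤ x ^ (1 / 2 : ℝ) / 18 := by
      calc (|(d : ℝ)| + 1) * Real.log x ≤ (|(d : ℝ)| + 1) * (1 / (18 * (|(d : ℝ)| + 1)) * x ^ (1 / 2 : ℝ)) :=
            mul_le_mul_of_nonneg_left a1.le (by positivity)
        _ = _ := by field_simp
    nlinarith
  obtain ⟨x₀, hx₀⟩ := eventually_atTop.1 h2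
  obtain ⟨n₀, hn₀⟩ := exists_nat_ge (max x₀ 1)
  refine ⟨n₀, ?_⟩
  intro n hn i m hm hj j hjm
  have hnR : (n₀ : ℝ) ≤ n := by exact_mod_cast hn
  have hnx : x₀ ≤ n := (le_max_left _ _).trans (hn₀.trans hnR)
  obtain ⟨b1, b2, b3⟩ := hx₀ n hnx
  obtain ⟨z, hz⟩ : ∃ z, z = Real.sqrt n := ⟨_, rfl⟩
  rw [← Real.sqrt_eq_rpow, ← hz] at b1 b2
  have hz0 : 0 < z := by rw [hz]; apply Real.sqrt_pos.2; linarith
  rw [← hz] at hj
  have hxz := hj i (by omega)
  have hxR : (0 : ℝ) < (((Tz d)^[i] n : ℤ) : ℝ) := lt_of_lt_of_le hz0 hxz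
  have hx0 : 0 < (Tz d)^[i] n := by exact_mod_cast hxR
  refine ⟨hx0, ?_⟩
  have h3 := growth_low hd hz0 b2 hx0 j (by
    intro e he
    rw [← Function.iterate_add_apply, Nat.add_comm]
    exact hj _ (by omega))
  rw [← Function.iterate_add_apply, Nat.add_comm j i] at h3
  refine le_trans ?_ h3
  -- `j |d| / (3 z) ≤ 1 / 18`
  have hjl : (j : ℝ) ≤ 2 * Real.log n := by
    have h4 : (2 : ℝ) ^ j ≤ n := (pow_le_pow_right₀ (by norm_num) (by omega)).trans hm
    have h5 := Real.log_le_log (by positivity) h4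
    rw [Real.log_pow] at h5
    have h6 := Real.log_two_gt_d9
    have h7 : (0 : ℝ) ≤ j := Nat.cast_nonneg j
    nlinarith
  have hd0 := abs_nonneg (d : ℝ)
  have h4 : (j : ℝ) * (|(d : ℝ)| / (3 * z)) ≤ 1 / 18 := by
    rw [← mul_div_assoc, div_le_div_iff₀ (by positivity) (by norm_num)]
    have h5 : (j : ℝ) * |(d : ℝ)| ≤ 2 * Real.log n * |(d : ℝ)| := mul_le_mul_of_nonneg_right hjl hd0
    nlinarith
  have h5 : 17 / 18 ≤ (1 - |(d : ℝ)| / (3 * z)) ^ j := by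
    have h6 : -2 ≤ -(|(d : ℝ)| / (3 * z)) := by
      have : |(d : ℝ)| / (3 * z) ≤ 1 := by rw [div_le_one (by positivity)]; linarith
      linarith
    have h7 := one_add_mul_le_pow h6 j
    rw [← sub_eq_add_neg] at h7
    linarith
  calc 17 / 18 * (3 ^ od d j ((Tz d)^[i] n) * (((Tz d)^[i] n : ℤ) : ℝ))
      = 3 ^ od d j ((Tz d)^[i] n) * (((Tz d)^[i] n : ℤ) : ℝ) * (17 / 18) := by ring
    _ ≤ _ := mul_le_mul_of_nonneg_left h5 (by positivity)

/-- Some term `x` of the beginning of the trajectory is smaller than the following terms during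
`κ log log x` steps. -/
def PStop (d : ℤ) (κ : ℝ) (n : ℤ) : Prop :=
  ∃ i m : ℕ, (2 : ℝ) ^ (i + m) ≤ n ∧ (∀ j ≤ i + m, Real.sqrt n ≤ (((Tz d)^[j] n : ℤ) : ℝ)) ∧
    κ * LL (((Tz d)^[i] n : ℤ) : ℝ) ≤ m ∧ ∀ j : ℕ, 1 ≤ j → j ≤ m → (Tz d)^[i] n < (Tz d)^[i + j] n

/-- Some term `x` of the beginning of the trajectory is followed by a term larger than `x (log x) ^ s`. -/
def PExc (d : ℤ) (s : ℝ) (n : ℤ) : Prop :=
  ∃ i m : ℕ, (2 : ℝ) ^ (i + m) ≤ n ∧ (∀ j ≤ i + m, Real.sqrt n ≤ (((Tz d)^[j] n : ℤ) : ℝ)) ∧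
    (((Tz d)^[i] n : ℤ) : ℝ) * Real.log (((Tz d)^[i] n : ℤ) : ℝ) ^ s < (((Tz d)^[i + m] n : ℤ) : ℝ)

open scoped Classical in
theorem PStop_count {d : ℤ} (hd : d % 2 = 1) {ε : ℝ} (hε0 : 0 < ε) (hε : ε < 1) :
    ∃ K : ℝ, 0 < K ∧ ∀ N : ℕ, 1 ≤ N →
      (((Icc (1 : ℤ) N).filter (fun n => ¬ PStop d ((1 - ε) * κ₀) n)).card : ℝ) ≤
        K * N * Real.exp (-(Real.log N) ^ (ε / 8)) := by
  obtain ⟨K, hK, h⟩ := sharp_stop hd hε0 hε
  obtain ⟨n₀, hn₀⟩ := window_low hd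
  refine ⟨K + n₀ * Real.exp 1, by positivity, sharp_conseq (n₀ := n₀) (by linarith) (by linarith) ?_ h⟩
  rintro n hn ⟨i, m, h1, h2, h3, h4⟩
  refine ⟨i, m, h1, h4, h2, fun j hj1 hj2 => ?_⟩
  obtain ⟨h5, h6⟩ := hn₀ n hn i m h1 h4 j hj2
  have h7 := h3 j hj1 hj2
  have h8 : (9 : ℝ) * 2 ^ j ≤ 8 * 3 ^ od d j ((Tz d)^[i] n) := by exact_mod_cast h7
  have hxR : (0 : ℝ) < (((Tz d)^[i] n : ℤ) : ℝ) := by exact_mod_cast h5
  have h9 : (((Tz d)^[i] n : ℤ) : ℝ) * 2 ^ j < (((Tz d)^[i + j] n : ℤ) : ℝ) * 2 ^ j := by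
    refine lt_of_lt_of_le ?_ h6
    have h20 : (0 : ℝ) < 2 ^ j := by positivity
    nlinarith [mul_pos hxR h20]
  have h10 := lt_of_mul_lt_mul_right h9 (by positivity)
  exact_mod_cast h10

theorem rate34 : rate (3 / 4) = 3 / 4 * Real.log 3 - Real.log 2 := by
  unfold rate
  have e1 : (1 : ℝ) - 3 / 4 = 1 / 4 := by norm_num
  have h4 : Real.log 4 = 2 * Real.log 2 := by
    rw [show (4 : ℝ) = 2 ^ 2 by norm_num, Real.log_pow]; norm_num
  rw [Real.binEntropy, e1, Real.log_inv, Real.log_inv, Real.log_div (by norm_num) (by norm_num),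
    Real.log_div (by norm_num) (by norm_num), Real.log_one, h4]
  ring

open scoped Classical in
theorem PExc_count {d : ℤ} (hd : d % 2 = 1) {ε : ℝ} (hε0 : 0 < ε) (hε : ε < 1) :
    ∃ K : ℝ, 0 < K ∧ ∀ N : ℕ, 1 ≤ N →
      (((Icc (1 : ℤ) N).filter (fun n => ¬ PExc d (1 - ε) n)).card : ℝ) ≤
        K * N * Real.exp (-(Real.log N) ^ (ε / 16)) := by
  have hr := rate_pos (show (1 : ℝ) / 2 < 3 / 4 by norm_num)
  obtain ⟨K, hK, h⟩ := sharp_up hd (show (1 : ℝ) / 2 < 3 / 4 by norm_num) (by norm_num) (ε := ε / 2)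
    (by linarith) (by linarith)
  rw [show ε / 2 / 8 = ε / 16 by ring] at h
  obtain ⟨n₀, hn₀⟩ := window_low hd
  -- `(log x) ^ (ε / 2) > 18 / 17` for `x ≥ √n`
  have h0 : Tendsto (fun x : ℝ => (Real.log (Real.sqrt x)) ^ (ε / 2)) atTop atTop :=
    (tendsto_rpow_atTop (by linarith)).comp (Real.tendsto_log_atTop.comp (Real.tendsto_sqrt_atTop))
  obtain ⟨x₁, hx₁⟩ := eventually_atTop.1 ((h0.eventually_ge_atTop 2).and (eventually_ge_atTop (16 : ℝ)))
  obtain ⟨n₁, hn₁⟩ := exists_nat_ge x₁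
  refine ⟨K + ((max n₀ n₁ : ℕ) : ℝ) * Real.exp 1, by positivity,
    sharp_conseq (n₀ := max n₀ n₁) (by linarith) (by linarith) ?_ h⟩
  rintro n hn ⟨i, m, h1, h2, h3, h4⟩
  refine ⟨i, m, h1, h4, ?_⟩
  have hnn₀ : (n₀ : ℤ) ≤ n := le_trans (by exact_mod_cast le_max_left n₀ n₁) hn
  have hnn₁ : (n₁ : ℤ) ≤ n := le_trans (by exact_mod_cast le_max_right n₀ n₁) hn
  have hnR : (n₁ : ℝ) ≤ n := by exact_mod_cast hnn₁
  obtain ⟨g1, g2⟩ := hx₁ n (hn₁.trans hnR)
  obtain ⟨h5, h6⟩ := hn₀ n hnn₀ i m h1 h4 m le_rfl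
  obtain ⟨x, hx⟩ : ∃ x, x = (((Tz d)^[i] n : ℤ) : ℝ) := ⟨_, rfl⟩
  obtain ⟨a, ha⟩ : ∃ a, a = od d m ((Tz d)^[i] n) := ⟨_, rfl⟩
  have h3' : (3 / 4 : ℝ) * m ≤ a := by rw [ha]; exact h3
  have hxz : Real.sqrt n ≤ x := by rw [hx]; exact h4 i (by omega)
  have hxR : 0 < x := by rw [hx]; exact_mod_cast h5
  rw [← hx] at h2 h6 ⊢
  rw [← ha] at h6
  have hs4 : 4 ≤ Real.sqrt n := by
    rw [show (4 : ℝ) = Real.sqrt 16 by
      rw [show (16 : ℝ) = 4 ^ 2 by norm_num, Real.sqrt_sq (by norm_num)]]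
    exact Real.sqrt_le_sqrt g2
  have hlog1 : 1 < Real.log x := by
    rw [Real.lt_log_iff_exp_lt hxR]
    have := Real.exp_one_lt_d9
    linarith
  have hlog0 : 0 < Real.log x := by linarith
  have h7 : 2 ≤ Real.log x ^ (ε / 2) := by
    refine g1.trans (Real.rpow_le_rpow ?_ (Real.log_le_log (by linarith) hxz) (by linarith))
    exact Real.log_nonneg (by linarith)
  -- `3 ^ a ≥ 2 ^ m (log x) ^ (1 - ε / 2)`
  have h8 : 2 ^ m * Real.log x ^ (1 - ε / 2) ≤ 3 ^ a := by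
    rw [← Real.rpow_natCast (3 : ℝ) a, ← Real.rpow_natCast (2 : ℝ) m, Real.rpow_def_of_pos (by norm_num),
      Real.rpow_def_of_pos (by norm_num : (0 : ℝ) < 3), Real.rpow_def_of_pos hlog0, ← Real.exp_add]
    apply Real.exp_le_exp.2
    have hl3 : 0 < Real.log 3 := Real.log_pos (by norm_num)
    have h9 : Real.log 3 * (3 / 4 * m) ≤ Real.log 3 * a := mul_le_mul_of_nonneg_left h3' hl3.le
    have h10 : (1 - ε / 2) * LL x ≤ rate (3 / 4) * m := by
      have := mul_le_mul_of_nonneg_left h2 hr.le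
      have e1 : rate (3 / 4) * ((1 - ε / 2) / rate (3 / 4) * LL x) = (1 - ε / 2) * LL x := by field_simp
      rwa [e1] at this
    rw [rate34] at h10
    unfold LL at h10
    nlinarith
  have h20 : (0 : ℝ) < 2 ^ m := by positivity
  have h9 : x * Real.log x ^ (1 - ε) * 2 ^ m < (((Tz d)^[i + m] n : ℤ) : ℝ) * 2 ^ m := by
    refine lt_of_lt_of_le ?_ h6
    have e1 : Real.log x ^ (1 - ε / 2) = Real.log x ^ (1 - ε) * Real.log x ^ (ε / 2) := by
      rw [← Real.rpow_add hlog0]; congr 1; ring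
    rw [e1] at h8
    have hp : 0 < Real.log x ^ (1 - ε) := by positivity
    have h11 : 2 ^ m * (Real.log x ^ (1 - ε) * 2) ≤ 3 ^ a := by
      refine le_trans ?_ h8
      apply mul_le_mul_of_nonneg_left _ h20.le
      exact mul_le_mul_of_nonneg_left h7 hp.le
    have h12 : 0 < x * Real.log x ^ (1 - ε) * 2 ^ m := by positivity
    calc x * Real.log x ^ (1 - ε) * 2 ^ m < 17 / 18 * 2 * (x * Real.log x ^ (1 - ε) * 2 ^ m) := by linarith
      _ = 17 / 18 * ((2 ^ m * (Real.log x ^ (1 - ε) * 2)) * x) := by ring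
      _ ≤ 17 / 18 * (3 ^ a * x) := by
          apply mul_le_mul_of_nonneg_left _ (by norm_num)
          exact mul_le_mul_of_nonneg_right h11 hxR.le
  exact lt_of_mul_lt_mul_right h9 h20.le

end Run7.h702.BC
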