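import Pool.Agent.Run7.h702.BC.H

/-! The Collatz map on the natural numbers; numerical values; almost all integers. -/

set_option autoImplicit false

namespace Run7.h702.BC

open Finset Filter Topology
open Pool.Agent.H499R2.CO (Tz)
open Pool.Agent.R344.SP Pool.Agent.R344.TH
open Run7.h702.AT

theorem rate_ge {c y : ℝ} (hc0 : 0 < c) (hc1 : c < 1) (hy : 0 < y) : c * Real.log y - Real.log ((1 + y) / 2) ≤ rate c := by
  have h1 : 0 < 1 - c := by linarith
  have h2 : 0 < 1 + y := by linarith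
  have h3 := Real.log_le_sub_one_of_pos (show 0 < y / ((1 + y) * c) by positivity)
  have h4 := Real.log_le_sub_one_of_pos (show 0 < 1 / ((1 + y) * (1 - c)) by positivity)
  rw [Real.log_div hy.ne' (by positivity), Real.log_mul h2.ne' hc0.ne'] at h3
  rw [Real.log_div one_ne_zero (by positivity), Real.log_mul h2.ne' h1.ne', Real.log_one] at h4
  have h5 := mul_le_mul_of_nonneg_left h3 hc0.le
  have h6 := mul_le_mul_of_nonneg_left h4 h1.le
  have h7 : c * (y / ((1 + y) * c) - 1) + (1 - c) * (1 / ((1 + y) * (1 - c)) - 1) = 0 := by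
    field_simp
    ring
  unfold rate
  rw [Real.binEntropy, Real.log_inv, Real.log_inv, Real.log_div h2.ne' (by norm_num)]
  nlinarith

theorem κ₀_lt : κ₀ < 29 := by
  have hl2 : 0 < Real.log 2 := Real.log_pos (by norm_num)
  have hl3 : 0 < Real.log 3 := Real.log_pos (by norm_num)
  have h1 : (41 : ℝ) / 65 < Real.log 2 / Real.log 3 := by
    rw [div_lt_div_iff₀ (by norm_num) hl3]
    have h2 : (3 : ℝ) ^ 41 < 2 ^ 65 := by norm_num
    have h3 := Real.log_lt_log (by norm_num) h2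
    rw [Real.log_pow, Real.log_pow] at h3
    push_cast at h3
    linarith
  have h2 := rate_ge (c := Real.log 2 / Real.log 3) (y := 17 / 10) (by positivity) c0_lt (by norm_num)
  have h3 : (65 : ℝ) < 1189 * Real.log (17 / 10) - 1885 * Real.log (27 / 20) := by
    have h4 : (9.47 : ℝ) * (27 / 20) ^ 65 < (17 / 10) ^ 41 := by norm_num
    have h5 : (2.7182818286 : ℝ) ^ 65 < 9.47 ^ 29 := by norm_num
    have h6 : Real.exp 65 < 9.47 ^ 29 := by
      refine lt_of_le_of_lt ?_ h5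
      have : Real.exp 65 = Real.exp 1 ^ 65 := by rw [← Real.exp_nat_mul]; norm_num
      rw [this]
      exact pow_le_pow_left₀ (Real.exp_pos _).le Real.exp_one_lt_d9.le 65
    have h7 := Real.log_lt_log (by positivity) h6
    have h8 := Real.log_lt_log (by positivity) h4
    rw [Real.log_exp, Real.log_pow] at h7
    rw [Real.log_mul (by norm_num) (by positivity), Real.log_pow, Real.log_pow] at h8
    push_cast at h7 h8
    linarith
  have h4 : (0 : ℝ) < Real.log (17 / 10) := Real.log_pos (by norm_num)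
  have h5 : 1 / 29 < rate (Real.log 2 / Real.log 3) := by
    have h6 : (1 + 17 / 10 : ℝ) / 2 = 27 / 20 := by norm_num
    rw [h6] at h2
    have h7 : 41 / 65 * Real.log (17 / 10) ≤ Real.log 2 / Real.log 3 * Real.log (17 / 10) :=
      mul_le_mul_of_nonneg_right h1.le h4.le
    linarith
  unfold κ₀
  rw [div_lt_iff₀ (rate_pos c0_gt)]
  linarith

/-- the `3x+1` map, one halving per step -/
def Tn (n : ℕ) : ℕ := if n % 2 = 0 then n / 2 else (3 * n + 1) / 2

theorem Tn_cast (n : ℕ) : ∀ k : ℕ, ((Tn^[k] n : ℕ) : ℤ) = (Tz 1)^[k] n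
  | 0 => rfl
  | k + 1 => by
    rw [Function.iterate_succ_apply', Function.iterate_succ_apply', ← Tn_cast n k]
    unfold Tn Tz
    split_ifs with h1 h2 h2
    · omega
    · omega
    · omega
    · push_cast; omega

theorem Tn_castR (n k : ℕ) : ((Tn^[k] n : ℕ) : ℝ) = (((Tz 1)^[k] (n : ℤ) : ℤ) : ℝ) := by
  rw [← Tn_cast]
  push_cast
  rfl

/-- the number of the odd terms among `n, T n, …, T^(m-1) n` -/
def odn (m n : ℕ) : ℕ := ((range m).filter (fun j => Tn^[j] n % 2 = 1)).card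

theorem odn_eq (m n : ℕ) : odn m n = od 1 m (n : ℤ) := by
  unfold odn od
  rw [card_filter]
  apply sum_congr rfl
  intro j _
  rw [← Tn_cast]
  split_ifs with h
  · omega
  · omega

open scoped Classical in
theorem ncard_le (P : ℕ → Prop) (Q : ℤ → Prop) (h : ∀ n : ℕ, 1 ≤ n → Q n → P n) (N : ℕ) :
    (Set.ncard {n : ℕ | 1 ≤ n ∧ n ≤ N ∧ ¬ P n} : ℝ) ≤ (((Icc (1 : ℤ) N).filter (fun n => ¬ Q n)).card : ℝ) := by
  have h1 : {n : ℕ | 1 ≤ n ∧ n ≤ N ∧ ¬ P n} = (((Icc 1 N).filter (fun n => ¬ P n) : Finset ℕ) : Set ℕ) := by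
    ext n
    rw [Finset.coe_filter]
    simp only [Set.mem_ofPred_eq, Finset.mem_Icc]
    tauto
  rw [h1, Set.ncard_coe_finset]
  have : ((Icc 1 N).filter (fun n => ¬ P n)).card ≤ ((Icc (1 : ℤ) N).filter (fun n => ¬ Q n)).card := by
    apply card_le_card_of_injOn (fun n : ℕ => (n : ℤ))
    · intro n hn
      rw [mem_coe, mem_filter, Finset.mem_Icc] at hn
      rw [mem_coe, mem_filter, Finset.mem_Icc]
      have a1 : (1 : ℤ) ≤ (n : ℤ) := by exact_mod_cast hn.1.1
      have a2 : (n : ℤ) ≤ (N : ℤ) := by exact_mod_cast hn.1.2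
      exact ⟨⟨a1, a2⟩, fun hQ => hn.2 (h n hn.1.1 hQ)⟩
    · intro n _ m _ hnm
      exact Int.ofNat_inj.1 hnm
  exact_mod_cast this

/-- From quantitative exceptional sets to density one, with `Y = f n`. -/
theorem density_one {D : ℝ → ℕ → Prop} (hmono : ∀ Y Y' : ℝ, ∀ n : ℕ, Y ≤ Y' → D Y n → D Y' n) {η K : ℝ} (hη : 0 < η)
    (hK : 0 < K) (h : ∀ Y : ℝ, 2 ≤ Y → ∀ N : ℕ,
      (Set.ncard {n : ℕ | 1 ≤ n ∧ n ≤ N ∧ ¬ D Y n} : ℝ) ≤ K * N / (Real.log Y) ^ η)
    (f : ℕ → ℝ) (hf : Tendsto f atTop atTop) :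
    Tendsto (fun N : ℕ => (Set.ncard {n : ℕ | 1 ≤ n ∧ n ≤ N ∧ D (f n) n} : ℝ) / N) atTop (𝓝 1) := by
  classical
  rw [Metric.tendsto_atTop]
  intro ε hε
  obtain ⟨y, hy2, hyε⟩ : ∃ y : ℝ, 2 ≤ y ∧ K / (Real.log y) ^ η < ε / 2 := by
    have h1 : Tendsto (fun y : ℝ => K / (Real.log y) ^ η) atTop (𝓝 0) :=
      tendsto_const_nhds.div_atTop ((tendsto_rpow_atTop hη).comp Real.tendsto_log_atTop)
    obtain ⟨y, hy1, hy2⟩ := ((eventually_ge_atTop (2 : ℝ)).and (h1.eventually (gt_mem_nhds (half_pos hε)))).exists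
    exact ⟨y, hy1, hy2⟩
  obtain ⟨n0, hn0⟩ := Filter.tendsto_atTop_atTop.1 hf y
  obtain ⟨N0, hN0⟩ := exists_nat_gt (2 * n0 / ε)
  refine ⟨N0 + 1, fun N hN => ?_⟩
  have hNpos : 0 < N := by omega
  have hNR : (0 : ℝ) < N := by exact_mod_cast hNpos
  have hset : ∀ (P : ℕ → Prop) [DecidablePred P], {n : ℕ | 1 ≤ n ∧ n ≤ N ∧ P n} = (((Icc 1 N).filter P : Finset ℕ) : Set ℕ) := by
    intro P _
    ext n
    rw [Finset.coe_filter]
    simp only [Set.mem_ofPred_eq, Finset.mem_Icc]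
    tauto
  have hb := h y hy2 N
  rw [hset (fun n => ¬ D y n), Set.ncard_coe_finset] at hb
  rw [hset (fun n => D (f n) n), Set.ncard_coe_finset]
  have hsub : Icc 1 N ⊆ (Icc 1 N).filter (fun n : ℕ => D (f n) n) ∪
      ((Icc 1 N).filter (fun n : ℕ => ¬ D y n) ∪ range n0) := by
    intro n hn
    rw [mem_union, mem_union, mem_filter, mem_filter, mem_range]
    by_cases h1 : n < n0
    · exact Or.inr (Or.inr h1)
    · by_cases h2 : D y n
      · exact Or.inl ⟨hn, hmono y (f n) n (hn0 n (by omega)) h2⟩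
      · exact Or.inr (Or.inl ⟨hn, h2⟩)
  have h1 : N ≤ ((Icc 1 N).filter (fun n : ℕ => D (f n) n)).card +
      (((Icc 1 N).filter (fun n : ℕ => ¬ D y n)).card + n0) := by
    have h2 := (card_le_card hsub).trans ((card_union_le _ _).trans (Nat.add_le_add_left (card_union_le _ _) _))
    rw [Nat.card_Icc, card_range] at h2
    omega
  have hup : ((Icc 1 N).filter (fun n : ℕ => D (f n) n)).card ≤ N := by
    refine (card_filter_le _ _).trans ?_
    rw [Nat.card_Icc]; omega
  have hn0N : (n0 : ℝ) / N < ε / 2 := by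
    have h1 : (N0 : ℝ) < N := by exact_mod_cast (by omega : N0 < N)
    have h2 : 2 * (n0 : ℝ) / ε < N := by linarith
    rw [div_lt_iff₀ hε] at h2
    rw [div_lt_div_iff₀ hNR (by norm_num)]
    linarith
  have hupR : (((Icc 1 N).filter (fun n : ℕ => D (f n) n)).card : ℝ) ≤ N := by exact_mod_cast hup
  have hloR : (N : ℝ) ≤ (((Icc 1 N).filter (fun n : ℕ => D (f n) n)).card : ℝ) +
      ((((Icc 1 N).filter (fun n : ℕ => ¬ D y n)).card : ℝ) + n0) := by exact_mod_cast h1
  rw [Real.dist_eq, abs_lt]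
  constructor
  · have h3 : (1 : ℝ) - (((Icc 1 N).filter (fun n : ℕ => D (f n) n)).card : ℝ) / N ≤
        (((Icc 1 N).filter (fun n : ℕ => ¬ D y n)).card : ℝ) / N + n0 / N := by
      rw [← add_div, one_sub_div hNR.ne']
      apply div_le_div_of_nonneg_right _ hNR.le
      linarith
    have h2 : (((Icc 1 N).filter (fun n : ℕ => ¬ D y n)).card : ℝ) / N ≤ K / (Real.log y) ^ η := by
      rw [div_le_iff₀ hNR]
      have e : K * N / (Real.log y) ^ η = K / (Real.log y) ^ η * N := by ring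
      rwa [e] at hb
    linarith
  · have h3 : (((Icc 1 N).filter (fun n : ℕ => D (f n) n)).card : ℝ) / N ≤ 1 := by
      rw [div_le_one hNR]; exact hupR
    linarith

/-- almost all integers, from a very small exceptional set -/
theorem density_exp {D : ℕ → Prop} {δ K : ℝ} (hδ : 0 < δ)
    (h : ∀ N : ℕ, 1 ≤ N → (Set.ncard {n : ℕ | 1 ≤ n ∧ n ≤ N ∧ ¬ D n} : ℝ) ≤ K * N * Real.exp (-(Real.log N) ^ δ)) :
    Tendsto (fun N : ℕ => (Set.ncard {n : ℕ | 1 ≤ n ∧ n ≤ N ∧ D n} : ℝ) / N) atTop (𝓝 1) := by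
  classical
  have h1 : Tendsto (fun N : ℕ => K * Real.exp (-(Real.log N) ^ δ)) atTop (𝓝 (K * 0)) := by
    apply Tendsto.const_mul
    exact Real.tendsto_exp_neg_atTop_nhds_zero.comp ((tendsto_rpow_atTop hδ).comp
      (Real.tendsto_log_atTop.comp tendsto_natCast_atTop_atTop))
  rw [mul_zero] at h1
  have h2 : Tendsto (fun N : ℕ => 1 - K * Real.exp (-(Real.log N) ^ δ)) atTop (𝓝 (1 - 0)) := h1.const_sub 1
  rw [sub_zero] at h2
  have hset : ∀ (N : ℕ) (P : ℕ → Prop) [DecidablePred P], {n : ℕ | 1 ≤ n ∧ n ≤ N ∧ P n} = (((Icc 1 N).filter P : Finset ℕ) : Set ℕ) := by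
    intro N P _
    ext n
    rw [Finset.coe_filter]
    simp only [Set.mem_ofPred_eq, Finset.mem_Icc]
    tauto
  refine tendsto_of_tendsto_of_tendsto_of_le_of_le' h2 tendsto_const_nhds ?_ ?_
  · filter_upwards [eventually_ge_atTop 1] with N hN
    have hNR : (0 : ℝ) < N := by exact_mod_cast hN
    have h3 := h N hN
    have h4 := card_filter_add_card_filter_not (s := Icc 1 N) D
    rw [Nat.card_Icc] at h4
    rw [hset N (fun n => ¬ D n), Set.ncard_coe_finset] at h3
    rw [hset N D, Set.ncard_coe_finset, le_div_iff₀ hNR]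
    have h5 : (((Icc 1 N).filter D).card : ℝ) + (((Icc 1 N).filter (fun n => ¬ D n)).card : ℝ) = N := by
      have : ((Icc 1 N).filter D).card + ((Icc 1 N).filter (fun n => ¬ D n)).card = N := by omega
      exact_mod_cast this
    have e : (1 - K * Real.exp (-(Real.log N) ^ δ)) * N = N - K * N * Real.exp (-(Real.log N) ^ δ) := by ring
    rw [e]
    linarith
  · filter_upwards [eventually_ge_atTop 1] with N hN
    have hNR : (0 : ℝ) < N := by exact_mod_cast hN
    rw [hset N D, Set.ncard_coe_finset, div_le_one hNR]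
    have : ((Icc 1 N).filter D).card ≤ N := by
      refine (card_filter_le _ _).trans ?_
      rw [Nat.card_Icc]; omega
    exact_mod_cast this

end Run7.h702.BC
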