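import Pool.Agent.Run7.h702.BC.I

/-! The laws for the Collatz map on the natural numbers. -/

set_option autoImplicit false

namespace Run7.h702.BC

open Finset Filter Topology
open Pool.Agent.H499R2.CO (Tz)
open Pool.Agent.R344.SP Pool.Agent.R344.TH
open Run7.h702.AT

/-- `Typ` on the natural numbers -/
def TypN (c ε Y : ℝ) (n : ℕ) : Prop :=
  ∃ τ : ℕ, ((Tn^[τ] n : ℕ) : ℝ) < Y ∧ (∀ j < τ, Y ≤ ((Tn^[j] n : ℕ) : ℝ)) ∧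
    ∀ i < τ, ∀ m : ℕ, i + m ≤ τ →
      ((1 + ε) / rate c * LL ((Tn^[i] n : ℕ) : ℝ) ≤ m →
        (1 - c) * m < odn m (Tn^[i] n) ∧ (odn m (Tn^[i] n) : ℝ) < c * m) ∧
      ((κ₀ + ε) * LL ((Tn^[i] n : ℕ) : ℝ) ≤ m → Tn^[i + m] n < Tn^[i] n) ∧
      ((Tn^[i + m] n : ℕ) : ℝ) ≤ ((Tn^[i] n : ℕ) : ℝ) * Real.log ((Tn^[i] n : ℕ) : ℝ) ^ (1 + ε)

theorem TypN_of {c ε Y : ℝ} {n : ℕ} (h : Typ 1 c ε Y (n : ℤ)) : TypN c ε Y n := by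
  obtain ⟨τ, h1, h2, h3⟩ := h
  refine ⟨τ, by rw [Tn_castR]; exact h1, fun j hj => by rw [Tn_castR]; exact h2 j hj, fun i hi m hm => ?_⟩
  obtain ⟨a1, a2, a3⟩ := h3 i hi m hm
  refine ⟨fun h => ?_, fun h => ?_, ?_⟩
  · rw [odn_eq, Tn_cast]
    rw [Tn_castR] at h
    exact a1 h
  · rw [Tn_castR] at h
    have := a2 h
    rw [← Tn_cast, ← Tn_cast] at this
    exact_mod_cast this
  · rw [Tn_castR, Tn_castR]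
    exact a3

theorem TypN.mono {c ε Y Y' : ℝ} {n : ℕ} (hY : Y ≤ Y') (h : TypN c ε Y n) : TypN c ε Y' n := by
  classical
  obtain ⟨τ, h1, h2, h3⟩ := h
  have hex : ∃ k : ℕ, ((Tn^[k] n : ℕ) : ℝ) < Y' := ⟨τ, lt_of_lt_of_le h1 hY⟩
  have hle : Nat.find hex ≤ τ := Nat.find_min' hex (lt_of_lt_of_le h1 hY)
  refine ⟨Nat.find hex, Nat.find_spec hex, fun j hj => not_lt.1 (Nat.find_min hex hj), fun i hi m hm => ?_⟩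
  exact h3 i (by omega) m (by omega)

/-- **Almost every Collatz trajectory is typical at all scales.** -/
theorem typ_nat {c : ℝ} (hc : 1 / 2 < c) (hc1 : c < 1) {ε : ℝ} (hε0 : 0 < ε) (hε : ε ≤ 1) :
    ∃ η K : ℝ, 0 < η ∧ 0 < K ∧ ∀ Y : ℝ, 2 ≤ Y → ∀ N : ℕ,
      (Set.ncard {n : ℕ | 1 ≤ n ∧ n ≤ N ∧ ¬ TypN c ε Y n} : ℝ) ≤ K * N / (Real.log Y) ^ η := by
  obtain ⟨η, K, hη, hK, h⟩ := Typ_count odd_one isCoprime_one_left hc hc1 hε0 hε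
  refine ⟨η, K, hη, hK, fun Y hY N => ?_⟩
  classical
  exact (ncard_le (TypN c ε Y) (Typ 1 c ε Y) (fun n _ h => TypN_of h) N).trans (h Y hY N)

/-- the trajectory of `n` before the first value smaller than `Y`: from the natural numbers -/
def QN (κ : ℝ) (S : ℕ → ℕ → Prop) (n : ℕ) : Prop :=
  ∃ i m : ℕ, (2 : ℝ) ^ (i + m) ≤ n ∧ κ * LL ((Tn^[i] n : ℕ) : ℝ) ≤ m ∧ S m (Tn^[i] n) ∧
    ∀ j ≤ i + m, Real.sqrt n ≤ ((Tn^[j] n : ℕ) : ℝ)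

theorem up_nat {c : ℝ} (hc : 1 / 2 < c) (hc1 : c < 1) {ε : ℝ} (hε0 : 0 < ε) (hε : ε < 1) :
    ∃ K : ℝ, 0 < K ∧ ∀ N : ℕ, 1 ≤ N →
      (Set.ncard {n : ℕ | 1 ≤ n ∧ n ≤ N ∧ ¬ QN ((1 - ε) / rate c) (fun m x => c * m ≤ odn m x) n} : ℝ) ≤
        K * N * Real.exp (-(Real.log N) ^ (ε / 8)) := by
  classical
  obtain ⟨K, hK, h⟩ := sharp_up (d := 1) (by norm_num) hc hc1 hε0 hε
  refine ⟨K, hK, fun N hN => (ncard_le _ (QS 1 ((1 - ε) / rate c) (fun m x => c * m ≤ od 1 m x)) ?_ N).trans (h N hN)⟩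
  rintro n _ ⟨i, m, h1, h2, h3, h4⟩
  refine ⟨i, m, by exact_mod_cast h1, by rw [Tn_castR]; exact h2, ?_, fun j hj => ?_⟩
  · simp only
    rw [odn_eq, Tn_cast]
    exact h3
  · rw [Tn_castR]
    exact_mod_cast h4 j hj

theorem down_nat {c : ℝ} (hc : 1 / 2 < c) (hc1 : c < 1) {ε : ℝ} (hε0 : 0 < ε) (hε : ε < 1) :
    ∃ K : ℝ, 0 < K ∧ ∀ N : ℕ, 1 ≤ N →
      (Set.ncard {n : ℕ | 1 ≤ n ∧ n ≤ N ∧ ¬ QN ((1 - ε) / rate c) (fun m x => (odn m x : ℝ) ≤ (1 - c) * m) n} : ℝ) ≤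
        K * N * Real.exp (-(Real.log N) ^ (ε / 8)) := by
  classical
  obtain ⟨K, hK, h⟩ := sharp_down (d := 1) (by norm_num) hc hc1 hε0 hε
  refine ⟨K, hK, fun N hN => (ncard_le _ (QS 1 ((1 - ε) / rate c) (fun m x => (od 1 m x : ℝ) ≤ (1 - c) * m)) ?_ N).trans
    (h N hN)⟩
  rintro n _ ⟨i, m, h1, h2, h3, h4⟩
  refine ⟨i, m, by exact_mod_cast h1, by rw [Tn_castR]; exact h2, ?_, fun j hj => ?_⟩
  · simp only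
    rw [odn_eq, Tn_cast]
    exact h3
  · rw [Tn_castR]
    exact_mod_cast h4 j hj

/-- a term smaller than the following ones during `κ log log x` steps -/
def StopN (κ : ℝ) (n : ℕ) : Prop :=
  ∃ i m : ℕ, (2 : ℝ) ^ (i + m) ≤ n ∧ (∀ j ≤ i + m, Real.sqrt n ≤ ((Tn^[j] n : ℕ) : ℝ)) ∧
    κ * LL ((Tn^[i] n : ℕ) : ℝ) ≤ m ∧ ∀ j : ℕ, 1 ≤ j → j ≤ m → Tn^[i] n < Tn^[i + j] n

theorem stop_nat {ε : ℝ} (hε0 : 0 < ε) (hε : ε < 1) :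
    ∃ K : ℝ, 0 < K ∧ ∀ N : ℕ, 1 ≤ N →
      (Set.ncard {n : ℕ | 1 ≤ n ∧ n ≤ N ∧ ¬ StopN ((1 - ε) * κ₀) n} : ℝ) ≤
        K * N * Real.exp (-(Real.log N) ^ (ε / 8)) := by
  classical
  obtain ⟨K, hK, h⟩ := PStop_count (d := 1) (by norm_num) hε0 hε
  refine ⟨K, hK, fun N hN => (ncard_le _ (PStop 1 ((1 - ε) * κ₀)) ?_ N).trans (h N hN)⟩
  rintro n _ ⟨i, m, h1, h4, h2, h3⟩
  refine ⟨i, m, by exact_mod_cast h1, fun j hj => ?_, by rw [Tn_castR]; exact h2, fun j hj1 hj2 => ?_⟩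
  · rw [Tn_castR]
    exact_mod_cast h4 j hj
  · have := h3 j hj1 hj2
    rw [← Tn_cast, ← Tn_cast] at this
    exact_mod_cast this

/-- a term followed by a term larger than `x (log x) ^ s` -/
def ExcN (s : ℝ) (n : ℕ) : Prop :=
  ∃ i m : ℕ, (2 : ℝ) ^ (i + m) ≤ n ∧ (∀ j ≤ i + m, Real.sqrt n ≤ ((Tn^[j] n : ℕ) : ℝ)) ∧
    ((Tn^[i] n : ℕ) : ℝ) * Real.log ((Tn^[i] n : ℕ) : ℝ) ^ s < ((Tn^[i + m] n : ℕ) : ℝ)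

theorem exc_nat {ε : ℝ} (hε0 : 0 < ε) (hε : ε < 1) :
    ∃ K : ℝ, 0 < K ∧ ∀ N : ℕ, 1 ≤ N →
      (Set.ncard {n : ℕ | 1 ≤ n ∧ n ≤ N ∧ ¬ ExcN (1 - ε) n} : ℝ) ≤
        K * N * Real.exp (-(Real.log N) ^ (ε / 16)) := by
  classical
  obtain ⟨K, hK, h⟩ := PExc_count (d := 1) (by norm_num) hε0 hε
  refine ⟨K, hK, fun N hN => (ncard_le _ (PExc 1 (1 - ε)) ?_ N).trans (h N hN)⟩
  rintro n _ ⟨i, m, h1, h4, h2⟩
  refine ⟨i, m, by exact_mod_cast h1, fun j hj => ?_, by rw [Tn_castR, Tn_castR]; exact h2⟩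
  rw [Tn_castR]
  exact_mod_cast h4 j hj

end Run7.h702.BC
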