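import Pool.Agent.Run7.h702.BC.J

/-! The slope of the trajectories in all the windows. -/

set_option autoImplicit false

namespace Run7.h702.BC

open Finset Filter Topology
open Pool.Agent.H499R2.CO (Tz)
open Pool.Agent.R344.SP Pool.Agent.R344.TH
open Run7.h702.AT

theorem rate_inv_cont {c : ℝ} (hc : 1 / 2 < c) : ContinuousAt (fun c => 1 / rate c) c := by
  have h1 : Continuous rate := by
    unfold rate
    exact continuous_const.sub Real.binEntropy_continuous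
  exact continuousAt_const.div h1.continuousAt (rate_pos hc).ne'

theorem exists_below {c ε : ℝ} (hc : 1 / 2 < c) (hε0 : 0 < ε) (hε : ε ≤ 1) : ∃ c' ε' : ℝ, 1 / 2 < c' ∧ c' < c ∧
    0 < ε' ∧ ε' ≤ 1 ∧ (1 + ε') / rate c' ≤ (1 + ε) / rate c := by
  have hr := rate_pos hc
  have hA : 0 < 1 / rate c := by positivity
  have h3 := (rate_inv_cont hc).eventually (gt_mem_nhds (show 1 / rate c < 1 / rate c * (1 + ε / 2) by nlinarith))
  obtain ⟨δ, hδ, h4⟩ := Metric.eventually_nhds_iff.1 h3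
  obtain ⟨c', h6, h7⟩ := exists_between (show max (1 / 2) (c - δ) < c by rw [max_lt_iff]; constructor <;> linarith)
  rw [max_lt_iff] at h6
  have h8 := h4 (y := c') (by rw [Real.dist_eq, abs_lt]; constructor <;> linarith)
  refine ⟨c', ε / 4, h6.1, h7, by linarith, by linarith, ?_⟩
  have e1 : (1 + ε / 4) / rate c' = (1 + ε / 4) * (1 / rate c') := by ring
  have e2 : (1 + ε) / rate c = (1 + ε) * (1 / rate c) := by ring
  rw [e1, e2]
  have h9 : (1 + ε / 4) * (1 / rate c') ≤ (1 + ε / 4) * (1 / rate c * (1 + ε / 2)) :=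
    mul_le_mul_of_nonneg_left h8.le (by linarith)
  refine h9.trans ?_
  have : (1 + ε / 4) * (1 / rate c * (1 + ε / 2)) = ((1 + ε / 4) * (1 + ε / 2)) * (1 / rate c) := by ring
  rw [this]
  apply mul_le_mul_of_nonneg_right _ hA.le
  nlinarith

theorem exists_above {c ε : ℝ} (hc : 1 / 2 < c) (hc1 : c < 1) (hε0 : 0 < ε) (hε : ε < 1) : ∃ c' ε' : ℝ, c < c' ∧ c' < 1 ∧
    0 < ε' ∧ ε' < 1 ∧ (1 - ε) / rate c ≤ (1 - ε') / rate c' := by
  have hr := rate_pos hc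
  have hA : 0 < 1 / rate c := by positivity
  have h3 := (rate_inv_cont hc).eventually (lt_mem_nhds (show 1 / rate c * (1 - ε / 2) < 1 / rate c by nlinarith))
  obtain ⟨δ, hδ, h4⟩ := Metric.eventually_nhds_iff.1 h3
  obtain ⟨c', h6, h7⟩ := exists_between (show c < min 1 (c + δ) by rw [lt_min_iff]; constructor <;> linarith)
  rw [lt_min_iff] at h7
  have h8 := h4 (y := c') (by rw [Real.dist_eq, abs_lt]; constructor <;> linarith)
  refine ⟨c', ε / 2, h6, h7.1, by linarith, by linarith, ?_⟩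
  have e1 : (1 - ε / 2) / rate c' = (1 - ε / 2) * (1 / rate c') := by ring
  have e2 : (1 - ε) / rate c = (1 - ε) * (1 / rate c) := by ring
  rw [e1, e2]
  have h9 : (1 - ε / 2) * (1 / rate c * (1 - ε / 2)) ≤ (1 - ε / 2) * (1 / rate c') :=
    mul_le_mul_of_nonneg_left h8.le (by linarith)
  refine le_trans ?_ h9
  have : (1 - ε / 2) * (1 / rate c * (1 - ε / 2)) = ((1 - ε / 2) * (1 - ε / 2)) * (1 / rate c) := by ring
  rw [this]
  apply mul_le_mul_of_nonneg_right _ hA.le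
  nlinarith

/-- the mean slope `½ log (4/3)` -/
noncomputable def mu : ℝ := Real.log 2 - Real.log 3 / 2

/-- The slope in the windows of length at least `κ log log x` is `-mu` up to `η`. -/
def PL (d : ℤ) (κ η : ℝ) (Y : ℝ) (n : ℤ) : Prop :=
  ∀ i m : ℕ, (∀ j ≤ i, Y ≤ (((Tz d)^[j] n : ℤ) : ℝ)) → (∀ j < m, Y ≤ (((Tz d)^[i + j] n : ℤ) : ℝ)) →
    κ * LL (((Tz d)^[i] n : ℤ) : ℝ) ≤ m →
    |Real.log (((Tz d)^[i + m] n : ℤ) : ℝ) - Real.log (((Tz d)^[i] n : ℤ) : ℝ) + mu * m| ≤ η * m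

theorem PL_of {d : ℤ} (hd : d % 2 = 1) {c κ κ' η : ℝ} (hκ : 0 < κ) (hκκ : κ ≤ κ') {Y : ℝ} (hY : Lrg d κ Y)
    (hc : (c - 1 / 2) * Real.log 3 + |(d : ℝ)| / Y ≤ η) {n : ℤ} (hPW : PW d c κ Y n) : PL d κ' η Y n := by
  intro i m hi hm hk
  have hY0 : 0 < Y := by linarith [hY.1]
  have hxY := hi i le_rfl
  obtain ⟨x, hx⟩ : ∃ x, x = (Tz d)^[i] n := ⟨_, rfl⟩
  rw [← hx] at hxY hk ⊢
  have hLL := LL_pos_of_Lrg hκ hY hxY
  have hk2 : κ * LL (x : ℝ) ≤ m := (mul_le_mul_of_nonneg_right hκκ hLL.le).trans hk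
  have hm0 : (0 : ℝ) < m := lt_of_lt_of_le (by positivity) hk2
  obtain ⟨g1, g2⟩ := hPW i m hi hm (by rw [← hx]; exact hk2)
  rw [← hx] at g1 g2
  have hx0R : (0 : ℝ) < x := by linarith
  have hx0 : 0 < x := by exact_mod_cast hx0R
  have h2 : ∀ j < m, Y ≤ (((Tz d)^[j] x : ℤ) : ℝ) := by
    intro j hj
    have := hm j hj
    rwa [Nat.add_comm, Function.iterate_add_apply, ← hx] at this
  obtain ⟨h3, h4⟩ := log_iter hd hY0 hY.2.1 hx0 h2
  rw [Nat.add_comm, Function.iterate_add_apply, ← hx]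
  have h5 := abs_le.1 h4
  have hl3 : 0 < Real.log 3 := Real.log_pos (by norm_num)
  have h6 : (m : ℝ) * ((c - 1 / 2) * Real.log 3 + |(d : ℝ)| / Y) ≤ m * η := mul_le_mul_of_nonneg_left hc hm0.le
  have h7 := mul_lt_mul_of_pos_right g1 hl3
  have h8 := mul_lt_mul_of_pos_right g2 hl3
  unfold mu
  rw [abs_le]
  constructor
  · nlinarith [h5.1]
  · nlinarith [h5.2]

open scoped Classical in
/-- **The slope in all the windows.** -/
theorem PL_count {d : ℤ} (hd : Odd d) (hd3 : IsCoprime d 3) {η : ℝ} (hη0 : 0 < η) (hη : η < Real.log 3 / 2) {ε : ℝ}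
    (hε0 : 0 < ε) (hε : ε ≤ 1) : ∃ δ K : ℝ, 0 < δ ∧ 0 < K ∧ ∀ Y : ℝ, 2 ≤ Y → ∀ N : ℕ,
      (((Icc (1 : ℤ) N).filter (fun n => ¬ PL d ((1 + ε) / rate (1 / 2 + η / Real.log 3)) η Y n)).card : ℝ) ≤
        K * N / (Real.log Y) ^ δ := by
  have hd2 := Int.odd_iff.1 hd
  have hl3 : 0 < Real.log 3 := Real.log_pos (by norm_num)
  have hc : (1 : ℝ) / 2 < 1 / 2 + η / Real.log 3 := by
    have : 0 < η / Real.log 3 := by positivity
    linarith
  have hc1 : 1 / 2 + η / Real.log 3 < 1 := by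
    have : η / Real.log 3 < 1 / 2 := by rw [div_lt_iff₀ hl3]; linarith
    linarith
  obtain ⟨c, ε', hc', hcc, hε0', hε', hκ'⟩ := exists_below hc hε0 hε
  have hr' := rate_pos hc'
  have hκ2 : 0 < (1 + ε') / rate c := by positivity
  obtain ⟨Y₂, K₂, _, hK₂, h2⟩ := count_of_Sc hd hd3 hε0' hε' (Sc_BW hd2 hc' (hcc.trans hc1) hε0' hε')
  obtain ⟨Z₂, hZ₂⟩ := Lrg_ev (d := d) hκ2
  have hgap : 0 < η - (c - 1 / 2) * Real.log 3 := by
    have h1 : (c - 1 / 2) * Real.log 3 < η / Real.log 3 * Real.log 3 := mul_lt_mul_of_pos_right (by linarith) hl3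
    rw [div_mul_cancel₀ _ hl3.ne'] at h1
    linarith
  obtain ⟨W, hW⟩ : ∃ W, W = |(d : ℝ)| / (η - (c - 1 / 2) * Real.log 3) + 3 := ⟨_, rfl⟩
  refine ⟨ε' / 2, ?_⟩
  have hcount : ∃ K : ℝ, 0 < K ∧ ∀ Y : ℝ, 2 ≤ Y → ∀ N : ℕ,
      (((Icc (1 : ℤ) N).filter (fun n => ¬ PL d ((1 + ε) / rate (1 / 2 + η / Real.log 3)) η Y n)).card : ℝ) ≤
        K * N / (Real.log Y) ^ (ε' / 2) := by
    refine count_all (by positivity) (Y₁ := max Y₂ (max Z₂ W)) hK₂ ?_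
    intro Y hY N
    have a2 : Y₂ ≤ Y := (le_max_left _ _).trans hY
    have b2 : Z₂ ≤ Y := ((le_max_left _ _).trans (le_max_right _ _)).trans hY
    have b4 : W ≤ Y := ((le_max_right _ _).trans (le_max_right _ _)).trans hY
    have hW0 : 0 ≤ |(d : ℝ)| / (η - (c - 1 / 2) * Real.log 3) := by positivity
    have hY0 : 0 < Y := by rw [hW] at b4; linarith
    have hsmall : (c - 1 / 2) * Real.log 3 + |(d : ℝ)| / Y ≤ η := by
      have h4 : |(d : ℝ)| / (η - (c - 1 / 2) * Real.log 3) < Y := by rw [hW] at b4; linarith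
      rw [div_lt_iff₀ hgap] at h4
      have h5 : |(d : ℝ)| / Y < η - (c - 1 / 2) * Real.log 3 := by
        rw [div_lt_iff₀ hY0]; linarith
      linarith
    refine le_trans ?_ (h2 Y a2 N)
    have : (Icc (1 : ℤ) N).filter (fun n => ¬ PL d ((1 + ε) / rate (1 / 2 + η / Real.log 3)) η Y n) ⊆
        (Icc (1 : ℤ) N).filter (fun n => n ∈ HY d (BW d c ((1 + ε') / rate c)) Y) := by
      intro n hn
      rw [mem_filter] at hn ⊢
      refine ⟨hn.1, ?_⟩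
      by_contra hcon
      exact hn.2 (PL_of hd2 hκ2 hκ' (hZ₂ Y b2) hsmall (PW_of hd2 hκ2 (hZ₂ Y b2) hcon))
    exact_mod_cast card_le_card this
  obtain ⟨K, hK, h⟩ := hcount
  exact ⟨K, by positivity, hK, h⟩

/-- A window of length at least `κ log log x` near the beginning, with a slope of at least `-mu + η` (`s = 1`) or of at
most `-mu - η` (`s = -1`). -/
def QL (d : ℤ) (s κ η : ℝ) (n : ℤ) : Prop :=
  ∃ i m : ℕ, (2 : ℝ) ^ (i + m) ≤ n ∧ κ * LL (((Tz d)^[i] n : ℤ) : ℝ) ≤ m ∧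
    η * m ≤ s * (Real.log (((Tz d)^[i + m] n : ℤ) : ℝ) - Real.log (((Tz d)^[i] n : ℤ) : ℝ) + mu * m) ∧
    ∀ j ≤ i + m, Real.sqrt n ≤ (((Tz d)^[j] n : ℤ) : ℝ)

open scoped Classical in
/-- **The law of the slopes is sharp.** -/
theorem QL_count {d : ℤ} (hd : d % 2 = 1) {η : ℝ} (hη0 : 0 < η) (hη : η < Real.log 3 / 2) {ε : ℝ}
    (hε0 : 0 < ε) (hε : ε < 1) {s : ℝ} (hs : s = 1 ∨ s = -1) : ∃ δ K : ℝ, 0 < δ ∧ 0 < K ∧ ∀ N : ℕ, 1 ≤ N →
      (((Icc (1 : ℤ) N).filter (fun n => ¬ QL d s ((1 - ε) / rate (1 / 2 + η / Real.log 3)) η n)).card : ℝ) ≤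
        K * N * Real.exp (-(Real.log N) ^ δ) := by
  have hl3 : 0 < Real.log 3 := Real.log_pos (by norm_num)
  have hc : (1 : ℝ) / 2 < 1 / 2 + η / Real.log 3 := by
    have : 0 < η / Real.log 3 := by positivity
    linarith
  have hc1 : 1 / 2 + η / Real.log 3 < 1 := by
    have : η / Real.log 3 < 1 / 2 := by rw [div_lt_iff₀ hl3]; linarith
    linarith
  obtain ⟨c, ε', hcc, hc1', hε0', hε', hκ'⟩ := exists_above hc hc1 hε0 hε
  have hc' : 1 / 2 < c := hc.trans hcc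
  have hgap : 0 < (c - 1 / 2) * Real.log 3 - η := by
    have h1 : η / Real.log 3 * Real.log 3 < (c - 1 / 2) * Real.log 3 := mul_lt_mul_of_pos_right (by linarith) hl3
    rw [div_mul_cancel₀ _ hl3.ne'] at h1
    linarith
  -- `|d| / √n` is small
  obtain ⟨n₀, hn₀⟩ := exists_nat_ge (max ((|(d : ℝ)| / ((c - 1 / 2) * Real.log 3 - η)) ^ 2)
    (max (|(d : ℝ)| ^ 2) 16))
  have hbig : ∀ n : ℤ, (n₀ : ℤ) ≤ n → |(d : ℝ)| / Real.sqrt n ≤ (c - 1 / 2) * Real.log 3 - η ∧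
      |(d : ℝ)| ≤ Real.sqrt n ∧ 4 ≤ Real.sqrt n := by
    intro n hn
    have hnR : (n₀ : ℝ) ≤ n := by exact_mod_cast hn
    have h1 := ((le_max_left _ _).trans hn₀).trans hnR
    have h2 := ((le_max_left _ _).trans ((le_max_right _ _).trans hn₀)).trans hnR
    have h3 := ((le_max_right _ _).trans ((le_max_right _ _).trans hn₀)).trans hnR
    have h4 : 4 ≤ Real.sqrt n := by
      rw [show (4 : ℝ) = Real.sqrt 16 by
        rw [show (16 : ℝ) = 4 ^ 2 by norm_num, Real.sqrt_sq (by norm_num)]]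
      exact Real.sqrt_le_sqrt h3
    have h5 : |(d : ℝ)| ≤ Real.sqrt n := by
      have := Real.sqrt_le_sqrt h2
      rwa [Real.sqrt_sq (abs_nonneg _)] at this
    have h6 : |(d : ℝ)| / ((c - 1 / 2) * Real.log 3 - η) ≤ Real.sqrt n := by
      have := Real.sqrt_le_sqrt h1
      rwa [Real.sqrt_sq (by positivity)] at this
    refine ⟨?_, h5, h4⟩
    rw [div_le_iff₀ (by linarith)]
    rw [div_le_iff₀ hgap] at h6
    linarith
  -- the windows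
  have key : ∀ n : ℤ, (n₀ : ℤ) ≤ n → ∀ i m : ℕ, (∀ j ≤ i + m, Real.sqrt n ≤ (((Tz d)^[j] n : ℤ) : ℝ)) →
      |Real.log (((Tz d)^[i + m] n : ℤ) : ℝ) - Real.log (((Tz d)^[i] n : ℤ) : ℝ) + mu * m -
        (od d m ((Tz d)^[i] n) - m / 2) * Real.log 3| ≤ ((c - 1 / 2) * Real.log 3 - η) * m := by
    intro n hn i m hj
    obtain ⟨g1, g2, g3⟩ := hbig n hn
    obtain ⟨z, hz⟩ : ∃ z, z = Real.sqrt n := ⟨_, rfl⟩
    rw [← hz] at g1 g2 g3 hj
    have hz0 : 0 < z := by linarith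
    have hx0R : (0 : ℝ) < (((Tz d)^[i] n : ℤ) : ℝ) := lt_of_lt_of_le hz0 (hj i (by omega))
    have hx0 : 0 < (Tz d)^[i] n := by exact_mod_cast hx0R
    obtain ⟨_, h4⟩ := log_iter hd hz0 g2 hx0 (m := m) (by
      intro e he
      rw [← Function.iterate_add_apply, Nat.add_comm]
      exact hj _ (by omega))
    rw [← Function.iterate_add_apply, Nat.add_comm m i] at h4
    have h5 : (m : ℝ) * (|(d : ℝ)| / z) ≤ m * ((c - 1 / 2) * Real.log 3 - η) :=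
      mul_le_mul_of_nonneg_left g1 (Nat.cast_nonneg m)
    have h6 := abs_le.1 h4
    unfold mu
    rw [abs_le]
    constructor
    · nlinarith [h6.1]
    · nlinarith [h6.2]
  have hLL : ∀ n : ℤ, (n₀ : ℤ) ≤ n → ∀ i m : ℕ, (∀ j ≤ i + m, Real.sqrt n ≤ (((Tz d)^[j] n : ℤ) : ℝ)) →
      0 ≤ LL (((Tz d)^[i] n : ℤ) : ℝ) := by
    intro n hn i m hj
    obtain ⟨_, _, g3⟩ := hbig n hn
    have h1 : 4 ≤ (((Tz d)^[i] n : ℤ) : ℝ) := g3.trans (hj i (by omega))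
    apply Real.log_nonneg
    rw [Real.le_log_iff_exp_le (by linarith)]
    have := Real.exp_one_lt_d9
    linarith
  rcases hs with rfl | rfl
  · obtain ⟨K, hK, h⟩ := sharp_up hd hc' hc1' hε0' hε'
    refine ⟨ε' / 8, K + n₀ * Real.exp 1, by positivity, by positivity,
      sharp_conseq (n₀ := n₀) (by positivity) (by linarith) ?_ h⟩
    rintro n hn ⟨i, m, h1, h2, h3, h4⟩
    refine ⟨i, m, h1, (mul_le_mul_of_nonneg_right hκ' (hLL n hn i m h4)).trans h2, ?_, h4⟩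
    have h5 := abs_le.1 (key n hn i m h4)
    have h6 : c * m * Real.log 3 ≤ od d m ((Tz d)^[i] n) * Real.log 3 := mul_le_mul_of_nonneg_right h3 hl3.le
    nlinarith [h5.1]
  · obtain ⟨K, hK, h⟩ := sharp_down hd hc' hc1' hε0' hε'
    refine ⟨ε' / 8, K + n₀ * Real.exp 1, by positivity, by positivity,
      sharp_conseq (n₀ := n₀) (by positivity) (by linarith) ?_ h⟩
    rintro n hn ⟨i, m, h1, h2, h3, h4⟩
    refine ⟨i, m, h1, (mul_le_mul_of_nonneg_right hκ' (hLL n hn i m h4)).trans h2, ?_, h4⟩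
    have h5 := abs_le.1 (key n hn i m h4)
    have h6 : (od d m ((Tz d)^[i] n) : ℝ) * Real.log 3 ≤ (1 - c) * m * Real.log 3 := mul_le_mul_of_nonneg_right h3 hl3.le
    nlinarith [h5.2]

/-- the intersection of two properties of almost all integers -/
theorem and_density {P Q : ℕ → Prop}
    (h2 : Tendsto (fun N : ℕ => (Set.ncard {n : ℕ | 1 ≤ n ∧ n ≤ N ∧ P n} : ℝ) / N) atTop (𝓝 1))
    (h4 : Tendsto (fun N : ℕ => (Set.ncard {n : ℕ | 1 ≤ n ∧ n ≤ N ∧ Q n} : ℝ) / N) atTop (𝓝 1)) :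
    Tendsto (fun N : ℕ => (Set.ncard {n : ℕ | 1 ≤ n ∧ n ≤ N ∧ (P n ∧ Q n)} : ℝ) / N) atTop (𝓝 1) := by
  have h5 := (h2.add h4).sub_const 1
  rw [show (1 : ℝ) + 1 - 1 = 1 by norm_num] at h5
  have hle : ∀ (R : ℕ → Prop) (N : ℕ), Set.ncard {n : ℕ | 1 ≤ n ∧ n ≤ N ∧ R n} ≤ N := by
    intro R N
    have h6 : {n : ℕ | 1 ≤ n ∧ n ≤ N ∧ R n} ⊆ ((Finset.Icc 1 N : Finset ℕ) : Set ℕ) := by
      intro n hn
      rw [Finset.mem_coe, Finset.mem_Icc]; exact ⟨hn.1, hn.2.1⟩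
    have h7 := Set.ncard_le_ncard h6 (Finset.finite_toSet _)
    rw [Set.ncard_coe_finset, Nat.card_Icc] at h7
    omega
  refine tendsto_of_tendsto_of_tendsto_of_le_of_le' h5 tendsto_const_nhds ?_ ?_
  · filter_upwards [eventually_ge_atTop 1] with N hN
    have hNR : (0 : ℝ) < N := by exact_mod_cast hN
    rw [← add_div]
    have key : (Set.ncard {n : ℕ | 1 ≤ n ∧ n ≤ N ∧ P n} : ℝ) + (Set.ncard {n : ℕ | 1 ≤ n ∧ n ≤ N ∧ Q n} : ℝ) ≤
        (Set.ncard {n : ℕ | 1 ≤ n ∧ n ≤ N ∧ (P n ∧ Q n)} : ℝ) + N := by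
      have f1 : {n : ℕ | 1 ≤ n ∧ n ≤ N ∧ P n}.Finite :=
        (Set.finite_Icc 1 N).subset (fun n hn => ⟨hn.1, hn.2.1⟩)
      have f2 : {n : ℕ | 1 ≤ n ∧ n ≤ N ∧ Q n}.Finite :=
        (Set.finite_Icc 1 N).subset (fun n hn => ⟨hn.1, hn.2.1⟩)
      have e1 := Set.ncard_union_add_ncard_inter _ _ f1 f2
      have e2 : {n : ℕ | 1 ≤ n ∧ n ≤ N ∧ P n} ∩ {n : ℕ | 1 ≤ n ∧ n ≤ N ∧ Q n} =
          {n : ℕ | 1 ≤ n ∧ n ≤ N ∧ (P n ∧ Q n)} := by
        ext n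
        constructor
        · rintro ⟨a, b⟩
          exact ⟨a.1, a.2.1, a.2.2, b.2.2⟩
        · rintro ⟨a, b, c, d⟩
          exact ⟨⟨a, b, c⟩, ⟨a, b, d⟩⟩
      have e3 : ({n : ℕ | 1 ≤ n ∧ n ≤ N ∧ P n} ∪ {n : ℕ | 1 ≤ n ∧ n ≤ N ∧ Q n}).ncard ≤ N := by
        refine le_trans (Set.ncard_le_ncard ?_ ((Set.finite_Icc 1 N).subset (fun n hn => ⟨hn.1, hn.2.1⟩)))
          (hle (fun n => P n ∨ Q n) N)
        rintro n (h | h)
        · exact ⟨h.1, h.2.1, Or.inl h.2.2⟩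
        · exact ⟨h.1, h.2.1, Or.inr h.2.2⟩
      rw [e2] at e1
      have e4 : Set.ncard {n : ℕ | 1 ≤ n ∧ n ≤ N ∧ P n} + Set.ncard {n : ℕ | 1 ≤ n ∧ n ≤ N ∧ Q n} ≤
        Set.ncard {n : ℕ | 1 ≤ n ∧ n ≤ N ∧ (P n ∧ Q n)} + N := by
        omega
      exact_mod_cast e4
    have e5 := div_le_div_of_nonneg_right key hNR.le
    rw [add_div _ (N : ℝ), div_self hNR.ne'] at e5
    linarith
  · filter_upwards [eventually_ge_atTop 1] with N hN
    have hNR : (0 : ℝ) < N := by exact_mod_cast hN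
    rw [div_le_one hNR]
    exact_mod_cast hle (fun n => P n ∧ Q n) N

theorem ncard_mono {P Q : ℕ → Prop} (h : ∀ n : ℕ, 1 ≤ n → P n → Q n) (N : ℕ) :
    (Set.ncard {n : ℕ | 1 ≤ n ∧ n ≤ N ∧ ¬ Q n} : ℝ) ≤ (Set.ncard {n : ℕ | 1 ≤ n ∧ n ≤ N ∧ ¬ P n} : ℝ) := by
  have hfin : {n : ℕ | 1 ≤ n ∧ n ≤ N ∧ ¬ P n}.Finite :=
    (Set.finite_Icc 1 N).subset (fun n hn => ⟨hn.1, hn.2.1⟩)
  have : {n : ℕ | 1 ≤ n ∧ n ≤ N ∧ ¬ Q n} ⊆ {n : ℕ | 1 ≤ n ∧ n ≤ N ∧ ¬ P n} :=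
    fun n hn => ⟨hn.1, hn.2.1, fun hP => hn.2.2 (h n hn.1 hP)⟩
  exact_mod_cast Set.ncard_le_ncard this hfin

end Run7.h702.BC
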