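import Pool.Agent.Run7.h702.BC.K
import Pool.Agent.Run7.h702.AT.E

/-! The stopping times for the Collatz map `n / 2`, `3 n + 1`. -/

set_option autoImplicit false

namespace Run7.h702.BC

open Finset Filter Topology
open Pool.Agent.H499R2.CO (Tz)
open Pool.Agent.R344.SP Pool.Agent.R344.TH
open Run7.h702.AT

theorem odn_succ (m n : ℕ) : odn (m + 1) n = odn m n + (if Tn^[m] n % 2 = 1 then 1 else 0) := by
  unfold odn
  rw [range_add_one, filter_insert]
  split_ifs with h
  · rw [card_insert_of_notMem (by simp)]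
  · rfl

theorem odn_mono {m m' : ℕ} (h : m ≤ m') (n : ℕ) : odn m n ≤ odn m' n := by
  unfold odn
  apply card_le_card
  intro j hj
  rw [mem_filter, mem_range] at hj ⊢
  exact ⟨by omega, hj.2⟩

theorem odn_add (a b n : ℕ) : odn (a + b) n = odn a n + odn b (Tn^[a] n) := by
  rw [odn_eq, odn_eq, odn_eq, od_add, Tn_cast]

theorem Tn_even {n : ℕ} (h : n % 2 = 0) : Tn n = n / 2 := by unfold Tn; rw [if_pos h]

theorem Tn_odd {n : ℕ} (h : n % 2 = 1) : Tn n = (3 * n + 1) / 2 := by unfold Tn; rw [if_neg (by omega)]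

theorem col_even {n : ℕ} (h : n % 2 = 0) : col n = n / 2 := by unfold col; rw [if_pos h]

theorem col_odd {n : ℕ} (h : n % 2 = 1) : col n = 3 * n + 1 := by unfold col; rw [if_neg (by omega)]

/-- the iterates of the Collatz map -/
theorem col_iter (y : ℕ) : ∀ k : ℕ, ∃ m : ℕ, (k = m + odn m y ∧ col^[k] y = Tn^[m] y) ∨
    (k = m + odn m y + 1 ∧ Tn^[m] y % 2 = 1 ∧ col^[k] y = 3 * Tn^[m] y + 1)
  | 0 => ⟨0, Or.inl ⟨by simp [odn], rfl⟩⟩
  | k + 1 => by
    obtain ⟨m, h | h⟩ := col_iter y k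
    · obtain ⟨h1, h2⟩ := h
      by_cases h3 : Tn^[m] y % 2 = 1
      · refine ⟨m, Or.inr ⟨by omega, h3, ?_⟩⟩
        rw [Function.iterate_succ_apply', h2, col_odd h3]
      · refine ⟨m + 1, Or.inl ⟨?_, ?_⟩⟩
        · rw [odn_succ, if_neg h3]; omega
        · rw [Function.iterate_succ_apply', Function.iterate_succ_apply', h2, col_even (by omega), Tn_even (by omega)]
    · obtain ⟨h1, h3, h2⟩ := h
      refine ⟨m + 1, Or.inl ⟨?_, ?_⟩⟩
      · rw [odn_succ, if_pos h3]; omega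
      · rw [Function.iterate_succ_apply', Function.iterate_succ_apply', h2, Tn_odd h3, col_even (by omega)]

/-- the time of `T^m y` -/
theorem col_time (y : ℕ) : ∀ m : ℕ, col^[m + odn m y] y = Tn^[m] y
  | 0 => by simp [odn]
  | m + 1 => by
    have ih := col_time y m
    rw [odn_succ]
    by_cases h3 : Tn^[m] y % 2 = 1
    · rw [if_pos h3, show m + 1 + (odn m y + 1) = (m + odn m y) + 1 + 1 by ring, Function.iterate_succ_apply',
        Function.iterate_succ_apply', ih, Function.iterate_succ_apply', col_odd h3, Tn_odd h3, col_even (by omega)]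
    · rw [if_neg h3, add_zero, show m + 1 + odn m y = (m + odn m y) + 1 by ring, Function.iterate_succ_apply', ih,
        Function.iterate_succ_apply', col_even (by omega), Tn_even (by omega)]

/-- the constant of the Collatz map -/
noncomputable def κC : ℝ := (1 + Real.log 2 / Real.log 3) * κ₀

/-- All the terms `x` of the Collatz trajectory of `n` before the first value smaller than `Y`, which exists, are larger
than all the later ones from `κ log log x` steps on. -/
def StopC (κ Y : ℝ) (n : ℕ) : Prop :=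
  ∃ k : ℕ, ((col^[k] n : ℕ) : ℝ) < Y ∧ (∀ j < k, Y ≤ ((col^[j] n : ℕ) : ℝ)) ∧
    ∀ i < k, ∀ l : ℕ, i + l ≤ k → κ * LL ((col^[i] n : ℕ) : ℝ) ≤ l → col^[i + l] n < col^[i] n

/-- consequences of the avoidance, for the terms -/
theorem quarter {c κ κ' : ℝ} (hκ : 0 < κ) (hκκ : κ ≤ κ') {Y : ℝ} (hY : Lrg 1 κ Y) {δ : ℝ} (hδ : 0 < δ)
    (hc : c * Real.log 3 + 1 / Y + δ ≤ Real.log 2) (hYδ : 2 * Real.log 2 < δ * (κ * LL Y)) {n : ℕ}
    (hPW : PW 1 c κ Y (n : ℤ)) : ∀ i m : ℕ, (∀ j ≤ i, Y ≤ ((Tn^[j] n : ℕ) : ℝ)) →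
      (∀ j < m, Y ≤ ((Tn^[i + j] n : ℕ) : ℝ)) → κ' * LL ((Tn^[i] n : ℕ) : ℝ) ≤ m →
      4 * Tn^[i + m] n < Tn^[i] n := by
  intro i m hi hm hk
  have hY0 : 0 < Y := by linarith [hY.1]
  obtain ⟨x, hx⟩ : ∃ x, x = Tn^[i] n := ⟨_, rfl⟩
  have hxY := hi i le_rfl
  rw [← hx] at hxY hk ⊢
  have hLL := LL_pos_of_Lrg hκ hY hxY
  have hk2 : κ * LL (x : ℝ) ≤ m := (mul_le_mul_of_nonneg_right hκκ hLL.le).trans hk
  have hm0 : (0 : ℝ) < m := lt_of_lt_of_le (by positivity) hk2
  have h1 := (hPW i m (fun j hj => by rw [← Tn_castR]; exact hi j hj) (fun j hj => by rw [← Tn_castR]; exact hm j hj)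
    (by rw [← Tn_castR, ← hx]; exact hk2)).2
  rw [← Tn_cast, ← hx] at h1
  have hx0R : (0 : ℝ) < x := by linarith
  have hx0 : 0 < (x : ℤ) := by exact_mod_cast hx0R
  have h2 : ∀ j < m, Y ≤ (((Tz 1)^[j] (x : ℤ) : ℤ) : ℝ) := by
    intro j hj
    have := hm j hj
    rw [Nat.add_comm, Function.iterate_add_apply, ← hx, Tn_castR] at this
    exact this
  obtain ⟨h3, h4⟩ := log_iter (d := 1) (by norm_num) hY0 hY.2.1 hx0 h2
  have h5 := (abs_le.1 h4).2
  have e1 : |((1 : ℤ) : ℝ)| = 1 := by norm_num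
  rw [e1] at h5
  have hl3 : 0 < Real.log 3 := Real.log_pos (by norm_num)
  have h6 : (od 1 m (x : ℤ) : ℝ) * Real.log 3 < c * m * Real.log 3 := mul_lt_mul_of_pos_right h1 hl3
  have h7 : (m : ℝ) * (c * Real.log 3 + 1 / Y + δ) ≤ m * Real.log 2 := mul_le_mul_of_nonneg_left hc hm0.le
  have hLLY : LL Y ≤ LL (x : ℝ) := by
    have h3Y := hY.1
    have h0 : 0 < Real.log Y := Real.log_pos (by linarith)
    exact Real.log_le_log h0 (Real.log_le_log hY0 hxY)
  have h8 : 2 * Real.log 2 < δ * m := by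
    refine lt_of_lt_of_le hYδ ?_
    apply mul_le_mul_of_nonneg_left _ hδ.le
    exact (mul_le_mul_of_nonneg_left hLLY hκ.le).trans hk2
  have hxc : (((x : ℤ)) : ℝ) = (x : ℝ) := by push_cast; rfl
  rw [hxc] at h5
  have h9 : Real.log (((Tz 1)^[m] (x : ℤ) : ℤ) : ℝ) < Real.log x - 2 * Real.log 2 := by nlinarith
  have h10 : Real.log x - 2 * Real.log 2 = Real.log (x / 4) := by
    rw [Real.log_div hx0R.ne' (by norm_num), show (4 : ℝ) = 2 ^ 2 by norm_num, Real.log_pow]; norm_num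
  rw [h10] at h9
  have h11 := (Real.log_lt_log_iff h3 (by positivity)).1 h9
  rw [Nat.add_comm, Function.iterate_add_apply, ← hx]
  rw [← Tn_castR, lt_div_iff₀ (by norm_num)] at h11
  have h12 : (4 : ℝ) * ((Tn^[m] x : ℕ) : ℝ) < x := by linarith
  exact_mod_cast h12

theorem StopC_of {c κ κ' : ℝ} (hκ : 0 < κ) (hc0 : 0 < c) {Y : ℝ} (hY : Lrg 1 κ Y) {δ : ℝ} (hδ : 0 < δ)
    (hc : c * Real.log 3 + 1 / Y + δ ≤ Real.log 2) (hYδ : 2 * Real.log 2 < δ * (κ * LL Y))
    (hκ' : ∀ x : ℝ, Y ≤ x → (1 + c) * (κ * LL x + 1) + 3 < κ' * LL x) {n : ℕ}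
    (hn : (n : ℤ) ∉ HY 1 (BW 1 c κ) Y) (hend : ∃ τ : ℕ, ((Tn^[τ] n : ℕ) : ℝ) < Y) : StopC κ' Y n := by
  classical
  have hd : (1 : ℤ) % 2 = 1 := by norm_num
  have hPW := PW_of hd hκ hY hn
  have hquart := quarter hκ le_rfl hY hδ hc hYδ hPW
  have hY0 : 0 < Y := by linarith [hY.1]
  -- the end
  obtain ⟨τ, hτ⟩ : ∃ τ, τ = Nat.find hend := ⟨_, rfl⟩
  have hτ1 : ((Tn^[τ] n : ℕ) : ℝ) < Y := by rw [hτ]; exact Nat.find_spec hend
  have hτ2 : ∀ j < τ, Y ≤ ((Tn^[j] n : ℕ) : ℝ) := by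
    intro j hj
    rw [hτ] at hj
    exact not_lt.1 (Nat.find_min hend hj)
  -- short windows
  have hshort : ∀ a < τ, ∀ m : ℕ, m < wl κ ((Tn^[a] n : ℕ) : ℝ) →
      ((m + odn m (Tn^[a] n) + 3 : ℕ) : ℝ) < κ' * LL ((Tn^[a] n : ℕ) : ℝ) := by
    intro a ha m hm
    obtain ⟨x, hx⟩ : ∃ x, x = Tn^[a] n := ⟨_, rfl⟩
    have hxY := hτ2 a ha
    rw [← hx] at hm hxY ⊢
    have hnb : (x : ℤ) ∉ BW 1 c κ := by
      intro h
      apply hn
      refine ⟨a, ?_, fun j hj => ?_⟩
      · rw [← Tn_cast, ← hx]; exact h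
      · rw [← Tn_castR]; exact hτ2 j (by omega)
    obtain ⟨w, hw⟩ : ∃ w, w = wl κ (x : ℝ) := ⟨_, rfl⟩
    rw [← hw] at hm
    have hxc : (((x : ℤ)) : ℝ) = (x : ℝ) := by push_cast; rfl
    have h1 : ¬ Wd 1 c w (x : ℤ) := by
      intro h
      apply hnb
      refine ⟨w, ?_, ?_, h⟩
      · rw [hxc, ← hw]
      · rw [hxc, ← hw]; omega
    unfold Wd at h1
    push Not at h1
    have h2 : (odn w x : ℝ) < c * w := by
      rw [odn_eq]; exact h1.1
    have h3 := odn_mono hm.le x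
    have h4 : (w : ℝ) < κ * LL (x : ℝ) + 1 := by
      rw [hw]
      exact Nat.ceil_lt_add_one (mul_pos hκ (LL_pos_of_Lrg hκ hY hxY)).le
    have h5 : (m : ℝ) ≤ w := by exact_mod_cast hm.le
    have h6 : (odn m x : ℝ) ≤ odn w x := by exact_mod_cast h3
    have h7 := hκ' x hxY
    push_cast
    have h8 : c * (w : ℝ) ≤ c * (κ * LL (x : ℝ) + 1) := mul_le_mul_of_nonneg_left h4.le hc0.le
    nlinarith
  -- a term of the trajectory of `T`
  have hterm : ∀ a < τ, ∀ l : ℕ, (a + odn a n) + l ≤ τ + odn τ n →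
      κ' * LL ((Tn^[a] n : ℕ) : ℝ) - 2 ≤ l → col^[l] (Tn^[a] n) < Tn^[a] n := by
    intro a ha l hl hk
    obtain ⟨x, hx⟩ : ∃ x, x = Tn^[a] n := ⟨_, rfl⟩
    have hsh := hshort a ha
    rw [← hx] at hk hsh ⊢
    obtain ⟨m, hm⟩ := col_iter x l
    have hlm : l ≤ m + odn m x + 1 := by rcases hm with h | h <;> omega
    have hmw : wl κ (x : ℝ) ≤ m := by
      by_contra hcon
      have h1 := hsh m (by omega)
      have h2 : (l : ℝ) ≤ ((m + odn m x + 1 : ℕ) : ℝ) := by exact_mod_cast hlm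
      push_cast at h1 h2
      linarith
    have ham : a + m ≤ τ := by
      by_contra hcon
      have h1 : a + m ≥ τ + 1 := by omega
      have h2 : m + odn m x ≤ l := by rcases hm with h | h <;> omega
      have h3 := odn_add a m n
      rw [← hx] at h3
      have h4 := odn_mono (show τ ≤ a + m by omega) n
      omega
    have h1 := hquart a m (fun j hj => hτ2 j (by omega)) (fun j hj => hτ2 _ (by omega)) (by
      rw [← hx]
      exact (Nat.le_ceil _).trans (by exact_mod_cast hmw))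
    rw [← hx, Nat.add_comm, Function.iterate_add_apply, ← hx] at h1
    have hTpos : 0 < Tn^[m] x := by
      by_contra hcon
      have h0 : Tn^[m] x = 0 := by omega
      -- the iterates of a positive number are positive
      have hpos : ∀ k : ℕ, 0 < Tn^[k] x := by
        intro k
        induction k with
        | zero =>
          rw [Function.iterate_zero, id]
          have hxY := hτ2 a ha
          rw [← hx] at hxY
          have : (0 : ℝ) < x := by linarith
          exact_mod_cast this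
        | succ k ih =>
          rw [Function.iterate_succ_apply']
          rcases Nat.mod_two_eq_zero_or_one (Tn^[k] x) with h | h
          · rw [Tn_even h]; omega
          · rw [Tn_odd h]; omega
      have := hpos m
      omega
    rcases hm with ⟨_, h2⟩ | ⟨_, _, h2⟩
    · rw [h2]; omega
    · rw [h2]; omega
  refine ⟨τ + odn τ n, ?_, ?_, ?_⟩
  · rw [col_time]; exact hτ1
  · intro j hj
    obtain ⟨m, hm⟩ := col_iter n j
    have hmτ : m < τ := by
      by_contra hcon
      have := odn_mono (not_lt.1 hcon) n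
      rcases hm with h | h <;> omega
    rcases hm with ⟨_, h2⟩ | ⟨_, _, h2⟩
    · rw [h2]; exact hτ2 m hmτ
    · rw [h2]
      have := hτ2 m hmτ
      push_cast
      have h0 : (0 : ℝ) ≤ ((Tn^[m] n : ℕ) : ℝ) := Nat.cast_nonneg _
      linarith
  · intro i hi l hl hk
    obtain ⟨a, ha⟩ := col_iter n i
    have haτ : a < τ := by
      by_contra hcon
      have := odn_mono (not_lt.1 hcon) n
      rcases ha with h | h <;> omega
    rw [Nat.add_comm i l, Function.iterate_add_apply]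
    rcases ha with ⟨h1, h2⟩ | ⟨h1, h3, h2⟩
    · rw [h2] at hk ⊢
      exact hterm a haτ l (by omega) (by linarith)
    · rw [h2] at hk ⊢
      obtain ⟨y, hy⟩ : ∃ y, y = Tn^[a] n := ⟨_, rfl⟩
      rw [← hy] at h3 hk ⊢
      have hyY := hτ2 a haτ
      rw [← hy] at hyY
      have hy0 : (0 : ℝ) < y := by linarith
      -- `l ≥ 1`
      have hxY : Y ≤ ((3 * y + 1 : ℕ) : ℝ) := by push_cast; linarith
      have hl1 : 1 ≤ l := by
        have h5 := hκ' _ hxY
        have h6 := (hY.2.2 _ hxY).1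
        have h7 : (0 : ℝ) < l := by nlinarith
        exact_mod_cast h7
      obtain ⟨l', rfl⟩ : ∃ l', l = l' + 1 := ⟨l - 1, by omega⟩
      rw [Function.iterate_succ_apply]
      have hcy : col (3 * y + 1) = Tn^[a + 1] n := by
        rw [Function.iterate_succ_apply', ← hy]
        unfold col Tn
        rw [if_pos (by omega), if_neg (by omega)]
      rw [hcy]
      have hTy : 2 * Tn^[a + 1] n = 3 * y + 1 := by
        rw [Function.iterate_succ_apply', ← hy]
        unfold Tn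
        rw [if_neg (by omega)]
        omega
      have hod : odn (a + 1) n = odn a n + 1 := by
        rw [odn_succ, ← hy, if_pos h3]
      rcases lt_or_ge (a + 1) τ with h4 | h4
      · have h5 := hterm (a + 1) h4 l' (by rw [hod]; omega) (by
          have h6 : LL ((Tn^[a + 1] n : ℕ) : ℝ) ≤ LL ((3 * y + 1 : ℕ) : ℝ) := by
            have h7 := hτ2 (a + 1) h4
            have h8 : ((Tn^[a + 1] n : ℕ) : ℝ) ≤ ((3 * y + 1 : ℕ) : ℝ) := by
              exact_mod_cast (by omega : Tn^[a + 1] n ≤ 3 * y + 1)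
            have h9 := hY.1
            exact Real.log_le_log (Real.log_pos (by linarith)) (Real.log_le_log (by linarith) h8)
          have h10 : 0 < κ' := by
            have h11 := hκ' _ hxY
            have h12 := (hY.2.2 _ hxY).1
            have h13 := LL_pos_of_Lrg hκ hY hxY
            by_contra hcon
            have := mul_nonpos_of_nonpos_of_nonneg (not_lt.1 hcon) h13.le
            nlinarith
          have h11 := mul_le_mul_of_nonneg_left h6 h10.le
          push_cast at hk h11 ⊢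
          linarith)
        omega
      · -- the end
        have h5 : a + 1 = τ := by omega
        have h6 : l' = 0 := by
          rw [← h5, hod] at hl
          omega
        subst h6
        rw [Function.iterate_zero, id]
        omega

/-- the stopping times of the Collatz map: counting -/
theorem StopC_count {ε : ℝ} (hε : 0 < ε) : ∃ δ K : ℝ, 0 < δ ∧ 0 < K ∧ ∀ Y : ℝ, 2 ≤ Y → ∀ N : ℕ,
    (Set.ncard {n : ℕ | 1 ≤ n ∧ n ≤ N ∧ ¬ StopC (κC + ε) Y n} : ℝ) ≤ K * N / (Real.log Y) ^ δ := by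
  classical
  have hc00 : 0 < Real.log 2 / Real.log 3 := by linarith [c0_gt]
  obtain ⟨c, ε', hc', hc0', hε0', hε', hκ'⟩ := exists_c (ε := ε / 4) (by linarith)
  obtain ⟨κ, hκdef⟩ : ∃ κ, κ = (1 + ε') / rate c := ⟨_, rfl⟩
  rw [← hκdef] at hκ'
  have hr' := rate_pos hc'
  have hκ : 0 < κ := by rw [hκdef]; positivity
  have hc1 : c < 1 := hc0'.trans c0_lt
  have hl3 : 0 < Real.log 3 := Real.log_pos (by norm_num)
  obtain ⟨Y₁, K₁, hY₁, hK₁, h1⟩ := count_of_Sc odd_one isCoprime_one_left hε0' hε' (Sc_BW (d := 1) (by norm_num) hc' hc1 hε0' hε')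
  rw [← hκdef] at h1
  obtain ⟨Z₁, hZ₁⟩ := Lrg_ev (d := 1) hκ
  obtain ⟨g, hg⟩ : ∃ g, g = (Real.log 2 - c * Real.log 3) / 2 := ⟨_, rfl⟩
  have hg0 : 0 < g := by
    rw [lt_div_iff₀ hl3] at hc0'
    rw [hg]; linarith
  -- large `Y`
  have hlim : Tendsto (fun x : ℝ => LL x) atTop atTop := Real.tendsto_log_atTop.comp Real.tendsto_log_atTop
  obtain ⟨Z₂, hZ₂⟩ := eventually_atTop.1 ((hlim.eventually_gt_atTop (2 * Real.log 2 / (g * κ))).and
    (hlim.eventually_gt_atTop (10 / ε)))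
  obtain ⟨V, hV⟩ : ∃ V : ℝ, V = max (max Y₁ Z₁) (max Z₂ (1 / g)) := ⟨_, rfl⟩
  have hend : ∀ Y : ℝ, V ≤ Y → ∀ n : ℕ, 1 ≤ n → (n : ℤ) ∉ HY 1 (BW 1 c κ) Y → StopC (κC + ε) Y n := by
    intro Y hY n _ hn
    have a1 : Z₁ ≤ Y := by rw [hV] at hY; exact le_trans (by simp) hY
    have a2 : Z₂ ≤ Y := by rw [hV] at hY; exact le_trans (by simp) hY
    have a3 : 1 / g ≤ Y := by rw [hV] at hY; exact le_trans (by simp) hY
    have hL := hZ₁ Y a1
    have hY0 : 0 < Y := by linarith [hL.1]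
    have hYg : 1 / Y ≤ g := by
      rw [div_le_iff₀ hg0] at a3
      rw [div_le_iff₀ hY0]; linarith
    have hcond : c * Real.log 3 + 1 / Y + g ≤ Real.log 2 := by
      rw [hg] at hYg ⊢
      linarith
    have hcond2 : c * Real.log 3 + |((1 : ℤ) : ℝ)| / Y < Real.log 2 := by
      have e1 : |((1 : ℤ) : ℝ)| = 1 := by norm_num
      rw [e1]; linarith
    obtain ⟨b1, b2⟩ := hZ₂ Y a2
    have hPW := PW_of (by norm_num) hκ hL hn
    have hPS := PS_of (κ' := κ) (by norm_num) hκ le_rfl hL hcond2 hPW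
    obtain ⟨k, hk⟩ := PS_desc hL hPS
    refine StopC_of hκ (by linarith) hL hg0 hcond ?_ ?_ hn ⟨k, by rw [Tn_castR]; exact hk⟩
    · rw [div_lt_iff₀ (by positivity)] at b1
      linarith
    · intro x hx
      have hlogY : 0 < Real.log Y := Real.log_pos (by linarith [hL.1])
      have hLLx : LL Y ≤ LL x := Real.log_le_log hlogY (Real.log_le_log hY0 hx)
      have b3 : 10 / ε < LL x := lt_of_lt_of_le b2 hLLx
      rw [div_lt_iff₀ hε] at b3
      have hLLx0 : 0 < LL x := by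
        by_contra hcon
        have := mul_nonpos_of_nonpos_of_nonneg (not_lt.1 hcon) hε.le
        linarith
      have e1 : (1 + c) * κ ≤ κC + ε / 2 := by
        unfold κC
        have hκ₀ := κ₀_pos
        have hc01 := c0_lt
        calc (1 + c) * κ ≤ (1 + Real.log 2 / Real.log 3) * (κ₀ + ε / 4) :=
              mul_le_mul (by linarith) hκ' hκ.le (by positivity)
          _ ≤ _ := by nlinarith
      have e2 : (1 + c) * κ * LL x ≤ (κC + ε / 2) * LL x := mul_le_mul_of_nonneg_right e1 hLLx0.le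
      nlinarith
  refine ⟨ε' / 2, max K₁ ((Real.log V) ^ (ε' / 2)), by positivity, by positivity, fun Y hY N => ?_⟩
  have hlog : 0 < Real.log Y := Real.log_pos (by linarith)
  rcases le_or_gt V Y with hc | hc
  · have h2 := (ncard_le (fun n => StopC (κC + ε) Y n) (fun n => n ∉ HY 1 (BW 1 c κ) Y)
      (fun n hn h => hend Y hc n hn h) N)
    simp only [not_not] at h2
    refine h2.trans ((h1 Y (by rw [hV] at hc; exact le_trans (by simp) hc) N).trans ?_)
    apply div_le_div_of_nonneg_right _ (by positivity)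
    exact mul_le_mul_of_nonneg_right (le_max_left _ _) (Nat.cast_nonneg N)
  · have h2 : Set.ncard {n : ℕ | 1 ≤ n ∧ n ≤ N ∧ ¬ StopC (κC + ε) Y n} ≤ N := by
      have h6 : {n : ℕ | 1 ≤ n ∧ n ≤ N ∧ ¬ StopC (κC + ε) Y n} ⊆ ((Finset.Icc 1 N : Finset ℕ) : Set ℕ) := by
        intro n hn
        rw [Finset.mem_coe, Finset.mem_Icc]; exact ⟨hn.1, hn.2.1⟩
      have h7 := Set.ncard_le_ncard h6 (Finset.finite_toSet _)
      rw [Set.ncard_coe_finset, Nat.card_Icc] at h7
      omega
    have h3 : (Set.ncard {n : ℕ | 1 ≤ n ∧ n ≤ N ∧ ¬ StopC (κC + ε) Y n} : ℝ) ≤ N := by exact_mod_cast h2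
    refine h3.trans ?_
    rw [le_div_iff₀ (by positivity), mul_comm]
    apply mul_le_mul_of_nonneg_right _ (Nat.cast_nonneg N)
    refine le_trans ?_ (le_max_right _ _)
    exact Real.rpow_le_rpow hlog.le (Real.log_le_log (by linarith) hc.le) (by positivity)

/-- A term `x` which is smaller than the following ones during `κ log log x` steps of the Collatz map, all the terms being
at least `√n`. -/
def LateC (κ : ℝ) (n : ℕ) : Prop :=
  ∃ i l : ℕ, κ * LL ((col^[i] n : ℕ) : ℝ) ≤ l ∧ (∀ j ≤ i + l, Real.sqrt n ≤ ((col^[j] n : ℕ) : ℝ)) ∧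
    ∀ j : ℕ, 1 ≤ j → j ≤ l → col^[i] n < col^[i + j] n

theorem LateC_count {ε : ℝ} (hε0 : 0 < ε) (hε : ε < 1) :
    ∃ K : ℝ, 0 < K ∧ ∀ N : ℕ, 1 ≤ N →
      (Set.ncard {n : ℕ | 1 ≤ n ∧ n ≤ N ∧ ¬ LateC ((1 - ε) * κC) n} : ℝ) ≤
        K * N * Real.exp (-(Real.log N) ^ (ε / 8)) := by
  classical
  obtain ⟨K, hK, h⟩ := sharp_stop (d := 1) (by norm_num) hε0 hε
  obtain ⟨n₀, hn₀⟩ := window_low (d := 1) (by norm_num)
  have hl3 : 0 < Real.log 3 := Real.log_pos (by norm_num)
  have hmain : ∀ n : ℤ, ((max n₀ 16 : ℕ) : ℤ) ≤ n → QS 1 ((1 - ε) * κ₀) (fun m x => SP 1 m x) n →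
      LateC ((1 - ε) * κC) n.toNat := by
    intro n hn hQ
    have hnn₀ : (n₀ : ℤ) ≤ n := le_trans (by exact_mod_cast le_max_left n₀ 16) hn
    have hn16 : (16 : ℤ) ≤ n := le_trans (by exact_mod_cast le_max_right n₀ 16) hn
    obtain ⟨N, rfl⟩ : ∃ N : ℕ, n = (N : ℤ) := ⟨n.toNat, by omega⟩
    rw [Int.toNat_natCast]
    obtain ⟨i, m, h1, h2, h3, h4⟩ := hQ
    have h4' : ∀ j ≤ i + m, Real.sqrt N ≤ ((Tn^[j] N : ℕ) : ℝ) := by
      intro j hj
      rw [Tn_castR]
      exact_mod_cast h4 j hj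
    obtain ⟨x, hx⟩ : ∃ x, x = Tn^[i] N := ⟨_, rfl⟩
    have hgt : ∀ j : ℕ, 1 ≤ j → j ≤ m → x < Tn^[j] x := by
      intro j hj1 hj2
      obtain ⟨h5, h6⟩ := hn₀ N hnn₀ i m h1 h4 j hj2
      have h7 := h3 j hj1 hj2
      have h8 : (9 : ℝ) * 2 ^ j ≤ 8 * 3 ^ od 1 j ((Tz 1)^[i] (N : ℤ)) := by exact_mod_cast h7
      have hxR : (0 : ℝ) < (((Tz 1)^[i] (N : ℤ) : ℤ) : ℝ) := by exact_mod_cast h5
      have h9 : (((Tz 1)^[i] (N : ℤ) : ℤ) : ℝ) * 2 ^ j < (((Tz 1)^[i + j] (N : ℤ) : ℤ) : ℝ) * 2 ^ j := by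
        refine lt_of_lt_of_le ?_ h6
        have h20 : (0 : ℝ) < 2 ^ j := by positivity
        nlinarith [mul_pos hxR h20]
      have h10 := lt_of_mul_lt_mul_right h9 (by positivity)
      rw [← Tn_castR, ← Tn_castR, Nat.add_comm, Function.iterate_add_apply, ← hx] at h10
      exact_mod_cast h10
    -- the number of odd terms
    have hod : Real.log 2 / Real.log 3 * m ≤ odn m x := by
      rcases Nat.eq_zero_or_pos m with hm | hm
      · subst hm
        simp
      · have h7 := h3 m hm le_rfl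
        have h8 : (9 : ℝ) * 2 ^ m ≤ 8 * 3 ^ odn m x := by
          rw [odn_eq, hx, Tn_cast]
          exact_mod_cast h7
        have h9 : (2 : ℝ) ^ m ≤ 3 ^ odn m x := by
          have : (0 : ℝ) < 2 ^ m := by positivity
          linarith
        have h10 := Real.log_le_log (by positivity) h9
        rw [Real.log_pow, Real.log_pow] at h10
        rw [div_mul_eq_mul_div, div_le_iff₀ hl3]
        linarith
    have hxt : col^[i + odn i N] N = x := by rw [col_time, hx]
    have h2' : (1 - ε) * κ₀ * LL (x : ℝ) ≤ m := by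
      rw [← Tn_castR, ← hx] at h2
      exact h2
    refine ⟨i + odn i N, m + odn m x, ?_, ?_, ?_⟩
    · rw [hxt]
      push_cast
      have h5 : (1 - ε) * κC * LL (x : ℝ) = (1 + Real.log 2 / Real.log 3) * ((1 - ε) * κ₀ * LL (x : ℝ)) := by
        unfold κC; ring
      rw [h5]
      have h6 : 0 ≤ 1 + Real.log 2 / Real.log 3 := by linarith [c0_gt]
      calc (1 + Real.log 2 / Real.log 3) * ((1 - ε) * κ₀ * LL (x : ℝ)) ≤ (1 + Real.log 2 / Real.log 3) * m :=
            mul_le_mul_of_nonneg_left h2' h6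
        _ = m + Real.log 2 / Real.log 3 * m := by ring
        _ ≤ _ := by linarith
    · intro j hj
      obtain ⟨b, hb⟩ := col_iter N j
      have hbm : b ≤ i + m := by
        by_contra hcon
        have h5 := odn_mono (show i + m ≤ b by omega) N
        rw [odn_add, ← hx] at h5
        rcases hb with h | h <;> omega
      rcases hb with ⟨_, h5⟩ | ⟨_, _, h5⟩
      · rw [h5]; exact h4' b hbm
      · rw [h5]
        have h6 := h4' b hbm
        push_cast
        have h0 : (0 : ℝ) ≤ ((Tn^[b] N : ℕ) : ℝ) := Nat.cast_nonneg _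
        linarith
    · intro j hj1 hj2
      rw [hxt, Nat.add_comm, Function.iterate_add_apply, hxt]
      obtain ⟨b, hb⟩ := col_iter x j
      have hbm : b ≤ m := by
        by_contra hcon
        have h5 := odn_mono (show m ≤ b by omega) x
        rcases hb with h | h <;> omega
      rcases hb with ⟨h6, h5⟩ | ⟨_, _, h5⟩
      · rw [h5]
        have hb1 : 1 ≤ b := by
          by_contra hcon
          have : b = 0 := by omega
          subst this
          simp [odn] at h6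
          omega
        exact hgt b hb1 hbm
      · rw [h5]
        rcases Nat.eq_zero_or_pos b with h6 | h6
        · subst h6
          rw [Function.iterate_zero, id]
          omega
        · have := hgt b h6 hbm
          omega
  have h' := sharp_conseq (P := QS 1 ((1 - ε) * κ₀) (fun m x => SP 1 m x)) (Q := fun n => LateC ((1 - ε) * κC) n.toNat)
    (δ := ε / 8) (by linarith) (by linarith) (n₀ := max n₀ 16) hmain h
  refine ⟨K + ((max n₀ 16 : ℕ) : ℝ) * Real.exp 1, by positivity, fun N hN => ?_⟩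
  refine (ncard_le (fun n => LateC ((1 - ε) * κC) n) (fun n : ℤ => LateC ((1 - ε) * κC) n.toNat) ?_ N).trans (h' N hN)
  intro n _ h
  rwa [Int.toNat_natCast] at h

end Run7.h702.BC
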