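import Pool.Agent.Run7.h702.BC.L

/-! The number of the steps of the Collatz map from all the terms of a trajectory. -/

set_option autoImplicit false

namespace Run7.h702.BC

open Finset Filter Topology
open Pool.Agent.H499R2.CO (Tz)
open Pool.Agent.R344.SP Pool.Agent.R344.TH
open Run7.h702.AT

theorem mu_pos : 0 < mu := by
  unfold mu
  have h : Real.log 3 < 2 * Real.log 2 := by
    rw [show 2 * Real.log 2 = Real.log 4 by
      rw [show (4 : ℝ) = 2 ^ 2 by norm_num, Real.log_pow]; norm_num]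
    exact Real.log_lt_log (by norm_num) (by norm_num)
  linarith

theorem mu_lt_one : mu < 1 := by
  unfold mu
  have h := Real.log_two_lt_d9
  have h3 : 0 < Real.log 3 := Real.log_pos (by norm_num)
  linarith

/-- `3 / log (4/3)` -/
noncomputable def c3 : ℝ := 3 / (2 * mu)

theorem c3_pos : 0 < c3 := by
  unfold c3
  have := mu_pos
  positivity

theorem c3_mu : c3 * mu = 3 / 2 := by
  unfold c3
  have := mu_pos
  field_simp

/-- a term is at most `2^m` times the term after `m` steps -/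
theorem Tn_halve (x : ℕ) : ∀ m : ℕ, x ≤ 2 ^ m * Tn^[m] x
  | 0 => by simp
  | m + 1 => by
    have ih := Tn_halve x m
    rw [Function.iterate_succ_apply']
    have h1 : Tn^[m] x ≤ 2 * Tn (Tn^[m] x) := by
      rcases Nat.mod_two_eq_zero_or_one (Tn^[m] x) with h | h
      · rw [Tn_even h]; omega
      · rw [Tn_odd h]; omega
    calc x ≤ 2 ^ m * Tn^[m] x := ih
      _ ≤ 2 ^ m * (2 * Tn (Tn^[m] x)) := Nat.mul_le_mul_left _ h1
      _ = _ := by rw [pow_succ]; ring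

/-- the number of the steps, long windows -/
theorem steps_long {m o L Ly lz e η ε : ℝ} (hm : 0 ≤ m) (ho : |o - m / 2| ≤ η * m)
    (hlog : |lz - (L + o * Real.log 3 - m * Real.log 2)| ≤ m * e) (hz : |lz| ≤ Ly) (hL : 0 ≤ L)
    (hsmall : η * Real.log 3 + e ≤ mu / 2) (hη : 0 ≤ η) (he : 0 ≤ e)
    (hε : (c3 * (η * Real.log 3 + e) + η) * (2 / mu) ≤ ε) (hε1 : ε ≤ 1) :
    |m + o - c3 * L| ≤ (c3 + 1) * Ly + ε * L := by
  have hmu := mu_pos
  have hc3 := c3_pos
  have hl3 : 0 < Real.log 3 := Real.log_pos (by norm_num)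
  obtain ⟨D, hD⟩ : ∃ D, D = L - mu * m := ⟨_, rfl⟩
  obtain ⟨θ, hθ⟩ : ∃ θ, θ = o - m / 2 := ⟨_, rfl⟩
  rw [← hθ] at ho
  have hLy : 0 ≤ Ly := (abs_nonneg _).trans hz
  obtain ⟨o1, o2⟩ := abs_le.1 ho
  obtain ⟨g1, g2⟩ := abs_le.1 hlog
  obtain ⟨z1, z2⟩ := abs_le.1 hz
  have hD2 : D = lz - θ * Real.log 3 - (lz - (L + o * Real.log 3 - m * Real.log 2)) := by
    rw [hD, hθ]; unfold mu; ring
  have t1 := mul_le_mul_of_nonneg_right o2 hl3.le
  have t2 := mul_le_mul_of_nonneg_right o1 hl3.le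
  have hDabs : |D| ≤ Ly + (η * Real.log 3 + e) * m := by
    rw [abs_le, hD2]
    constructor
    · linarith
    · linarith
  obtain ⟨d1, d2⟩ := abs_le.1 hDabs
  have hmle : m ≤ (2 / mu) * (L + Ly) := by
    have h1 : (η * Real.log 3 + e) * m ≤ mu / 2 * m := mul_le_mul_of_nonneg_right hsmall hm
    have h2 : mu / 2 * m ≤ L + Ly := by
      rw [hD] at d1
      linarith
    rw [div_mul_eq_mul_div, le_div_iff₀ hmu]
    linarith
  have hLy2 : 0 ≤ L + Ly := by linarith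
  have hk : (c3 * (η * Real.log 3 + e) + η) * m ≤ ε * (L + Ly) := by
    have h0 : 0 ≤ c3 * (η * Real.log 3 + e) + η := by positivity
    calc (c3 * (η * Real.log 3 + e) + η) * m ≤ (c3 * (η * Real.log 3 + e) + η) * ((2 / mu) * (L + Ly)) :=
          mul_le_mul_of_nonneg_left hmle h0
      _ = (c3 * (η * Real.log 3 + e) + η) * (2 / mu) * (L + Ly) := by ring
      _ ≤ _ := mul_le_mul_of_nonneg_right hε hLy2
  have hε2 : ε * Ly ≤ Ly := by nlinarith
  have hmain : m + o - c3 * L = -(c3 * D) + θ := by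
    rw [hD, hθ]
    have : c3 * (L - mu * m) = c3 * L - c3 * mu * m := by ring
    rw [this, c3_mu]
    ring
  have h5 := mul_le_mul_of_nonneg_left d1 hc3.le
  have h6 := mul_le_mul_of_nonneg_left d2 hc3.le
  rw [hmain, abs_le]
  constructor
  · linarith
  · linarith

/-- The number of the steps from the terms of the trajectory of `T`. -/
theorem steps_T {c κ : ℝ} (hc : 1 / 2 < c) (hκ : 0 < κ) {Y : ℝ} (hY : Lrg 1 κ Y) {ε : ℝ} (hε1 : ε ≤ 1)
    (h1 : (c - 1 / 2) * Real.log 3 + 1 / Y ≤ mu / 2)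
    (h2 : (c3 * ((c - 1 / 2) * Real.log 3 + 1 / Y) + (c - 1 / 2)) * (2 / mu) ≤ ε)
    (h3 : ∀ x : ℝ, Y ≤ x → (2 + c3) * (κ * LL x) ≤ ε * Real.log x) {n : ℕ} (hPW : PW 1 c κ Y (n : ℤ)) {τ : ℕ}
    (hτ1 : ((Tn^[τ] n : ℕ) : ℝ) < Y) (hτ2 : ∀ j < τ, Y ≤ ((Tn^[j] n : ℕ) : ℝ)) (i : ℕ) (hi : i < τ) :
    |((τ - i : ℕ) : ℝ) + odn (τ - i) (Tn^[i] n) - c3 * Real.log (Tn^[i] n : ℕ)| ≤
      (c3 + 1) * Real.log Y + ε * Real.log (Tn^[i] n : ℕ) := by
  have hmu := mu_pos
  have hc3 := c3_pos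
  have hl3 : 0 < Real.log 3 := Real.log_pos (by norm_num)
  have hl2 : 0 < Real.log 2 := Real.log_pos (by norm_num)
  have hl21 : Real.log 2 ≤ 1 := by have := Real.log_two_lt_d9; linarith
  have hY3 := hY.1
  have hY0 : 0 < Y := by linarith
  obtain ⟨x, hx⟩ : ∃ x, x = Tn^[i] n := ⟨_, rfl⟩
  obtain ⟨m, hm⟩ : ∃ m, m = τ - i := ⟨_, rfl⟩
  have him : i + m = τ := by omega
  have hxY := hτ2 i hi
  rw [← hx] at hxY
  rw [← hx, ← hm]
  have hz : Tn^[m] x = Tn^[τ] n := by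
    rw [hx, ← Function.iterate_add_apply, Nat.add_comm, him]
  have hx0 : (0 : ℝ) < x := by linarith
  have hLx : Real.log Y ≤ Real.log x := Real.log_le_log hY0 hxY
  have hlogY : 1 ≤ Real.log Y := by
    have h5 : Real.exp 1 ≤ Y := by have := Real.exp_one_lt_d9; linarith
    have := Real.log_le_log (Real.exp_pos 1) h5
    rwa [Real.log_exp] at this
  have hLL := LL_pos_of_Lrg hκ hY hxY
  -- the last value is positive
  have hz1 : 1 ≤ Tn^[τ] n := by
    obtain ⟨t, rfl⟩ : ∃ t, τ = t + 1 := ⟨τ - 1, by omega⟩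
    have h5 := hτ2 t (by omega)
    have h6 : 3 < Tn^[t] n := by
      have : (3 : ℝ) < ((Tn^[t] n : ℕ) : ℝ) := by linarith
      exact_mod_cast this
    rw [Function.iterate_succ_apply']
    rcases Nat.mod_two_eq_zero_or_one (Tn^[t] n) with h | h
    · rw [Tn_even h]; omega
    · rw [Tn_odd h]; omega
  have hz1R : (1 : ℝ) ≤ ((Tn^[τ] n : ℕ) : ℝ) := by exact_mod_cast hz1
  have hzlog : |Real.log ((Tn^[τ] n : ℕ) : ℝ)| ≤ Real.log Y := by
    rw [abs_of_nonneg (Real.log_nonneg hz1R)]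
    exact Real.log_le_log (by linarith) hτ1.le
  have hm0 : (0 : ℝ) ≤ m := Nat.cast_nonneg m
  rcases le_or_gt (κ * LL (x : ℝ)) m with hcase | hcase
  · -- long windows
    have g := hPW i m (fun j hj => by rw [← Tn_castR]; exact hτ2 j (by omega))
      (fun j hj => by rw [← Tn_castR]; exact hτ2 _ (by omega)) (by rw [← Tn_castR, ← hx]; exact hcase)
    rw [← Tn_cast, ← hx, ← odn_eq] at g
    have h4 : ∀ j < m, Y ≤ (((Tz 1)^[j] (x : ℤ) : ℤ) : ℝ) := by
      intro j hj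
      have := hτ2 (i + j) (by omega)
      rw [Nat.add_comm, Function.iterate_add_apply, ← hx, Tn_castR] at this
      exact this
    obtain ⟨_, h5⟩ := log_iter (d := 1) (by norm_num) hY0 hY.2.1 (show 0 < (x : ℤ) by exact_mod_cast hx0) h4
    have e1 : |((1 : ℤ) : ℝ)| = 1 := by norm_num
    rw [e1, ← Tn_castR, hz, ← odn_eq] at h5
    have e2 : (((x : ℤ)) : ℝ) = (x : ℝ) := by push_cast; rfl
    rw [e2] at h5
    refine steps_long (η := c - 1 / 2) hm0 ?_ h5 hzlog (by linarith) h1 (by linarith) (by positivity) h2 hε1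
    rw [abs_le]
    constructor
    · nlinarith [g.1]
    · nlinarith [g.2]
  · -- short windows
    have h4 : x ≤ 2 ^ m * Tn^[m] x := Tn_halve x m
    rw [hz] at h4
    have h5 : (x : ℝ) ≤ 2 ^ m * Y := by
      have : (x : ℝ) ≤ 2 ^ m * ((Tn^[τ] n : ℕ) : ℝ) := by exact_mod_cast h4
      exact this.trans (mul_le_mul_of_nonneg_left hτ1.le (by positivity))
    have h6 : Real.log x ≤ m * Real.log 2 + Real.log Y := by
      have := Real.log_le_log hx0 h5
      rwa [Real.log_mul (by positivity) hY0.ne', Real.log_pow] at this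
    have h7 := h3 x hxY
    have h8 : odn m x ≤ m := by
      unfold odn
      refine (card_filter_le _ _).trans ?_
      rw [card_range]
    have h8R : (odn m x : ℝ) ≤ m := by exact_mod_cast h8
    have h9 : (0 : ℝ) ≤ odn m x := Nat.cast_nonneg _
    have h10 : (m : ℝ) * Real.log 2 ≤ m := by nlinarith
    have h11 : c3 * Real.log x ≤ c3 * (m + Real.log Y) := mul_le_mul_of_nonneg_left (by linarith) hc3.le
    have h12 : c3 * (m : ℝ) ≤ c3 * (κ * LL (x : ℝ)) := mul_le_mul_of_nonneg_left hcase.le hc3.le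
    have h13 : 0 ≤ c3 * Real.log x := by
      apply mul_nonneg hc3.le; linarith
    have h14 : 0 ≤ c3 * Real.log Y := by positivity
    have h15 : 0 ≤ c3 * (κ * LL (x : ℝ)) := by positivity
    rw [abs_le]
    constructor
    · nlinarith
    · nlinarith

/-- The number of the steps of the Collatz map from every term `x` to the first value smaller than `Y` is
`c3 log x` up to `A log Y + ε log x`. -/
def LevC (A ε Y : ℝ) (n : ℕ) : Prop :=
  ∃ k : ℕ, ((col^[k] n : ℕ) : ℝ) < Y ∧ (∀ j < k, Y ≤ ((col^[j] n : ℕ) : ℝ)) ∧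
    ∀ j < k, |((k - j : ℕ) : ℝ) - c3 * Real.log (col^[j] n : ℕ)| ≤ A * Real.log Y + ε * Real.log (col^[j] n : ℕ)

theorem LevC_of {c κ : ℝ} (hc : 1 / 2 < c) (hκ : 0 < κ) {Y : ℝ} (hY : Lrg 1 κ Y) {ε : ℝ} (hε0 : 0 ≤ ε) (hε1 : ε ≤ 1)
    (h1 : (c - 1 / 2) * Real.log 3 + 1 / Y ≤ mu / 2)
    (h2 : (c3 * ((c - 1 / 2) * Real.log 3 + 1 / Y) + (c - 1 / 2)) * (2 / mu) ≤ ε)
    (h3 : ∀ x : ℝ, Y ≤ x → (2 + c3) * (κ * LL x) ≤ ε * Real.log x) {n : ℕ} (hPW : PW 1 c κ Y (n : ℤ))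
    (hend : ∃ τ : ℕ, ((Tn^[τ] n : ℕ) : ℝ) < Y) : LevC (3 * c3 + 2) ε Y n := by
  classical
  have hc3 := c3_pos
  have hY3 := hY.1
  have hY0 : 0 < Y := by linarith
  have hlogY : 1 ≤ Real.log Y := by
    have h5 : Real.exp 1 ≤ Y := by have := Real.exp_one_lt_d9; linarith
    have := Real.log_le_log (Real.exp_pos 1) h5
    rwa [Real.log_exp] at this
  obtain ⟨τ, hτ⟩ : ∃ τ, τ = Nat.find hend := ⟨_, rfl⟩
  have hτ1 : ((Tn^[τ] n : ℕ) : ℝ) < Y := by rw [hτ]; exact Nat.find_spec hend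
  have hτ2 : ∀ j < τ, Y ≤ ((Tn^[j] n : ℕ) : ℝ) := by
    intro j hj
    rw [hτ] at hj
    exact not_lt.1 (Nat.find_min hend hj)
  have hT := steps_T hc hκ hY hε1 h1 h2 h3 hPW hτ1 hτ2
  have hlt : ∀ j < τ + odn τ n, ∀ a : ℕ, (j = a + odn a n ∨ j = a + odn a n + 1) → a < τ := by
    intro j hj a ha
    by_contra hcon
    have := odn_mono (not_lt.1 hcon) n
    rcases ha with h | h <;> omega
  refine ⟨τ + odn τ n, ?_, ?_, ?_⟩
  · rw [col_time]; exact hτ1
  · intro j hj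
    obtain ⟨m, hm⟩ := col_iter n j
    have hmτ : m < τ := hlt j hj m (by rcases hm with h | h; exacts [Or.inl h.1, Or.inr h.1])
    rcases hm with ⟨_, h2⟩ | ⟨_, _, h2⟩
    · rw [h2]; exact hτ2 m hmτ
    · rw [h2]
      have := hτ2 m hmτ
      push_cast
      have h0 : (0 : ℝ) ≤ ((Tn^[m] n : ℕ) : ℝ) := Nat.cast_nonneg _
      linarith
  · intro j hj
    obtain ⟨a, ha⟩ := col_iter n j
    have haτ : a < τ := hlt j hj a (by rcases ha with h | h; exacts [Or.inl h.1, Or.inr h.1])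
    have hadd := odn_add a (τ - a) n
    rw [Nat.add_sub_cancel' haτ.le] at hadd
    have hTa := hT a haτ
    have hyY := hτ2 a haτ
    obtain ⟨y, hy⟩ : ∃ y, y = Tn^[a] n := ⟨_, rfl⟩
    rw [← hy] at hadd hTa hyY ha
    have hy0 : (0 : ℝ) < y := by linarith
    have hly : 0 ≤ Real.log (y : ℝ) := Real.log_nonneg (by linarith)
    rcases ha with ⟨g1, g2⟩ | ⟨g1, g3, g2⟩
    · rw [g2]
      have h5 : ((τ + odn τ n - j : ℕ) : ℝ) = ((τ - a : ℕ) : ℝ) + odn (τ - a) y := by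
        have : τ + odn τ n - j = (τ - a) + odn (τ - a) y := by omega
        rw [this]; push_cast; ring
      rw [h5]
      refine hTa.trans ?_
      have : (c3 + 1) * Real.log Y ≤ (3 * c3 + 2) * Real.log Y :=
        mul_le_mul_of_nonneg_right (by linarith) (by linarith)
      linarith
    · rw [g2]
      have h5 : ((τ + odn τ n - j : ℕ) : ℝ) = ((τ - a : ℕ) : ℝ) + odn (τ - a) y - 1 := by
        have : τ + odn τ n = (τ - a) + odn (τ - a) y + (a + odn a n) := by omega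
        have h6 : τ + odn τ n - j + 1 = (τ - a) + odn (τ - a) y := by omega
        have h7 : ((τ + odn τ n - j : ℕ) : ℝ) + 1 = ((τ - a : ℕ) : ℝ) + odn (τ - a) y := by exact_mod_cast h6
        linarith
      rw [h5]
      have h6 : Real.log (y : ℝ) ≤ Real.log ((3 * y + 1 : ℕ) : ℝ) := by
        apply Real.log_le_log hy0
        push_cast; linarith
      have h7 : Real.log ((3 * y + 1 : ℕ) : ℝ) ≤ Real.log y + 2 := by
        have h8 : ((3 * y + 1 : ℕ) : ℝ) ≤ 4 * y := by push_cast; linarith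
        have h9 := Real.log_le_log (by positivity) h8
        rw [Real.log_mul (by norm_num) hy0.ne'] at h9
        have h10 : Real.log 4 ≤ 2 := by
          rw [show (4 : ℝ) = 2 ^ 2 by norm_num, Real.log_pow]
          have := Real.log_two_lt_d9
          push_cast; linarith
        linarith
      have h8 := mul_le_mul_of_nonneg_left h6 hc3.le
      have h9 := mul_le_mul_of_nonneg_left h7 hc3.le
      have h10 := mul_le_mul_of_nonneg_left h6 hε0
      obtain ⟨b1, b2⟩ := abs_le.1 hTa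
      have h11 : (1 + 2 * c3) ≤ (1 + 2 * c3) * Real.log Y := by nlinarith
      rw [abs_le]
      constructor
      · nlinarith
      · nlinarith

/-- the number of the steps from all the terms: counting -/
theorem LevC_count {ε : ℝ} (hε0 : 0 < ε) (hε1 : ε ≤ 1) : ∃ δ K : ℝ, 0 < δ ∧ 0 < K ∧ ∀ Y : ℝ, 2 ≤ Y → ∀ N : ℕ,
    (Set.ncard {n : ℕ | 1 ≤ n ∧ n ≤ N ∧ ¬ LevC (3 * c3 + 2) ε Y n} : ℝ) ≤ K * N / (Real.log Y) ^ δ := by
  classical
  have hmu := mu_pos
  have hmu1 := mu_lt_one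
  have hc3 := c3_pos
  have hl3 : 0 < Real.log 3 := Real.log_pos (by norm_num)
  have hl31 := log_three_lt
  obtain ⟨t, ht⟩ : ∃ t, t = ε * mu / (16 * (c3 + 1)) := ⟨_, rfl⟩
  have ht0 : 0 < t := by rw [ht]; positivity
  have ht2 : (c3 + 1) * t = ε * mu / 16 := by
    rw [ht]; field_simp
  have htmu : t ≤ mu / 16 := by
    have : t ≤ (c3 + 1) * t := by nlinarith
    rw [ht2] at this
    nlinarith
  have hc' : (1 : ℝ) / 2 < 1 / 2 + t := by linarith
  have hc1 : 1 / 2 + t < 1 := by linarith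
  obtain ⟨c, hcdef⟩ : ∃ c, c = 1 / 2 + t := ⟨_, rfl⟩
  rw [← hcdef] at hc' hc1
  obtain ⟨κ, hκdef⟩ : ∃ κ, κ = (1 + 1) / rate c := ⟨_, rfl⟩
  have hr' := rate_pos hc'
  have hκ : 0 < κ := by rw [hκdef]; positivity
  obtain ⟨Y₁, K₁, hY₁, hK₁, h1⟩ := count_of_Sc odd_one isCoprime_one_left one_pos le_rfl
    (Sc_BW (d := 1) (by norm_num) hc' hc1 one_pos le_rfl)
  rw [← hκdef] at h1
  obtain ⟨Z₁, hZ₁⟩ := Lrg_ev (d := 1) hκ
  -- large `Y`
  have hlo : ∀ᶠ u : ℝ in atTop, (2 + c3) * (κ * Real.log u) ≤ ε * u := by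
    have h2 := Real.isLittleO_log_id_atTop.bound (show 0 < ε / ((2 + c3) * κ) by positivity)
    filter_upwards [h2, eventually_ge_atTop 1] with u hu hu1
    have h3 : 0 ≤ Real.log u := Real.log_nonneg hu1
    rw [Real.norm_eq_abs, abs_of_nonneg h3, id, Real.norm_eq_abs, abs_of_nonneg (by linarith)] at hu
    calc (2 + c3) * (κ * Real.log u) = ((2 + c3) * κ) * Real.log u := by ring
      _ ≤ ((2 + c3) * κ) * (ε / ((2 + c3) * κ) * u) := mul_le_mul_of_nonneg_left hu (by positivity)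
      _ = ε * u := by field_simp
  obtain ⟨u₀, hu₀⟩ := eventually_atTop.1 hlo
  obtain ⟨V, hV⟩ : ∃ V : ℝ, V = max (max Y₁ Z₁) (max (Real.exp u₀) (1 / t)) := ⟨_, rfl⟩
  have hend : ∀ Y : ℝ, V ≤ Y → ∀ n : ℕ, 1 ≤ n → (n : ℤ) ∉ HY 1 (BW 1 c κ) Y → LevC (3 * c3 + 2) ε Y n := by
    intro Y hY n _ hn
    have a1 : Z₁ ≤ Y := by rw [hV] at hY; exact le_trans (by simp) hY
    have a2 : Real.exp u₀ ≤ Y := by rw [hV] at hY; exact le_trans (by simp) hY
    have a3 : 1 / t ≤ Y := by rw [hV] at hY; exact le_trans (by simp) hY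
    have hL := hZ₁ Y a1
    have hY0 : 0 < Y := by linarith [hL.1]
    have hYt : 1 / Y ≤ t := by
      rw [div_le_iff₀ ht0] at a3
      rw [div_le_iff₀ hY0]; linarith
    have hY1 : 0 < 1 / Y := by positivity
    have hct : c - 1 / 2 = t := by rw [hcdef]; ring
    have hsm : (c - 1 / 2) * Real.log 3 + 1 / Y ≤ 2.1 * t := by
      rw [hct]; nlinarith
    have hcond2 : c * Real.log 3 + |((1 : ℤ) : ℝ)| / Y < Real.log 2 := by
      have e1 : |((1 : ℤ) : ℝ)| = 1 := by norm_num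
      rw [e1]
      have e2 : mu = Real.log 2 - Real.log 3 / 2 := rfl
      have e3 : c * Real.log 3 = (c - 1 / 2) * Real.log 3 + Real.log 3 / 2 := by ring
      rw [e3]
      linarith
    have hPW := PW_of (by norm_num) hκ hL hn
    have hPS := PS_of (κ' := κ) (by norm_num) hκ le_rfl hL hcond2 hPW
    obtain ⟨k, hk⟩ := PS_desc hL hPS
    refine LevC_of hc' hκ hL hε0.le hε1 (by linarith) ?_ ?_ hPW ⟨k, by rw [Tn_castR]; exact hk⟩
    · have e4 : c3 * ((c - 1 / 2) * Real.log 3 + 1 / Y) + (c - 1 / 2) ≤ 2.1 * ((c3 + 1) * t) := by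
        rw [hct] at hsm ⊢
        nlinarith
      rw [ht2] at e4
      calc _ ≤ 2.1 * (ε * mu / 16) * (2 / mu) := mul_le_mul_of_nonneg_right e4 (by positivity)
        _ = 2.1 / 8 * ε := by field_simp; ring
        _ ≤ ε := by linarith
    · intro x hx
      unfold LL
      apply hu₀
      have h5 := Real.log_le_log (Real.exp_pos u₀) (a2.trans hx)
      rwa [Real.log_exp] at h5
  refine ⟨1 / 2, max K₁ ((Real.log V) ^ ((1 : ℝ) / 2)), by norm_num, by positivity, fun Y hY N => ?_⟩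
  have hlog : 0 < Real.log Y := Real.log_pos (by linarith)
  rcases le_or_gt V Y with hc | hc
  · have h2 := (ncard_le (fun n => LevC (3 * c3 + 2) ε Y n) (fun n => n ∉ HY 1 (BW 1 c κ) Y)
      (fun n hn h => hend Y hc n hn h) N)
    simp only [not_not] at h2
    refine h2.trans ((h1 Y (by rw [hV] at hc; exact le_trans (by simp) hc) N).trans ?_)
    apply div_le_div_of_nonneg_right _ (by positivity)
    exact mul_le_mul_of_nonneg_right (le_max_left _ _) (Nat.cast_nonneg N)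
  · have h2 : Set.ncard {n : ℕ | 1 ≤ n ∧ n ≤ N ∧ ¬ LevC (3 * c3 + 2) ε Y n} ≤ N := by
      have h6 : {n : ℕ | 1 ≤ n ∧ n ≤ N ∧ ¬ LevC (3 * c3 + 2) ε Y n} ⊆ ((Finset.Icc 1 N : Finset ℕ) : Set ℕ) := by
        intro n hn
        rw [Finset.mem_coe, Finset.mem_Icc]; exact ⟨hn.1, hn.2.1⟩
      have h7 := Set.ncard_le_ncard h6 (Finset.finite_toSet _)
      rw [Set.ncard_coe_finset, Nat.card_Icc] at h7
      omega
    have h3 : (Set.ncard {n : ℕ | 1 ≤ n ∧ n ≤ N ∧ ¬ LevC (3 * c3 + 2) ε Y n} : ℝ) ≤ N := by exact_mod_cast h2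
    refine h3.trans ?_
    rw [le_div_iff₀ (by positivity), mul_comm]
    apply mul_le_mul_of_nonneg_right _ (Nat.cast_nonneg N)
    refine le_trans ?_ (le_max_right _ _)
    exact Real.rpow_le_rpow hlog.le (Real.log_le_log (by linarith) hc.le) (by norm_num)

/-- From the counts for all `Y` to density one. -/
theorem density_imp {P : ℕ → Prop} {D : ℝ → ℕ → Prop} {η K : ℝ} (hη : 0 < η) (h : ∀ Y : ℝ, 2 ≤ Y → ∀ N : ℕ,
      (Set.ncard {n : ℕ | 1 ≤ n ∧ n ≤ N ∧ ¬ D Y n} : ℝ) ≤ K * N / (Real.log Y) ^ η)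
    (himp : ∀ Y : ℝ, 2 ≤ Y → ∃ n₀ : ℕ, ∀ n : ℕ, n₀ ≤ n → D Y n → P n) :
    Tendsto (fun N : ℕ => (Set.ncard {n : ℕ | 1 ≤ n ∧ n ≤ N ∧ P n} : ℝ) / N) atTop (𝓝 1) := by
  classical
  rw [Metric.tendsto_atTop]
  intro ε hε
  obtain ⟨y, hy2, hyε⟩ : ∃ y : ℝ, 2 ≤ y ∧ K / (Real.log y) ^ η < ε / 2 := by
    have h1 : Tendsto (fun y : ℝ => K / (Real.log y) ^ η) atTop (𝓝 0) :=
      tendsto_const_nhds.div_atTop ((tendsto_rpow_atTop hη).comp Real.tendsto_log_atTop)
    obtain ⟨y, hy1, hy2⟩ := ((eventually_ge_atTop (2 : ℝ)).and (h1.eventually (gt_mem_nhds (half_pos hε)))).exists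
    exact ⟨y, hy1, hy2⟩
  obtain ⟨n0, hn0⟩ := himp y hy2
  obtain ⟨N0, hN0⟩ := exists_nat_gt (2 * n0 / ε)
  refine ⟨N0 + 1, fun N hN => ?_⟩
  have hNpos : 0 < N := by omega
  have hNR : (0 : ℝ) < N := by exact_mod_cast hNpos
  have hset : ∀ (P : ℕ → Prop) [DecidablePred P], {n : ℕ | 1 ≤ n ∧ n ≤ N ∧ P n} = (((Icc 1 N).filter P : Finset ℕ) : Set ℕ) := by
    intro P _
    ext n
    rw [Finset.coe_filter]
    simp only [Set.mem_ofPred_eq, Finset.mem_Icc]
    tauto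
  have hb := h y hy2 N
  rw [hset (fun n => ¬ D y n), Set.ncard_coe_finset] at hb
  rw [hset P, Set.ncard_coe_finset]
  have hsub : Icc 1 N ⊆ (Icc 1 N).filter P ∪ ((Icc 1 N).filter (fun n : ℕ => ¬ D y n) ∪ range n0) := by
    intro n hn
    rw [mem_union, mem_union, mem_filter, mem_filter, mem_range]
    by_cases h1 : n < n0
    · exact Or.inr (Or.inr h1)
    · by_cases h2 : D y n
      · exact Or.inl ⟨hn, hn0 n (by omega) h2⟩
      · exact Or.inr (Or.inl ⟨hn, h2⟩)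
  have h1 : N ≤ ((Icc 1 N).filter P).card + (((Icc 1 N).filter (fun n : ℕ => ¬ D y n)).card + n0) := by
    have h2 := (card_le_card hsub).trans ((card_union_le _ _).trans (Nat.add_le_add_left (card_union_le _ _) _))
    rw [Nat.card_Icc, card_range] at h2
    omega
  have hup : ((Icc 1 N).filter P).card ≤ N := by
    refine (card_filter_le _ _).trans ?_
    rw [Nat.card_Icc]; omega
  have hn0N : (n0 : ℝ) / N < ε / 2 := by
    have h1 : (N0 : ℝ) < N := by exact_mod_cast (by omega : N0 < N)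
    have h2 : 2 * (n0 : ℝ) / ε < N := by linarith
    rw [div_lt_iff₀ hε] at h2
    rw [div_lt_div_iff₀ hNR (by norm_num)]
    linarith
  have hupR : (((Icc 1 N).filter P).card : ℝ) ≤ N := by exact_mod_cast hup
  have hloR : (N : ℝ) ≤ (((Icc 1 N).filter P).card : ℝ) +
      ((((Icc 1 N).filter (fun n : ℕ => ¬ D y n)).card : ℝ) + n0) := by exact_mod_cast h1
  rw [Real.dist_eq, abs_lt]
  constructor
  · have h3 : (1 : ℝ) - (((Icc 1 N).filter P).card : ℝ) / N ≤
        (((Icc 1 N).filter (fun n : ℕ => ¬ D y n)).card : ℝ) / N + n0 / N := by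
      rw [← add_div, one_sub_div hNR.ne']
      apply div_le_div_of_nonneg_right _ hNR.le
      linarith
    have h2 : (((Icc 1 N).filter (fun n : ℕ => ¬ D y n)).card : ℝ) / N ≤ K / (Real.log y) ^ η := by
      rw [div_le_iff₀ hNR]
      have e : K * N / (Real.log y) ^ η = K / (Real.log y) ^ η * N := by ring
      rwa [e] at hb
    linarith
  · have h3 : (((Icc 1 N).filter P).card : ℝ) / N ≤ 1 := by
      rw [div_le_one hNR]; exact hupR
    linarith

/-- the trajectories of the integers `y < Y` which reach `1` are bounded, and so are their times -/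
theorem small_bound (Y : ℝ) : ∃ B : ℕ, ∀ y : ℕ, (y : ℝ) < Y → (∃ l, col^[l] y = 1) →
    (∀ j, col^[j] y ≤ B) ∧ ∃ l ≤ B, col^[l] y = 1 ∧ ∀ j < l, col^[j] y ≠ 1 := by
  classical
  have hone : ∀ j : ℕ, col^[j] 1 ≤ 4 ∧ 1 ≤ col^[j] 1 ∧ col^[j] 1 ≠ 3 := by
    intro j
    induction j with
    | zero => simp
    | succ j ih =>
      rw [Function.iterate_succ_apply']
      have h1 : col^[j] 1 = 1 ∨ col^[j] 1 = 2 ∨ col^[j] 1 = 4 := by omega
      rcases h1 with h | h | h <;> rw [h] <;> decide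
  have hy : ∀ y : ℕ, ∃ B : ℕ, (∃ l, col^[l] y = 1) →
      (∀ j, col^[j] y ≤ B) ∧ ∃ l ≤ B, col^[l] y = 1 ∧ ∀ j < l, col^[j] y ≠ 1 := by
    intro y
    by_cases h : ∃ l, col^[l] y = 1
    · obtain ⟨l, hl⟩ : ∃ l, l = Nat.find h := ⟨_, rfl⟩
      have hl1 : col^[l] y = 1 := by rw [hl]; exact Nat.find_spec h
      have hl2 : ∀ j < l, col^[j] y ≠ 1 := by
        intro j hj
        rw [hl] at hj
        exact Nat.find_min h hj
      refine ⟨((range (l + 1)).sup fun j => col^[j] y) + 4 + l, fun _ => ⟨fun j => ?_, l, by omega, hl1, hl2⟩⟩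
      rcases lt_or_ge j (l + 1) with h3 | h3
      · have h4 : col^[j] y ≤ (range (l + 1)).sup fun j => col^[j] y :=
          Finset.le_sup (f := fun j => col^[j] y) (mem_range.2 h3)
        omega
      · obtain ⟨t, rfl⟩ : ∃ t, j = t + l := ⟨j - l, by omega⟩
        rw [Function.iterate_add_apply, hl1]
        have := (hone t).1
        omega
    · exact ⟨0, fun h' => absurd h' h⟩
  choose f hf using hy
  refine ⟨(range ⌈Y⌉₊).sup f, fun y hyY h => ?_⟩
  have h1 : y ∈ range ⌈Y⌉₊ := by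
    rw [mem_range]
    exact Nat.lt_ceil.2 hyY
  have h2 := Finset.le_sup (f := f) h1
  obtain ⟨h3, l, h4, h5⟩ := hf y h
  exact ⟨fun j => (h3 j).trans h2, l, h4.trans h2, h5⟩

end Run7.h702.BC
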