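import Pool.Agent.Run7.h702.BC.M
import Pool.Agent.R105.CZ.Signs

/-! The Borel-Cantelli lemma for the `3x+d` maps on all the integers. -/

set_option autoImplicit false

namespace Run7.h702.BC

open Finset Filter Topology
open Pool.Agent.H499R2.CO (Tz)
open Pool.Agent.R344.SP Pool.Agent.R344.TH
open Run7.h702.AT

/-- For large `X` the elements `x` of `A` with `√X ≤ |x| ≤ X` lie in at most `D M / (log X) ^ s` residue classes modulo
some `M ≤ √X` prime to `3`. -/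
def SmallZ (s : ℝ) (A : Set ℤ) : Prop :=
  ∃ D X₀ : ℝ, ∀ X : ℝ, X₀ ≤ X → ∃ M : ℕ, 0 < M ∧ Nat.Coprime M 3 ∧ (M : ℝ) ≤ Real.sqrt X ∧
    ∃ R : Finset ℤ, (R.card : ℝ) ≤ D * M / (Real.log X) ^ s ∧
      ∀ x ∈ A, Real.sqrt X ≤ |(x : ℝ)| → |(x : ℝ)| ≤ X → ∃ r ∈ R, x ≡ r [ZMOD M]

theorem class_card {M : ℕ} (hM : 0 < M) (R : Finset ℤ) [DecidablePred fun t : ℕ => ∃ r ∈ R, (t : ℤ) ≡ r [ZMOD M]] :
    ((range M).filter (fun t : ℕ => ∃ r ∈ R, (t : ℤ) ≡ r [ZMOD M])).card ≤ R.card := by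
  have hMZ : (0 : ℤ) < M := by exact_mod_cast hM
  have : (range M).filter (fun t : ℕ => ∃ r ∈ R, (t : ℤ) ≡ r [ZMOD M]) ⊆ R.image (fun r : ℤ => (r % (M : ℤ)).toNat) := by
    intro t ht
    rw [mem_filter, mem_range] at ht
    obtain ⟨h1, r, hr, h2⟩ := ht
    rw [mem_image]
    refine ⟨r, hr, ?_⟩
    unfold Int.ModEq at h2
    have h3 : ((t : ℤ)) % M = t := Int.emod_eq_of_lt (by positivity) (by exact_mod_cast h1)
    rw [← h2, h3, Int.toNat_natCast]
  exact (card_le_card this).trans card_image_le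

theorem sqrt_eq {X : ℝ} (hX : 0 < X) : Real.sqrt X = Real.exp (Real.log X / 2) := by
  rw [Real.sqrt_eq_rpow, Real.rpow_def_of_pos hX]
  congr 1
  ring

theorem Sc_of_Small {s : ℝ} (hs : 1 < s) {A : Set ℤ} (hA : SmallZ s A) :
    ∃ l₀ D : ℝ, 0 ≤ D ∧ ∀ X : ℝ, 0 < X → l₀ ≤ Real.log X → Sc A D (min (s - 1) 1) X := by
  classical
  obtain ⟨D, X₀, h⟩ := hA
  refine ⟨max (Real.log (max X₀ 1)) 1, max D 0, le_max_right _ _, fun X hX hl => ?_⟩
  have hl1 : 1 ≤ Real.log X := (le_max_right _ _).trans hl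
  have hXX : X₀ ≤ X := by
    have h1 : Real.log (max X₀ 1) ≤ Real.log X := (le_max_left _ _).trans hl
    have h2 : max X₀ 1 ≤ X := (Real.log_le_log_iff (by positivity) hX).1 h1
    exact (le_max_left _ _).trans h2
  obtain ⟨M, hM, hM3, hMX, R, hR, hx⟩ := h X hXX
  refine ⟨M, hM, ?_, ?_, fun x => ∃ r ∈ R, x ≡ r [ZMOD M], ?_, ?_, ?_⟩
  · exact_mod_cast Nat.isCoprime_iff_coprime.2 hM3
  · rwa [← sqrt_eq hX]
  · intro x m
    constructor
    · rintro ⟨r, hr, h1⟩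
      refine ⟨r, hr, ?_⟩
      have h2 : x + m * M ≡ x [ZMOD M] := by
        unfold Int.ModEq
        rw [Int.add_mul_emod_self_right]
      exact h2.symm.trans h1
    · rintro ⟨r, hr, h1⟩
      refine ⟨r, hr, ?_⟩
      have h2 : x + m * M ≡ x [ZMOD M] := by
        unfold Int.ModEq
        rw [Int.add_mul_emod_self_right]
      exact h2.trans h1
  · refine le_trans (b := (R.card : ℝ)) (Nat.cast_le.2
      (@class_card M hM R (fun _ => Classical.propDecidable _))) (hR.trans ?_)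
    have hMR : (0 : ℝ) < M := by exact_mod_cast hM
    have h2 : D * M ≤ max D 0 * M := mul_le_mul_of_nonneg_right (le_max_left _ _) hMR.le
    have h3 : (Real.log X) ^ (1 + min (s - 1) 1) ≤ (Real.log X) ^ s := by
      apply Real.rpow_le_rpow_of_exponent_le hl1
      have := min_le_left (s - 1) 1
      linarith
    have h4 : 0 ≤ max D 0 * M := by positivity
    calc D * M / (Real.log X) ^ s ≤ max D 0 * M / (Real.log X) ^ s := div_le_div_of_nonneg_right h2 (by positivity)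
      _ ≤ _ := div_le_div_of_nonneg_left h4 (by positivity) h3
  · intro x hxA h1 h2
    have hx0 : (0 : ℝ) < x := lt_of_lt_of_le (Real.exp_pos _) h1
    have e : |(x : ℝ)| = x := abs_of_pos hx0
    refine hx x hxA ?_ ?_
    · rw [e, sqrt_eq hX]; exact h1
    · rw [e]; exact h2

theorem SmallZ.neg {s : ℝ} {A : Set ℤ} (hA : SmallZ s A) : SmallZ s ((fun a => -a) ⁻¹' A) := by
  classical
  obtain ⟨D, X₀, h⟩ := hA
  refine ⟨D, X₀, fun X hX => ?_⟩
  obtain ⟨M, hM, hM3, hMX, R, hR, hx⟩ := h X hX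
  refine ⟨M, hM, hM3, hMX, R.image (fun r => -r), ?_, ?_⟩
  · rw [card_image_of_injective _ neg_injective]
    exact hR
  · intro x hxA h1 h2
    have e : |((-x : ℤ) : ℝ)| = |(x : ℝ)| := by push_cast; rw [abs_neg]
    obtain ⟨r, hr, h3⟩ := hx (-x) hxA (by rw [e]; exact h1) (by rw [e]; exact h2)
    refine ⟨-r, mem_image_of_mem _ hr, ?_⟩
    have := h3.neg
    rwa [neg_neg] at this

/-- The orbit of `x` has a term of absolute value smaller than `Y`, and no term before the first such term is in `A`. -/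
def AvZ (d : ℤ) (A : Set ℤ) (Y : ℝ) (x : ℤ) : Prop :=
  ∃ k : ℕ, |(((Tz d)^[k] x : ℤ) : ℝ)| < Y ∧ ∀ j < k, Y ≤ |(((Tz d)^[j] x : ℤ) : ℝ)| ∧ (Tz d)^[j] x ∉ A

theorem Tz_pos' {d x : ℤ} (hx : 0 < x) (hdx : |d| ≤ x) : 0 < Tz d x := by
  unfold Tz
  have := neg_abs_le d
  split_ifs <;> omega

open scoped Classical in
theorem bc_pos {d : ℤ} (hd : Odd d) (hd3 : IsCoprime d 3) {s : ℝ} (hs : 1 < s) {A : Set ℤ} (hA : SmallZ s A) :
    ∃ η K : ℝ, 0 < η ∧ 0 < K ∧ ∀ Y : ℝ, 2 ≤ Y → ∀ N : ℕ,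
      (((Icc (1 : ℤ) N).filter (fun n => ¬ AvZ d A Y n)).card : ℝ) ≤ K * N / (Real.log Y) ^ η := by
  have hε0 : 0 < min (s - 1) 1 := by
    rw [lt_min_iff]; exact ⟨by linarith, one_pos⟩
  obtain ⟨Y₁, K₁, hY₁, hK₁, h1⟩ := count_of_Sc hd hd3 hε0 (min_le_right _ _) (Sc_of_Small hs hA)
  obtain ⟨η₂, K₂, hη₂, hK₂, h2⟩ := Typ_count hd hd3 (c := 3 / 4) (by norm_num) (by norm_num) one_pos le_rfl
  obtain ⟨η, hη⟩ : ∃ η, η = min (min (s - 1) 1 / 2) η₂ := ⟨_, rfl⟩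
  have hη0 : 0 < η := by rw [hη]; positivity
  refine ⟨η, ?_⟩
  have hcount : ∃ K : ℝ, 0 < K ∧ ∀ Y : ℝ, 2 ≤ Y → ∀ N : ℕ,
      (((Icc (1 : ℤ) N).filter (fun n => ¬ AvZ d A Y n)).card : ℝ) ≤ K * N / (Real.log Y) ^ η := by
    refine count_all hη0 (Y₁ := max (max Y₁ (|(d : ℝ)| + 1)) 3) (K := K₁ + K₂) (by positivity) ?_
    intro Y hY N
    have a1 : Y₁ ≤ Y := (le_max_left _ _).trans ((le_max_left _ _).trans hY)
    have a2 : |(d : ℝ)| + 1 ≤ Y := (le_max_right _ _).trans ((le_max_left _ _).trans hY)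
    have a3 : (3 : ℝ) ≤ Y := (le_max_right _ _).trans hY
    have hlog1 : 1 ≤ Real.log Y := by
      rw [Real.le_log_iff_exp_le (by linarith)]
      have := Real.exp_one_lt_d9
      linarith
    have hsub : (Icc (1 : ℤ) N).filter (fun n => ¬ AvZ d A Y n) ⊆
        (Icc (1 : ℤ) N).filter (fun n => n ∈ HY d A Y) ∪ (Icc (1 : ℤ) N).filter (fun n => ¬ Typ d (3 / 4) 1 Y n) := by
      intro n hn
      rw [mem_filter] at hn
      rw [mem_union, mem_filter, mem_filter]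
      by_contra hcon
      push Not at hcon
      obtain ⟨c1, c2⟩ := hcon
      apply hn.2
      obtain ⟨τ, t1, t2, _⟩ := c2 hn.1
      have hH := c1 hn.1
      have hpos : 0 < (Tz d)^[τ] n := by
        rcases Nat.eq_zero_or_pos τ with h0 | h0
        · subst h0
          have := (Finset.mem_Icc.1 hn.1).1
          rw [Function.iterate_zero, id]
          omega
        · obtain ⟨t, rfl⟩ : ∃ t, τ = t + 1 := ⟨τ - 1, by omega⟩
          have h3 := t2 t (by omega)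
          rw [Function.iterate_succ_apply']
          have h4 : (0 : ℝ) < (((Tz d)^[t] n : ℤ) : ℝ) := by linarith
          apply Tz_pos' (by exact_mod_cast h4)
          have h5 : ((|d| : ℤ) : ℝ) ≤ (((Tz d)^[t] n : ℤ) : ℝ) := by
            rw [Int.cast_abs]; linarith
          exact_mod_cast h5
      have hposR : (0 : ℝ) < (((Tz d)^[τ] n : ℤ) : ℝ) := by exact_mod_cast hpos
      refine ⟨τ, ?_, fun j hj => ⟨?_, fun hjA => hH ⟨j, hjA, fun i hi => t2 i (by omega)⟩⟩⟩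
      · rw [abs_of_pos hposR]; exact t1
      · exact (t2 j hj).trans (le_abs_self _)
    have h3 := h1 Y a1 N
    have h4 := h2 Y (by linarith) N
    have h5 : (((Icc (1 : ℤ) N).filter (fun n => ¬ AvZ d A Y n)).card : ℝ) ≤
        (((Icc (1 : ℤ) N).filter (fun n => n ∈ HY d A Y)).card : ℝ) +
        (((Icc (1 : ℤ) N).filter (fun n => ¬ Typ d (3 / 4) 1 Y n)).card : ℝ) := by
      exact_mod_cast (card_le_card hsub).trans (card_union_le _ _)
    have hpow : ∀ t : ℝ, η ≤ t → (Real.log Y) ^ η ≤ (Real.log Y) ^ t := fun t ht =>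
      Real.rpow_le_rpow_of_exponent_le hlog1 ht
    have hK : ∀ K t : ℝ, 0 < K → η ≤ t → K * N / (Real.log Y) ^ t ≤ K * N / (Real.log Y) ^ η := by
      intro K t hK ht
      exact div_le_div_of_nonneg_left (by positivity) (by positivity) (hpow t ht)
    have h6 := hK K₁ (min (s - 1) 1 / 2) hK₁ (by rw [hη]; exact min_le_left _ _)
    have h7 := hK K₂ η₂ hK₂ (by rw [hη]; exact min_le_right _ _)
    have e : (K₁ + K₂) * N / (Real.log Y) ^ η = K₁ * N / (Real.log Y) ^ η + K₂ * N / (Real.log Y) ^ η := by ring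
    rw [e]
    linarith
  obtain ⟨K, hK, h⟩ := hcount
  exact ⟨K, hη0, hK, h⟩

open scoped Classical in
/-- from the two half lines to the line -/
theorem two_sides {P : ℤ → Prop} {N : ℕ} {a b : ℝ}
    (h1 : (((Icc (1 : ℤ) N).filter (fun n => ¬ P n)).card : ℝ) ≤ a)
    (h2 : (((Icc (1 : ℤ) N).filter (fun n => ¬ P (-n))).card : ℝ) ≤ b) (h0 : P 0) :
    (Set.ncard {x : ℤ | |x| ≤ N ∧ ¬ P x} : ℝ) ≤ a + b := by
  have hsub : {x : ℤ | |x| ≤ N ∧ ¬ P x} ⊆ ((((Icc (1 : ℤ) N).filter (fun n => ¬ P n)) ∪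
      ((Icc (1 : ℤ) N).filter (fun n => ¬ P (-n))).image (fun n => -n) : Finset ℤ) : Set ℤ) := by
    rintro x ⟨hx, hP⟩
    rw [mem_coe, mem_union, mem_image]
    rw [abs_le] at hx
    rcases lt_trichotomy x 0 with h | h | h
    · right
      refine ⟨-x, ?_, neg_neg x⟩
      rw [mem_filter, Finset.mem_Icc, neg_neg]
      exact ⟨⟨by omega, by omega⟩, hP⟩
    · subst h; exact absurd h0 hP
    · left
      rw [mem_filter, Finset.mem_Icc]
      exact ⟨⟨by omega, hx.2⟩, hP⟩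
  have h3 := Set.ncard_le_ncard hsub (Finset.finite_toSet _)
  rw [Set.ncard_coe_finset] at h3
  have h4 := h3.trans ((card_union_le _ _).trans (Nat.add_le_add_left card_image_le _))
  have h5 : (Set.ncard {x : ℤ | |x| ≤ N ∧ ¬ P x} : ℝ) ≤
      (((Icc (1 : ℤ) N).filter (fun n => ¬ P n)).card : ℝ) +
      (((Icc (1 : ℤ) N).filter (fun n => ¬ P (-n))).card : ℝ) := by exact_mod_cast h4
  linarith

theorem AvZ_neg {d : ℤ} (hd : d % 2 = 1) {A : Set ℤ} {Y : ℝ} {x : ℤ} (h : AvZ (-d) ((fun a => -a) ⁻¹' A) Y x) :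
    AvZ d A Y (-x) := by
  obtain ⟨k, h1, h2⟩ := h
  have e : ∀ j, |(((Tz d)^[j] (-x) : ℤ) : ℝ)| = |(((Tz (-d))^[j] x : ℤ) : ℝ)| := by
    intro j
    rw [Pool.Agent.R105.CZ.iter_neg hd]
    push_cast
    rw [abs_neg]
  refine ⟨k, by rw [e]; exact h1, fun j hj => ⟨by rw [e]; exact (h2 j hj).1, ?_⟩⟩
  rw [Pool.Agent.R105.CZ.iter_neg hd]
  exact (h2 j hj).2

/-- **The Borel-Cantelli lemma for the `3x+d` map on the integers.** -/
theorem bc_both {d : ℤ} (hd : Odd d) (hd3 : IsCoprime d 3) {s : ℝ} (hs : 1 < s) {A : Set ℤ} (hA : SmallZ s A) :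
    ∃ η K : ℝ, 0 < η ∧ 0 < K ∧ ∀ Y : ℝ, 2 ≤ Y → ∀ N : ℕ,
      (Set.ncard {x : ℤ | |x| ≤ N ∧ ¬ AvZ d A Y x} : ℝ) ≤ K * N / (Real.log Y) ^ η := by
  classical
  obtain ⟨η₁, K₁, hη₁, hK₁, h1⟩ := bc_pos hd hd3 hs hA
  obtain ⟨η₂, K₂, hη₂, hK₂, h2⟩ := bc_pos hd.neg (Pool.Agent.R105.CZ.cop_neg hd3) hs hA.neg
  -- one exponent
  obtain ⟨η, hη⟩ : ∃ η, η = min η₁ η₂ := ⟨_, rfl⟩
  have hη0 : 0 < η := by rw [hη]; positivity
  refine ⟨η, (K₁ + K₂) * 2 ^ (max η₁ η₂), hη0, by positivity, fun Y hY N => ?_⟩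
  have h3 := two_sides (P := fun x => AvZ d A Y x) (h1 Y hY N) (by
    refine le_trans ?_ (h2 Y hY N)
    have : (Icc (1 : ℤ) N).filter (fun n => ¬ AvZ d A Y (-n)) ⊆
        (Icc (1 : ℤ) N).filter (fun n => ¬ AvZ (-d) ((fun a => -a) ⁻¹' A) Y n) := by
      intro n hn
      rw [mem_filter] at hn ⊢
      exact ⟨hn.1, fun h => hn.2 (AvZ_neg (Int.odd_iff.1 hd) h)⟩
    exact_mod_cast card_le_card this) ⟨0, by
      rw [Function.iterate_zero, id]; push_cast; rw [abs_zero]; linarith, fun j hj => absurd hj (Nat.not_lt_zero _)⟩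
  have hlog : Real.log 2 ≤ Real.log Y := Real.log_le_log (by norm_num) hY
  have hlog2 : 1 / 2 < Real.log 2 := by have := Real.log_two_gt_d9; linarith
  have hl0 : 0 < Real.log Y := by linarith
  have hexp : ∀ s : ℝ, η ≤ s → s ≤ max η₁ η₂ →
      1 / (Real.log Y) ^ s ≤ 2 ^ (max η₁ η₂) / (Real.log Y) ^ η := by
    intro s hs1 hs2
    have hs0 : 0 < s := lt_of_lt_of_le hη0 hs1
    rw [div_le_div_iff₀ (by positivity) (by positivity), one_mul]
    have e1 : (1 : ℝ) ≤ (2 * Real.log Y) ^ (s - η) := Real.one_le_rpow (by linarith) (by linarith)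
    have e2 : (2 * Real.log Y) ^ (s - η) = 2 ^ (s - η) * (Real.log Y) ^ (s - η) :=
      Real.mul_rpow (by norm_num) hl0.le
    have e3 : (2 : ℝ) ^ (s - η) ≤ 2 ^ (max η₁ η₂) :=
      Real.rpow_le_rpow_of_exponent_le (by norm_num) (by linarith)
    have e4 : (Real.log Y) ^ s = (Real.log Y) ^ η * (Real.log Y) ^ (s - η) := by
      rw [← Real.rpow_add hl0]; congr 1; ring
    rw [e4]
    rw [e2] at e1
    have e5 : 0 < (Real.log Y) ^ (s - η) := by positivity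
    have e6 : 0 < (Real.log Y) ^ η := by positivity
    calc (Real.log Y) ^ η = (Real.log Y) ^ η * 1 := (mul_one _).symm
      _ ≤ (Real.log Y) ^ η * (2 ^ (s - η) * (Real.log Y) ^ (s - η)) := mul_le_mul_of_nonneg_left e1 e6.le
      _ ≤ (Real.log Y) ^ η * (2 ^ (max η₁ η₂) * (Real.log Y) ^ (s - η)) := by
          apply mul_le_mul_of_nonneg_left _ e6.le
          exact mul_le_mul_of_nonneg_right e3 e5.le
      _ = _ := by ring
  have h6 : K₁ * N / (Real.log Y) ^ η₁ ≤ K₁ * N * (2 ^ (max η₁ η₂) / (Real.log Y) ^ η) := by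
    have := mul_le_mul_of_nonneg_left (hexp η₁ (by rw [hη]; exact min_le_left _ _) (le_max_left _ _))
      (show 0 ≤ K₁ * N by positivity)
    rwa [mul_one_div] at this
  have h7 : K₂ * N / (Real.log Y) ^ η₂ ≤ K₂ * N * (2 ^ (max η₁ η₂) / (Real.log Y) ^ η) := by
    have := mul_le_mul_of_nonneg_left (hexp η₂ (by rw [hη]; exact min_le_right _ _) (le_max_right _ _))
      (show 0 ≤ K₂ * N by positivity)
    rwa [mul_one_div] at this
  calc _ ≤ K₁ * N * (2 ^ (max η₁ η₂) / (Real.log Y) ^ η) + K₂ * N * (2 ^ (max η₁ η₂) / (Real.log Y) ^ η) := by linarith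
    _ = _ := by ring

theorem AvZ.mono {d : ℤ} {A : Set ℤ} {Y Y' : ℝ} {x : ℤ} (hY : Y ≤ Y') (h : AvZ d A Y x) : AvZ d A Y' x := by
  classical
  obtain ⟨k, h1, h2⟩ := h
  have hex : ∃ k : ℕ, |(((Tz d)^[k] x : ℤ) : ℝ)| < Y' := ⟨k, lt_of_lt_of_le h1 hY⟩
  have hle : Nat.find hex ≤ k := Nat.find_min' hex (lt_of_lt_of_le h1 hY)
  exact ⟨Nat.find hex, Nat.find_spec hex, fun j hj => ⟨not_lt.1 (Nat.find_min hex hj), (h2 j (by omega)).2⟩⟩

/-- from all `Y` to density one, on the integers -/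
theorem densityZ {D : ℝ → ℤ → Prop} (hmono : ∀ Y Y' : ℝ, ∀ n : ℤ, Y ≤ Y' → D Y n → D Y' n) {η K : ℝ} (hη : 0 < η)
    (h : ∀ Y : ℝ, 2 ≤ Y → ∀ N : ℕ,
      (Set.ncard {n : ℤ | |n| ≤ N ∧ ¬ D Y n} : ℝ) ≤ K * N / (Real.log Y) ^ η)
    (f : ℕ → ℝ) (hf : Tendsto f atTop atTop) :
    Tendsto (fun N : ℕ => (Set.ncard {n : ℤ | |n| ≤ N ∧ ¬ D (f n.natAbs) n} : ℝ) / N) atTop (𝓝 0) := by
  classical
  rw [Metric.tendsto_atTop]
  intro ε hε
  obtain ⟨y, hy2, hyε⟩ : ∃ y : ℝ, 2 ≤ y ∧ K / (Real.log y) ^ η < ε / 2 := by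
    have h1 : Tendsto (fun y : ℝ => K / (Real.log y) ^ η) atTop (𝓝 0) :=
      tendsto_const_nhds.div_atTop ((tendsto_rpow_atTop hη).comp Real.tendsto_log_atTop)
    obtain ⟨y, hy1, hy2⟩ := ((eventually_ge_atTop (2 : ℝ)).and (h1.eventually (gt_mem_nhds (half_pos hε)))).exists
    exact ⟨y, hy1, hy2⟩
  obtain ⟨n0, hn0⟩ := Filter.tendsto_atTop_atTop.1 hf y
  obtain ⟨N0, hN0⟩ := exists_nat_gt (2 * (2 * (n0 : ℝ) + 1) / ε)
  refine ⟨N0 + 1, fun N hN => ?_⟩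
  have hNR : (0 : ℝ) < N := by exact_mod_cast (by omega : 0 < N)
  have hN0R : (N0 : ℝ) < N := by exact_mod_cast (by omega : N0 < N)
  have hfin : ∀ P : ℤ → Prop, {n : ℤ | |n| ≤ N ∧ P n}.Finite := by
    intro P
    apply (Set.finite_Icc (-(N : ℤ)) N).subset
    rintro x ⟨hx, _⟩
    rw [abs_le] at hx
    exact hx
  have hsub : {n : ℤ | |n| ≤ N ∧ ¬ D (f n.natAbs) n} ⊆
      ((Finset.Icc (-(n0 : ℤ)) n0 : Finset ℤ) : Set ℤ) ∪ {n : ℤ | |n| ≤ N ∧ ¬ D y n} := by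
    rintro n ⟨h1, h2⟩
    by_cases h3 : n.natAbs < n0
    · left
      rw [Finset.mem_coe, Finset.mem_Icc]
      omega
    · right
      exact ⟨h1, fun h4 => h2 (hmono y _ n (hn0 _ (by omega)) h4)⟩
  have h1 := (Set.ncard_le_ncard hsub ((Finset.finite_toSet _).union (hfin _))).trans (Set.ncard_union_le _ _)
  rw [Set.ncard_coe_finset, Int.card_Icc] at h1
  have h2 : ((n0 : ℤ) + 1 - -(n0 : ℤ)).toNat = 2 * n0 + 1 := by omega
  rw [h2] at h1
  have h3 : (Set.ncard {n : ℤ | |n| ≤ N ∧ ¬ D (f n.natAbs) n} : ℝ) ≤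
      (2 * n0 + 1) + (Set.ncard {n : ℤ | |n| ≤ N ∧ ¬ D y n} : ℝ) := by exact_mod_cast h1
  have h4 := h y hy2 N
  rw [Real.dist_eq, sub_zero, abs_of_nonneg (by positivity), div_lt_iff₀ hNR]
  rw [div_lt_iff₀ hε] at hN0
  have h5 : K * N / (Real.log y) ^ η = K / (Real.log y) ^ η * N := by ring
  rw [h5] at h4
  have h6 : K / (Real.log y) ^ η * N < ε / 2 * N := mul_lt_mul_of_pos_right hyε hNR
  have h7 : (2 * (n0 : ℝ) + 1) < ε / 2 * N := by nlinarith
  linarith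

/-- A term `T^i x` is congruent to `α m` modulo `2 ^ m`, `m ≥ (1 - ε) log₂ log |T^i x|`, and all the terms up to it have an
absolute value of at least `√|x|`. -/
def HitZ (d : ℤ) (ε : ℝ) (α : ℕ → ℤ) (x : ℤ) : Prop :=
  ∃ i m : ℕ, (1 - ε) * (Real.log (Real.log |(((Tz d)^[i] x : ℤ) : ℝ)|) / Real.log 2) ≤ m ∧
    (2 : ℤ) ^ m ∣ (Tz d)^[i] x - α m ∧ ∀ j ≤ i, Real.sqrt |(x : ℝ)| ≤ |(((Tz d)^[j] x : ℤ) : ℝ)|

open scoped Classical in
theorem hit_pos {d : ℤ} (hd : d % 2 = 1) {ε : ℝ} (hε0 : 0 < ε) (hε : ε < 1) (α : ℕ → ℤ) :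
    ∃ K : ℝ, 0 < K ∧ ∀ N : ℕ, 1 ≤ N →
      (((Icc (1 : ℤ) N).filter (fun n => ¬ HitZ d ε α n)).card : ℝ) ≤ K * N * Real.exp (-(Real.log N) ^ (ε / 8)) := by
  have hl2 : 0 < Real.log 2 := Real.log_pos (by norm_num)
  obtain ⟨K, hK, h⟩ := sharp_gen hd (ρ := Real.log 2) hl2 hε0 hε
    (S := fun m x => (2 : ℤ) ^ m ∣ x - α m) (fun m x y => by
      have e : x + y * 2 ^ m - α m = x - α m + y * 2 ^ m := by ring
      rw [e]
      exact Int.dvd_add_left (dvd_mul_left _ _)) (m₀ := 0) (fun m _ => by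
      have h1 : Real.exp (-(Real.log 2 * (1 + ε / 4) * m)) * 2 ^ m ≤ 1 := by
        have e1 : (2 : ℝ) ^ m = Real.exp (Real.log 2 * m) := by
          rw [mul_comm, ← Real.log_pow, Real.exp_log (by positivity)]
        rw [e1, ← Real.exp_add]
        apply Real.exp_le_one_iff.2
        have hm : (0 : ℝ) ≤ m := Nat.cast_nonneg m
        have : 0 ≤ Real.log 2 * (ε / 4) * m := by positivity
        linarith
      refine h1.trans ?_
      have h2 : 1 ≤ ((range (2 ^ m)).filter (fun r : ℕ => (2 : ℤ) ^ m ∣ (r : ℤ) - α m)).card := by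
        rw [Nat.one_le_iff_ne_zero, card_ne_zero]
        have hp : (0 : ℤ) < 2 ^ m := by positivity
        have h3 := Int.emod_nonneg (α m) hp.ne'
        have h4 := Int.emod_lt_of_pos (α m) hp
        refine ⟨(α m % 2 ^ m).toNat, ?_⟩
        rw [mem_filter, mem_range, Int.toNat_of_nonneg h3]
        constructor
        · have : (((α m % 2 ^ m).toNat : ℕ) : ℤ) < ((2 ^ m : ℕ) : ℤ) := by
            rw [Int.toNat_of_nonneg h3]; push_cast; exact h4
          exact_mod_cast this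
        · exact (Int.mod_modEq _ _).symm.dvd
      exact_mod_cast h2)
  refine ⟨K, hK, fun N hN => le_trans ?_ (h N hN)⟩
  have : (Icc (1 : ℤ) N).filter (fun n => ¬ HitZ d ε α n) ⊆
      (Icc (1 : ℤ) N).filter (fun n => ¬ QS d ((1 - ε) / Real.log 2) (fun m x => (2 : ℤ) ^ m ∣ x - α m) n) := by
    intro n hn
    rw [mem_filter] at hn ⊢
    refine ⟨hn.1, fun hQ => hn.2 ?_⟩
    obtain ⟨i, m, _, h2, h3, h4⟩ := hQ
    have hn1 := (Finset.mem_Icc.1 hn.1).1
    have hn1R : (1 : ℝ) ≤ (n : ℝ) := by exact_mod_cast hn1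
    have hs : 0 < Real.sqrt n := Real.sqrt_pos.2 (by linarith)
    refine ⟨i, m, ?_, h3, fun j hj => ?_⟩
    · have h5 := h4 i (by omega)
      rw [abs_of_pos (lt_of_lt_of_le hs h5)]
      have e : (1 - ε) * (Real.log (Real.log (((Tz d)^[i] n : ℤ) : ℝ)) / Real.log 2) =
          (1 - ε) / Real.log 2 * LL (((Tz d)^[i] n : ℤ) : ℝ) := by unfold LL; ring
      rw [e]; exact h2
    · have h5 := h4 j (by omega)
      rw [abs_of_pos (by linarith : (0 : ℝ) < (n : ℝ)), abs_of_pos (lt_of_lt_of_le hs h5)]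
      exact h5
  exact_mod_cast card_le_card this

theorem HitZ_neg {d : ℤ} (hd : d % 2 = 1) {ε : ℝ} {α : ℕ → ℤ} {x : ℤ} (h : HitZ (-d) ε (fun m => -α m) x) :
    HitZ d ε α (-x) := by
  obtain ⟨i, m, h1, h2, h3⟩ := h
  have e : ∀ j, |(((Tz d)^[j] (-x) : ℤ) : ℝ)| = |(((Tz (-d))^[j] x : ℤ) : ℝ)| := by
    intro j
    rw [Pool.Agent.R105.CZ.iter_neg hd]
    push_cast
    rw [abs_neg]
  refine ⟨i, m, by rw [e]; exact h1, ?_, fun j hj => ?_⟩
  · rw [Pool.Agent.R105.CZ.iter_neg hd]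
    have e2 : -(Tz (-d))^[i] x - α m = -((Tz (-d))^[i] x - -α m) := by ring
    rw [e2]
    exact (dvd_neg).2 h2
  · rw [e]
    have := h3 j hj
    push_cast
    rwa [abs_neg]

theorem hit_both {d : ℤ} (hd : d % 2 = 1) {ε : ℝ} (hε0 : 0 < ε) (hε : ε < 1) (α : ℕ → ℤ) :
    ∃ K : ℝ, 0 < K ∧ ∀ N : ℕ, 1 ≤ N →
      (Set.ncard {x : ℤ | |x| ≤ N ∧ ¬ (x = 0 ∨ HitZ d ε α x)} : ℝ) ≤ K * N * Real.exp (-(Real.log N) ^ (ε / 8)) := by
  classical
  obtain ⟨K₁, hK₁, h1⟩ := hit_pos hd hε0 hε α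
  obtain ⟨K₂, hK₂, h2⟩ := hit_pos (show -d % 2 = 1 by omega) hε0 hε (fun m => -α m)
  refine ⟨K₁ + K₂, by positivity, fun N hN => ?_⟩
  have h3 := two_sides (P := fun x => x = 0 ∨ HitZ d ε α x) (N := N)
    (a := K₁ * N * Real.exp (-(Real.log N) ^ (ε / 8))) (b := K₂ * N * Real.exp (-(Real.log N) ^ (ε / 8))) (by
      refine le_trans ?_ (h1 N hN)
      have : (Icc (1 : ℤ) N).filter (fun n => ¬ (n = 0 ∨ HitZ d ε α n)) ⊆
          (Icc (1 : ℤ) N).filter (fun n => ¬ HitZ d ε α n) := by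
        intro n hn
        rw [mem_filter] at hn ⊢
        exact ⟨hn.1, fun h => hn.2 (Or.inr h)⟩
      exact_mod_cast card_le_card this) (by
      refine le_trans ?_ (h2 N hN)
      have : (Icc (1 : ℤ) N).filter (fun n => ¬ (-n = 0 ∨ HitZ d ε α (-n))) ⊆
          (Icc (1 : ℤ) N).filter (fun n => ¬ HitZ (-d) ε (fun m => -α m) n) := by
        intro n hn
        rw [mem_filter] at hn ⊢
        exact ⟨hn.1, fun h => hn.2 (Or.inr (HitZ_neg hd h))⟩
      exact_mod_cast card_le_card this) (Or.inl rfl)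
  refine h3.trans (le_of_eq ?_)
  ring

/-- Powers of `q`: the targets of size `(log X) ^ (-(1 + ε))`. -/
theorem small_target {q : ℕ} (hq : 2 ≤ q) (hq3 : Nat.Coprime q 3) {α : ℕ → ℤ}
    (hα : ∀ m : ℕ, (q : ℤ) ^ m ∣ α (m + 1) - α m) {ε : ℝ} (hε : 0 < ε) :
    SmallZ (1 + ε) {x : ℤ | ∃ m : ℕ, (1 + ε) * (Real.log (Real.log |(x : ℝ)|) / Real.log q) < m ∧
      (q : ℤ) ^ m ∣ x - α m} := by
  have hqR : (2 : ℝ) ≤ q := by exact_mod_cast hq
  have hlq : 0 < Real.log q := Real.log_pos (by linarith)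
  -- compatibility
  have hcomp : ∀ a b : ℕ, (q : ℤ) ^ a ∣ α (a + b) - α a := by
    intro a b
    induction b with
    | zero => simp
    | succ b ih =>
      have h1 := hα (a + b)
      have h2 : (q : ℤ) ^ a ∣ α (a + b + 1) - α (a + b) := (pow_dvd_pow _ (by omega)).trans h1
      have := dvd_add h2 ih
      rwa [sub_add_sub_cancel] at this
  -- the size of the modulus
  have hev : ∀ᶠ l : ℝ in atTop, ((1 + ε) * (Real.log l / Real.log q) + 2) * Real.log q ≤ l / 2 := by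
    have h2 := Real.isLittleO_log_id_atTop.bound (show 0 < 1 / (4 * (1 + ε)) by positivity)
    filter_upwards [h2, eventually_ge_atTop 1, eventually_ge_atTop (8 * Real.log q)] with u hu hu1 hu2
    have h3 : 0 ≤ Real.log u := Real.log_nonneg hu1
    rw [Real.norm_eq_abs, abs_of_nonneg h3, id, Real.norm_eq_abs, abs_of_nonneg (by linarith)] at hu
    have e : ((1 + ε) * (Real.log u / Real.log q) + 2) * Real.log q = (1 + ε) * Real.log u + 2 * Real.log q := by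
      field_simp
    rw [e]
    have h4 : (1 + ε) * Real.log u ≤ (1 + ε) * (1 / (4 * (1 + ε)) * u) := mul_le_mul_of_nonneg_left hu (by positivity)
    have h5 : (1 + ε) * (1 / (4 * (1 + ε)) * u) = u / 4 := by field_simp
    linarith
  obtain ⟨l₀, hl₀⟩ := eventually_atTop.1 hev
  obtain ⟨l₁, hl₁⟩ : ∃ l₁, l₁ = max l₀ 8 := ⟨_, rfl⟩
  refine ⟨2 ^ (1 + ε), Real.exp l₁, fun X hX => ?_⟩
  have hX0 : 0 < X := lt_of_lt_of_le (Real.exp_pos _) hX
  have hl : l₁ ≤ Real.log X := (Real.le_log_iff_exp_le hX0).2 hX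
  have hl8 : 8 ≤ Real.log X := by rw [hl₁] at hl; exact (le_max_right _ _).trans hl
  have hl0' : l₀ ≤ Real.log X := by rw [hl₁] at hl; exact (le_max_left _ _).trans hl
  have hhalf : 0 < Real.log (Real.log X / 2) := Real.log_pos (by linarith)
  obtain ⟨m₀, hm₀⟩ : ∃ m₀ : ℕ, m₀ = ⌈(1 + ε) * (Real.log (Real.log X / 2) / Real.log q)⌉₊ := ⟨_, rfl⟩
  have hm1 : (1 + ε) * (Real.log (Real.log X / 2) / Real.log q) ≤ m₀ := by rw [hm₀]; exact Nat.le_ceil _
  have hm2 : (m₀ : ℝ) < (1 + ε) * (Real.log (Real.log X / 2) / Real.log q) + 1 := by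
    rw [hm₀]; exact Nat.ceil_lt_add_one (by positivity)
  have hqm : ((q : ℝ)) ^ m₀ = Real.exp (m₀ * Real.log q) := by
    rw [← Real.log_pow, Real.exp_log (by positivity)]
  refine ⟨q ^ m₀, by positivity, Nat.Coprime.pow_left _ hq3, ?_, {α m₀}, ?_, ?_⟩
  · rw [sqrt_eq hX0]
    push_cast
    rw [hqm]
    apply Real.exp_le_exp.2
    refine le_trans ?_ (hl₀ (Real.log X) hl0')
    apply mul_le_mul_of_nonneg_right _ hlq.le
    have h1 : Real.log (Real.log X / 2) ≤ Real.log (Real.log X) := Real.log_le_log (by linarith) (by linarith)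
    have h2 : Real.log (Real.log X / 2) / Real.log q ≤ Real.log (Real.log X) / Real.log q :=
      div_le_div_of_nonneg_right h1 hlq.le
    have h3 : (1 + ε) * (Real.log (Real.log X / 2) / Real.log q) ≤ (1 + ε) * (Real.log (Real.log X) / Real.log q) :=
      mul_le_mul_of_nonneg_left h2 (by positivity)
    linarith
  · rw [card_singleton]
    push_cast
    rw [le_div_iff₀ (by positivity), one_mul, hqm]
    have h1 : (1 + ε) * Real.log (Real.log X / 2) ≤ m₀ * Real.log q := by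
      have := mul_le_mul_of_nonneg_right hm1 hlq.le
      rwa [mul_assoc, div_mul_cancel₀ _ hlq.ne'] at this
    have h2 : (Real.log X / 2) ^ (1 + ε) ≤ Real.exp (m₀ * Real.log q) := by
      rw [Real.rpow_def_of_pos (by linarith), mul_comm]
      exact Real.exp_le_exp.2 h1
    have h3 : (Real.log X) ^ (1 + ε) = 2 ^ (1 + ε) * (Real.log X / 2) ^ (1 + ε) := by
      rw [← Real.mul_rpow (by norm_num) (by linarith)]
      congr 1
      ring
    rw [h3]
    exact mul_le_mul_of_nonneg_left h2 (by positivity)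
  · rintro x ⟨m, hm, hdvd⟩ hx1 hx2
    refine ⟨α m₀, mem_singleton_self _, ?_⟩
    have h1 : Real.log X / 2 ≤ Real.log |(x : ℝ)| := by
      rw [sqrt_eq hX0] at hx1
      have := Real.log_le_log (Real.exp_pos _) hx1
      rwa [Real.log_exp] at this
    have h2 : Real.log (Real.log X / 2) ≤ Real.log (Real.log |(x : ℝ)|) := Real.log_le_log (by linarith) h1
    have h3 : (1 + ε) * (Real.log (Real.log X / 2) / Real.log q) < m := by
      refine lt_of_le_of_lt ?_ hm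
      exact mul_le_mul_of_nonneg_left (div_le_div_of_nonneg_right h2 hlq.le) (by positivity)
    have h4 : m₀ ≤ m := by
      rw [hm₀]
      exact Nat.ceil_le.2 h3.le
    obtain ⟨b, rfl⟩ := Nat.exists_eq_add_of_le h4
    have h5 := hcomp m₀ b
    have h6 : (q : ℤ) ^ m₀ ∣ x - α (m₀ + b) := (pow_dvd_pow _ (by omega)).trans hdvd
    have h7 := dvd_add h6 h5
    rw [sub_add_sub_cancel] at h7
    push_cast
    exact (Int.modEq_iff_dvd.2 (by rw [← neg_sub]; exact (dvd_neg).2 h7))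

end Run7.h702.BC
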