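import Pool.Agent.Run7.h702.BC.N

/-! The Syracuse map on the negative odd integers. -/

set_option autoImplicit false

namespace Run7.h702.BC

open Finset Filter Topology
open Pool.Agent.H499R2.CO (Tz)
open Pool.Agent.R344.SP Pool.Agent.R344.TH
open Run7.h702.AT

/-- the exponent of `2` in `3 N + 1` -/
def ev (N : ℤ) : ℕ := padicValInt 2 (3 * N + 1)

/-- the Syracuse map -/
def Syr (N : ℤ) : ℤ := (3 * N + 1) / 2 ^ ev N

/-- the first `r` exponents -/
def Wn (r : ℕ) (N : ℤ) : List ℕ := (List.range r).map (fun i => ev (Syr^[i] N))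

theorem le_ev {N : ℤ} {a : ℕ} : a ≤ ev N ↔ (2 : ℤ) ^ a ∣ 3 * N + 1 := by
  unfold ev
  have := padicValInt_dvd_iff (p := 2) a (3 * N + 1)
  push_cast at this
  rw [this]
  constructor
  · exact Or.inr
  · rintro (h | h)
    · omega
    · exact h

theorem ev_spec {N : ℤ} (hN : N % 2 = 1) : 1 ≤ ev N ∧ 2 ^ ev N * Syr N = 3 * N + 1 ∧ Syr N % 2 = 1 := by
  have h1 : 1 ≤ ev N := by
    rw [le_ev, pow_one]
    omega
  have h2 : (2 : ℤ) ^ ev N ∣ 3 * N + 1 := le_ev.1 le_rfl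
  have h3 : 2 ^ ev N * Syr N = 3 * N + 1 := Int.mul_ediv_cancel' h2
  refine ⟨h1, h3, ?_⟩
  by_contra hcon
  have h4 : (2 : ℤ) ∣ Syr N := by omega
  obtain ⟨c, hc⟩ := h4
  have h5 : ev N + 1 ≤ ev N := by
    rw [le_ev, ← h3, hc]
    exact ⟨c, by ring⟩
  omega

theorem Wn_succ (r : ℕ) (N : ℤ) : Wn (r + 1) N = ev N :: Wn r (Syr N) := by
  unfold Wn
  rw [List.range_succ_eq_map, List.map_cons, List.map_map]
  rfl

theorem Wn_zero (N : ℤ) : Wn 0 N = [] := rfl

theorem Wn_length (r : ℕ) (N : ℤ) : (Wn r N).length = r := by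
  unfold Wn
  rw [List.length_map, List.length_range]

/-- the exponents determine the integer modulo a power of two -/
theorem Wn_inj : ∀ (r : ℕ) (N N' : ℤ), N % 2 = 1 → N' % 2 = 1 → Wn r N = Wn r N' →
    (2 : ℤ) ^ ((Wn r N).sum + 1) ∣ N - N'
  | 0, N, N', h1, h2, _ => by
    rw [Wn_zero, List.sum_nil, zero_add, pow_one]
    omega
  | r + 1, N, N', h1, h2, h3 => by
    rw [Wn_succ, Wn_succ, List.cons.injEq] at h3
    obtain ⟨h4, h5⟩ := h3
    obtain ⟨_, a2, a3⟩ := ev_spec h1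
    obtain ⟨_, b2, b3⟩ := ev_spec h2
    have ih := Wn_inj r (Syr N) (Syr N') a3 b3 h5
    rw [Wn_succ, List.sum_cons, add_assoc, pow_add]
    rw [← h4] at b2
    have h6 : 3 * (N - N') = 2 ^ ev N * (Syr N - Syr N') := by
      linear_combination b2 - a2
    have h7 : (2 : ℤ) ^ ev N * 2 ^ ((Wn r (Syr N)).sum + 1) ∣ 3 * (N - N') := by
      rw [h6]
      exact mul_dvd_mul_left _ ih
    have h8 : IsCoprime ((2 : ℤ) ^ ev N * 2 ^ ((Wn r (Syr N)).sum + 1)) 3 := by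
      rw [← pow_add]
      exact IsCoprime.pow_left (by norm_num)
    exact h8.dvd_of_dvd_mul_left h7

/-- the terms of the accelerated map between two odd terms -/
theorem T_syr {N : ℤ} (hN : N % 2 = 1) : ∀ j : ℕ, 1 ≤ j → j ≤ ev N →
    (Tz (-1))^[j] (-N) * 2 ^ j = -(3 * N + 1)
  | 0, h, _ => absurd h (by norm_num)
  | 1, _, _ => by
    rw [Function.iterate_one]
    unfold Tz
    rw [if_neg (by omega)]
    omega
  | j + 2, _, h2 => by
    have ih := T_syr hN (j + 1) (by omega) (by omega)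
    have h3 : (2 : ℤ) ^ (j + 2) ∣ 3 * N + 1 := le_ev.1 h2
    obtain ⟨c, hc⟩ := h3
    rw [Function.iterate_succ_apply']
    obtain ⟨y, hy⟩ : ∃ y, y = (Tz (-1))^[j + 1] (-N) := ⟨_, rfl⟩
    rw [← hy] at ih ⊢
    have h4 : y = 2 * (-c) := by
      have h5 : y * 2 ^ (j + 1) = 2 * (-c) * 2 ^ (j + 1) := by
        rw [ih, hc]; ring
      exact mul_right_cancel₀ (by positivity) h5
    unfold Tz
    rw [if_pos (by omega)]
    have h6 : y / 2 = -c := by omega
    rw [h6, hc]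
    ring

theorem T_syr_end {N : ℤ} (hN : N % 2 = 1) : (Tz (-1))^[ev N] (-N) = -Syr N := by
  obtain ⟨h1, h2, _⟩ := ev_spec hN
  have h3 := T_syr hN (ev N) h1 le_rfl
  rw [← h2] at h3
  have h4 : (Tz (-1))^[ev N] (-N) * 2 ^ ev N = (-Syr N) * 2 ^ ev N := by rw [h3]; ring
  exact mul_right_cancel₀ (by positivity) h4

theorem T_syr_mid {N : ℤ} (hN : N % 2 = 1) {j : ℕ} (h1 : 1 ≤ j) (h2 : j ≤ ev N) :
    (Tz (-1))^[j] (-N) = -Syr N * 2 ^ (ev N - j) := by
  have h3 := T_syr hN j h1 h2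
  obtain ⟨_, h4, _⟩ := ev_spec hN
  rw [← h4] at h3
  have h5 : (Tz (-1))^[j] (-N) * 2 ^ j = (-Syr N * 2 ^ (ev N - j)) * 2 ^ j := by
    rw [h3, mul_assoc, ← pow_add, Nat.sub_add_cancel h2]; ring
  exact mul_right_cancel₀ (by positivity) h5

theorem Syr_neg {N : ℤ} (hN : N % 2 = 1) (h : N < 0) : Syr N < 0 := by
  obtain ⟨_, h2, _⟩ := ev_spec hN
  by_contra hcon
  have : 0 ≤ (2 : ℤ) ^ ev N * Syr N := mul_nonneg (by positivity) (not_lt.1 hcon)
  omega

/-- the orbits -/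
theorem syr_T : ∀ (k : ℕ) (N : ℤ), N % 2 = 1 → N < 0 → (Tz (-1))^[(Wn k N).sum] (-N) = -(Syr^[k] N) ∧
    (Syr^[k] N) % 2 = 1 ∧ Syr^[k] N < 0 ∧ k ≤ (Wn k N).sum
  | 0, N, h1, h2 => by
    rw [Wn_zero, List.sum_nil]
    exact ⟨rfl, h1, h2, le_rfl⟩
  | k + 1, N, h1, h2 => by
    obtain ⟨a1, a2, a3⟩ := ev_spec h1
    obtain ⟨b1, b2, b3, b4⟩ := syr_T k (Syr N) a3 (Syr_neg h1 h2)
    rw [Wn_succ, List.sum_cons, Nat.add_comm (ev N), Function.iterate_add_apply, T_syr_end h1,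
      Function.iterate_succ_apply]
    exact ⟨b1, b2, b3, by omega⟩

theorem syr_T_low : ∀ (k : ℕ) (N : ℤ), N % 2 = 1 → N < 0 → ∀ Y : ℝ,
    (∀ l ≤ k, Y ≤ |((Syr^[l] N : ℤ) : ℝ)|) → ∀ j ≤ (Wn k N).sum, Y ≤ (((Tz (-1))^[j] (-N) : ℤ) : ℝ)
  | 0, N, h1, h2, Y, h, j, hj => by
    rw [Wn_zero, List.sum_nil] at hj
    have : j = 0 := by omega
    subst this
    have h3 := h 0 le_rfl
    rw [Function.iterate_zero, id] at h3 ⊢
    have h4 : (N : ℝ) < 0 := by exact_mod_cast h2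
    rw [abs_of_neg h4] at h3
    push_cast
    exact h3
  | k + 1, N, h1, h2, Y, h, j, hj => by
    obtain ⟨a1, a2, a3⟩ := ev_spec h1
    have hneg := Syr_neg h1 h2
    have hnegR : ((Syr N : ℤ) : ℝ) < 0 := by exact_mod_cast hneg
    rcases Nat.eq_zero_or_pos j with h0 | h0
    · subst h0
      have h3 := h 0 (by omega)
      rw [Function.iterate_zero, id] at h3 ⊢
      have h4 : (N : ℝ) < 0 := by exact_mod_cast h2
      rw [abs_of_neg h4] at h3
      push_cast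
      exact h3
    · rcases le_or_gt j (ev N) with h5 | h5
      · rw [T_syr_mid h1 h0 h5]
        have h6 := h 1 (by omega)
        rw [Function.iterate_one, abs_of_neg hnegR] at h6
        push_cast
        have h7 : (1 : ℝ) ≤ 2 ^ (ev N - j) := one_le_pow₀ (by norm_num)
        nlinarith
      · rw [Wn_succ, List.sum_cons] at hj
        obtain ⟨t, rfl⟩ : ∃ t, j = t + ev N := ⟨j - ev N, by omega⟩
        rw [Function.iterate_add_apply, T_syr_end h1]
        exact syr_T_low k (Syr N) a3 hneg Y (fun l hl => by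
          have := h (l + 1) (by omega)
          rwa [Function.iterate_succ_apply] at this) t (by omega)

/-- the odd terms of the accelerated map are terms of the Syracuse map -/
theorem odd_term : ∀ (i : ℕ) (N : ℤ), N % 2 = 1 → N < 0 → (Tz (-1))^[i] (-N) % 2 = 1 →
    ∃ k : ℕ, (Wn k N).sum = i := by
  intro i
  induction i using Nat.strong_induction_on with
  | _ i ih =>
    intro N h1 h2 h3
    rcases Nat.eq_zero_or_pos i with h0 | h0
    · exact ⟨0, by rw [Wn_zero, List.sum_nil, h0]⟩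
    · obtain ⟨a1, a2, a3⟩ := ev_spec h1
      rcases lt_or_ge i (ev N) with h5 | h5
      · exfalso
        rw [T_syr_mid h1 h0 h5.le] at h3
        obtain ⟨t, ht⟩ : ∃ t, ev N - i = t + 1 := ⟨ev N - i - 1, by omega⟩
        rw [ht, pow_succ, ← mul_assoc] at h3
        omega
      · obtain ⟨t, rfl⟩ : ∃ t, i = t + ev N := ⟨i - ev N, by omega⟩
        rw [Function.iterate_add_apply, T_syr_end h1] at h3
        obtain ⟨k, hk⟩ := ih t (by omega) (Syr N) a3 (Syr_neg h1 h2) h3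
        exact ⟨k + 1, by rw [Wn_succ, List.sum_cons, hk, Nat.add_comm]⟩

/-- The Syracuse orbit of `N` avoids `A` until it takes a value of absolute value smaller than `Y`. -/
def AvS (A : Set ℤ) (Y : ℝ) (N : ℤ) : Prop :=
  ∃ k : ℕ, |((Syr^[k] N : ℤ) : ℝ)| < Y ∧ ∀ i < k, Y ≤ |((Syr^[i] N : ℤ) : ℝ)| ∧ Syr^[i] N ∉ A

theorem AvS_of {A : Set ℤ} {Y : ℝ} (hY : 0 < Y) {N : ℤ} (h1 : N % 2 = 1) (h2 : N < 0)
    (h : AvZ (-1) ((fun a => -a) ⁻¹' A) Y (-N)) : AvS A Y N := by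
  classical
  obtain ⟨t, ht1, ht2⟩ := h
  -- below `Y`
  have key : ∀ k : ℕ, (∀ l ≤ k, Y ≤ |((Syr^[l] N : ℤ) : ℝ)|) → (Wn k N).sum < t := by
    intro k hk
    by_contra hcon
    have h3 := syr_T_low k N h1 h2 Y hk t (not_lt.1 hcon)
    rw [abs_of_pos (by linarith)] at ht1
    linarith
  have hex : ∃ k : ℕ, |((Syr^[k] N : ℤ) : ℝ)| < Y := by
    by_contra hcon
    push Not at hcon
    have h3 := key t (fun l _ => hcon l)
    have h4 := (syr_T t N h1 h2).2.2.2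
    omega
  have hmin : ∀ j < Nat.find hex, Y ≤ |((Syr^[j] N : ℤ) : ℝ)| := fun j hj => not_lt.1 (Nat.find_min hex hj)
  refine ⟨Nat.find hex, Nat.find_spec hex, fun i hi => ⟨hmin i hi, fun hA => ?_⟩⟩
  have h3 := key i (fun l hl => hmin l (by omega))
  have h4 := (ht2 _ h3).2
  apply h4
  rw [(syr_T i N h1 h2).1]
  change - -(Syr^[i] N) ∈ A
  rwa [neg_neg]

theorem AvS.mono {A : Set ℤ} {Y Y' : ℝ} {x : ℤ} (hY : Y ≤ Y') (h : AvS A Y x) : AvS A Y' x := by
  classical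
  obtain ⟨k, h1, h2⟩ := h
  have hex : ∃ k : ℕ, |((Syr^[k] x : ℤ) : ℝ)| < Y' := ⟨k, lt_of_lt_of_le h1 hY⟩
  have hle : Nat.find hex ≤ k := Nat.find_min' hex (lt_of_lt_of_le h1 hY)
  exact ⟨Nat.find hex, Nat.find_spec hex, fun j hj => ⟨not_lt.1 (Nat.find_min hex hj), (h2 j (by omega)).2⟩⟩

/-- **The Borel-Cantelli lemma for the negative odd integers.** -/
theorem bc_syr {s : ℝ} (hs : 1 < s) {A : Set ℤ} (hA : SmallZ s A) : ∃ η K : ℝ, 0 < η ∧ 0 < K ∧ ∀ Y : ℝ, 2 ≤ Y →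
    ∀ N : ℕ, (Set.ncard {n : ℕ | 1 ≤ n ∧ n ≤ N ∧ ¬ (n % 2 = 1 → AvS A Y (-(n : ℤ)))} : ℝ) ≤
      K * N / (Real.log Y) ^ η := by
  classical
  obtain ⟨η, K, hη, hK, h⟩ := bc_pos (d := -1) (by decide) (by norm_num) hs hA.neg
  refine ⟨η, K, hη, hK, fun Y hY N => ?_⟩
  refine (ncard_le (fun n => n % 2 = 1 → AvS A Y (-(n : ℤ))) (AvZ (-1) ((fun a => -a) ⁻¹' A) Y) ?_ N).trans (h Y hY N)
  intro n hn hav hodd
  apply AvS_of (by linarith) (by omega) (by omega)
  rwa [neg_neg]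

/-- A term `Syr^i N` is congruent to `α m` modulo `2 ^ m`, `m ≥ (1 - ε) log₂ log |Syr^i N|`, all the terms up to it have
an absolute value of at least `√|N|`. -/
def HitS (ε : ℝ) (α : ℕ → ℤ) (N : ℤ) : Prop :=
  ∃ i m : ℕ, (1 - ε) * (Real.log (Real.log |((Syr^[i] N : ℤ) : ℝ)|) / Real.log 2) ≤ m ∧
    (2 : ℤ) ^ m ∣ Syr^[i] N - α m ∧ ∀ j ≤ i, Real.sqrt |(N : ℝ)| ≤ |((Syr^[j] N : ℤ) : ℝ)|

theorem hit_syr {ε : ℝ} (hε0 : 0 < ε) (hε : ε < 1) {α : ℕ → ℤ} (hα : ∀ m, α m % 2 = 1) :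
    ∃ K : ℝ, 0 < K ∧ ∀ N : ℕ, 1 ≤ N →
      (Set.ncard {n : ℕ | 1 ≤ n ∧ n ≤ N ∧ ¬ (n % 2 = 1 → HitS ε α (-(n : ℤ)))} : ℝ) ≤
        K * N * Real.exp (-(Real.log N) ^ (ε / 8)) := by
  classical
  have hl2 : 0 < Real.log 2 := Real.log_pos (by norm_num)
  obtain ⟨K, hK, h⟩ := sharp_gen (d := -1) (by norm_num) (ρ := Real.log 2) hl2 hε0 hε
    (S := fun m x => (2 : ℤ) ^ m ∣ x + α m) (fun m x y => by
      have e : x + y * 2 ^ m + α m = x + α m + y * 2 ^ m := by ring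
      rw [e]
      exact Int.dvd_add_left (dvd_mul_left _ _)) (m₀ := 0) (fun m _ => by
      have h1 : Real.exp (-(Real.log 2 * (1 + ε / 4) * m)) * 2 ^ m ≤ 1 := by
        have e1 : (2 : ℝ) ^ m = Real.exp (Real.log 2 * m) := by
          rw [mul_comm, ← Real.log_pow, Real.exp_log (by positivity)]
        rw [e1, ← Real.exp_add]
        apply Real.exp_le_one_iff.2
        have hm : (0 : ℝ) ≤ m := Nat.cast_nonneg m
        have : 0 ≤ Real.log 2 * (ε / 4) * m := by positivity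
        linarith
      refine h1.trans ?_
      have h2 : 1 ≤ ((range (2 ^ m)).filter (fun r : ℕ => (2 : ℤ) ^ m ∣ (r : ℤ) + α m)).card := by
        rw [Nat.one_le_iff_ne_zero, card_ne_zero]
        have hp : (0 : ℤ) < 2 ^ m := by positivity
        have h3 := Int.emod_nonneg (-α m) hp.ne'
        have h4 := Int.emod_lt_of_pos (-α m) hp
        refine ⟨(-α m % 2 ^ m).toNat, ?_⟩
        rw [mem_filter, mem_range, Int.toNat_of_nonneg h3]
        constructor
        · have : (((-α m % 2 ^ m).toNat : ℕ) : ℤ) < ((2 ^ m : ℕ) : ℤ) := by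
            rw [Int.toNat_of_nonneg h3]; push_cast; exact h4
          exact_mod_cast this
        · have := (Int.mod_modEq (-α m) (2 ^ m)).symm.dvd
          rwa [sub_neg_eq_add] at this
      exact_mod_cast h2)
  -- the windows are not empty
  have hlim : Tendsto (fun x : ℝ => LL x) atTop atTop := Real.tendsto_log_atTop.comp Real.tendsto_log_atTop
  obtain ⟨x₀, hx₀⟩ := eventually_atTop.1 (hlim.eventually_gt_atTop 0)
  obtain ⟨n₀, hn₀⟩ := exists_nat_gt (max x₀ 1 ^ 2)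
  have hmain : ∀ n : ℤ, (n₀ : ℤ) ≤ n → QS (-1) ((1 - ε) / Real.log 2) (fun m x => (2 : ℤ) ^ m ∣ x + α m) n →
      (n % 2 = 1 → HitS ε α (-n)) := by
    intro n hn hQ hodd
    obtain ⟨i, m, _, h2, h3, h4⟩ := hQ
    have hnR : (n₀ : ℝ) ≤ n := by exact_mod_cast hn
    have hn0 : (0 : ℝ) < n := by
      have : (0 : ℝ) < max x₀ 1 ^ 2 := by positivity
      linarith
    have hnpos : 0 < n := by exact_mod_cast hn0
    have hsq : max x₀ 1 ≤ Real.sqrt n := by
      apply Real.le_sqrt_of_sq_le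
      linarith
    have h5 := h4 i (by omega)
    have hLL : 0 < LL (((Tz (-1))^[i] n : ℤ) : ℝ) := hx₀ _ ((le_max_left _ _).trans (hsq.trans h5))
    have hm : 1 ≤ m := by
      have h6 : 0 < (1 - ε) / Real.log 2 * LL (((Tz (-1))^[i] n : ℤ) : ℝ) := by
        have : 0 < 1 - ε := by linarith
        positivity
      have : (0 : ℝ) < m := lt_of_lt_of_le h6 h2
      exact_mod_cast this
    have hoddT : (Tz (-1))^[i] n % 2 = 1 := by
      have h6 : (2 : ℤ) ∣ (Tz (-1))^[i] n + α m := (dvd_pow_self 2 (by omega)).trans h3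
      have := hα m
      omega
    obtain ⟨k, hk⟩ := odd_term i (-n) (by omega) (by omega) (by rwa [neg_neg])
    have hst := syr_T k (-n) (by omega) (by omega)
    rw [hk, neg_neg] at hst
    have hval : (((Tz (-1))^[i] n : ℤ) : ℝ) = |((Syr^[k] (-n) : ℤ) : ℝ)| := by
      have h7 : ((Syr^[k] (-n) : ℤ) : ℝ) < 0 := by exact_mod_cast hst.2.2.1
      rw [hst.1, abs_of_neg h7]
      push_cast
      rfl
    refine ⟨k, m, ?_, ?_, fun j hj => ?_⟩
    · rw [← hval]
      have e : (1 - ε) * (Real.log (Real.log (((Tz (-1))^[i] n : ℤ) : ℝ)) / Real.log 2) =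
          (1 - ε) / Real.log 2 * LL (((Tz (-1))^[i] n : ℤ) : ℝ) := by unfold LL; ring
      rw [e]
      exact h2
    · rw [hst.1] at h3
      have h8 : -(Syr^[k] (-n)) + α m = -(Syr^[k] (-n) - α m) := by ring
      rw [h8] at h3
      exact (dvd_neg).1 h3
    · have hst2 := syr_T j (-n) (by omega) (by omega)
      rw [neg_neg] at hst2
      have hle : (Wn j (-n)).sum ≤ i := by
        rw [← hk]
        clear hst2 hst hk h3 h4 hval
        induction k, hj using Nat.le_induction with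
        | base => exact le_rfl
        | succ k _ ih =>
          refine ih.trans ?_
          unfold Wn
          rw [List.range_succ, List.map_append, List.sum_append]
          omega
      have h9 := h4 _ (show (Wn j (-n)).sum ≤ i + m by omega)
      have h7 : ((Syr^[j] (-n) : ℤ) : ℝ) < 0 := by exact_mod_cast hst2.2.2.1
      rw [hst2.1] at h9
      rw [abs_of_neg h7]
      have h10 : |((-n : ℤ) : ℝ)| = n := by push_cast; rw [abs_neg, abs_of_pos hn0]
      rw [h10]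
      push_cast at h9
      exact h9
  have h' := sharp_conseq (P := QS (-1) ((1 - ε) / Real.log 2) (fun m x => (2 : ℤ) ^ m ∣ x + α m))
    (Q := fun n => (n % 2 = 1 → HitS ε α (-n))) (δ := ε / 8) (by linarith) (by linarith) (n₀ := n₀) hmain h
  refine ⟨K + n₀ * Real.exp 1, by positivity, fun N hN => ?_⟩
  refine (ncard_le (fun n : ℕ => (n % 2 = 1 → HitS ε α (-(n : ℤ)))) (fun n : ℤ => (n % 2 = 1 → HitS ε α (-n))) ?_ N).trans
    (h' N hN)
  intro n _ h hodd
  exact h (by omega)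

end Run7.h702.BC
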