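import Pool.Agent.Run7.h702.BC.O

/-! Windows of exponents with a short code. -/

set_option autoImplicit false

namespace Run7.h702.BC

open Finset Filter Topology
open Pool.Agent.H499R2.CO (Tz)
open Pool.Agent.R344.SP Pool.Agent.R344.TH
open Run7.h702.AT

/-- the binary words of length less than `l` -/
def words (l : ℕ) : Finset (List Bool) :=
  (range l).biUnion fun k => (univ : Finset (Fin k → Bool)).image fun v => List.ofFn v

theorem mem_words {l : ℕ} {p : List Bool} (h : p.length < l) : p ∈ words l := by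
  unfold words
  rw [mem_biUnion]
  refine ⟨p.length, mem_range.2 h, ?_⟩
  rw [mem_image]
  exact ⟨fun i => p.get i, mem_univ _, by simp⟩

theorem words_card (l : ℕ) : (words l).card ≤ 2 ^ l := by
  unfold words
  refine card_biUnion_le.trans ?_
  have h1 : ∀ k ∈ range l, ((univ : Finset (Fin k → Bool)).image fun v => List.ofFn v).card ≤ 2 ^ k := by
    intro k _
    refine card_image_le.trans ?_
    rw [card_univ, Fintype.card_fun, Fintype.card_bool, Fintype.card_fin]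
  refine (sum_le_sum h1).trans ?_
  have := Nat.geomSum_lt (m := 2) (n := l) (s := range l) le_rfl (fun k hk => mem_range.1 hk)
  exact this.le

/-- a window of exponents of the sum `S ≤ (log |N|) / 2` has a code of length less than `S - s log₂ log |N|` -/
def CodeSet (ψ : List Bool → List ℕ) (s : ℝ) : Set ℤ :=
  {N : ℤ | N % 2 = 1 ∧ ∃ (r : ℕ) (p : List Bool), ψ p = Wn r N ∧ (((Wn r N).sum : ℕ) : ℝ) ≤ Real.log |(N : ℝ)| / 2 ∧
    (p.length : ℝ) + s * (LL |(N : ℝ)| / Real.log 2) < (Wn r N).sum}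

theorem small_codes (ψ : List Bool → List ℕ) {ε : ℝ} (hε : 0 < ε) : SmallZ (1 + ε) (CodeSet ψ (2 + ε)) := by
  classical
  have hl2 : 0 < Real.log 2 := Real.log_pos (by norm_num)
  have hl21 : Real.log 2 < 0.6932 := by have := Real.log_two_lt_d9; linarith
  -- representatives
  obtain ⟨rep, hrep⟩ : ∃ rep : List Bool → ℤ, ∀ p : List Bool, (∃ (N : ℤ) (r : ℕ), N % 2 = 1 ∧ ψ p = Wn r N) →
      ∃ r : ℕ, rep p % 2 = 1 ∧ ψ p = Wn r (rep p) := by
    have : ∀ p : List Bool, ∃ N : ℤ, (∃ (N : ℤ) (r : ℕ), N % 2 = 1 ∧ ψ p = Wn r N) → ∃ r : ℕ, N % 2 = 1 ∧ ψ p = Wn r N := by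
      intro p
      by_cases h : ∃ (N : ℤ) (r : ℕ), N % 2 = 1 ∧ ψ p = Wn r N
      · obtain ⟨N, r, h1⟩ := h
        exact ⟨N, fun _ => ⟨r, h1⟩⟩
      · exact ⟨0, fun h' => absurd h' h⟩
    choose rep h using this
    exact ⟨rep, h⟩
  refine ⟨2 ^ (2 + ε), Real.exp 16, fun X hX => ?_⟩
  have hX0 : 0 < X := lt_of_lt_of_le (Real.exp_pos _) hX
  have hl : 16 ≤ Real.log X := (Real.le_log_iff_exp_le hX0).2 hX
  obtain ⟨l, hldef⟩ : ∃ l, l = Real.log X / 2 := ⟨_, rfl⟩
  have hl8 : 8 ≤ l := by rw [hldef]; linarith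
  obtain ⟨Sm, hSm⟩ : ∃ Sm : ℕ, Sm = ⌊l⌋₊ := ⟨_, rfl⟩
  have hSm1 : (Sm : ℝ) ≤ l := by rw [hSm]; exact Nat.floor_le (by linarith)
  obtain ⟨σ, hσ⟩ : ∃ σ, σ = (2 + ε) * (Real.log l / Real.log 2) := ⟨_, rfl⟩
  have hpow : ∀ t : ℝ, (2 : ℝ) ^ t = Real.exp (t * Real.log 2) := by
    intro t
    rw [Real.rpow_def_of_pos (by norm_num)]
    congr 1; ring
  have h2σ : (2 : ℝ) ^ σ = l ^ (2 + ε) := by
    rw [hpow, Real.rpow_def_of_pos (by linarith), hσ]
    congr 1
    field_simp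
  -- the set of the classes
  obtain ⟨R, hR⟩ : ∃ R : Finset ℤ, R = (range (Sm + 1)).biUnion fun S => (words ⌈(S : ℝ) - σ⌉₊).biUnion fun p =>
      (range (2 ^ (Sm - S))).image fun t : ℕ => rep p + t * 2 ^ (S + 1) := ⟨_, rfl⟩
  refine ⟨2 ^ (Sm + 1), by positivity, Nat.Coprime.pow_left _ (by norm_num), ?_, R, ?_, ?_⟩
  · rw [sqrt_eq hX0, ← hldef]
    push_cast
    have e : (2 : ℝ) ^ (Sm + 1) = Real.exp ((Sm + 1 : ℕ) * Real.log 2) := by
      rw [← Real.log_pow, Real.exp_log (by positivity)]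
    rw [e]
    apply Real.exp_le_exp.2
    push_cast
    nlinarith
  · -- the number of the classes
    have h1 : (R.card : ℝ) ≤ ∑ S ∈ range (Sm + 1), (2 : ℝ) ^ ((Sm : ℝ) + 1 - σ) := by
      have h2 : R.card ≤ ∑ S ∈ range (Sm + 1), (words ⌈(S : ℝ) - σ⌉₊).card * 2 ^ (Sm - S) := by
        rw [hR]
        refine card_biUnion_le.trans (sum_le_sum fun S _ => ?_)
        refine card_biUnion_le.trans ?_
        refine (sum_le_card_nsmul _ _ (2 ^ (Sm - S)) fun p _ => ?_).trans (by rw [smul_eq_mul])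
        refine card_image_le.trans ?_
        rw [card_range]
      refine (show (R.card : ℝ) ≤ ∑ S ∈ range (Sm + 1), ((words ⌈(S : ℝ) - σ⌉₊).card : ℝ) * 2 ^ (Sm - S) by
        exact_mod_cast h2).trans (sum_le_sum fun S hS => ?_)
      have hS2 : S ≤ Sm := by have := mem_range.1 hS; omega
      have e1 : (2 : ℝ) ^ (Sm - S) = (2 : ℝ) ^ ((Sm : ℝ) - S) := by
        rw [← Real.rpow_natCast, Nat.cast_sub hS2]
      have h3 : ((words ⌈(S : ℝ) - σ⌉₊).card : ℝ) ≤ (2 : ℝ) ^ ((S : ℝ) - σ + 1) := by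
        rcases le_or_gt ((S : ℝ) - σ) 0 with h4 | h4
        · have : ⌈(S : ℝ) - σ⌉₊ = 0 := Nat.ceil_eq_zero.2 h4
          rw [this]
          unfold words
          rw [range_zero, biUnion_empty, card_empty]
          push_cast
          positivity
        · have h5 := Nat.ceil_lt_add_one h4.le
          have h6 : ((words ⌈(S : ℝ) - σ⌉₊).card : ℝ) ≤ (2 : ℝ) ^ ⌈(S : ℝ) - σ⌉₊ := by
            exact_mod_cast words_card _
          refine h6.trans ?_
          rw [← Real.rpow_natCast]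
          exact Real.rpow_le_rpow_of_exponent_le (by norm_num) h5.le
      rw [e1]
      calc _ ≤ (2 : ℝ) ^ ((S : ℝ) - σ + 1) * (2 : ℝ) ^ ((Sm : ℝ) - S) := mul_le_mul_of_nonneg_right h3 (by positivity)
        _ = (2 : ℝ) ^ ((Sm : ℝ) + 1 - σ) := by
          rw [← Real.rpow_add (by norm_num)]; congr 1; ring
    rw [sum_const, card_range, nsmul_eq_mul] at h1
    refine h1.trans ?_
    have e2 : (2 : ℝ) ^ ((Sm : ℝ) + 1 - σ) = 2 ^ (Sm + 1) / l ^ (2 + ε) := by
      rw [Real.rpow_sub (by norm_num), h2σ]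
      congr 1
      rw [← Real.rpow_natCast]
      push_cast
      rfl
    rw [e2]
    have hlX : Real.log X = 2 * l := by rw [hldef]; ring
    have e3 : (Real.log X) ^ (1 + ε) = 2 ^ (1 + ε) * l ^ (1 + ε) := by
      rw [hlX, Real.mul_rpow (by norm_num) (by linarith)]
    have e4 : l ^ (2 + ε) = l * l ^ (1 + ε) := by
      rw [show (2 : ℝ) + ε = 1 + (1 + ε) by ring, Real.rpow_add (by linarith), Real.rpow_one]
    have e5 : (2 : ℝ) ^ (2 + ε) = 2 * 2 ^ (1 + ε) := by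
      rw [show (2 : ℝ) + ε = 1 + (1 + ε) by ring, Real.rpow_add (by norm_num), Real.rpow_one]
    rw [e3, e4, e5]
    push_cast
    have hl0 : 0 < l := by linarith
    have h3 : ((Sm : ℝ) + 1) ≤ 2 * l := by linarith
    have e6 : 2 * (2 : ℝ) ^ (1 + ε) * 2 ^ (Sm + 1) / (2 ^ (1 + ε) * l ^ (1 + ε)) =
        (2 * l) * (2 ^ (Sm + 1) / (l * l ^ (1 + ε))) := by
      field_simp
    rw [e6]
    exact mul_le_mul_of_nonneg_right h3 (by positivity)
  · rintro N ⟨hodd, r, p, h1, h2, h3⟩ hN1 hN2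
    obtain ⟨S, hS⟩ : ∃ S, S = (Wn r N).sum := ⟨_, rfl⟩
    rw [← hS] at h2 h3
    have hlogN : l ≤ Real.log |(N : ℝ)| := by
      rw [sqrt_eq hX0, ← hldef] at hN1
      have := Real.log_le_log (Real.exp_pos _) hN1
      rwa [Real.log_exp] at this
    have hN0 : 0 < |(N : ℝ)| := lt_of_lt_of_le (Real.sqrt_pos.2 hX0) hN1
    have hlogN2 : Real.log |(N : ℝ)| ≤ Real.log X := Real.log_le_log hN0 hN2
    have hSSm : S ≤ Sm := by
      rw [hSm]
      apply Nat.le_floor
      rw [hldef]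
      linarith
    have hσle : σ ≤ (2 + ε) * (LL |(N : ℝ)| / Real.log 2) := by
      rw [hσ]
      apply mul_le_mul_of_nonneg_left _ (by positivity)
      apply div_le_div_of_nonneg_right _ hl2.le
      exact Real.log_le_log (by linarith) hlogN
    have hp : p.length < ⌈(S : ℝ) - σ⌉₊ := by
      rw [Nat.lt_ceil]
      linarith
    obtain ⟨r', hr1, hr2⟩ := hrep p ⟨N, r, hodd, h1⟩
    have hrr : r' = r := by
      have := congrArg List.length (hr2.symm.trans h1)
      rwa [Wn_length, Wn_length] at this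
    subst hrr
    have hdvd := Wn_inj r' N (rep p) hodd hr1 (h1.symm.trans hr2)
    rw [← hS] at hdvd
    obtain ⟨c, hc⟩ := hdvd
    have hpp : (0 : ℤ) < 2 ^ (Sm - S) := by positivity
    have hc1 := Int.emod_nonneg c hpp.ne'
    have hc2 := Int.emod_lt_of_pos c hpp
    refine ⟨rep p + ((c % 2 ^ (Sm - S)).toNat : ℕ) * 2 ^ (S + 1), ?_, ?_⟩
    · rw [hR, mem_biUnion]
      refine ⟨S, mem_range.2 (by omega), ?_⟩
      rw [mem_biUnion]
      refine ⟨p, mem_words hp, ?_⟩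
      rw [mem_image]
      refine ⟨(c % 2 ^ (Sm - S)).toNat, ?_, rfl⟩
      rw [mem_range]
      have : (((c % 2 ^ (Sm - S)).toNat : ℕ) : ℤ) < ((2 ^ (Sm - S) : ℕ) : ℤ) := by
        rw [Int.toNat_of_nonneg hc1]; push_cast; exact hc2
      exact_mod_cast this
    · rw [Int.toNat_of_nonneg hc1]
      push_cast
      apply Int.modEq_iff_dvd.2
      have e7 : c = c % 2 ^ (Sm - S) + 2 ^ (Sm - S) * (c / 2 ^ (Sm - S)) := (Int.emod_add_mul_ediv c _).symm
      have e8 : (2 : ℤ) ^ (Sm + 1) = 2 ^ (S + 1) * 2 ^ (Sm - S) := by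
        rw [← pow_add]; congr 1; omega
      have e9 : N = rep p + 2 ^ (S + 1) * c := by linear_combination hc
      refine ⟨-(c / 2 ^ (Sm - S)), ?_⟩
      rw [e8]
      linear_combination (-1 : ℤ) * e9 + (-(2 : ℤ) ^ (S + 1)) * e7
end Run7.h702.BC
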